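import Pool.Agent.BQF.LsP

set_option autoImplicit false

/-!
# Few bad conductors in `(2 ^ i, 2 ^ (i+1)]`

PROOF. Let `K` be the constant of `st_lsp`. Take `C'0 = 200 Λ + 1` and let `C' ≥ C'0`, `i` large,
`ρ = i ^ C'`, `M = C1 ρ²`, `R = 2 ^ (i+1)`. Let `k ≥ 1` be minimal with `4 ^ i ≤ M ^ k`, so
`M ^ k ≤ M 4 ^ i`, and `k ≤ i log 4 / log M + 1 ≤ i log 2 / (C' log i) + 1` (`M ≥ ρ² = i ^ (2 C')`), in
particular `k ≤ i`. `Z` is not empty (`ρ ^ 11 ≤ |Z| ^ 10`, `ρ ≥ 1`). `st_lsp` gives, `Q` = the set in the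
statement,
`|Q| ≤ K (M 4^i + 4 · 4^i) (100/81)^k k^(kΛ) 2^(kΛ) / |Z|^k`. And `|Z|^k ≥ ρ^(11k/10)`,
`ρ² = M / C1`, so `|Z|^k ≥ (M/C1)^(11k/20) ≥ (4^i)^(11/20) C1^(-k) = 2^(11 i/10) C1^(-k)`. Therefore
`|Q| ≤ 5 K M · 2^(9 i/10) · (C1 · 100/81 · 2^Λ)^k · k^(kΛ)`. Now
`k^(kΛ) ≤ i^(kΛ) = exp(k Λ log i) ≤ exp(Λ i log 2 / C' + Λ log i) ≤ 2^(i/200) i^Λ` (as `C' ≥ 200 Λ`),
`M = C1 i^(2C')`, and `(const)^k ≤ exp(const' (i/log i + 1)) ≤ 2^(i/1000)` for large `i`. So the right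
side is at most `2^(9i/10 + i/200 + i/1000) · (polynomial in i) ≤ 2^(19 i/20)` for large `i`.
(It is convenient to take logarithms: everything is `exp` of something that is
`≤ (0.9 + 0.005) i log 2 + O(i / log i) + O(log i)`.) If `Λ = 0` the same proof works.
-/

namespace Pool.Agent.BQF

theorem badn_ev (A B c1 δ : ℝ) (hδ : 0 < δ) : ∀ᶠ i : ℕ in Filter.atTop,
    A + B * Real.log i + c1 * ((i : ℝ) / Real.log i + 1) ≤ δ * i := by
  have t0 : Filter.Tendsto (fun i : ℕ => ((i : ℝ))⁻¹) Filter.atTop (nhds 0) :=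
    tendsto_inv_atTop_zero.comp tendsto_natCast_atTop_atTop
  have t1 : Filter.Tendsto (fun i : ℕ => Real.log i * ((i : ℝ))⁻¹) Filter.atTop (nhds 0) := by
    have := Real.isLittleO_log_id_atTop.tendsto_div_nhds_zero
    have h2 := this.comp (tendsto_natCast_atTop_atTop (R := ℝ))
    refine h2.congr ?_
    intro i
    simp [div_eq_mul_inv]
  have t2 : Filter.Tendsto (fun i : ℕ => (Real.log i)⁻¹) Filter.atTop (nhds 0) :=
    tendsto_inv_atTop_zero.comp (Real.tendsto_log_atTop.comp tendsto_natCast_atTop_atTop)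
  have t3 : Filter.Tendsto (fun i : ℕ => A * ((i : ℝ))⁻¹ + B * (Real.log i * ((i : ℝ))⁻¹) +
      c1 * ((Real.log i)⁻¹ + ((i : ℝ))⁻¹)) Filter.atTop (nhds 0) := by
    have := ((t0.const_mul A).add (t1.const_mul B)).add ((t2.add t0).const_mul c1)
    simpa using this
  have t4 := t3.eventually (gt_mem_nhds hδ)
  filter_upwards [t4, Filter.eventually_ge_atTop 1] with i hi h1
  have hi0 : (0 : ℝ) < i := by exact_mod_cast h1
  have := mul_le_mul_of_nonneg_right hi.le hi0.le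
  calc A + B * Real.log i + c1 * ((i : ℝ) / Real.log i + 1)
      = (A * ((i : ℝ))⁻¹ + B * (Real.log i * ((i : ℝ))⁻¹) +
      c1 * ((Real.log i)⁻¹ + ((i : ℝ))⁻¹)) * i := by
        rw [div_eq_mul_inv]; field_simp
    _ ≤ δ * i := this

open scoped Classical in
theorem st_bad (Λ C1 : ℕ) (hC1 : 1 ≤ C1) : ∃ C'0 : ℕ, ∀ C' : ℕ, C'0 ≤ C' → ∃ i0 : ℕ,
    ∀ i : ℕ, i0 ≤ i → ∀ (Z : Finset (ℤ × ℤ)) (B : ℤ × ℤ → ℕ) (ε : ℤ × ℤ → ℂ),
    (∀ z ∈ Z, 1 ≤ B z ∧ B z ≤ C1 * (i ^ C') ^ 2 ∧ ArithmeticFunction.cardFactors (B z) ≤ Λ) →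
    (∀ b : ℕ, (Z.filter (fun z => B z = b)).card ≤ 2 ^ Λ) → (∀ z ∈ Z, ‖ε z‖ ≤ 1) →
    (i ^ C') ^ 11 ≤ Z.card ^ 10 →
    (((Finset.Ioc (2 ^ i) (2 ^ (i + 1))).filter (fun r : ℕ =>
      ∃ χ : DirichletCharacter ℂ r, χ.IsPrimitive ∧
        9 / 10 * (Z.card : ℝ) ≤ ‖∑ z ∈ Z, ε z * χ (B z : ZMod r)‖)).card : ℝ) ≤
      (2 : ℝ) ^ ((19 / 20 : ℝ) * i) := by
  obtain ⟨K, hK, hlsp⟩ := st_lsp
  refine ⟨200 * Λ + 1, fun C' hC' => ?_⟩
  obtain ⟨c1, hc1⟩ : ∃ c1 : ℝ, c1 = Λ * Real.log 2 + Real.log (100 / 81) + 11 / 20 * Real.log C1 :=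
    ⟨_, rfl⟩
  have l2 : 0 < Real.log 2 := Real.log_pos (by norm_num)
  have hev := badn_ev (Real.log K + Real.log 5 + Real.log C1) (2 * C' + Λ) c1
    (9 / 200 * Real.log 2) (by positivity)
  obtain ⟨i1, hi1⟩ := Filter.eventually_atTop.1 hev
  refine ⟨max i1 4, fun i hi Z B ε hB hfib hε hZ => ?_⟩
  have hi4 : 4 ≤ i := (le_max_right _ _).trans hi
  have hev' := hi1 i ((le_max_left _ _).trans hi)
  clear hi1 hev
  obtain ⟨Q, hQ⟩ : ∃ Q, Q = (Finset.Ioc (2 ^ i) (2 ^ (i + 1))).filter (fun r : ℕ =>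
      ∃ χ : DirichletCharacter ℂ r, χ.IsPrimitive ∧
        9 / 10 * (Z.card : ℝ) ≤ ‖∑ z ∈ Z, ε z * χ (B z : ZMod r)‖) := ⟨_, rfl⟩
  rw [← hQ]
  have hi0 : (0 : ℝ) < i := by exact_mod_cast (by omega : 0 < i)
  have hi4' : (4 : ℝ) ≤ i := by exact_mod_cast hi4
  have hC1' : (1 : ℝ) ≤ C1 := by exact_mod_cast hC1
  have hlC1 : 0 ≤ Real.log C1 := Real.log_nonneg hC1'
  have hL : 1 ≤ Real.log i := by
    rw [Real.le_log_iff_exp_le hi0]
    have := Real.exp_one_lt_d9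
    linarith
  obtain ⟨L, hLd⟩ : ∃ L, L = Real.log i := ⟨_, rfl⟩
  rw [← hLd] at hL hev'
  have hCr : (1 : ℝ) ≤ C' := by exact_mod_cast (by omega : 1 ≤ C')
  have hCL : 200 * (Λ : ℝ) ≤ C' := by exact_mod_cast (by omega : 200 * Λ ≤ C')
  have hc1' : 0 ≤ c1 := by
    rw [hc1]
    have : 0 ≤ Real.log (100 / 81) := Real.log_nonneg (by norm_num)
    positivity
  -- the parameter M
  obtain ⟨M, hM⟩ : ∃ M, M = C1 * (i ^ C') ^ 2 := ⟨_, rfl⟩
  rw [← hM] at hB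
  have hρ1 : 1 ≤ i ^ C' := Nat.one_le_pow _ _ (by omega)
  have hρ4 : 4 ≤ i ^ C' := by
    calc 4 ≤ i := hi4
      _ = i ^ 1 := (pow_one i).symm
      _ ≤ i ^ C' := Nat.pow_le_pow_right (by omega) (by omega)
  have hM2 : 2 ≤ M := by
    rw [hM]; nlinarith
  have hMr : (2 : ℝ) ≤ M := by exact_mod_cast hM2
  have hlM : Real.log M = Real.log C1 + 2 * (C' * L) := by
    rw [hM]; push_cast
    rw [Real.log_mul (by positivity) (by positivity), Real.log_pow, Real.log_pow, hLd]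
    push_cast; ring
  -- the exponent k
  have hex : ∃ k : ℕ, 4 ^ i ≤ M ^ k := by
    refine ⟨2 * i, ?_⟩
    calc 4 ^ i = 2 ^ (2 * i) := by rw [pow_mul]; norm_num
      _ ≤ M ^ (2 * i) := Nat.pow_le_pow_left hM2 _
  obtain ⟨k, hk1, hk2⟩ : ∃ k : ℕ, 4 ^ i ≤ M ^ (k + 1) ∧ M ^ k < 4 ^ i := by
    have h0 : Nat.find hex ≠ 0 := by
      intro h0
      have := Nat.find_spec hex
      rw [h0, pow_zero] at this
      have : 4 ^ 1 ≤ 4 ^ i := Nat.pow_le_pow_right (by norm_num) (by omega)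
      omega
    obtain ⟨k, hk⟩ := Nat.exists_eq_succ_of_ne_zero h0
    refine ⟨k, ?_, ?_⟩
    · have := Nat.find_spec hex
      rwa [hk] at this
    · have := Nat.find_min hex (m := k) (by omega)
      omega
  have hk1r : ((4 : ℝ) ^ i) ≤ (M : ℝ) ^ (k + 1) := by exact_mod_cast hk1
  have hk2r : (M : ℝ) ^ k ≤ (4 : ℝ) ^ i := by exact_mod_cast hk2.le
  have l4 : Real.log 4 = 2 * Real.log 2 := by
    rw [show (4 : ℝ) = 2 ^ 2 by norm_num, Real.log_pow]; push_cast; ring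
  have hM0 : (0 : ℝ) < M := by linarith
  have e1 : 2 * (i * Real.log 2) ≤ ((k : ℝ) + 1) * Real.log M := by
    have := Real.log_le_log (by positivity) hk1r
    rw [Real.log_pow, Real.log_pow, l4] at this
    push_cast at this
    linarith
  have e2 : (k : ℝ) * Real.log M ≤ 2 * (i * Real.log 2) := by
    have := Real.log_le_log (by positivity) hk2r
    rw [Real.log_pow, Real.log_pow, l4] at this
    linarith
  have hk0 : (0 : ℝ) ≤ k := by positivity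
  have hCLp : (0 : ℝ) < C' * L := by positivity
  have e3 : (k : ℝ) * (C' * L) ≤ i * Real.log 2 := by
    rw [hlM] at e2
    have : 0 ≤ (k : ℝ) * Real.log C1 := by positivity
    nlinarith
  have hl2 : Real.log 2 < 7 / 10 := by
    have := Real.log_two_lt_d9; linarith
  have e4 : (k : ℝ) * L ≤ i * Real.log 2 := by
    have : (k : ℝ) * L ≤ (k : ℝ) * (C' * L) := by
      apply mul_le_mul_of_nonneg_left _ hk0
      nlinarith
    linarith
  have e5 : (k : ℝ) ≤ i * Real.log 2 := by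
    have : (k : ℝ) ≤ (k : ℝ) * L := by nlinarith
    linarith
  have e6 : (k : ℝ) + 1 ≤ i := by nlinarith
  have e7 : (k : ℝ) ≤ i / L := by
    rw [le_div_iff₀ (by linarith)]
    nlinarith
  -- the large sieve
  have hZne : Z.Nonempty := by
    rw [Finset.nonempty_iff_ne_empty]
    intro h0
    rw [h0, Finset.card_empty] at hZ
    have : 1 ≤ (i ^ C') ^ 11 := Nat.one_le_pow _ _ hρ1
    norm_num at hZ
    omega
  have hQr : ∀ r ∈ Q, 1 ≤ r ∧ r ≤ 2 ^ (i + 1) ∧ ∃ χ : DirichletCharacter ℂ r, χ.IsPrimitive ∧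
      9 / 10 * (Z.card : ℝ) ≤ ‖∑ z ∈ Z, ε z * χ (B z : ZMod r)‖ := by
    intro r hr
    rw [hQ, Finset.mem_filter, Finset.mem_Ioc] at hr
    exact ⟨by omega, hr.1.2, hr.2⟩
  have hls := hlsp Z B ε Λ (k + 1) (2 ^ (i + 1)) M (by omega) (Nat.one_le_pow _ _ (by norm_num))
    (by omega) hZne hB hfib hε Q hQr
  rcases Nat.eq_zero_or_pos Q.card with hQ0 | hQ0
  · rw [hQ0]; push_cast; positivity
  have hQ0r : (0 : ℝ) < Q.card := by exact_mod_cast hQ0
  have hZ0r : (0 : ℝ) < Z.card := by exact_mod_cast hZne.card_pos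
  have hR : ((M : ℝ) ^ (k + 1) + (((2 ^ (i + 1) : ℕ) : ℝ)) ^ 2) ≤ 5 * M * 4 ^ i := by
    have h1 : (M : ℝ) ^ (k + 1) ≤ M * 4 ^ i := by
      rw [pow_succ, mul_comm]
      exact mul_le_mul_of_nonneg_left hk2r hM0.le
    have h2 : (((2 ^ (i + 1) : ℕ) : ℝ)) ^ 2 = 4 * 4 ^ i := by
      push_cast
      rw [← pow_mul, mul_comm, pow_mul]; norm_num; ring
    have h3 : (4 : ℝ) ^ i ≤ M * 4 ^ i := by
      have : (0 : ℝ) < 4 ^ i := by positivity
      nlinarith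
    rw [h2]; linarith
  have hls2 : (Q.card : ℝ) * (81 / 100) ^ (k + 1) * (Z.card : ℝ) ^ (k + 1) ≤
      K * (5 * M * 4 ^ i) * (((k + 1 : ℕ) : ℝ) ^ ((k + 1) * Λ) * 2 ^ ((k + 1) * Λ)) := by
    refine hls.trans ?_
    apply mul_le_mul_of_nonneg_right _ (by positivity)
    exact mul_le_mul_of_nonneg_left hR hK.le
  have hkk : (0 : ℝ) < ((k + 1 : ℕ) : ℝ) := by positivity
  have hlog := Real.log_le_log (by positivity) hls2
  rw [Real.log_mul (by positivity) (by positivity), Real.log_mul (by positivity) (by positivity),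
    Real.log_pow, Real.log_pow, Real.log_mul (by positivity) (by positivity),
    Real.log_mul (by positivity) (by positivity), Real.log_mul (by positivity) (by positivity),
    Real.log_mul (by norm_num) (by positivity), Real.log_mul (by positivity) (by positivity),
    Real.log_pow, Real.log_pow, Real.log_pow, l4] at hlog
  have h81 : Real.log (81 / 100) = - Real.log (100 / 81) := by
    rw [← Real.log_inv]; norm_num
  rw [h81] at hlog
  have hlk : Real.log ((k + 1 : ℕ) : ℝ) ≤ L := by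
    rw [hLd]
    apply Real.log_le_log hkk
    push_cast; exact e6
  have hlk0 : 0 ≤ Real.log ((k + 1 : ℕ) : ℝ) := Real.log_nonneg (by push_cast; linarith)
  have hlZ : 11 * (C' * L) ≤ 10 * Real.log Z.card := by
    have h1 : (((i : ℝ) ^ C') ^ 11) ≤ (Z.card : ℝ) ^ 10 := by exact_mod_cast hZ
    have := Real.log_le_log (by positivity) h1
    rw [Real.log_pow, Real.log_pow, Real.log_pow, ← hLd] at this
    push_cast at this
    exact this
  push_cast at hlog hlk hlk0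
  obtain ⟨lk, hlkd⟩ : ∃ x, x = Real.log ((k : ℝ) + 1) := ⟨_, rfl⟩
  rw [← hlkd] at hlog hlk hlk0
  obtain ⟨lZ, hlZd⟩ : ∃ x, x = Real.log (Z.card : ℝ) := ⟨_, rfl⟩
  rw [← hlZd] at hlog hlZ
  obtain ⟨l1, hl1⟩ : ∃ x, x = Real.log (100 / 81 : ℝ) := ⟨_, rfl⟩
  rw [← hl1] at hlog hc1
  have hlC : ((k : ℝ) + 1) * (11 * (C' * L)) ≤ ((k : ℝ) + 1) * (10 * lZ) :=
    mul_le_mul_of_nonneg_left hlZ (by positivity)
  rw [hlM] at hlog e1
  have e8 : ((k : ℝ) + 1) * Λ * lk ≤ i * Real.log 2 / 200 + Λ * L := by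
    have h1 : ((k : ℝ) + 1) * Λ * lk ≤ ((k : ℝ) + 1) * Λ * L :=
      mul_le_mul_of_nonneg_left hlk (by positivity)
    have h2 : (k : ℝ) * (200 * (Λ : ℝ)) * L ≤ (k : ℝ) * C' * L := by
      apply mul_le_mul_of_nonneg_right _ (by linarith)
      exact mul_le_mul_of_nonneg_left hCL hk0
    nlinarith
  have e9 : ((k : ℝ) + 1) * c1 ≤ c1 * ((i : ℝ) / L + 1) := by
    rw [mul_comm]
    exact mul_le_mul_of_nonneg_left (by linarith) hc1'
  have fin : Real.log Q.card ≤ 19 / 20 * i * Real.log 2 := by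
    have e10 : ((k : ℝ) + 1) * c1 = ((k : ℝ) + 1) * Λ * Real.log 2 + ((k : ℝ) + 1) * l1 +
        11 / 20 * (((k : ℝ) + 1) * Real.log C1) := by
      rw [hc1]; ring
    have e11 : 11 / 20 * (2 * (i * Real.log 2)) ≤
        11 / 20 * (((k : ℝ) + 1) * Real.log C1) + 11 / 10 * (((k : ℝ) + 1) * (C' * L)) := by
      linarith
    have e12 : 11 / 10 * (((k : ℝ) + 1) * (C' * L)) ≤ ((k : ℝ) + 1) * lZ := by linarith
    nlinarith
  have : Real.log Q.card ≤ Real.log ((2 : ℝ) ^ ((19 / 20 : ℝ) * i)) := by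
    rw [Real.log_rpow (by norm_num)]
    exact fin
  exact (Real.log_le_log_iff hQ0r (by positivity)).1 this

end Pool.Agent.BQF
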