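import Pool.Agent.BQF.Defs

set_option autoImplicit false

/-!
# Binary quadratic forms, counts in residue classes, a numerical lemma

PROOF of `num_scale`: `X' = X / κ ≥ X/(2κ)` for `X ≥ κ`, `log X' ≤ log X` (`log X' ≥ 0`, in fact `> 0` for
`X ≥ 2 κ`), so `X'^2/(log X')^A ≥ X²/(4 κ² (log X)^A) ≥ X²/(log X)^(A+1)` as soon as `log X ≥ 4 κ²`.

PROOF of `num_two`: for large `X`, `2/log X ≤ 1/2`, so it suffices that `D X ≤ X²/(2 (log X)^A)`, i.e.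
`2 D (log X)^A ≤ X`, true for large `X` (`Real.isLittleO_pow_log_id_atTop`).
-/

namespace Pool.Agent.BQF

/-- the form `a u² + b u v + c v²` -/
def qf (a b c : ℤ) (v : ℤ × ℤ) : ℤ := a * v.1 ^ 2 + b * v.1 * v.2 + c * v.2 ^ 2

open scoped Classical in
/-- number of the `(u, v) = (r, s) mod N`, `|u|, |v| ≤ X`, with `g (u, v) = e` -/
noncomputable def cnt (g : ℤ × ℤ → ℤ) (N : ℕ) (r s e : ℤ) (X : ℕ) : ℕ :=
  ((box X).filter (fun v => (N : ℤ) ∣ v.1 - r ∧ (N : ℤ) ∣ v.2 - s ∧ g v = e)).card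

/-- `cnt` is at least `X² / (log X)^A` for all large `X` -/
def Many (g : ℤ × ℤ → ℤ) (N : ℕ) (r s e : ℤ) : Prop :=
  ∃ A X0 : ℕ, ∀ X : ℕ, X0 ≤ X → (X : ℝ) ^ 2 / Real.log X ^ A ≤ (cnt g N r s e X : ℝ)

theorem num_scale (κ A : ℕ) (hκ : 0 < κ) : ∃ X1 : ℕ, ∀ X : ℕ, X1 ≤ X →
    (X : ℝ) ^ 2 / Real.log X ^ (A + 1) ≤
      (((X / κ : ℕ) : ℝ)) ^ 2 / Real.log ((X / κ : ℕ) : ℝ) ^ A := by
  refine ⟨max (2 * κ) ⌈Real.exp (4 * (κ : ℝ) ^ 2)⌉₊, fun X hX => ?_⟩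
  have hX1 : 2 * κ ≤ X := (le_max_left _ _).trans hX
  have hX2 : Real.exp (4 * (κ : ℝ) ^ 2) ≤ X :=
    (Nat.le_ceil _).trans (by exact_mod_cast (le_max_right _ _).trans hX)
  have hκ0 : (0 : ℝ) < κ := by exact_mod_cast hκ
  have hX0 : (0 : ℝ) < X := (Real.exp_pos _).trans_le hX2
  have hl : 4 * (κ : ℝ) ^ 2 ≤ Real.log X := by
    rw [Real.le_log_iff_exp_le hX0]; exact hX2
  have hy2 : 2 ≤ X / κ := (Nat.le_div_iff_mul_le hκ).2 hX1
  have hyX : X / κ ≤ X := Nat.div_le_self _ _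
  have hy3 : X < κ * (X / κ + 1) := by
    have h1 := Nat.div_add_mod X κ
    have h2 := Nat.mod_lt X hκ
    rw [mul_add, mul_one]
    omega
  obtain ⟨y, hy⟩ : ∃ y : ℝ, y = ((X / κ : ℕ) : ℝ) := ⟨_, rfl⟩
  rw [← hy]
  have hy2' : (2 : ℝ) ≤ y := by rw [hy]; exact_mod_cast hy2
  have hyX' : y ≤ X := by rw [hy]; exact_mod_cast hyX
  have hy3' : (X : ℝ) < κ * (y + 1) := by rw [hy]; exact_mod_cast hy3
  have hly : 0 < Real.log y := Real.log_pos (by linarith)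
  have hlyX : Real.log y ≤ Real.log X := Real.log_le_log (by linarith) hyX'
  have hlX : 0 < Real.log X := hly.trans_le hlyX
  have hxy : (X : ℝ) ≤ 2 * κ * y := by nlinarith
  have hxy2 : (X : ℝ) ^ 2 ≤ 4 * (κ : ℝ) ^ 2 * y ^ 2 := by
    calc (X : ℝ) ^ 2 ≤ (2 * κ * y) ^ 2 := pow_le_pow_left₀ hX0.le hxy 2
      _ = _ := by ring
  have h1 : (X : ℝ) ^ 2 / Real.log X ^ (A + 1) ≤ y ^ 2 / Real.log X ^ A := by
    rw [div_le_div_iff₀ (by positivity) (by positivity), pow_succ]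
    have h2 : (X : ℝ) ^ 2 ≤ y ^ 2 * Real.log X := by
      calc (X : ℝ) ^ 2 ≤ 4 * (κ : ℝ) ^ 2 * y ^ 2 := hxy2
        _ ≤ Real.log X * y ^ 2 := mul_le_mul_of_nonneg_right hl (by positivity)
        _ = _ := mul_comm _ _
    calc (X : ℝ) ^ 2 * Real.log X ^ A ≤ (y ^ 2 * Real.log X) * Real.log X ^ A :=
          mul_le_mul_of_nonneg_right h2 (by positivity)
      _ = _ := by ring
  refine h1.trans ?_
  apply div_le_div_of_nonneg_left (by positivity) (by positivity)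
  exact pow_le_pow_left₀ hly.le hlyX A

theorem num_two (A D : ℕ) : ∃ X1 : ℕ, ∀ X : ℕ, X1 ≤ X →
    2 * ((X : ℝ) ^ 2 / Real.log X ^ (A + 1)) + D * X ≤ (X : ℝ) ^ 2 / Real.log X ^ A := by
  have h1 := (Real.isLittleO_pow_log_id_atTop (n := A)).bound
    (show (0 : ℝ) < 1 / (2 * D + 1) by positivity)
  have h2 := (tendsto_natCast_atTop_atTop (R := ℝ)).eventually h1
  obtain ⟨X2, hX2⟩ := Filter.eventually_atTop.1 h2
  refine ⟨max X2 ⌈Real.exp 4⌉₊, fun X hX => ?_⟩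
  have h3 := hX2 X ((le_max_left _ _).trans hX)
  have hX3 : Real.exp 4 ≤ X :=
    (Nat.le_ceil _).trans (by exact_mod_cast (le_max_right _ _).trans hX)
  have hX0 : (0 : ℝ) < X := (Real.exp_pos _).trans_le hX3
  have hl : 4 ≤ Real.log X := by
    rw [Real.le_log_iff_exp_le hX0]; exact hX3
  have hl0 : 0 < Real.log X := by linarith
  rw [Real.norm_of_nonneg (by positivity), id, Real.norm_of_nonneg hX0.le] at h3
  have h4 : Real.log X ^ A * (2 * D + 1) ≤ X := by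
    rw [div_mul_eq_mul_div, one_mul, le_div_iff₀ (by positivity)] at h3
    exact h3
  have hp : 0 < Real.log X ^ A := by positivity
  have h5 : 2 * ((X : ℝ) ^ 2 / Real.log X ^ (A + 1)) ≤ 1 / 2 * ((X : ℝ) ^ 2 / Real.log X ^ A) := by
    rw [pow_succ (Real.log (X : ℝ)) A]
    have e : (X : ℝ) ^ 2 / (Real.log X ^ A * Real.log X) =
        (X : ℝ) ^ 2 / Real.log X ^ A * (1 / Real.log X) := by
      field_simp
    rw [e]
    have h6 : 1 / Real.log X ≤ 1 / 4 := one_div_le_one_div_of_le (by norm_num) hl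
    have h7 : 0 ≤ (X : ℝ) ^ 2 / Real.log X ^ A := by positivity
    nlinarith
  have h6 : (D : ℝ) * X ≤ 1 / 2 * ((X : ℝ) ^ 2 / Real.log X ^ A) := by
    rw [← mul_div_assoc, le_div_iff₀ hp]
    have h7 : 2 * (D : ℝ) * Real.log X ^ A ≤ X := by nlinarith
    nlinarith
  linarith

/-- Transfer: if `T` is injective, maps the box `X / κ` into the box `X`, the class `(r', s')` modulo
`N'` into the class `(r, s)` modulo `N`, and `g' v = e'` implies `g (T v) = e`. -/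
theorem Many_transfer {g g' : ℤ × ℤ → ℤ} {N N' : ℕ} {r s e r' s' e' : ℤ} (T : ℤ × ℤ → ℤ × ℤ)
    (κ : ℕ) (hκ : 0 < κ) (h : Many g' N' r' s' e')
    (hinj : ∀ v w : ℤ × ℤ, (N' : ℤ) ∣ v.1 - r' → (N' : ℤ) ∣ v.2 - s' → (N' : ℤ) ∣ w.1 - r' →
      (N' : ℤ) ∣ w.2 - s' → T v = T w → v = w)
    (hbox : ∀ (v : ℤ × ℤ) (Y : ℤ), (N' : ℤ) ∣ v.1 - r' → (N' : ℤ) ∣ v.2 - s' →
      |v.1| ≤ Y → |v.2| ≤ Y → |(T v).1| ≤ κ * Y ∧ |(T v).2| ≤ κ * Y)
    (hcls : ∀ v : ℤ × ℤ, (N' : ℤ) ∣ v.1 - r' → (N' : ℤ) ∣ v.2 - s' →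
      (N : ℤ) ∣ (T v).1 - r ∧ (N : ℤ) ∣ (T v).2 - s)
    (hg : ∀ v : ℤ × ℤ, (N' : ℤ) ∣ v.1 - r' → (N' : ℤ) ∣ v.2 - s' → g' v = e' → g (T v) = e) :
    Many g N r s e := by
  obtain ⟨A, X0, hA⟩ := h
  obtain ⟨X1, hX1⟩ := num_scale κ A hκ
  refine ⟨A + 1, max X1 (κ * (X0 + 1)), fun X hX => ?_⟩
  have h1 := hX1 X ((le_max_left _ _).trans hX)
  have hY : X0 ≤ X / κ := by
    rw [Nat.le_div_iff_mul_le hκ]
    have h2 := (le_max_right X1 (κ * (X0 + 1))).trans hX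
    rw [mul_add, mul_one] at h2
    rw [mul_comm]
    omega
  have h2 := hA (X / κ) hY
  refine h1.trans (h2.trans ?_)
  have h3 : cnt g' N' r' s' e' (X / κ) ≤ cnt g N r s e X := by
    unfold cnt
    have hmem : ∀ v : ℤ × ℤ, v ∈ box (X / κ) → |v.1| ≤ ((X / κ : ℕ) : ℤ) ∧
        |v.2| ≤ ((X / κ : ℕ) : ℤ) := by
      intro v hv
      unfold box at hv
      rw [Finset.mem_product, Finset.mem_Icc, Finset.mem_Icc] at hv
      exact ⟨abs_le.2 hv.1, abs_le.2 hv.2⟩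
    refine Finset.card_le_card_of_injOn T ?_ ?_
    · intro v hv
      obtain ⟨hb, c1, c2, c3⟩ := Finset.mem_filter.1 hv
      obtain ⟨b1, b2⟩ := hmem v hb
      obtain ⟨t1, t2⟩ := hbox v _ c1 c2 b1 b2
      obtain ⟨k1, k2⟩ := hcls v c1 c2
      have hle : (κ : ℤ) * ((X / κ : ℕ) : ℤ) ≤ X := by exact_mod_cast Nat.mul_div_le X κ
      refine Finset.mem_filter.2 ⟨?_, k1, k2, hg v c1 c2 c3⟩
      unfold box
      rw [Finset.mem_product, Finset.mem_Icc, Finset.mem_Icc]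
      exact ⟨abs_le.1 (t1.trans hle), abs_le.1 (t2.trans hle)⟩
    · intro v hv w hw hvw
      obtain ⟨-, c1, c2, -⟩ := Finset.mem_filter.1 hv
      obtain ⟨-, d1, d2, -⟩ := Finset.mem_filter.1 hw
      exact hinj v w c1 c2 d1 d2 hvw
  exact_mod_cast h3

end Pool.Agent.BQF
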