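import Pool.Agent.BQF.Defs

set_option autoImplicit false

/-!
# The contradiction for one modulus

PROOF. Let `r = χ.conductor`, `r ∣ w` (`DirichletCharacter.conductor_dvd_level`),
`χ0 = χ.primitiveCharacter : DirichletCharacter ℂ r` (primitive,
`DirichletCharacter.primitiveCharacter_isPrimitive`), and `χ = changeLevel χ0`
(`DirichletCharacter.changeLevel_primitiveCharacter` or `factorsThrough`), so `χ a = χ0 a` for all
integers `a` prime to `w` (`DirichletCharacter.changeLevel_eq_cast_of_dvd`).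
If `r = 1` then `χ a = 1` for `a` prime to `w` and the element `z` of `hm` gives
`99/100 ≤ Re (-1)`, a contradiction. So `r > 1`, `r` has a prime factor `p`, `p ∣ w`, so
`2 ^ i0 < p ≤ r`. Let `i` be such that `2 ^ i < r ≤ 2 ^ (i+1)` (`i = Nat.log 2 (r - 1)`); `i ≥ i0` and
`2 ^ i ≤ w`. Let `Z = Zf i`, `n = |Z| > 0`, `σ` the sign of `hsg`: `A z = σ |A z|` for `z ∈ Z`, so
`χ0 (A z) = χ0 σ χ0 (|A z|)` and `|χ0 σ| = 1`. So
`‖∑ lam (A z) χ0 |A z|‖ = ‖∑ lam (A z) χ0 (A z)‖ ≥ Re ∑ lam (A z) χ0 (A z)`. For the `z` with `|A z|`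
prime to `w` (at least `99 n/100` by `hE3`) the term has real part `≥ 99/100` (`hZ`), the other terms
(at most `n/100`) have norm `≤ 1`. So the sum has real part `≥ (99/100)² n - n/100 ≥ 9/10 n`,
contradicting `hE2` (`DirichletCharacter.norm_le_one`).
-/

namespace Pool.Agent.BQF

theorem st_contra (w : ℕ) (hw : 0 < w) (i0 : ℕ) (χ : DirichletCharacter ℂ w)
    (A : ℤ × ℤ → ℤ) (Zf : ℕ → Finset (ℤ × ℤ))
    (hpr : ∀ p : ℕ, p.Prime → p ∣ w → 2 ^ i0 < p)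
    (hm : ∃ z : ℤ × ℤ, IsCoprime (A z) (w : ℤ) ∧ lam (A z) = -1 ∧
      (99 / 100 : ℝ) ≤ ((lam (A z) : ℂ) * χ ((A z : ℤ) : ZMod w)).re)
    (hZ : ∀ i, i0 ≤ i → 2 ^ i ≤ w → ∀ z ∈ Zf i, IsCoprime (A z) (w : ℤ) →
      (99 / 100 : ℝ) ≤ ((lam (A z) : ℂ) * χ ((A z : ℤ) : ZMod w)).re)
    (hsg : ∀ i, i0 ≤ i → ∃ σ : ℤ, (σ = 1 ∨ σ = -1) ∧ ∀ z ∈ Zf i, 0 < σ * A z)
    (hne : ∀ i, i0 ≤ i → (Zf i).Nonempty)
    (hE3 : ∀ i, i0 ≤ i → 2 ^ i ≤ w →
      100 * ((Zf i).filter (fun z => ¬ Nat.Coprime (A z).natAbs w)).card ≤ (Zf i).card)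
    (hE2 : ∀ i, i0 ≤ i → ∀ r : ℕ, 2 ^ i < r → r ≤ 2 ^ (i + 1) → r ∣ w →
      ∀ χ0 : DirichletCharacter ℂ r, χ0.IsPrimitive →
        ‖∑ z ∈ Zf i, (lam (A z) : ℂ) * χ0 (((A z).natAbs : ℕ) : ZMod r)‖ <
          9 / 10 * ((Zf i).card : ℝ)) : False := by
  have : NeZero w := ⟨hw.ne'⟩
  have hcop : ∀ a : ℤ, Nat.Coprime a.natAbs w ↔ IsCoprime a (w : ℤ) := by
    intro a
    rw [Int.isCoprime_iff_gcd_eq_one, Int.gcd_eq_natAbs_gcd_natAbs, Int.natAbs_natCast]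
  obtain ⟨r, χ0, hrw, hr0, hχ, hprim, hr1⟩ : ∃ r : ℕ, ∃ χ0 : DirichletCharacter ℂ r, r ∣ w ∧ r ≠ 0 ∧
      (∀ a : ℤ, IsCoprime a (w : ℤ) → χ ((a : ℤ) : ZMod w) = χ0 ((a : ℤ) : ZMod r)) ∧
      χ0.IsPrimitive ∧ r ≠ 1 := by
    refine ⟨χ.conductor, χ.primitiveCharacter, χ.conductor_dvd_level, χ.conductor_ne_zero,
      fun a ha => (χ.primitiveCharacter_apply_of_isCoprime ha).symm,
      χ.primitiveCharacter_isPrimitive, ?_⟩
    intro h1
    have h2 : χ = 1 := DirichletCharacter.eq_one_iff_conductor_eq_one.2 h1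
    obtain ⟨z, hz, hlam, hre⟩ := hm
    have hu : IsUnit (((A z : ℤ)) : ZMod w) := by
      obtain ⟨x, y, hxy⟩ := hz
      have h3 : ((x * A z + y * (w : ℤ) : ℤ) : ZMod w) = 1 := by rw [hxy]; simp
      push_cast at h3
      rw [ZMod.natCast_self, mul_zero, add_zero] at h3
      exact IsUnit.of_mul_eq_one _ (by rw [mul_comm]; exact h3)
    rw [h2, hlam, MulChar.one_apply hu] at hre
    norm_num at hre
  obtain ⟨p, hp, hpr'⟩ := Nat.exists_prime_and_dvd hr1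
  have hpi : 2 ^ i0 < p := hpr p hp (hpr'.trans hrw)
  have hple : p ≤ r := Nat.le_of_dvd (Nat.pos_of_ne_zero hr0) hpr'
  have hrle : r ≤ w := Nat.le_of_dvd hw hrw
  have : NeZero r := ⟨hr0⟩
  set i := Nat.log 2 (r - 1) with hi
  have hi0 : i0 ≤ i := Nat.le_log_of_pow_le (by norm_num) (by omega)
  have hi1 : 2 ^ i ≤ r - 1 := Nat.pow_log_le_self 2 (by have := Nat.one_le_two_pow (n := i0); omega)
  have hi2 : r - 1 < 2 ^ (i + 1) := Nat.lt_pow_succ_log_self (by norm_num) _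
  have hiw : 2 ^ i ≤ w := by omega
  have hpos1 := Nat.one_le_two_pow (n := i)
  have H := hE2 i hi0 r (by omega) (by omega) hrw χ0 hprim
  obtain ⟨σ, hσ, hσA⟩ := hsg i hi0
  have habs : ∀ z ∈ Zf i, (((A z).natAbs : ℕ) : ZMod r) = ((σ : ℤ) : ZMod r) * ((A z : ℤ) : ZMod r) := by
    intro z hz
    have h1 := hσA z hz
    have h2 : (((A z).natAbs : ℕ) : ℤ) = σ * A z := by
      rcases hσ with rfl | rfl
      · omega
      · omega
    have h3 := congrArg (fun x : ℤ => (x : ZMod r)) h2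
    simpa using h3
  have hsum : ∑ z ∈ Zf i, (lam (A z) : ℂ) * χ0 (((A z).natAbs : ℕ) : ZMod r) =
      χ0 ((σ : ℤ) : ZMod r) * ∑ z ∈ Zf i, (lam (A z) : ℂ) * χ0 ((A z : ℤ) : ZMod r) := by
    rw [Finset.mul_sum]
    apply Finset.sum_congr rfl
    intro z hz
    rw [habs z hz, map_mul]
    ring
  have hσu : ‖χ0 ((σ : ℤ) : ZMod r)‖ = 1 := by
    have hu : IsUnit ((σ : ℤ) : ZMod r) := by
      rcases hσ with rfl | rfl <;> simp
    obtain ⟨u, hu⟩ := hu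
    rw [← hu]
    exact DirichletCharacter.unit_norm_eq_one χ0 u
  rw [hsum, norm_mul, hσu, one_mul] at H
  have hre : (∑ z ∈ Zf i, (lam (A z) : ℂ) * χ0 ((A z : ℤ) : ZMod r)).re ≤
      ‖∑ z ∈ Zf i, (lam (A z) : ℂ) * χ0 ((A z : ℤ) : ZMod r)‖ := Complex.re_le_norm _
  rw [Complex.re_sum] at hre
  have hlow : ∑ z ∈ Zf i, ((99 / 100 : ℝ) - 199 / 100 *
      (if ¬ Nat.Coprime (A z).natAbs w then (1 : ℝ) else 0)) ≤
      ∑ z ∈ Zf i, ((lam (A z) : ℂ) * χ0 ((A z : ℤ) : ZMod r)).re := by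
    apply Finset.sum_le_sum
    intro z hz
    by_cases hc : Nat.Coprime (A z).natAbs w
    · have h1 := hZ i hi0 hiw z hz ((hcop _).1 hc)
      rw [hχ _ ((hcop _).1 hc)] at h1
      rw [if_neg (not_not.2 hc)]
      linarith
    · rw [if_pos hc]
      have hA0 : A z ≠ 0 := by
        intro h0
        have := hσA z hz
        rw [h0] at this
        simp at this
      have h2 : ‖(lam (A z) : ℂ) * χ0 ((A z : ℤ) : ZMod r)‖ ≤ 1 := by
        rw [norm_mul]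
        have h3 : ‖(lam (A z) : ℂ)‖ = 1 := by
          rcases lam_eq hA0 with h | h <;> rw [h] <;> simp
        rw [h3, one_mul]
        exact DirichletCharacter.norm_le_one χ0 _
      have h4 : -‖(lam (A z) : ℂ) * χ0 ((A z : ℤ) : ZMod r)‖ ≤
          ((lam (A z) : ℂ) * χ0 ((A z : ℤ) : ZMod r)).re :=
        (abs_le.1 (Complex.abs_re_le_norm _)).1
      linarith
  rw [Finset.sum_sub_distrib, ← Finset.mul_sum, Finset.sum_boole, Finset.sum_const,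
    nsmul_eq_mul] at hlow
  have hE := hE3 i hi0 hiw
  have hE' : 100 * (((Zf i).filter (fun z => ¬ Nat.Coprime (A z).natAbs w)).card : ℝ) ≤
      ((Zf i).card : ℝ) := by exact_mod_cast hE
  have hn : (0 : ℝ) < ((Zf i).card : ℝ) := by
    exact_mod_cast Finset.card_pos.2 (hne i hi0)
  linarith

end Pool.Agent.BQF
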