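import Pool.Agent.BQF.RedB

set_option autoImplicit false

/-!
# Two forms and an arbitrary function

PROOF. Let `A0, X0` work for both signs in `st_redB` (take maxima; for `log X ≥ 1` the bound
`X²/(log X)^A` decreases in `A`), and take `A = A0 + 1`, `X ≥` the bound of `num_two A0 0` too.
Suppose for some `g, X` both alternatives fail: there are signs `e1, e2` with
`cnt (lam (Q1) g) N r s e1 X < X²/(log X)^(A0+1)` and the same for `Q2, e2`. Every `v` in the class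
and the box with `lam (Q1 v * Q2 v) = - e1 e2` satisfies `lam (Q1 v) g v = e1` or
`lam (Q2 v) g v = e2`: otherwise (all values are `±1` since the product is not `0`)
`lam (Q1 v) g v = -e1`, `lam (Q2 v) g v = -e2`, and the product is `lam (Q1 v Q2 v) = e1 e2`. So
`X²/(log X)^A0 ≤ cnt (..) (-e1 e2) X < 2 X²/(log X)^(A0+1)`, contradicting `num_two`.
-/

namespace Pool.Agent.BQF

private theorem cor1_lam (x : ℤ) : lam x = 0 ∨ lam x = 1 ∨ lam x = -1 := by
  rcases eq_or_ne x 0 with rfl | hx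
  · left; simp [lam]
  · right; exact lam_eq hx

private theorem cor1_pt {x y γ e1 e2 : ℤ} (hγ : γ = 1 ∨ γ = -1) (h1 : e1 = 1 ∨ e1 = -1)
    (h2 : e2 = 1 ∨ e2 = -1) (h : lam (x * y) = -(e1 * e2)) :
    lam x * γ = e1 ∨ lam y * γ = e2 := by
  rw [lam_mul] at h
  rcases cor1_lam x with hx | hx | hx <;> rcases cor1_lam y with hy | hy | hy <;>
    rw [hx, hy] at h ⊢ <;> rcases hγ with rfl | rfl <;> rcases h1 with rfl | rfl <;>
    rcases h2 with rfl | rfl <;> omega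

theorem st_cor1 (H : MainStmt) (a1 b1 c1 a2 b2 c2 : ℤ) (h1 : ¬ IsSquare (b1 ^ 2 - 4 * a1 * c1))
    (h2 : ¬ IsSquare (b2 ^ 2 - 4 * a2 * c2))
    (hnp : ¬ (a1 * b2 = a2 * b1 ∧ a1 * c2 = a2 * c1 ∧ b1 * c2 = b2 * c1))
    (N : ℕ) (hN : 0 < N) (r s : ℤ) :
    ∃ A X0 : ℕ, ∀ g : ℤ × ℤ → ℤ, (∀ v, g v = 1 ∨ g v = -1) → ∀ X : ℕ, X0 ≤ X →
      (∀ e : ℤ, e = 1 ∨ e = -1 → (X : ℝ) ^ 2 / Real.log X ^ A ≤
        (cnt (fun v => lam (qf a1 b1 c1 v) * g v) N r s e X : ℝ)) ∨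
      (∀ e : ℤ, e = 1 ∨ e = -1 → (X : ℝ) ^ 2 / Real.log X ^ A ≤
        (cnt (fun v => lam (qf a2 b2 c2 v) * g v) N r s e X : ℝ)) := by
  obtain ⟨Ap, Xp, hp⟩ := st_redB H a1 b1 c1 a2 b2 c2 h1 h2 hnp N hN r s 1 (Or.inl rfl)
  obtain ⟨Am, Xm, hm⟩ := st_redB H a1 b1 c1 a2 b2 c2 h1 h2 hnp N hN r s (-1) (Or.inr rfl)
  obtain ⟨X1, hX1⟩ := num_two (max Ap Am) 0
  refine ⟨max Ap Am + 1, max (max Xp Xm) (max X1 3), ?_⟩
  intro g hg X hX
  have hXp : Xp ≤ X := le_trans (le_trans (le_max_left _ _) (le_max_left _ _)) hX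
  have hXm : Xm ≤ X := le_trans (le_trans (le_max_right _ _) (le_max_left _ _)) hX
  have hX1' : X1 ≤ X := le_trans (le_trans (le_max_left _ _) (le_max_right _ _)) hX
  have hX3 : 3 ≤ X := le_trans (le_trans (le_max_right _ _) (le_max_right _ _)) hX
  have hlog : 1 ≤ Real.log X := by
    have h3 : (3 : ℝ) ≤ X := by exact_mod_cast hX3
    rw [Real.le_log_iff_exp_le (by linarith)]
    have := Real.exp_one_lt_d9
    linarith
  have hall : ∀ e : ℤ, e = 1 ∨ e = -1 → (X : ℝ) ^ 2 / Real.log X ^ (max Ap Am) ≤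
      (cnt (fun v => lam (qf a1 b1 c1 v * qf a2 b2 c2 v)) N r s e X : ℝ) := by
    intro e he
    rcases he with rfl | rfl
    · refine le_trans ?_ (hp X hXp)
      apply div_le_div_of_nonneg_left (by positivity) (by positivity)
      exact pow_le_pow_right₀ hlog (le_max_left _ _)
    · refine le_trans ?_ (hm X hXm)
      apply div_le_div_of_nonneg_left (by positivity) (by positivity)
      exact pow_le_pow_right₀ hlog (le_max_right _ _)
  by_contra hcon
  rw [not_or] at hcon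
  obtain ⟨hc1, hc2⟩ := hcon
  push Not at hc1 hc2
  obtain ⟨e1, he1, hlt1⟩ := hc1
  obtain ⟨e2, he2, hlt2⟩ := hc2
  have he : -(e1 * e2) = 1 ∨ -(e1 * e2) = -1 := by
    rcases he1 with rfl | rfl <;> rcases he2 with rfl | rfl <;> norm_num
  have hsub : cnt (fun v => lam (qf a1 b1 c1 v * qf a2 b2 c2 v)) N r s (-(e1 * e2)) X ≤
      cnt (fun v => lam (qf a1 b1 c1 v) * g v) N r s e1 X +
        cnt (fun v => lam (qf a2 b2 c2 v) * g v) N r s e2 X := by
    classical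
    unfold cnt
    refine le_trans (Finset.card_le_card ?_) (Finset.card_union_le _ _)
    intro v hv
    rw [Finset.mem_filter] at hv
    rw [Finset.mem_union, Finset.mem_filter, Finset.mem_filter]
    rcases cor1_pt (hg v) he1 he2 hv.2.2.2 with h | h
    · exact Or.inl ⟨hv.1, hv.2.1, hv.2.2.1, h⟩
    · exact Or.inr ⟨hv.1, hv.2.1, hv.2.2.1, h⟩
  have hsub' : (cnt (fun v => lam (qf a1 b1 c1 v * qf a2 b2 c2 v)) N r s (-(e1 * e2)) X : ℝ) ≤
      (cnt (fun v => lam (qf a1 b1 c1 v) * g v) N r s e1 X : ℝ) +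
        (cnt (fun v => lam (qf a2 b2 c2 v) * g v) N r s e2 X : ℝ) := by exact_mod_cast hsub
  have h5 := hall _ he
  have h6 := hX1 X hX1'
  push_cast at h6
  linarith

end Pool.Agent.BQF
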