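import Pool.Agent.BQF.Cnt

set_option autoImplicit false

/-!
# Zeros of a polynomial in a box

PROOF. `MvPolynomial.schwartz_zippel_totalDegree` (file
`Mathlib/Algebra/MvPolynomial/SchwartzZippel.lean`) with `n = 2` and the set `Finset.Icc (-X) X` (of
cardinality `2 X + 1`): the number of zeros `x : Fin 2 → ℤ` with entries in the set is at most
`totalDegree * (2 X + 1)`; bijection `v ↦ ![v.1, v.2]`; `2 X + 1 ≤ 3 X` for `X ≥ 1`.
(Or directly: for all but `deg` values of `v.1` the polynomial in `v.2` is not zero.)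
-/

namespace Pool.Agent.BQF

theorem st_zer (P : MvPolynomial (Fin 2) ℤ) (hP : P ≠ 0) : ∃ D : ℕ, ∀ X : ℕ, 1 ≤ X →
    ((box X).filter (fun v => MvPolynomial.eval ![v.1, v.2] P = 0)).card ≤ D * X := by
  classical
  refine ⟨3 * P.totalDegree, fun X hX => ?_⟩
  obtain ⟨S, hS⟩ : ∃ S : Finset ℤ, S = Finset.Icc (-(X : ℤ)) X := ⟨_, rfl⟩
  have hSc : S.card = 2 * X + 1 := by
    rw [hS, Int.card_Icc]
    omega
  have h1 := MvPolynomial.schwartz_zippel_totalDegree hP S
  have hS0 : (0 : ℚ≥0) < (S.card : ℚ≥0) := by
    rw [hSc]; positivity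
  have h2 : ((((Fintype.piFinset fun _ : Fin 2 => S).filter
      (fun f => MvPolynomial.eval f P = 0)).card : ℕ) : ℚ≥0) ≤ P.totalDegree * S.card := by
    rw [div_le_div_iff₀ (by positivity) hS0] at h1
    have h3 : ((((Fintype.piFinset fun _ : Fin 2 => S).filter
      (fun f => MvPolynomial.eval f P = 0)).card : ℕ) : ℚ≥0) * S.card ≤
      (P.totalDegree * S.card) * S.card := by
      refine h1.trans (le_of_eq ?_)
      ring
    exact le_of_mul_le_mul_right h3 hS0
  have h3 : ((Fintype.piFinset fun _ : Fin 2 => S).filter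
      (fun f => MvPolynomial.eval f P = 0)).card ≤ P.totalDegree * S.card := by
    exact_mod_cast h2
  have h4 : ((box X).filter (fun v => MvPolynomial.eval ![v.1, v.2] P = 0)).card ≤
      ((Fintype.piFinset fun _ : Fin 2 => S).filter
        (fun f => MvPolynomial.eval f P = 0)).card := by
    refine Finset.card_le_card_of_injOn (fun v : ℤ × ℤ => ![v.1, v.2]) ?_ ?_
    · intro v hv
      have hv' := Finset.mem_filter.1 hv
      have hb := hv'.1
      unfold box at hb
      rw [Finset.mem_product] at hb
      refine Finset.mem_filter.2 ⟨?_, hv'.2⟩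
      rw [Fintype.mem_piFinset]
      intro i
      rw [hS]
      fin_cases i
      · exact hb.1
      · exact hb.2
    · intro v _ w _ h
      have e0 := congrFun h 0
      have e1 := congrFun h 1
      simp at e0 e1
      exact Prod.ext e0 e1
  refine h4.trans (h3.trans ?_)
  rw [hSc]
  calc P.totalDegree * (2 * X + 1) ≤ P.totalDegree * (3 * X) :=
        Nat.mul_le_mul_left _ (by omega)
    _ = 3 * P.totalDegree * X := by ring

end Pool.Agent.BQF
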