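import Pool.Agent.BQF.RedB
import Pool.Agent.BQF.Zer

set_option autoImplicit false

/-!
# Products of a quadratic form with a form that has one more symmetry

PROOF. Let `Q = qf a b c`, `Q' v = Q (S v) = qf a' b' c' v` with `a' = Q (S.a, S.c)`,
`c' = Q (S.b, S.d)`, `b' = 2 a S.a S.b + b (S.a S.d + S.b S.c) + 2 c S.c S.d`; its discriminant is
`det² (b² - 4 a c)`, not a square; `Q, Q'` are not proportional (if
`a b' = a' b, a c' = a' c, b c' = b' c`, then, as `a ≠ 0` (disc not a square), `Q' = (a'/a) Q`,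
contradicting `hQ`). Write `P v` for `eval ![v.1, v.2] P`. By `st_redB` (with `N = 1`, `r = s = 0`) the
number of `v` in the box `X'` with `lam (Q v * Q' v) = - lam κ` is at least `X'²/(log X')^A` for `X' ≥ X0`
(`lam κ = ±1`). For such a `v` with `P v ≠ 0`: `lam (Q v P v) * lam (Q (S v) P (S v))
= lam (Q v Q' v) lam (P v)² lam κ = -1`, so one of the two factors is `e`: `v` or `S v` is counted in
`cnt g 1 0 0 e X`, `g v = lam (Q v * P v)`, `X = t X'`, `t = 1 + |S.a| + |S.b| + |S.c| + |S.d|`. As `S` is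
injective (`M2.act_injective`): `X'²/(log X')^A ≤ D X' + 2 cnt g 1 0 0 e X` with `D` from `st_zer`. For
general `X` put `X' = X / t`. Use `num_two A (2 D)`-like bounds and `num_scale`:
`2 * (X'²/(log X')^(A+1)) + D X' ≤ X'²/(log X')^A`, hence `cnt ≥ X'²/(log X')^(A+1) ≥ X²/(log X)^(A+2)`.
-/

namespace Pool.Agent.BQF

/-- the coefficients of the transformed form -/
theorem cor2_qf (a b c : ℤ) (S : M2) (v : ℤ × ℤ) :
    qf a b c (S.act v) = qf (qf a b c (S.a, S.c))
      (2 * a * S.a * S.b + b * (S.a * S.d + S.b * S.c) + 2 * c * S.c * S.d)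
      (qf a b c (S.b, S.d)) v := by
  simp only [qf, M2.act]; ring

theorem cor2_disc (a b c : ℤ) (S : M2) :
    (2 * a * S.a * S.b + b * (S.a * S.d + S.b * S.c) + 2 * c * S.c * S.d) ^ 2 -
      4 * qf a b c (S.a, S.c) * qf a b c (S.b, S.d) = S.det ^ 2 * (b ^ 2 - 4 * a * c) := by
  simp only [qf, M2.det]; ring

theorem cor2_sq {n d : ℤ} (hd : d ≠ 0) (hn : ¬ IsSquare n) : ¬ IsSquare (d ^ 2 * n) := by
  rintro ⟨k, hk⟩
  apply hn
  have h4 : k ^ 2 = d ^ 2 * n := by linear_combination -hk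
  have hdv : d ^ 2 ∣ k ^ 2 := ⟨_, h4⟩
  rw [Int.pow_dvd_pow_iff two_ne_zero] at hdv
  obtain ⟨j, hj⟩ := hdv
  refine ⟨j, ?_⟩
  rw [hj] at h4
  have h5 : d ^ 2 * (j * j) = d ^ 2 * n := by linear_combination h4
  exact (mul_left_cancel₀ (pow_ne_zero 2 hd) h5).symm

theorem cor2_prop {a b c a' b' c' : ℤ} (ha : a ≠ 0)
    (h : a * b' = a' * b ∧ a * c' = a' * c ∧ b * c' = b' * c) (v : ℤ × ℤ) :
    (qf a' b' c' v : ℚ) = (a' : ℚ) / a * qf a b c v := by
  have ha' : (a : ℚ) ≠ 0 := by exact_mod_cast ha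
  have h1 : (a : ℚ) * b' = a' * b := by exact_mod_cast h.1
  have h2 : (a : ℚ) * c' = a' * c := by exact_mod_cast h.2.1
  rw [div_mul_eq_mul_div, eq_div_iff ha']
  simp only [qf]
  push_cast
  linear_combination (v.1 : ℚ) * v.2 * h1 + (v.2 : ℚ) ^ 2 * h2

theorem cor2_mem_box {X : ℕ} {v : ℤ × ℤ} : v ∈ box X ↔ |v.1| ≤ X ∧ |v.2| ≤ X := by
  simp only [box, Finset.mem_product, Finset.mem_Icc, abs_le]

theorem st_cor2 (H : MainStmt) (a b c : ℤ) (h : ¬ IsSquare (b ^ 2 - 4 * a * c)) (S : M2)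
    (hS : S.det ≠ 0) (hQ : ¬ ∃ t : ℚ, ∀ v : ℤ × ℤ, (qf a b c (S.act v) : ℚ) = t * qf a b c v)
    (P : MvPolynomial (Fin 2) ℤ) (hP : P ≠ 0) (κ : ℤ) (hκ : κ ≠ 0)
    (hPS : ∀ v : ℤ × ℤ, MvPolynomial.eval ![(S.act v).1, (S.act v).2] P =
      κ * MvPolynomial.eval ![v.1, v.2] P) (e : ℤ) (he : e = 1 ∨ e = -1) :
    Many (fun v => lam (qf a b c v * MvPolynomial.eval ![v.1, v.2] P)) 1 0 0 e := by
  classical
  obtain ⟨a', ha'⟩ : ∃ x, x = qf a b c (S.a, S.c) := ⟨_, rfl⟩
  obtain ⟨c', hc'⟩ : ∃ x, x = qf a b c (S.b, S.d) := ⟨_, rfl⟩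
  obtain ⟨b', hb'⟩ : ∃ x, x = 2 * a * S.a * S.b + b * (S.a * S.d + S.b * S.c) + 2 * c * S.c * S.d :=
    ⟨_, rfl⟩
  have hqf : ∀ v, qf a b c (S.act v) = qf a' b' c' v := by
    intro v; rw [ha', hb', hc']; exact cor2_qf a b c S v
  have hdisc : ¬ IsSquare (b' ^ 2 - 4 * a' * c') := by
    rw [ha', hb', hc', cor2_disc]
    exact cor2_sq hS h
  have ha0 : a ≠ 0 := by
    intro h0
    apply h
    rw [h0]
    exact ⟨b, by ring⟩
  have hnp : ¬ (a * b' = a' * b ∧ a * c' = a' * c ∧ b * c' = b' * c) := by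
    intro hp
    apply hQ
    refine ⟨(a' : ℚ) / a, fun v => ?_⟩
    rw [hqf]
    exact cor2_prop ha0 hp v
  have hκ1 := lam_eq hκ
  obtain ⟨A, X0, h0⟩ := st_redB H a b c a' b' c' h hdisc hnp 1 Nat.one_pos 0 0 (-lam κ)
    (by rcases hκ1 with h | h <;> rw [h] <;> norm_num)
  obtain ⟨D, hD⟩ := st_zer P hP
  obtain ⟨t, ht⟩ : ∃ t : ℕ, t = 1 + S.a.natAbs + S.b.natAbs + S.c.natAbs + S.d.natAbs := ⟨_, rfl⟩
  have ht0 : 0 < t := by omega
  obtain ⟨X1, hX1⟩ := num_two A D
  obtain ⟨X2, hX2⟩ := num_scale t (A + 1) ht0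
  refine ⟨A + 1 + 1, max X2 (t * (X0 + X1 + 1)), fun X hX => ?_⟩
  have hXt : X0 + X1 + 1 ≤ X / t := by
    rw [Nat.le_div_iff_mul_le ht0, mul_comm]
    exact (le_max_right _ _).trans hX
  obtain ⟨Y, hY⟩ : ∃ Y, Y = X / t := ⟨_, rfl⟩
  have hYX : t * Y ≤ X := by rw [hY]; exact Nat.mul_div_le X t
  have hYX' : Y ≤ X := by
    calc Y = 1 * Y := (one_mul Y).symm
      _ ≤ t * Y := Nat.mul_le_mul_right _ ht0
      _ ≤ X := hYX
  have h3 := hX2 X ((le_max_left _ _).trans hX)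
  rw [← hY] at h3 hXt
  refine h3.trans ?_
  have h4 := hX1 Y (by omega)
  have h5 := h0 Y (by omega)
  have h6 := hD Y (by omega)
  -- the combinatorial inequality
  obtain ⟨g, hg⟩ : ∃ g : ℤ × ℤ → ℤ, g = fun v => lam (qf a b c v *
    MvPolynomial.eval ![v.1, v.2] P) := ⟨_, rfl⟩
  rw [← hg]
  have key : cnt (fun v => lam (qf a b c v * qf a' b' c' v)) 1 0 0 (-lam κ) Y ≤
      D * Y + 2 * cnt g 1 0 0 e X := by
    have hsub : (box Y).filter (fun v => ((1 : ℕ) : ℤ) ∣ v.1 - 0 ∧ ((1 : ℕ) : ℤ) ∣ v.2 - 0 ∧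
        lam (qf a b c v * qf a' b' c' v) = -lam κ) ⊆
        ((box Y).filter (fun v => MvPolynomial.eval ![v.1, v.2] P = 0)) ∪
        (((box Y).filter (fun v => g v = e)) ∪ ((box Y).filter (fun v => g (S.act v) = e))) := by
      intro v hv
      rw [Finset.mem_filter] at hv
      obtain ⟨hvb, -, -, hv⟩ := hv
      rw [Finset.mem_union, Finset.mem_union, Finset.mem_filter, Finset.mem_filter,
        Finset.mem_filter]
      by_cases hP0 : MvPolynomial.eval ![v.1, v.2] P = 0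
      · exact Or.inl ⟨hvb, hP0⟩
      right
      have hprod : g v * g (S.act v) = -1 := by
        rw [hg]
        simp only
        rw [hPS v, hqf, lam_mul, lam_mul, lam_mul κ]
        rw [lam_mul] at hv
        have e1 := lam_mul_self hP0
        have e2 := lam_mul_self hκ
        linear_combination lam κ * lam (MvPolynomial.eval ![v.1, v.2] P) *
          lam (MvPolynomial.eval ![v.1, v.2] P) * hv - lam κ * lam κ * e1 - e2
      rcases Int.mul_eq_neg_one_iff_eq_one_or_neg_one.1 hprod with ⟨h1, h2⟩ | ⟨h1, h2⟩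
      · rcases he with he | he
        · exact Or.inl ⟨hvb, by rw [h1, he]⟩
        · exact Or.inr ⟨hvb, by rw [h2, he]⟩
      · rcases he with he | he
        · exact Or.inr ⟨hvb, by rw [h2, he]⟩
        · exact Or.inl ⟨hvb, by rw [h1, he]⟩
    have c1 : ((box Y).filter (fun v => g v = e)).card ≤ cnt g 1 0 0 e X := by
      unfold cnt
      apply Finset.card_le_card
      intro v hv
      rw [Finset.mem_filter] at hv ⊢
      refine ⟨?_, by simp, by simp, hv.2⟩
      have hb := cor2_mem_box.1 hv.1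
      have : (Y : ℤ) ≤ X := by exact_mod_cast hYX'
      exact cor2_mem_box.2 ⟨hb.1.trans this, hb.2.trans this⟩
    have c2 : ((box Y).filter (fun v => g (S.act v) = e)).card ≤ cnt g 1 0 0 e X := by
      unfold cnt
      apply Finset.card_le_card_of_injOn S.act
      · intro v hv
        rw [Finset.mem_coe, Finset.mem_filter] at hv
        rw [Finset.mem_coe, Finset.mem_filter]
        refine ⟨?_, by simp, by simp, hv.2⟩
        have hb := cor2_mem_box.1 hv.1
        have hX' : (t : ℤ) * Y ≤ X := by exact_mod_cast hYX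
        have ht' : (t : ℤ) = 1 + |S.a| + |S.b| + |S.c| + |S.d| := by
          rw [ht]; push_cast; rfl
        have hY0 : (0 : ℤ) ≤ Y := by positivity
        have key : ∀ x y : ℤ, |x| + |y| ≤ (t : ℤ) → |x * v.1 + y * v.2| ≤ (X : ℤ) := by
          intro x y hxy
          calc |x * v.1 + y * v.2| ≤ |x * v.1| + |y * v.2| := abs_add_le _ _
            _ = |x| * |v.1| + |y| * |v.2| := by rw [abs_mul, abs_mul]
            _ ≤ |x| * Y + |y| * Y := add_le_add
                (mul_le_mul_of_nonneg_left hb.1 (abs_nonneg _))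
                (mul_le_mul_of_nonneg_left hb.2 (abs_nonneg _))
            _ = (|x| + |y|) * Y := by ring
            _ ≤ t * Y := mul_le_mul_of_nonneg_right hxy hY0
            _ ≤ X := hX'
        have n1 := abs_nonneg S.a
        have n2 := abs_nonneg S.b
        have n3 := abs_nonneg S.c
        have n4 := abs_nonneg S.d
        refine cor2_mem_box.2 ⟨key _ _ (by rw [ht']; linarith), key _ _ (by rw [ht']; linarith)⟩
      · intro v _ w _ hvw
        exact M2.act_injective hS hvw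
    unfold cnt at c1 c2 ⊢
    refine (Finset.card_le_card hsub).trans ?_
    refine (Finset.card_union_le _ _).trans ?_
    refine (add_le_add h6 (Finset.card_union_le _ _)).trans ?_
    omega
  have key' : ((cnt (fun v => lam (qf a b c v * qf a' b' c' v)) 1 0 0 (-lam κ) Y : ℕ) : ℝ) ≤
      D * Y + 2 * (cnt g 1 0 0 e X : ℝ) := by exact_mod_cast key
  linarith

end Pool.Agent.BQF
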