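import Mathlib

set_option autoImplicit false

/-!
# Liouville's function at products of two binary quadratic forms: definitions

`N1 = x² + τ x y + ν y²`, `N2 = x² + D y²` (normal form of two irreducible, non proportional
binary quadratic forms), a class of vectors modulo `N`, and the calculus of matrices `M` under
which `F(v) = λ(N1(v))` is multiplicative up to a controlled set of exceptional vectors.
-/

namespace Pool.Agent.BQF

/-- Liouville's function of an integer (value `0` at `0`). -/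
def lam (n : ℤ) : ℤ := ArithmeticFunction.liouville n.natAbs

theorem lam_mul (a b : ℤ) : lam (a * b) = lam a * lam b := by
  unfold lam
  rw [Int.natAbs_mul]
  rcases eq_or_ne a 0 with rfl | ha
  · simp
  rcases eq_or_ne b 0 with rfl | hb
  · simp
  have ha' : a.natAbs ≠ 0 := Int.natAbs_ne_zero.2 ha
  have hb' : b.natAbs ≠ 0 := Int.natAbs_ne_zero.2 hb
  rw [ArithmeticFunction.liouville_apply (mul_ne_zero ha' hb'),
    ArithmeticFunction.liouville_apply ha', ArithmeticFunction.liouville_apply hb',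
    ArithmeticFunction.cardFactors_mul ha' hb', pow_add]

theorem lam_eq {a : ℤ} (h : a ≠ 0) : lam a = 1 ∨ lam a = -1 := by
  unfold lam
  rw [ArithmeticFunction.liouville_apply (Int.natAbs_ne_zero.2 h)]
  exact neg_one_pow_eq_or ℤ _

theorem lam_neg (a : ℤ) : lam (-a) = lam a := by
  unfold lam; rw [Int.natAbs_neg]

theorem lam_one : lam 1 = 1 := by
  unfold lam
  rw [Int.natAbs_one, ArithmeticFunction.liouville_apply one_ne_zero,
    ArithmeticFunction.cardFactors_one, pow_zero]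

theorem lam_mul_self {a : ℤ} (h : a ≠ 0) : lam a * lam a = 1 := by
  rcases lam_eq h with h | h <;> rw [h] <;> norm_num

theorem lam_sq {a : ℤ} (h : a ≠ 0) : lam (a ^ 2) = 1 := by
  rw [sq, lam_mul, lam_mul_self h]

theorem lam_ne_zero {a : ℤ} (h : a ≠ 0) : lam a ≠ 0 := by
  rcases lam_eq h with h | h <;> rw [h] <;> norm_num

/-- The data: `N1 = x² + τ x y + ν y²`, `N2 = x² + D y²`, the class of `(a, b)` modulo `N`
(with `b` prime to `N`), and a sign `e`. -/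
structure Cfg where
  tau : ℤ
  nu : ℤ
  D : ℤ
  N : ℤ
  a : ℤ
  b : ℤ
  e : ℤ
  h1 : ¬ IsSquare (tau ^ 2 - 4 * nu)
  h2 : ¬ IsSquare (-D)
  h3 : ¬ (tau = 0 ∧ nu = D)
  hN : 0 < N
  hb : IsCoprime b N
  he : e = 1 ∨ e = -1

/-- Integral `2 × 2` matrices with rows `(a, b)` and `(c, d)`. -/
@[ext]
structure M2 where
  a : ℤ
  b : ℤ
  c : ℤ
  d : ℤ
deriving DecidableEq

namespace M2

def det (M : M2) : ℤ := M.a * M.d - M.b * M.c

def act (M : M2) (v : ℤ × ℤ) : ℤ × ℤ := (M.a * v.1 + M.b * v.2, M.c * v.1 + M.d * v.2)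

def mul (M P : M2) : M2 :=
  ⟨M.a * P.a + M.b * P.c, M.a * P.b + M.b * P.d, M.c * P.a + M.d * P.c, M.c * P.b + M.d * P.d⟩

def sm (k : ℤ) (M : M2) : M2 := ⟨k * M.a, k * M.b, k * M.c, k * M.d⟩

def adj (M : M2) : M2 := ⟨M.d, -M.b, -M.c, M.a⟩

/-- all entries are at most `H` in absolute value -/
def bd (M : M2) (H : ℕ) : Prop := |M.a| ≤ H ∧ |M.b| ≤ H ∧ |M.c| ≤ H ∧ |M.d| ≤ H

/-- congruent to the identity modulo `N` -/
def cg (M : M2) (N : ℤ) : Prop := N ∣ M.a - 1 ∧ N ∣ M.b ∧ N ∣ M.c ∧ N ∣ M.d - 1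

theorem act_mul (M P : M2) (v : ℤ × ℤ) : (M.mul P).act v = M.act (P.act v) := by
  simp only [act, mul]; ext <;> simp <;> ring

theorem det_mul (M P : M2) : (M.mul P).det = M.det * P.det := by
  simp only [det, mul]; ring

theorem det_sm (k : ℤ) (M : M2) : (sm k M).det = k ^ 2 * M.det := by
  simp only [det, sm]; ring

theorem det_adj (M : M2) : M.adj.det = M.det := by
  simp only [det, adj]; ring

theorem mul_adj_act (M : M2) (v : ℤ × ℤ) : M.act (M.adj.act v) = (M.det * v.1, M.det * v.2) := by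
  simp only [act, adj, det]; ext <;> simp <;> ring

theorem adj_mul_act (M : M2) (v : ℤ × ℤ) : M.adj.act (M.act v) = (M.det * v.1, M.det * v.2) := by
  simp only [act, adj, det]; ext <;> simp <;> ring

theorem act_ne_zero {M : M2} (hM : M.det ≠ 0) {v : ℤ × ℤ} (hv : v ≠ 0) : M.act v ≠ 0 := by
  intro h
  have h1 := adj_mul_act M v
  rw [h] at h1
  have h2 : (M.det * v.1, M.det * v.2) = (0 : ℤ × ℤ) := by
    rw [← h1]; simp [act]
  rw [Prod.ext_iff] at h2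
  simp only [Prod.fst_zero, Prod.snd_zero, mul_eq_zero, hM, false_or] at h2
  exact hv (Prod.ext h2.1 h2.2)

theorem act_injective {M : M2} (hM : M.det ≠ 0) : Function.Injective M.act := by
  intro v w h
  have h1 := adj_mul_act M v
  rw [h, adj_mul_act M w, Prod.ext_iff] at h1
  simp only at h1
  exact Prod.ext (mul_left_cancel₀ hM h1.1).symm (mul_left_cancel₀ hM h1.2).symm

theorem bd_mono {M : M2} {H H' : ℕ} (h : M.bd H) (hH : H ≤ H') : M.bd H' := by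
  have : (H : ℤ) ≤ H' := by exact_mod_cast hH
  exact ⟨h.1.trans this, h.2.1.trans this, h.2.2.1.trans this, h.2.2.2.trans this⟩

theorem bd_mul {M P : M2} {H H' : ℕ} (h : M.bd H) (h' : P.bd H') :
    (M.mul P).bd (2 * H * H') := by
  have key : ∀ x y z w : ℤ, |x| ≤ H → |y| ≤ H' → |z| ≤ H → |w| ≤ H' →
      |x * y + z * w| ≤ ((2 * H * H' : ℕ) : ℤ) := by
    intro x y z w hx hy hz hw
    push_cast
    have h1 : |x * y| ≤ H * H' := by
      rw [abs_mul]; exact mul_le_mul hx hy (abs_nonneg _) (by positivity)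
    have h2 : |z * w| ≤ H * H' := by
      rw [abs_mul]; exact mul_le_mul hz hw (abs_nonneg _) (by positivity)
    calc |x * y + z * w| ≤ |x * y| + |z * w| := abs_add_le _ _
      _ ≤ 2 * H * H' := by linarith
  obtain ⟨a1, a2, a3, a4⟩ := h
  obtain ⟨b1, b2, b3, b4⟩ := h'
  exact ⟨key _ _ _ _ a1 b1 a2 b3, key _ _ _ _ a1 b2 a2 b4, key _ _ _ _ a3 b1 a4 b3,
    key _ _ _ _ a3 b2 a4 b4⟩

theorem bd_adj {M : M2} {H : ℕ} (h : M.bd H) : M.adj.bd H := by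
  obtain ⟨a1, a2, a3, a4⟩ := h
  exact ⟨a4, by simpa [adj] using a2, by simpa [adj] using a3, a1⟩

theorem cg_mul {M P : M2} {N : ℤ} (h : M.cg N) (h' : P.cg N) : (M.mul P).cg N := by
  obtain ⟨⟨x1, h1⟩, ⟨x2, h2⟩, ⟨x3, h3⟩, ⟨x4, h4⟩⟩ := h
  obtain ⟨⟨y1, k1⟩, ⟨y2, k2⟩, ⟨y3, k3⟩, ⟨y4, k4⟩⟩ := h'
  refine ⟨⟨x1 * P.a + y1 + x2 * P.c, ?_⟩, ⟨x1 * P.b + y2 + x2 * P.d, ?_⟩,
    ⟨x3 * P.a + x4 * P.c + y3, ?_⟩, ⟨x3 * P.b + x4 * P.d + y4, ?_⟩⟩ <;>
  simp only [mul]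
  · linear_combination P.a * h1 + k1 + P.c * h2
  · linear_combination P.b * h1 + k2 + P.d * h2
  · linear_combination P.a * h3 + P.c * h4 + k3
  · linear_combination P.b * h3 + P.d * h4 + k4

theorem cg_adj {M : M2} {N : ℤ} (h : M.cg N) : M.adj.cg N :=
  ⟨h.2.2.2, (dvd_neg).2 h.2.1, (dvd_neg).2 h.2.2.1, h.1⟩

theorem cg_det {M : M2} {N : ℤ} (h : M.cg N) : N ∣ M.det - 1 := by
  obtain ⟨⟨x1, h1⟩, ⟨x2, h2⟩, ⟨x3, h3⟩, ⟨x4, h4⟩⟩ := h
  refine ⟨x1 * M.d + x4 - x2 * M.c, ?_⟩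
  simp only [det]
  linear_combination M.d * h1 + h4 - M.c * h2

theorem cg_sm {M : M2} {N k : ℤ} (h : (sm k M).cg N) (hk : N ∣ k - 1) : M.cg N := by
  obtain ⟨h1, h2, h3, h4⟩ := h
  simp only [sm] at h1 h2 h3 h4
  have e1 : M.a - 1 = (k * M.a - 1) - (k - 1) * M.a := by ring
  have e2 : M.b = k * M.b - (k - 1) * M.b := by ring
  have e3 : M.c = k * M.c - (k - 1) * M.c := by ring
  have e4 : M.d - 1 = (k * M.d - 1) - (k - 1) * M.d := by ring
  refine ⟨?_, ?_, ?_, ?_⟩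
  · rw [e1]; exact dvd_sub h1 (hk.mul_right _)
  · rw [e2]; exact dvd_sub h2 (hk.mul_right _)
  · rw [e3]; exact dvd_sub h3 (hk.mul_right _)
  · rw [e4]; exact dvd_sub h4 (hk.mul_right _)

end M2

variable (c : Cfg)

def n1 (v : ℤ × ℤ) : ℤ := v.1 ^ 2 + c.tau * v.1 * v.2 + c.nu * v.2 ^ 2
def n2 (v : ℤ × ℤ) : ℤ := v.1 ^ 2 + c.D * v.2 ^ 2

/-- `F = λ(N1)`, `G = λ(N2)` -/
def F (v : ℤ × ℤ) : ℤ := lam (n1 c v)
def G (v : ℤ × ℤ) : ℤ := lam (n2 c v)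

/-- the class of `(a, b)` modulo `N` -/
def Cls : Set (ℤ × ℤ) := {v | c.N ∣ v.1 - c.a ∧ c.N ∣ v.2 - c.b}

/-- the vectors of the class at which `λ(N1 N2)` is not `e` -/
def Exc : Set (ℤ × ℤ) := {v | v ≠ 0 ∧ v ∈ Cls c ∧ F c v * G c v ≠ c.e}

/-- the box `|u|, |v| ≤ X` -/
noncomputable def box (X : ℕ) : Finset (ℤ × ℤ) := Finset.Icc (-(X : ℤ)) X ×ˢ Finset.Icc (-(X : ℤ)) X

/-- Near invariance: `F (M v) = λ(det M) F(v)` whenever `h v` is not exceptional for all `h` in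
a list of at most `H` matrices with entries at most `H`. -/
def NI (M : M2) (H : ℕ) : Prop :=
  M.cg c.N ∧ M.det ≠ 0 ∧ M.bd H ∧ ∃ L : List M2, L.length ≤ H ∧
    (∀ h ∈ L, h.cg c.N ∧ h.det ≠ 0 ∧ h.bd H) ∧
    ∀ v : ℤ × ℤ, v ≠ 0 → v ∈ Cls c → (∀ h ∈ L, h.act v ∉ Exc c) →
      F c (M.act v) = lam M.det * F c v

/-- multiplication by `z` in the ring with norm form `N1` -/
def mK1 (z : ℤ × ℤ) : M2 := ⟨z.1, -c.nu * z.2, z.2, z.1 + c.tau * z.2⟩
/-- multiplication by `z` in the ring with norm form `N2` -/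
def mK2 (z : ℤ × ℤ) : M2 := ⟨z.1, -c.D * z.2, z.2, z.1⟩

/-- `K = τ² D + (ν - D)²` -/
def KK : ℤ := c.tau ^ 2 * c.D + (c.nu - c.D) ^ 2

variable {c}

theorem n1_ne_zero {v : ℤ × ℤ} (hv : v ≠ 0) : n1 c v ≠ 0 := by
  intro h
  unfold n1 at h
  have h4 : (2 * v.1 + c.tau * v.2) ^ 2 = (c.tau ^ 2 - 4 * c.nu) * v.2 ^ 2 := by linear_combination 4 * h
  rcases eq_or_ne v.2 0 with h2 | h2
  · rw [h2] at h
    have : v.1 = 0 := by
      have : v.1 ^ 2 = 0 := by linear_combination h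
      exact pow_eq_zero_iff (two_ne_zero) |>.1 this
    exact hv (Prod.ext this h2)
  · apply c.h1
    have hd : v.2 ^ 2 ∣ (2 * v.1 + c.tau * v.2) ^ 2 := ⟨c.tau ^ 2 - 4 * c.nu, by rw [h4]; ring⟩
    rw [Int.pow_dvd_pow_iff two_ne_zero] at hd
    obtain ⟨k, hk⟩ := hd
    refine ⟨k, ?_⟩
    rw [hk] at h4
    have h5 : v.2 ^ 2 * (k * k) = v.2 ^ 2 * (c.tau ^ 2 - 4 * c.nu) := by linear_combination h4
    exact (mul_left_cancel₀ (pow_ne_zero 2 h2) h5).symm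

theorem n2_ne_zero {v : ℤ × ℤ} (hv : v ≠ 0) : n2 c v ≠ 0 := by
  intro h
  unfold n2 at h
  rcases eq_or_ne v.2 0 with h2 | h2
  · rw [h2] at h
    have : v.1 = 0 := by
      have : v.1 ^ 2 = 0 := by linear_combination h
      exact pow_eq_zero_iff (two_ne_zero) |>.1 this
    exact hv (Prod.ext this h2)
  · apply c.h2
    have h4 : v.1 ^ 2 = v.2 ^ 2 * (-c.D) := by linear_combination h
    have hd : v.2 ^ 2 ∣ v.1 ^ 2 := ⟨_, h4⟩
    rw [Int.pow_dvd_pow_iff two_ne_zero] at hd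
    obtain ⟨k, hk⟩ := hd
    refine ⟨k, ?_⟩
    rw [hk] at h4
    have h5 : v.2 ^ 2 * (k * k) = v.2 ^ 2 * (-c.D) := by linear_combination h4
    exact (mul_left_cancel₀ (pow_ne_zero 2 h2) h5).symm

theorem KK_ne_zero : KK c ≠ 0 := by
  intro h
  unfold KK at h
  rcases eq_or_ne c.tau 0 with h2 | h2
  · apply c.h3
    rw [h2] at h
    have : (c.nu - c.D) ^ 2 = 0 := by linear_combination h
    have := pow_eq_zero_iff (two_ne_zero) |>.1 this
    exact ⟨h2, by linarith⟩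
  · apply c.h2
    have h4 : (c.nu - c.D) ^ 2 = c.tau ^ 2 * (-c.D) := by linear_combination h
    have hd : c.tau ^ 2 ∣ (c.nu - c.D) ^ 2 := ⟨_, h4⟩
    rw [Int.pow_dvd_pow_iff two_ne_zero] at hd
    obtain ⟨k, hk⟩ := hd
    refine ⟨k, ?_⟩
    rw [hk] at h4
    have h5 : c.tau ^ 2 * (k * k) = c.tau ^ 2 * (-c.D) := by linear_combination h4
    exact (mul_left_cancel₀ (pow_ne_zero 2 h2) h5).symm

theorem n1_mK1 (z v : ℤ × ℤ) : n1 c ((mK1 c z).act v) = n1 c z * n1 c v := by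
  simp only [n1, mK1, M2.act]; ring

theorem n2_mK2 (z v : ℤ × ℤ) : n2 c ((mK2 c z).act v) = n2 c z * n2 c v := by
  simp only [n2, mK2, M2.act]; ring

theorem det_mK1 (z : ℤ × ℤ) : (mK1 c z).det = n1 c z := by
  simp only [n1, mK1, M2.det]; ring

theorem det_mK2 (z : ℤ × ℤ) : (mK2 c z).det = n2 c z := by
  simp only [n2, mK2, M2.det]; ring

theorem n1_smul (k : ℤ) (v : ℤ × ℤ) : n1 c (k * v.1, k * v.2) = k ^ 2 * n1 c v := by
  simp only [n1]; ring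

theorem F_smul {k : ℤ} (hk : k ≠ 0) (v : ℤ × ℤ) : F c (k * v.1, k * v.2) = F c v := by
  simp only [F]; rw [n1_smul, lam_mul, lam_sq hk, one_mul]

theorem F_eq {v : ℤ × ℤ} (hv : v ≠ 0) : F c v = 1 ∨ F c v = -1 := lam_eq (n1_ne_zero hv)

theorem G_eq {v : ℤ × ℤ} (hv : v ≠ 0) : G c v = 1 ∨ G c v = -1 := lam_eq (n2_ne_zero hv)

theorem act_mem_Cls {M : M2} (hM : M.cg c.N) {v : ℤ × ℤ} (hv : v ∈ Cls c) : M.act v ∈ Cls c := by
  obtain ⟨⟨x1, h1⟩, ⟨x2, h2⟩, ⟨x3, h3⟩, ⟨x4, h4⟩⟩ := hM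
  obtain ⟨⟨y1, k1⟩, ⟨y2, k2⟩⟩ := hv
  refine ⟨⟨x1 * v.1 + x2 * v.2 + y1, ?_⟩, ⟨x3 * v.1 + x4 * v.2 + y2, ?_⟩⟩
  · simp only [M2.act]
    linear_combination v.1 * h1 + v.2 * h2 + k1
  · simp only [M2.act]
    linear_combination v.1 * h3 + v.2 * h4 + k2

theorem smul_mem_Cls {k : ℤ} (hk : c.N ∣ k - 1) {v : ℤ × ℤ} (hv : v ∈ Cls c) :
    (k * v.1, k * v.2) ∈ Cls c := by
  obtain ⟨x, hx⟩ := hk
  obtain ⟨⟨y1, k1⟩, ⟨y2, k2⟩⟩ := hv
  refine ⟨⟨x * v.1 + y1, ?_⟩, ⟨x * v.2 + y2, ?_⟩⟩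
  · simp only
    linear_combination v.1 * hx + k1
  · simp only
    linear_combination v.2 * hx + k2

/-- A family of integers `A(m, y) = X² + τ X y + ν y²`, `X = c0 (m² + D0)`. -/
structure Fam where
  tau : ℤ
  nu : ℤ
  c0 : ℤ
  D0 : ℤ
  m0 : ℤ
  hns : ¬ IsSquare (tau ^ 2 - 4 * nu)
  hc : c0 ≠ 0
  hD : ¬ IsSquare (-D0)
  hm : 0 ≤ m0

namespace Fam

variable (f : Fam)

def X (m : ℤ) : ℤ := f.c0 * (m ^ 2 + f.D0)
def nn (m y : ℤ) : ℤ := f.X m ^ 2 + f.tau * f.X m * y + f.nu * y ^ 2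
/-- the value `A*` at the base point -/
def As : ℤ := f.nn f.m0 1
/-- the quotient `A / A*` -/
def Az (m y : ℤ) : ℤ := f.nn m y / f.As
/-- admissible pairs for the modulus `q` -/
def Adm (q m y : ℤ) : Prop := q * f.As ∣ m - f.m0 ∧ q * f.As ∣ y - 1

variable {f}

theorem X_ne_zero (m : ℤ) : f.X m ≠ 0 := by
  intro h
  unfold X at h
  rcases mul_eq_zero.1 h with h | h
  · exact f.hc h
  · exact f.hD ⟨m, by linear_combination -h⟩

theorem nn_ne_zero (m y : ℤ) : f.nn m y ≠ 0 := by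
  intro h
  unfold nn at h
  have hX : f.X m ≠ 0 := X_ne_zero m
  obtain ⟨x, hx⟩ : ∃ x, x = f.X m := ⟨_, rfl⟩
  rw [← hx] at h hX
  rcases eq_or_ne y 0 with hy | hy
  · rw [hy] at h
    have : x ^ 2 = 0 := by linear_combination h
    exact hX (pow_eq_zero_iff (two_ne_zero) |>.1 this)
  · apply f.hns
    have h4 : (2 * x + f.tau * y) ^ 2 = y ^ 2 * (f.tau ^ 2 - 4 * f.nu) := by
      linear_combination 4 * h
    have hd : y ^ 2 ∣ (2 * x + f.tau * y) ^ 2 := ⟨_, h4⟩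
    rw [Int.pow_dvd_pow_iff two_ne_zero] at hd
    obtain ⟨k, hk⟩ := hd
    refine ⟨k, ?_⟩
    rw [hk] at h4
    have h5 : y ^ 2 * (k * k) = y ^ 2 * (f.tau ^ 2 - 4 * f.nu) := by linear_combination h4
    exact (mul_left_cancel₀ (pow_ne_zero 2 hy) h5).symm

theorem As_ne_zero : f.As ≠ 0 := nn_ne_zero _ _

theorem nu_ne_zero : f.nu ≠ 0 := by
  intro h
  apply f.hns
  exact ⟨f.tau, by rw [h]; ring⟩

theorem nn_eq {q m y : ℤ} (h : f.Adm q m y) : ∃ k, f.nn m y = f.As * (1 + q * k) := by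
  obtain ⟨⟨u, hu⟩, ⟨t, ht⟩⟩ := h
  have e1 : m = f.m0 + q * f.As * u := by linarith
  have e2 : y = 1 + q * f.As * t := by linarith
  have h1 : q * f.As ∣ f.X m - f.X f.m0 := by
    refine ⟨f.c0 * (u * (m + f.m0)), ?_⟩
    simp only [X]
    linear_combination f.c0 * (m + f.m0) * hu
  obtain ⟨x, hx⟩ := h1
  refine ⟨x * (f.X m + f.X f.m0) + f.tau * (x * y + f.X f.m0 * t) + f.nu * t * (y + 1), ?_⟩
  have e3 : f.As = f.X f.m0 ^ 2 + f.tau * f.X f.m0 * 1 + f.nu * 1 ^ 2 := rfl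
  have : f.nn m y - f.As = q * f.As * (x * (f.X m + f.X f.m0) +
      f.tau * (x * y + f.X f.m0 * t) + f.nu * t * (y + 1)) := by
    unfold nn
    obtain ⟨S, hS⟩ : ∃ S, S = f.As := ⟨_, rfl⟩
    rw [← hS] at hx ht e3 ⊢
    linear_combination (f.X m + f.X f.m0 + f.tau * y) * hx +
      (f.tau * f.X f.m0 + f.nu * (y + 1)) * ht - e3
  linear_combination this

theorem As_mul_Az {q m y : ℤ} (h : f.Adm q m y) : f.As * f.Az m y = f.nn m y := by
  obtain ⟨k, hk⟩ := nn_eq h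
  unfold Az
  rw [hk, Int.mul_ediv_cancel_left _ As_ne_zero]

theorem dvd_Az {q m y : ℤ} (h : f.Adm q m y) : q ∣ f.Az m y - 1 := by
  obtain ⟨k, hk⟩ := nn_eq h
  refine ⟨k, ?_⟩
  unfold Az
  rw [hk, Int.mul_ediv_cancel_left _ As_ne_zero]
  ring

theorem Az_ne_zero {q m y : ℤ} (h : f.Adm q m y) : f.Az m y ≠ 0 := by
  intro h0
  have := As_mul_Az h
  rw [h0, mul_zero] at this
  exact nn_ne_zero _ _ this.symm

end Fam

end Pool.Agent.BQF
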