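import Pool.Agent.BQF.Fm

set_option autoImplicit false

/-!
# Unipotent matrices with denominators `n2 (m, N)`

PROOF. Put `N = c.N > 0`, `z = (m, N)` (non zero, `= (1, 0) mod N`), `ν' = c.nu - c.D`,
`i = (τ² N + τ m - ν' N) n`, `j = -(τ m - ν' N) n`. Identity (`ring`):
`KK c * N ^ 3 * n = i * n2 c z + j * n1 c z`.
With `κ` a constant (depending on `c`), `|i|, |j| ≤ κ ρ ^ 2 ≤ ρ ^ (κ + 2)` (`κ ≤ 2 ^ κ ≤ ρ ^ κ`), so
`h` gives `NI (mU 1 (P i))`, `NI (mU 1 (P j))` with cost `(ρ ^ (κ + 2)) ^ C0`.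
`NI_mB` for `z` (size at most `max ρ N ≤ ρ ^ (N + 1)`), `NI_mul`, `NI_adj` and `conj_mU`:
`b (mU 1 (P j)) adj b = sm (n1 c z) (mU (n2 c z) (n1 c z * (P j)))`; the scalar `n1 c z` is non zero
and `= 1 mod N` (`n1_cg`), remove it by `NI_sm`. Multiply on the left by `mU 1 (P i)`:
`mU 1 (P i) * mU (n2) (n1 P j) = mU n2 (n1 P j + P i n2) = mU n2 (P KK N ^ 3 n)`.
All costs are at most a constant times a power of `ρ`, hence at most `ρ ^ C1`.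
-/

namespace Pool.Agent.BQF

theorem st_den (c : Cfg) (P : ℤ) (C0 : ℕ)
    (h : ∀ (n : ℤ) (ρ : ℕ), 2 ≤ ρ → |n| ≤ ρ → NI c (mU 1 (P * n)) (ρ ^ C0)) :
    ∃ C1 : ℕ, ∀ (m n : ℤ) (ρ : ℕ), 2 ≤ ρ → |m| ≤ ρ → |n| ≤ ρ → c.N ∣ m - 1 →
      NI c (mU (n2 c (m, c.N)) (P * KK c * c.N ^ 3 * n)) (ρ ^ C1) := by
  classical
  obtain ⟨κ, hκ⟩ : ∃ κ : ℕ, (κ : ℤ) = c.tau ^ 2 * c.N + |c.tau| + |c.nu - c.D| * c.N := by
    have h0 : 0 ≤ c.tau ^ 2 * c.N + |c.tau| + |c.nu - c.D| * c.N := by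
      have := c.hN
      positivity
    exact ⟨(c.tau ^ 2 * c.N + |c.tau| + |c.nu - c.D| * c.N).toNat, Int.toNat_of_nonneg h0⟩
  obtain ⟨M, hM⟩ : ∃ M : ℕ, (M : ℤ) = c.N := ⟨c.N.toNat, Int.toNat_of_nonneg c.hN.le⟩
  refine ⟨128 * cK c ^ 9 + (M + 1) * 6 + (κ + 2) * C0 * 2, ?_⟩
  intro m n ρ hρ hm hn hmN
  have hρ' : (2 : ℤ) ≤ ρ := by exact_mod_cast hρ
  have hr0 : (0 : ℤ) ≤ ρ := by linarith
  have hNpos := c.hN
  -- bounds for the coefficients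
  have hpk : ∀ k : ℕ, k ≤ ρ ^ k := fun k =>
    (Nat.lt_two_pow_self).le.trans (Nat.pow_le_pow_left hρ k)
  have hcoef : ∀ t : ℤ, |t| ≤ (c.tau ^ 2 * c.N + |c.tau| * ρ + |c.nu - c.D| * c.N) →
      |t * n| ≤ ((ρ ^ (κ + 2) : ℕ) : ℤ) := by
    intro t ht
    have h1 : |t| ≤ κ * ρ := by
      refine ht.trans ?_
      rw [hκ]
      have h2 : 0 ≤ c.tau ^ 2 * c.N := by positivity
      have h3 : 0 ≤ |c.nu - c.D| * c.N := by positivity
      nlinarith [abs_nonneg c.tau]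
    have h2 : |t * n| ≤ κ * ρ * ρ := by
      rw [abs_mul]
      exact mul_le_mul h1 hn (abs_nonneg _) (by positivity)
    refine h2.trans ?_
    have h3 : (κ : ℤ) ≤ ρ ^ κ := by exact_mod_cast hpk κ
    push_cast
    rw [pow_add]
    have h4 : (ρ : ℤ) ^ 2 = ρ * ρ := sq _
    rw [h4, mul_assoc]
    exact mul_le_mul_of_nonneg_right h3 (by positivity)
  set i : ℤ := (c.tau ^ 2 * c.N + c.tau * m - (c.nu - c.D) * c.N) * n with hi
  set j : ℤ := (-(c.tau * m - (c.nu - c.D) * c.N)) * n with hj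
  have htm : |c.tau * m| ≤ |c.tau| * ρ := by
    rw [abs_mul]
    exact mul_le_mul_of_nonneg_left hm (abs_nonneg _)
  have hnN : |(c.nu - c.D) * c.N| = |c.nu - c.D| * c.N := by
    rw [abs_mul, abs_of_pos hNpos]
  have hib : |i| ≤ ((ρ ^ (κ + 2) : ℕ) : ℤ) := by
    refine hcoef _ ?_
    have h1 : |c.tau ^ 2 * c.N| = c.tau ^ 2 * c.N := abs_of_nonneg (by positivity)
    calc |c.tau ^ 2 * c.N + c.tau * m - (c.nu - c.D) * c.N|
        ≤ |c.tau ^ 2 * c.N + c.tau * m| + |(c.nu - c.D) * c.N| := abs_sub _ _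
      _ ≤ |c.tau ^ 2 * c.N| + |c.tau * m| + |(c.nu - c.D) * c.N| := by
          have := abs_add_le (c.tau ^ 2 * c.N) (c.tau * m)
          linarith
      _ ≤ _ := by rw [h1, hnN]; linarith
  have hjb : |j| ≤ ((ρ ^ (κ + 2) : ℕ) : ℤ) := by
    refine hcoef _ ?_
    rw [abs_neg]
    calc |c.tau * m - (c.nu - c.D) * c.N|
        ≤ |c.tau * m| + |(c.nu - c.D) * c.N| := abs_sub _ _
      _ ≤ _ := by
          rw [hnN]
          have : 0 ≤ c.tau ^ 2 * c.N := by positivity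
          linarith
  have hpow2 : 2 ≤ ρ ^ (κ + 2) := hρ.trans (Nat.le_self_pow (by omega) ρ)
  have hA := h i (ρ ^ (κ + 2)) hpow2 hib
  have hB := h j (ρ ^ (κ + 2)) hpow2 hjb
  -- the matrix b(z)
  set z : ℤ × ℤ := (m, c.N) with hz
  have hz0 : z ≠ 0 := by
    intro h0
    have := congrArg Prod.snd h0
    simp only [hz, Prod.snd_zero] at this
    omega
  have hR1 : 1 ≤ ρ ^ (M + 1) := Nat.one_le_pow _ _ (by omega)
  have hbz := NI_mB (c := c) (z := z) (ρ := ρ ^ (M + 1)) hz0 hmN (dvd_refl _) hR1 (by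
      refine hm.trans ?_
      have : ρ ≤ ρ ^ (M + 1) := Nat.le_self_pow (by omega) ρ
      exact_mod_cast this) (by
      show |c.N| ≤ _
      rw [abs_of_pos hNpos, ← hM]
      have h1 : M ≤ ρ ^ (M + 1) := (hpk M).trans (Nat.pow_le_pow_right (by omega) (by omega))
      exact_mod_cast h1)
  have h1 := NI_mul (NI_mul hbz hB) (NI_adj hbz)
  rw [mB_eq, conj_mU] at h1
  have h2 := NI_sm h1 (n1_ne_zero hz0) (n1_cg hmN (dvd_refl _))
  have h3 := NI_mul hA h2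
  rw [mU_mul] at h3
  have e1 : (1 : ℤ) * (n2 c z * 1) = n2 c z := by ring
  have e2 : (1 : ℤ) * (n1 c z * (P * j)) + P * i * (n2 c z * 1) = P * KK c * c.N ^ 3 * n := by
    rw [hi, hj]
    simp only [n1, n2, KK, hz]
    ring
  rw [e1, e2] at h3
  refine NI_mono h3 ?_
  have hW : 128 * cK c ^ 9 ≤ ρ ^ (128 * cK c ^ 9) := hpk _
  calc 2 * (ρ ^ (κ + 2)) ^ C0 * (2 * (2 * (2 * (cK c * (cK c * ρ ^ (M + 1))) *
        (cK c * ρ ^ (M + 1))) * (ρ ^ (κ + 2)) ^ C0) * (2 * (2 * (cK c * (cK c * ρ ^ (M + 1))) *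
        (cK c * ρ ^ (M + 1))) * (2 * (cK c * (cK c * ρ ^ (M + 1))) * (cK c * ρ ^ (M + 1)))))
      = 128 * cK c ^ 9 * (ρ ^ (M + 1)) ^ 6 * ((ρ ^ (κ + 2)) ^ C0) ^ 2 := by ring
    _ ≤ ρ ^ (128 * cK c ^ 9) * (ρ ^ (M + 1)) ^ 6 * ((ρ ^ (κ + 2)) ^ C0) ^ 2 := by
        gcongr
    _ = ρ ^ (128 * cK c ^ 9 + (M + 1) * 6 + (κ + 2) * C0 * 2) := by
        rw [← pow_mul, ← pow_mul, ← pow_mul, ← pow_add, ← pow_add]
        congr 1
        ring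

end Pool.Agent.BQF
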