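import Pool.Agent.BQF.Prog

set_option autoImplicit false

/-!
# Moduli divisible by an element of a sparse set

PROOF: choose `i0` with `∑_{i ≥ i0} 2^(-i/20) ≤ δ/4` (geometric series). The `w` to be counted satisfy
`r ∣ w` for some `r ∈ S i`, `i ≥ i0`, `2 ^ i < r ≤ w ≤ 2 W`, so by `st_prog2` their number is at most
`∑_{i0 ≤ i, 2^i ≤ 2W} 2^(19i/20) (W/(2^i B) + 1) ≤ (W/B) ∑ 2^(-i/20) + ∑_{2^i ≤ 2W} 2^(19i/20)
≤ δ W/(4B) + C (2W)^(19/20)` (geometric sum; or crudely: at most `log2 (2W) + 1` terms, each at most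
`(2W)^(19/20)`), and this is `≤ δ W/(4 B) + δ W/(2B)` for `W ≥ W0`.
-/

namespace Pool.Agent.BQF

open scoped Classical in
theorem st_ex1 (δ : ℝ) (hδ : 0 < δ) : ∃ i0 : ℕ, ∀ B w0 : ℕ, 0 < B → Nat.Coprime w0 B →
    ∃ W0 : ℕ, ∀ W : ℕ, W0 ≤ W → ∀ S : ℕ → Finset ℕ,
    (∀ i, i0 ≤ i → ∀ r ∈ S i, 2 ^ i < r ∧ r ≤ 2 ^ (i + 1)) →
    (∀ i, i0 ≤ i → ((S i).card : ℝ) ≤ (2 : ℝ) ^ ((19 / 20 : ℝ) * i)) →
    (((Finset.Ioc W (2 * W)).filter (fun w => w ≡ w0 [MOD B] ∧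
      ∃ i, i0 ≤ i ∧ ∃ r ∈ S i, r ∣ w)).card : ℝ) ≤ δ * W / B := by
  obtain ⟨ρ, hρ⟩ : ∃ ρ : ℝ, ρ = (2 : ℝ) ^ (19 / 20 : ℝ) := ⟨_, rfl⟩
  have hρ0 : 0 < ρ := by rw [hρ]; positivity
  have hρ20 : ρ ^ 20 = 2 ^ 19 := by
    rw [hρ, ← Real.rpow_natCast, ← Real.rpow_mul (by norm_num), ← Real.rpow_natCast]
    norm_num
  have hρlow : 3 / 2 ≤ ρ := by
    by_contra hc
    push Not at hc
    have : ρ ^ 20 < (3 / 2) ^ 20 := pow_lt_pow_left₀ hc hρ0.le (by norm_num)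
    rw [hρ20] at this
    norm_num at this
  have hρ2 : ρ < 2 := by
    by_contra hc
    push Not at hc
    have : (2 : ℝ) ^ 20 ≤ ρ ^ 20 := pow_le_pow_left₀ (by norm_num) hc 20
    rw [hρ20] at this
    norm_num at this
  have hρi : ∀ i : ℕ, (2 : ℝ) ^ ((19 / 20 : ℝ) * i) = ρ ^ i := by
    intro i
    rw [hρ, ← Real.rpow_natCast, ← Real.rpow_mul (by norm_num)]
  obtain ⟨q, hq⟩ : ∃ q : ℝ, q = ρ / 2 := ⟨_, rfl⟩
  have hq0 : 0 < q := by rw [hq]; positivity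
  have hq1 : q < 1 := by rw [hq]; linarith
  obtain ⟨i0, hi0⟩ : ∃ i0 : ℕ, q ^ i0 < δ / 4 * (1 - q) :=
    exists_pow_lt_of_lt_one (by have : 0 < 1 - q := by linarith
                                positivity) hq1
  refine ⟨i0, ?_⟩
  intro B w0 hB hw0
  have hBR : (0 : ℝ) < B := by exact_mod_cast hB
  refine ⟨⌈(2 : ℝ) ^ 19 * (16 * B / (3 * δ)) ^ 20⌉₊ + 1, ?_⟩
  intro W hW S hS hcard
  have hW1 : 1 ≤ W := by omega
  have hWR : (0 : ℝ) < W := by exact_mod_cast hW1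
  have hWbig : (2 : ℝ) ^ 19 * (16 * B / (3 * δ)) ^ 20 ≤ W := by
    have h1 := Nat.le_ceil ((2 : ℝ) ^ 19 * (16 * B / (3 * δ)) ^ 20)
    have h2 : ((⌈(2 : ℝ) ^ 19 * (16 * B / (3 * δ)) ^ 20⌉₊ + 1 : ℕ) : ℝ) ≤ W := by exact_mod_cast hW
    push_cast at h2
    linarith
  obtain ⟨L, hL⟩ : ∃ L, L = Nat.log 2 (2 * W) := ⟨_, rfl⟩
  have hL2 : 2 ^ L ≤ 2 * W := by rw [hL]; exact Nat.pow_log_le_self 2 (by omega)
  -- the covering
  have hsub : (Finset.Ioc W (2 * W)).filter (fun w => w ≡ w0 [MOD B] ∧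
      ∃ i, i0 ≤ i ∧ ∃ r ∈ S i, r ∣ w) ⊆
      (Finset.Ico i0 (L + 1)).biUnion (fun i => (S i).biUnion (fun r =>
        (Finset.Ioc W (2 * W)).filter (fun w => w ≡ w0 [MOD B] ∧ r ∣ w))) := by
    intro w hw
    rw [Finset.mem_filter] at hw
    obtain ⟨hwI, hwB, i, hi, r, hr, hrw⟩ := hw
    rw [Finset.mem_biUnion]
    refine ⟨i, ?_, ?_⟩
    · rw [Finset.mem_Ico]
      refine ⟨hi, ?_⟩
      rw [Nat.lt_succ_iff, hL]
      apply Nat.le_log_of_pow_le (by norm_num)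
      rw [Finset.mem_Ioc] at hwI
      have h1 := (hS i hi r hr).1
      have h2 := Nat.le_of_dvd (by omega) hrw
      omega
    · rw [Finset.mem_biUnion]
      exact ⟨r, hr, Finset.mem_filter.2 ⟨hwI, hwB, hrw⟩⟩
  have hterm : ∀ i ∈ Finset.Ico i0 (L + 1), ((((S i).biUnion (fun r =>
        (Finset.Ioc W (2 * W)).filter (fun w => w ≡ w0 [MOD B] ∧ r ∣ w))).card : ℕ) : ℝ) ≤
        (W : ℝ) / B * q ^ i + ρ ^ i := by
    intro i hi
    rw [Finset.mem_Ico] at hi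
    have h1 : ((((S i).biUnion (fun r =>
        (Finset.Ioc W (2 * W)).filter (fun w => w ≡ w0 [MOD B] ∧ r ∣ w))).card : ℕ) : ℝ) ≤
        ∑ r ∈ S i, ((((Finset.Ioc W (2 * W)).filter
          (fun w => w ≡ w0 [MOD B] ∧ r ∣ w)).card : ℕ) : ℝ) := by
      exact_mod_cast Finset.card_biUnion_le
    refine h1.trans ?_
    have h2i : (0 : ℝ) < 2 ^ i := by positivity
    have h2 : ∑ r ∈ S i, ((((Finset.Ioc W (2 * W)).filter
          (fun w => w ≡ w0 [MOD B] ∧ r ∣ w)).card : ℕ) : ℝ) ≤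
        ∑ _r ∈ S i, ((W : ℝ) / (2 ^ i * B) + 1) := by
      apply Finset.sum_le_sum
      intro r hr
      have hr2 := (hS i hi.1 r hr).1
      have hr2' := Nat.one_le_two_pow (n := i)
      refine (st_prog2 B w0 W r hB (by omega) hw0).trans ?_
      have hr3 : (2 : ℝ) ^ i ≤ r := by exact_mod_cast hr2.le
      gcongr
    refine h2.trans ?_
    rw [Finset.sum_const, nsmul_eq_mul]
    have h3 : (((S i).card : ℕ) : ℝ) ≤ ρ ^ i := by
      rw [← hρi]; exact hcard i hi.1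
    calc (((S i).card : ℕ) : ℝ) * ((W : ℝ) / (2 ^ i * B) + 1)
        ≤ ρ ^ i * ((W : ℝ) / (2 ^ i * B) + 1) :=
          mul_le_mul_of_nonneg_right h3 (by positivity)
      _ = (W : ℝ) / B * q ^ i + ρ ^ i := by
          rw [hq, div_pow]
          field_simp
  have hmain : (((Finset.Ioc W (2 * W)).filter (fun w => w ≡ w0 [MOD B] ∧
      ∃ i, i0 ≤ i ∧ ∃ r ∈ S i, r ∣ w)).card : ℝ) ≤
      ∑ i ∈ Finset.Ico i0 (L + 1), ((W : ℝ) / B * q ^ i + ρ ^ i) := by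
    refine le_trans ?_ (Finset.sum_le_sum hterm)
    have h1 := Finset.card_le_card hsub
    have h2 := h1.trans Finset.card_biUnion_le
    exact_mod_cast h2
  refine hmain.trans ?_
  rw [Finset.sum_add_distrib, ← Finset.mul_sum]
  have g1 : ∑ i ∈ Finset.Ico i0 (L + 1), q ^ i ≤ δ / 4 := by
    refine (geom_sum_Ico_le_of_lt_one hq0.le hq1).trans ?_
    rw [div_le_iff₀ (by linarith)]
    exact hi0.le
  have g2 : ∑ i ∈ Finset.Ico i0 (L + 1), ρ ^ i ≤ 4 * ρ ^ L := by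
    have h1 : ∑ i ∈ Finset.Ico i0 (L + 1), ρ ^ i ≤ ∑ i ∈ Finset.range (L + 1), ρ ^ i := by
      apply Finset.sum_le_sum_of_subset_of_nonneg
      · intro x hx
        rw [Finset.mem_Ico] at hx
        exact Finset.mem_range.2 hx.2
      · intros
        positivity
    refine h1.trans ?_
    rw [geom_sum_eq (by linarith), div_le_iff₀ (by linarith), pow_succ]
    have hL0 : 0 < ρ ^ L := by positivity
    nlinarith
  have g3 : ρ ^ L ≤ 3 * δ * W / (16 * B) := by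
    have hZ0 : 0 ≤ 3 * δ * W / (16 * B) := by positivity
    apply le_of_pow_le_pow_left₀ (n := 20) (by norm_num) hZ0
    have h1 : (ρ ^ L) ^ 20 = ((2 : ℝ) ^ L) ^ 19 := by
      rw [← pow_mul, mul_comm, pow_mul, hρ20, ← pow_mul, ← pow_mul, mul_comm]
    rw [h1]
    have h2 : ((2 : ℝ) ^ L) ^ 19 ≤ (2 * W) ^ 19 := by
      apply pow_le_pow_left₀ (by positivity)
      exact_mod_cast hL2
    refine h2.trans ?_
    have h3 : (2 * (W : ℝ)) ^ 19 = 2 ^ 19 * (16 * B / (3 * δ)) ^ 20 *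
        (W ^ 19 * (3 * δ / (16 * B)) ^ 20) := by
      have h4 : (16 * (B : ℝ) / (3 * δ)) * (3 * δ / (16 * B)) = 1 := by
        field_simp
      calc (2 * (W : ℝ)) ^ 19 = 2 ^ 19 * W ^ 19 * (1 : ℝ) ^ 20 := by ring
        _ = 2 ^ 19 * W ^ 19 * ((16 * (B : ℝ) / (3 * δ)) * (3 * δ / (16 * B))) ^ 20 := by rw [h4]
        _ = _ := by ring
    rw [h3]
    calc 2 ^ 19 * (16 * (B : ℝ) / (3 * δ)) ^ 20 * (W ^ 19 * (3 * δ / (16 * B)) ^ 20)
        ≤ W * (W ^ 19 * (3 * δ / (16 * B)) ^ 20) :=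
          mul_le_mul_of_nonneg_right hWbig (by positivity)
      _ = (3 * δ * W / (16 * B)) ^ 20 := by ring
  have g4 : (W : ℝ) / B * ∑ i ∈ Finset.Ico i0 (L + 1), q ^ i ≤ (W : ℝ) / B * (δ / 4) :=
    mul_le_mul_of_nonneg_left g1 (by positivity)
  have g5 : 4 * ρ ^ L ≤ 3 / 4 * (δ * W / B) := by
    calc 4 * ρ ^ L ≤ 4 * (3 * δ * W / (16 * B)) := by linarith
      _ = 3 / 4 * (δ * W / B) := by ring
  have g6 : (W : ℝ) / B * (δ / 4) = 1 / 4 * (δ * W / B) := by ring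
  linarith

end Pool.Agent.BQF
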