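import Pool.Agent.BQF.Prog

set_option autoImplicit false

/-!
# Moduli with many common factors with the elements of a family

PROOF: choose `i0 ≥ 1` with `100 Λ ∑_{i ≥ i0} 1/i² ≤ δ/4`. For fixed `i ≥ i0`, let `T_i` be
the set of `w ∈ (W, 2W]`, `w = w0 mod B`, with `|Z i| < 100 |{z ∈ Z i : gcd(Bf z, w) > 1}|`. Then
`|Z i| |T_i| ≤ 100 ∑_{w} |{z ∈ Z i : gcd(Bf z, w) > 1}| ≤ 100 ∑_{z ∈ Z i} ∑_{p ∣ Bf z} |{w : p ∣ w}|
≤ 100 |Z i| Λ (W/(i² B) + 1)` (at most `Λ` primes `p ∣ Bf z`, each `≥ i²`; `st_prog2`). If `Z i` is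
empty `T_i` is empty. So `|T_i| ≤ 100 Λ (W/(i² B) + 1)` and the sum over `i0 ≤ i`, `2^i ≤ 2 W` is at
most `δ W/(4 B) + 100 Λ (log2 (2W) + 1) ≤ δ W/B` for `W ≥ W0`.
-/

namespace Pool.Agent.BQF

private theorem exb_log (Λ : ℕ) (δ : ℝ) (hδ : 0 < δ) (B : ℕ) (hB : 0 < B) :
    ∃ W0 : ℕ, 1 ≤ W0 ∧ ∀ W : ℕ, W0 ≤ W →
      100 * (Λ : ℝ) * ((Nat.log 2 (2 * W) : ℝ) + 1) ≤ 3 / 4 * (δ * W / B) := by
  have hB' : (0 : ℝ) < B := by exact_mod_cast hB
  have h2 : 0 < Real.log 2 := Real.log_pos (by norm_num)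
  obtain ⟨c, hc⟩ : ∃ c : ℝ, c = δ * Real.log 2 / (400 * ((Λ : ℝ) + 1) * B) := ⟨_, rfl⟩
  have hc0 : 0 < c := by rw [hc]; positivity
  obtain ⟨X, hX⟩ := Filter.eventually_atTop.1 (Real.isLittleO_log_id_atTop.def hc0)
  obtain ⟨n1, hn1⟩ := exists_nat_ge X
  obtain ⟨n2, hn2⟩ := exists_nat_ge (400 * (Λ : ℝ) * B / δ)
  refine ⟨n1 + n2 + 1, by omega, fun W hW => ?_⟩
  have hW1 : ((n1 : ℝ) + n2 + 1) ≤ W := by exact_mod_cast hW
  have n10 : (0 : ℝ) ≤ n1 := Nat.cast_nonneg _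
  have n20 : (0 : ℝ) ≤ n2 := Nat.cast_nonneg _
  have hW0 : (0 : ℝ) < W := by linarith
  have h3 := hX (2 * (W : ℝ)) (by linarith)
  simp only [id_eq, Real.norm_eq_abs] at h3
  have h4 : (Nat.log 2 (2 * W) : ℝ) ≤ Real.log (2 * (W : ℝ)) / Real.log 2 := by
    have := Real.natLog_le_logb (2 * W) 2
    rw [Real.logb] at this
    push_cast at this
    exact this
  have h5 : Real.log (2 * (W : ℝ)) ≤ c * (2 * W) := by
    refine (le_abs_self _).trans (h3.trans ?_)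
    rw [abs_of_pos (by positivity)]
  have h6 : (Nat.log 2 (2 * W) : ℝ) ≤ c * (2 * W) / Real.log 2 :=
    h4.trans (div_le_div_of_nonneg_right h5 h2.le)
  have h7 : c * (2 * W) / Real.log 2 = δ * W / (200 * ((Λ : ℝ) + 1) * B) := by
    rw [hc]
    field_simp
    ring
  rw [h7] at h6
  have h8 : 100 * (Λ : ℝ) * (δ * W / (200 * ((Λ : ℝ) + 1) * B)) ≤ 1 / 2 * (δ * W / B) := by
    have e : 100 * (Λ : ℝ) * (δ * W / (200 * ((Λ : ℝ) + 1) * B)) =
        ((Λ : ℝ) / (Λ + 1)) * (1 / 2 * (δ * W / B)) := by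
      field_simp
      ring
    rw [e]
    have e1 : (Λ : ℝ) / (Λ + 1) ≤ 1 := by
      rw [div_le_one (by positivity)]
      linarith
    exact mul_le_of_le_one_left (by positivity) e1
  have h9 : 100 * (Λ : ℝ) ≤ 1 / 4 * (δ * W / B) := by
    have e2 : 400 * (Λ : ℝ) * B / δ ≤ W := by linarith
    rw [div_le_iff₀ hδ] at e2
    have e3 : 1 / 4 * (δ * W / B) = δ * W / (4 * B) := by
      field_simp
    rw [e3, le_div_iff₀ (by positivity)]
    linarith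
  have h10 : (0 : ℝ) ≤ 100 * (Λ : ℝ) := by positivity
  calc 100 * (Λ : ℝ) * ((Nat.log 2 (2 * W) : ℝ) + 1)
      = 100 * (Λ : ℝ) * (Nat.log 2 (2 * W) : ℝ) + 100 * (Λ : ℝ) := by ring
    _ ≤ 1 / 2 * (δ * W / B) + 1 / 4 * (δ * W / B) :=
        add_le_add ((mul_le_mul_of_nonneg_left h6 h10).trans h8) h9
    _ = 3 / 4 * (δ * W / B) := by ring

open scoped Classical in
/-- the moduli of the class which are not prime to a number with at most `Λ` prime factors, all of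
them large -/
private theorem exb_cop (Λ B w0 W i n : ℕ) (hB : 0 < B) (hi : 0 < i) (hw0 : Nat.Coprime w0 B)
    (hn : n ≠ 0) (hΩ : ArithmeticFunction.cardFactors n ≤ Λ)
    (hp : ∀ p : ℕ, p.Prime → p ∣ n → i ^ 2 ≤ p) :
    ((((Finset.Ioc W (2 * W)).filter (fun w => w ≡ w0 [MOD B])).filter
      (fun w => ¬ Nat.Coprime n w)).card : ℝ) ≤ Λ * ((W : ℝ) / (i ^ 2 * B) + 1) := by
  have hB' : (0 : ℝ) < B := by exact_mod_cast hB
  have hi' : (0 : ℝ) < i := by exact_mod_cast hi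
  have h1 : ((Finset.Ioc W (2 * W)).filter (fun w => w ≡ w0 [MOD B])).filter
      (fun w => ¬ Nat.Coprime n w) ⊆
      n.primeFactors.biUnion (fun p => (Finset.Ioc W (2 * W)).filter
        (fun w => w ≡ w0 [MOD B] ∧ p ∣ w)) := by
    intro w hw
    rw [Finset.mem_filter, Finset.mem_filter] at hw
    obtain ⟨⟨h2, h3⟩, h4⟩ := hw
    obtain ⟨p, h5, h6, h7⟩ := Nat.Prime.not_coprime_iff_dvd.1 h4
    rw [Finset.mem_biUnion]
    exact ⟨p, Nat.mem_primeFactors.2 ⟨h5, h6, hn⟩, Finset.mem_filter.2 ⟨h2, h3, h7⟩⟩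
  have h2 : ((((Finset.Ioc W (2 * W)).filter (fun w => w ≡ w0 [MOD B])).filter
      (fun w => ¬ Nat.Coprime n w)).card : ℝ) ≤
      ∑ p ∈ n.primeFactors, (((Finset.Ioc W (2 * W)).filter
        (fun w => w ≡ w0 [MOD B] ∧ p ∣ w)).card : ℝ) := by
    exact_mod_cast (Finset.card_le_card h1).trans Finset.card_biUnion_le
  refine h2.trans ?_
  have h3 : ∀ p ∈ n.primeFactors, (((Finset.Ioc W (2 * W)).filter
      (fun w => w ≡ w0 [MOD B] ∧ p ∣ w)).card : ℝ) ≤ (W : ℝ) / (i ^ 2 * B) + 1 := by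
    intro p hp1
    obtain ⟨h4, h5, -⟩ := Nat.mem_primeFactors.1 hp1
    refine (st_prog2 B w0 W p hB h4.pos hw0).trans ?_
    have h6 : ((i : ℝ) ^ 2) ≤ p := by exact_mod_cast hp p h4 h5
    have h7 : (W : ℝ) / (p * B) ≤ (W : ℝ) / (i ^ 2 * B) := by
      apply div_le_div_of_nonneg_left (Nat.cast_nonneg _) (by positivity)
      exact mul_le_mul_of_nonneg_right h6 hB'.le
    linarith
  refine (Finset.sum_le_card_nsmul _ _ _ h3).trans ?_
  rw [nsmul_eq_mul]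
  apply mul_le_mul_of_nonneg_right _ (by positivity)
  have h8 : n.primeFactors.card ≤ ArithmeticFunction.cardFactors n := by
    rw [ArithmeticFunction.cardFactors_apply]
    exact List.toFinset_card_le _
  exact_mod_cast h8.trans hΩ

open scoped Classical in
private theorem exb_one (Λ B w0 W i : ℕ) (hB : 0 < B) (hi : 0 < i) (hw0 : Nat.Coprime w0 B)
    (Z : Finset (ℤ × ℤ)) (Bf : ℤ × ℤ → ℕ)
    (hZ : ∀ z ∈ Z, Bf z ≠ 0 ∧ ArithmeticFunction.cardFactors (Bf z) ≤ Λ ∧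
      ∀ p : ℕ, p.Prime → p ∣ Bf z → i ^ 2 ≤ p) :
    ((((Finset.Ioc W (2 * W)).filter (fun w => w ≡ w0 [MOD B])).filter
      (fun w => Z.card < 100 * (Z.filter (fun z => ¬ Nat.Coprime (Bf z) w)).card)).card : ℝ) ≤
      100 * (Λ * ((W : ℝ) / (i ^ 2 * B) + 1)) := by
  have hB' : (0 : ℝ) < B := by exact_mod_cast hB
  have hi' : (0 : ℝ) < i := by exact_mod_cast hi
  set C := (Finset.Ioc W (2 * W)).filter (fun w => w ≡ w0 [MOD B]) with hC
  set T := C.filter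
    (fun w => Z.card < 100 * (Z.filter (fun z => ¬ Nat.Coprime (Bf z) w)).card) with hT
  rcases Finset.eq_empty_or_nonempty Z with hZ0 | hZ0
  · have h1 : T = ∅ := by
      rw [hT, Finset.filter_eq_empty_iff]
      intro w _
      rw [hZ0]
      simp
    rw [h1, Finset.card_empty, Nat.cast_zero]
    positivity
  have hZc : (0 : ℝ) < Z.card := by exact_mod_cast Finset.card_pos.2 hZ0
  have h1 : (Z.card : ℝ) * T.card ≤
      100 * ∑ w ∈ C, ((Z.filter (fun z => ¬ Nat.Coprime (Bf z) w)).card : ℝ) := by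
    calc (Z.card : ℝ) * T.card = ∑ w ∈ T, (Z.card : ℝ) := by
          rw [Finset.sum_const, nsmul_eq_mul, mul_comm]
      _ ≤ ∑ w ∈ T, 100 * ((Z.filter (fun z => ¬ Nat.Coprime (Bf z) w)).card : ℝ) := by
          refine Finset.sum_le_sum fun w hw => ?_
          have := (Finset.mem_filter.1 hw).2
          exact_mod_cast this.le
      _ ≤ ∑ w ∈ C, 100 * ((Z.filter (fun z => ¬ Nat.Coprime (Bf z) w)).card : ℝ) := by
          refine Finset.sum_le_sum_of_subset_of_nonneg (Finset.filter_subset _ _) ?_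
          intro w _ _
          positivity
      _ = 100 * ∑ w ∈ C, ((Z.filter (fun z => ¬ Nat.Coprime (Bf z) w)).card : ℝ) := by
          rw [Finset.mul_sum]
  have h2 : ∑ w ∈ C, ((Z.filter (fun z => ¬ Nat.Coprime (Bf z) w)).card : ℝ) =
      ∑ z ∈ Z, ((C.filter (fun w => ¬ Nat.Coprime (Bf z) w)).card : ℝ) := by
    have : ∑ w ∈ C, (Z.filter (fun z => ¬ Nat.Coprime (Bf z) w)).card =
        ∑ z ∈ Z, (C.filter (fun w => ¬ Nat.Coprime (Bf z) w)).card := by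
      simp only [Finset.card_filter]
      exact Finset.sum_comm
    exact_mod_cast this
  have h3 : ∑ z ∈ Z, ((C.filter (fun w => ¬ Nat.Coprime (Bf z) w)).card : ℝ) ≤
      Z.card * (Λ * ((W : ℝ) / (i ^ 2 * B) + 1)) := by
    refine (Finset.sum_le_card_nsmul _ _ (Λ * ((W : ℝ) / (i ^ 2 * B) + 1)) fun z hz => ?_).trans
      (by rw [nsmul_eq_mul])
    obtain ⟨a1, a2, a3⟩ := hZ z hz
    exact exb_cop Λ B w0 W i (Bf z) hB hi hw0 a1 a2 a3
  rw [h2] at h1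
  have h4 : (Z.card : ℝ) * T.card ≤ Z.card * (100 * (Λ * ((W : ℝ) / (i ^ 2 * B) + 1))) := by
    linarith
  exact le_of_mul_le_mul_left h4 hZc

open scoped Classical in
theorem st_ex2 (Λ : ℕ) (δ : ℝ) (hδ : 0 < δ) : ∃ i0 : ℕ, ∀ B w0 : ℕ, 0 < B → Nat.Coprime w0 B →
    ∃ W0 : ℕ, ∀ W : ℕ, W0 ≤ W → ∀ (Z : ℕ → Finset (ℤ × ℤ)) (Bf : ℤ × ℤ → ℕ),
    (∀ i, i0 ≤ i → ∀ z ∈ Z i, Bf z ≠ 0 ∧ ArithmeticFunction.cardFactors (Bf z) ≤ Λ ∧
      ∀ p : ℕ, p.Prime → p ∣ Bf z → i ^ 2 ≤ p) →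
    (((Finset.Ioc W (2 * W)).filter (fun w => w ≡ w0 [MOD B] ∧
      ∃ i, i0 ≤ i ∧ 2 ^ i ≤ 2 * W ∧
        (Z i).card < 100 * ((Z i).filter (fun z => ¬ Nat.Coprime (Bf z) w)).card)).card : ℝ) ≤
      δ * W / B := by
  obtain ⟨k, hk⟩ := exists_nat_ge (400 * (Λ : ℝ) / δ)
  refine ⟨k + 2, fun B w0 hB hw0 => ?_⟩
  obtain ⟨W0, hW0, hlog⟩ := exb_log Λ δ hδ B hB
  refine ⟨W0, fun W hW Z Bf hZ => ?_⟩
  have hB' : (0 : ℝ) < B := by exact_mod_cast hB
  have hWpos : 0 < W := by omega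
  have hW' : (0 : ℝ) < W := by exact_mod_cast hWpos
  set C := (Finset.Ioc W (2 * W)).filter (fun w => w ≡ w0 [MOD B]) with hC
  set L := Nat.log 2 (2 * W) with hL
  have h1 : (Finset.Ioc W (2 * W)).filter (fun w => w ≡ w0 [MOD B] ∧
      ∃ i, k + 2 ≤ i ∧ 2 ^ i ≤ 2 * W ∧
        (Z i).card < 100 * ((Z i).filter (fun z => ¬ Nat.Coprime (Bf z) w)).card) ⊆
      (Finset.Ioc (k + 1) L).biUnion (fun i => C.filter
        (fun w => (Z i).card < 100 * ((Z i).filter (fun z => ¬ Nat.Coprime (Bf z) w)).card)) := by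
    intro w hw
    obtain ⟨h2, h3, i, h4, h5, h6⟩ := Finset.mem_filter.1 hw
    rw [Finset.mem_biUnion]
    refine ⟨i, Finset.mem_Ioc.2 ⟨by omega, ?_⟩,
      Finset.mem_filter.2 ⟨Finset.mem_filter.2 ⟨h2, h3⟩, h6⟩⟩
    exact Nat.le_log_of_pow_le (by norm_num) h5
  have h2 : (((Finset.Ioc W (2 * W)).filter (fun w => w ≡ w0 [MOD B] ∧
      ∃ i, k + 2 ≤ i ∧ 2 ^ i ≤ 2 * W ∧
        (Z i).card < 100 * ((Z i).filter (fun z => ¬ Nat.Coprime (Bf z) w)).card)).card : ℝ) ≤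
      ∑ i ∈ Finset.Ioc (k + 1) L, ((C.filter (fun w =>
        (Z i).card < 100 * ((Z i).filter (fun z => ¬ Nat.Coprime (Bf z) w)).card)).card : ℝ) := by
    exact_mod_cast (Finset.card_le_card h1).trans Finset.card_biUnion_le
  refine h2.trans ?_
  have h3 : ∀ i ∈ Finset.Ioc (k + 1) L, ((C.filter (fun w =>
      (Z i).card < 100 * ((Z i).filter (fun z => ¬ Nat.Coprime (Bf z) w)).card)).card : ℝ) ≤
      100 * Λ * W / B * ((i : ℝ) ^ 2)⁻¹ + 100 * Λ := by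
    intro i hi
    have hi1 := (Finset.mem_Ioc.1 hi).1
    have hi' : (0 : ℝ) < i := by
      have : 0 < i := by omega
      exact_mod_cast this
    refine (exb_one Λ B w0 W i hB (by omega) hw0 (Z i) Bf (hZ i (by omega))).trans (le_of_eq ?_)
    field_simp
  refine (Finset.sum_le_sum h3).trans ?_
  rw [Finset.sum_add_distrib, ← Finset.mul_sum, Finset.sum_const, nsmul_eq_mul, Nat.card_Ioc]
  have h4 : (∑ i ∈ Finset.Ioc (k + 1) L, ((i : ℝ) ^ 2)⁻¹) ≤ ((k : ℝ) + 1)⁻¹ := by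
    rcases le_or_gt (k + 1) L with h5 | h5
    · have h6 := sum_Ioc_inv_sq_le_sub (α := ℝ) (Nat.succ_ne_zero k) h5
      have h7 : (0 : ℝ) ≤ (L : ℝ)⁻¹ := by positivity
      push_cast at h6
      linarith
    · rw [Finset.Ioc_eq_empty (by omega), Finset.sum_empty]
      positivity
  have h5 : 100 * (Λ : ℝ) * W / B * (∑ i ∈ Finset.Ioc (k + 1) L, ((i : ℝ) ^ 2)⁻¹) ≤
      1 / 4 * (δ * W / B) := by
    refine (mul_le_mul_of_nonneg_left h4 (by positivity)).trans ?_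
    have h6 : 400 * (Λ : ℝ) ≤ k * δ := by
      rwa [div_le_iff₀ hδ] at hk
    have h7 : 100 * (Λ : ℝ) * ((k : ℝ) + 1)⁻¹ ≤ 1 / 4 * δ := by
      rw [← div_eq_mul_inv, div_le_iff₀ (by positivity)]
      nlinarith
    calc 100 * (Λ : ℝ) * W / B * ((k : ℝ) + 1)⁻¹ = (100 * (Λ : ℝ) * ((k : ℝ) + 1)⁻¹) * (W / B) := by
          ring
      _ ≤ (1 / 4 * δ) * (W / B) := mul_le_mul_of_nonneg_right h7 (by positivity)
      _ = 1 / 4 * (δ * W / B) := by ring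
  have h6 : ((L - (k + 1) : ℕ) : ℝ) * (100 * Λ) ≤ 3 / 4 * (δ * W / B) := by
    refine le_trans ?_ (hlog W hW)
    rw [← hL, mul_comm]
    apply mul_le_mul_of_nonneg_left _ (by positivity)
    have : ((L - (k + 1) : ℕ) : ℝ) ≤ L := by exact_mod_cast Nat.sub_le _ _
    linarith
  calc _ ≤ 1 / 4 * (δ * W / B) + 3 / 4 * (δ * W / B) := add_le_add h5 h6
    _ = δ * W / B := by ring

end Pool.Agent.BQF
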