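import Pool.Agent.BQF.ZDefs

set_option autoImplicit false

/-!
# Size, sign, number of prime factors and fibres of `Az`

PROOF. Let `disc = f.tau ^ 2 - 4 * f.nu ≠ 0` (it is not a square), `P2 = 2 * |disc|`. Let `P2 ∣ q`,
`C ≥ 1`; all constants may depend on `f, q, C`. Let `Gd f q C ρ m y`, `x = f.X m`, `A = f.Az m y`,
`f.As * A = f.nn m y = x² + τ x y + ν y²` (`Fam.As_mul_Az`).
Sizes: `|x| ≤ |c0| (m² + |D0|) ≤ |c0| (ρ^(1/4) + |D0|)` and `ρ/(log ρ)^(C+2) ≤ y ≤ (q |As| + 1) ρ`. So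
`|A| ≤ |nn| ≤ C1 ρ²`, and, for large `ρ`, `|x| (1 + |τ|) ≤ y / 2` gives `|x² + τ x y| < y²/2`, so
`ν y²` dominates (`|ν| ≥ 1`): `A` has the sign `σ = sign(ν) sign(As)` and `|As A| ≥ y²/2`, so
`|A| ≥ ρ² / (2 |As| (log ρ)^(2 C + 4)) > 2 |x|_max y_max + 1` for large `ρ`, where
`|x|_max = |c0|(ρ^(1/4) + |D0|)`, `y_max = (q |As| + 1) ρ`. (ii)
Number of prime factors: every prime factor of `|A|` satisfies `p ^ C > ρ`, so
`ρ ^ Ω(|A|) < |A| ^ C ≤ (C1 ρ²)^C` (if `Ω > 0`), whence `Ω(|A|) ≤ 2 C + C = 3 C` when `ρ ≥ C1`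
(`(C1 ρ²)^C ≤ ρ^(3 C)`). So `Λ = 3 C` works.
Fibres: let `b` be given and `Z_b = {z ∈ Z : |Az z| = b}`; we may assume it is not empty; `b > 0`, and by
`adm`, `A = 1 mod q`, so `b` is prime to `q`, hence to `2` and to `disc`. Fix `z0 = (m_0, y_0) ∈ Z_b`,
`x_0 = X m_0`. For `z = (m, y) ∈ Z_b`, `x = X m`: `y` is prime to `b` (a prime `p ∣ b, p ∣ y` divides
`nn`, so `x²`, contradicting `cop`), same for `y_0`. Map `z ↦ T_z = {p ∈ b.primeFactors : p ∣ x y_0 - x_0 y}`.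
Claim: it is injective on `Z_b`, so `|Z_b| ≤ 2 ^ ω(b) ≤ 2 ^ Λ`. Let `T_z = T_{z'}`. Let `p ^ k` be the
exact power of a prime `p` dividing `b`. `nn(z) y_0² - nn(z_0) y² = (x y_0 - x_0 y)(x y_0 + x_0 y + τ y y_0)`
is divisible by `b`. If `p` divided both factors, it would divide the sum with `y_0`-multiples:
`x y_0 = x_0 y` and `2 x_0 y + τ y y_0 = 0 mod p`, so `2 x_0 + τ y_0 = 0 mod p` and
`disc y_0² = (2 x_0 + τ y_0)² - 4 nn(z_0) = 0 mod p`: contradiction. So `p ^ k` divides exactly one of the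
two factors, the first one iff `p ∈ T_z`. Hence `x / y = x_0 / y_0` or `x / y = - x_0/y_0 - τ` modulo
`p ^ k`, according to `T_z`; same for `z'`. So `x y' - x' y = 0 mod p ^ k` in both cases (multiply by
`y_0`: `y_0 (x y' - x' y) = y' (x y_0 - x_0 y) - y (x' y_0 - x_0 y')`
`= y' (x y_0 + x_0 y + τ y y_0) - y (x' y_0 + x_0 y' + τ y' y_0)`). So `b ∣ x y' - x' y`, and
`|x y' - x' y| ≤ 2 |x|_max y_max < b` by (ii): `x y' = x' y`. As `gcd(x, y) = gcd(x', y') = 1`,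
`y, y' > 0`: `y = y'`, `x = x'`, and then `m² = m'²` (`c0 ≠ 0`), `m = m'` (`m, m' ≥ 0`).
`ω(b) ≤ Ω(b) ≤ Λ`: `ArithmeticFunction.cardDistinctFactors_le_cardFactors` or similar.
-/

namespace Pool.Agent.BQF

private theorem Fib_log_ev (k : ℕ) (c : ℝ) (hc : 0 < c) :
    ∀ᶠ S : ℕ in Filter.atTop, c * Real.log S ^ k ≤ √(S : ℝ) := by
  have h1 := Real.isLittleO_pow_log_id_atTop (n := 2 * k)
  have h2 := h1.def (show (0 : ℝ) < 1 / c ^ 2 by positivity)
  have h3 := tendsto_natCast_atTop_atTop (R := ℝ) |>.eventually h2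
  filter_upwards [h3, Filter.eventually_ge_atTop 1] with S hS hS1
  have hS1' : (1 : ℝ) ≤ S := by exact_mod_cast hS1
  have hL : 0 ≤ Real.log S := Real.log_nonneg hS1'
  rw [Real.norm_of_nonneg (by positivity), id, Real.norm_of_nonneg (by linarith)] at hS
  apply Real.le_sqrt_of_sq_le
  have e : (c * Real.log S ^ k) ^ 2 = c ^ 2 * Real.log S ^ (2 * k) := by ring
  rw [e]
  have hc2 : 0 < c ^ 2 := by positivity
  calc c ^ 2 * Real.log S ^ (2 * k) ≤ c ^ 2 * (1 / c ^ 2 * S) := by gcongr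
    _ = (S : ℝ) := by field_simp

private theorem Fib_omega (C R : ℕ) (n : ℕ) : n ≠ 0 →
    (∀ p : ℕ, p.Prime → p ∣ n → R ≤ p ^ C) →
    R ^ (ArithmeticFunction.cardFactors n) ≤ n ^ C := by
  induction n using Nat.recOnMul with
  | zero => intro h; exact absurd rfl h
  | one => intro _ _; simp
  | prime p hp =>
    intro _ h
    rw [ArithmeticFunction.cardFactors_apply_prime hp, pow_one]
    exact h p hp (dvd_refl p)
  | mul a b iha ihb =>
    intro hab h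
    have ha : a ≠ 0 := left_ne_zero_of_mul hab
    have hb : b ≠ 0 := right_ne_zero_of_mul hab
    rw [ArithmeticFunction.cardFactors_mul ha hb, pow_add, mul_pow]
    exact Nat.mul_le_mul (iha ha (fun p hp hpa => h p hp (hpa.mul_right b)))
      (ihb hb (fun p hp hpb => h p hp (hpb.mul_left a)))

private theorem Fib_X (f : Fam) (m : ℤ) (R : ℕ) (hR : 1 ≤ R) (hm : m ^ 8 ≤ R) :
    |(f.X m : ℝ)| ≤ |(f.c0 : ℝ)| * (1 + |(f.D0 : ℝ)|) * √(R : ℝ) := by
  have hR1 : (1 : ℝ) ≤ R := by exact_mod_cast hR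
  have hs1 : 1 ≤ √(R : ℝ) := Real.one_le_sqrt.2 hR1
  have h8 : (m : ℝ) ^ 8 ≤ R := by exact_mod_cast hm
  have h4 : (m : ℝ) ^ 4 ≤ √(R : ℝ) := by
    apply Real.le_sqrt_of_sq_le
    calc ((m : ℝ) ^ 4) ^ 2 = (m : ℝ) ^ 8 := by ring
      _ ≤ (R : ℝ) := h8
  have h2 : (m : ℝ) ^ 2 ≤ √(R : ℝ) := by
    have h5 : (m : ℝ) ^ 4 ≤ (√(R : ℝ)) ^ 2 := by nlinarith
    have h6 : ((m : ℝ) ^ 2) ^ 2 ≤ (√(R : ℝ)) ^ 2 := by
      calc ((m : ℝ) ^ 2) ^ 2 = (m : ℝ) ^ 4 := by ring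
        _ ≤ _ := h5
    exact (pow_le_pow_iff_left₀ (sq_nonneg _) (by linarith) two_ne_zero).1 h6
  unfold Fam.X
  push_cast
  rw [abs_mul, mul_assoc]
  apply mul_le_mul_of_nonneg_left _ (abs_nonneg _)
  refine (abs_add_le _ _).trans ?_
  rw [abs_of_nonneg (sq_nonneg (m : ℝ))]
  have h7 : |(f.D0 : ℝ)| ≤ |(f.D0 : ℝ)| * √(R : ℝ) := by
    nlinarith [abs_nonneg (f.D0 : ℝ)]
  linarith

/-- the two congruences -/
private theorem Fib_dvd {τ x y x0 y0 x' y' nz nz0 nz' : ℤ} {p k : ℕ} (ν : ℤ) (hp : p.Prime)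
    (hk : k ≠ 0)
    (e : nz = x ^ 2 + τ * x * y + ν * y ^ 2) (e0 : nz0 = x0 ^ 2 + τ * x0 * y0 + ν * y0 ^ 2)
    (e' : nz' = x' ^ 2 + τ * x' * y' + ν * y' ^ 2)
    (hz : (p : ℤ) ^ k ∣ nz) (hz0 : (p : ℤ) ^ k ∣ nz0) (hz' : (p : ℤ) ^ k ∣ nz')
    (hy : ¬ (p : ℤ) ∣ y) (hy0 : ¬ (p : ℤ) ∣ y0) (hy' : ¬ (p : ℤ) ∣ y')
    (hdisc : ¬ (p : ℤ) ∣ τ ^ 2 - 4 * ν)
    (hT : (p : ℤ) ∣ x * y0 - x0 * y ↔ (p : ℤ) ∣ x' * y0 - x0 * y') :
    (p : ℤ) ^ k ∣ x * y' - x' * y := by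
  have hpp : Prime (p : ℤ) := Nat.prime_iff_prime_int.1 hp
  have hpk : ∀ a : ℤ, (p : ℤ) ^ k ∣ a → (p : ℤ) ∣ a := fun a ha => (dvd_pow_self _ hk).trans ha
  -- not both factors are divisible by `p`
  have notboth : ∀ (u v : ℤ), ¬ (p : ℤ) ∣ v → ¬ ((p : ℤ) ∣ u * y0 - x0 * v ∧
      (p : ℤ) ∣ u * y0 + x0 * v + τ * v * y0) := by
    rintro u v hv ⟨h1, h2⟩
    have h3 := dvd_sub h2 h1
    have h4 : (u * y0 + x0 * v + τ * v * y0) - (u * y0 - x0 * v) = v * (2 * x0 + τ * y0) := by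
      ring
    rw [h4] at h3
    have h5 := (hpp.dvd_or_dvd h3).resolve_left hv
    have h6 : (p : ℤ) ∣ (τ ^ 2 - 4 * ν) * y0 ^ 2 := by
      have h7 : (τ ^ 2 - 4 * ν) * y0 ^ 2 =
          (2 * x0 + τ * y0) * (2 * x0 + τ * y0) - 4 * nz0 := by rw [e0]; ring
      rw [h7]
      exact dvd_sub (h5.mul_right _) ((hpk _ hz0).mul_left _)
    rcases hpp.dvd_or_dvd h6 with h8 | h8
    · exact hdisc h8
    · exact hy0 (hpp.dvd_of_dvd_pow h8)
  have prod : ∀ (u v nw : ℤ), nw = u ^ 2 + τ * u * v + ν * v ^ 2 → (p : ℤ) ^ k ∣ nw →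
      (p : ℤ) ^ k ∣ (u * y0 - x0 * v) * (u * y0 + x0 * v + τ * v * y0) := by
    intro u v nw hnw hd
    have h1 : (u * y0 - x0 * v) * (u * y0 + x0 * v + τ * v * y0) =
        nw * y0 ^ 2 - nz0 * v ^ 2 := by rw [hnw, e0]; ring
    rw [h1]
    exact dvd_sub (hd.mul_right _) (hz0.mul_right _)
  have fin : ∀ w : ℤ, (p : ℤ) ^ k ∣ y0 * w → (p : ℤ) ^ k ∣ w := by
    intro w hw
    have hcop : IsCoprime ((p : ℤ) ^ k) y0 := by
      apply IsCoprime.pow_left
      exact (Prime.coprime_iff_not_dvd hpp).2 hy0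
    exact hcop.dvd_of_dvd_mul_left hw
  have splitL : ∀ (u v : ℤ), ¬ (p : ℤ) ∣ u → (p : ℤ) ^ k ∣ u * v → (p : ℤ) ^ k ∣ v := by
    intro u v hu h
    have hcop : IsCoprime ((p : ℤ) ^ k) u := by
      apply IsCoprime.pow_left
      exact (Prime.coprime_iff_not_dvd hpp).2 hu
    exact hcop.dvd_of_dvd_mul_left h
  apply fin
  by_cases hU : (p : ℤ) ∣ x * y0 - x0 * y
  · have hU' := hT.1 hU
    have hV : ¬ (p : ℤ) ∣ x * y0 + x0 * y + τ * y * y0 := fun h => notboth x y hy ⟨hU, h⟩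
    have hV' : ¬ (p : ℤ) ∣ x' * y0 + x0 * y' + τ * y' * y0 := fun h =>
      notboth x' y' hy' ⟨hU', h⟩
    have k1 : (p : ℤ) ^ k ∣ x * y0 - x0 * y := by
      apply splitL _ _ hV
      rw [mul_comm]
      exact prod x y nz e hz
    have k2 : (p : ℤ) ^ k ∣ x' * y0 - x0 * y' := by
      apply splitL _ _ hV'
      rw [mul_comm]
      exact prod x' y' nz' e' hz'
    have h9 : y0 * (x * y' - x' * y) = y' * (x * y0 - x0 * y) - y * (x' * y0 - x0 * y') := by
      ring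
    rw [h9]
    exact dvd_sub (k1.mul_left _) (k2.mul_left _)
  · have hU' : ¬ (p : ℤ) ∣ x' * y0 - x0 * y' := fun h => hU (hT.2 h)
    have k1 : (p : ℤ) ^ k ∣ x * y0 + x0 * y + τ * y * y0 := splitL _ _ hU (prod x y nz e hz)
    have k2 : (p : ℤ) ^ k ∣ x' * y0 + x0 * y' + τ * y' * y0 :=
      splitL _ _ hU' (prod x' y' nz' e' hz')
    have h9 : y0 * (x * y' - x' * y) = y' * (x * y0 + x0 * y + τ * y * y0) -
        y * (x' * y0 + x0 * y' + τ * y' * y0) := by ring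
    rw [h9]
    exact dvd_sub (k1.mul_left _) (k2.mul_left _)

/-- sizes: the sign and the lower bound -/
private theorem Fib_size (f : Fam) {q C ρ : ℕ} {m y : ℤ} (h : Gd f q C ρ m y)
    (hx : 2 * (1 + |f.tau|) * |f.X m| ≤ y) :
    0 < (f.nu * f.As) * f.Az m y ∧ y ^ 2 ≤ 2 * |f.As| * |f.Az m y| := by
  have hnu : 1 ≤ |f.nu| := Int.one_le_abs Fam.nu_ne_zero
  have e := Fam.As_mul_Az h.adm
  obtain ⟨x, hxx⟩ : ∃ x, x = f.X m := ⟨_, rfl⟩
  have hn : f.nn m y = x ^ 2 + f.tau * x * y + f.nu * y ^ 2 := by rw [hxx]; rfl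
  rw [← hxx] at hx
  have hy := h.y1
  have ht : 0 ≤ |f.tau| := abs_nonneg _
  have hx0 : 0 ≤ |x| := abs_nonneg _
  have hxy : |x| ≤ y := by nlinarith
  have hE : 2 * |x ^ 2 + f.tau * x * y| ≤ y ^ 2 := by
    have h1 : |x ^ 2 + f.tau * x * y| ≤ |x| * |x| + |f.tau| * |x| * y := by
      refine (abs_add_le _ _).trans ?_
      rw [abs_mul, abs_mul, abs_of_nonneg (show (0 : ℤ) ≤ y by linarith), sq, abs_mul]
    have h2 : |x| * |x| ≤ |x| * y := mul_le_mul_of_nonneg_left hxy hx0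
    have h3 : (2 * (1 + |f.tau|) * |x|) * y ≤ y * y :=
      mul_le_mul_of_nonneg_right hx (by linarith)
    nlinarith
  obtain ⟨E, hEE⟩ : ∃ E, E = x ^ 2 + f.tau * x * y := ⟨_, rfl⟩
  rw [← hEE] at hn hE
  have hnu2 : f.nu * f.nu = |f.nu| * |f.nu| := (abs_mul_abs_self f.nu).symm
  have hy2 : 0 < y ^ 2 := by positivity
  constructor
  · have h1 : f.nu * f.As * f.Az m y = f.nu * E + f.nu * f.nu * y ^ 2 := by
      rw [mul_assoc, e, hn]; ring
    rw [h1, hnu2]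
    have h2 : -(|f.nu| * |E|) ≤ f.nu * E := by
      rw [← abs_mul]
      exact neg_abs_le _
    have h3 : |f.nu| * (2 * |E|) ≤ |f.nu| * y ^ 2 := mul_le_mul_of_nonneg_left hE (by linarith)
    have h4 : |f.nu| * y ^ 2 ≤ |f.nu| * |f.nu| * y ^ 2 := by
      apply mul_le_mul_of_nonneg_right _ hy2.le
      nlinarith
    have h5 : 0 < |f.nu| * y ^ 2 := by positivity
    nlinarith
  · have h1 : 2 * |f.As| * |f.Az m y| = 2 * |E + f.nu * y ^ 2| := by
      rw [mul_assoc, ← abs_mul, e, hn]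
    rw [h1]
    have h2 : |f.nu * y ^ 2| = |f.nu| * y ^ 2 := by rw [abs_mul, abs_of_pos hy2]
    have h3 : |f.nu * y ^ 2| ≤ |E + f.nu * y ^ 2| + |E| := by
      have h4 : f.nu * y ^ 2 = (E + f.nu * y ^ 2) - E := by ring
      calc |f.nu * y ^ 2| = |(E + f.nu * y ^ 2) - E| := by rw [← h4]
        _ ≤ |E + f.nu * y ^ 2| + |E| := abs_sub _ _
    have h5 : y ^ 2 ≤ |f.nu| * y ^ 2 := by nlinarith
    linarith

theorem st_fib (f : Fam) : ∃ P2 : ℕ, 0 < P2 ∧ ∀ q : ℕ, 0 < q → P2 ∣ q → ∀ C : ℕ, 1 ≤ C →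
    ∃ Λ C1 ρ0 : ℕ, ∀ ρ : ℕ, ρ0 ≤ ρ →
      (∀ m y : ℤ, Gd f q C ρ m y → (f.Az m y).natAbs ≤ C1 * ρ ^ 2 ∧
        ArithmeticFunction.cardFactors (f.Az m y).natAbs ≤ Λ) ∧
      (∃ σ : ℤ, (σ = 1 ∨ σ = -1) ∧ ∀ m y : ℤ, Gd f q C ρ m y → 0 < σ * f.Az m y) ∧
      ∀ Z : Finset (ℤ × ℤ), (∀ z ∈ Z, Gd f q C ρ z.1 z.2) → ∀ b : ℕ,
        (Z.filter (fun z => (f.Az z.1 z.2).natAbs = b)).card ≤ 2 ^ Λ := by
  have hdisc : f.tau ^ 2 - 4 * f.nu ≠ 0 := by
    intro h
    apply f.hns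
    rw [h]
    exact ⟨0, by ring⟩
  refine ⟨2 * (f.tau ^ 2 - 4 * f.nu).natAbs, ?_, ?_⟩
  · have := Int.natAbs_pos.2 hdisc
    positivity
  intro q hq hPq C hC
  have hdq : (f.tau ^ 2 - 4 * f.nu) ∣ (q : ℤ) := by
    rw [← Int.natAbs_dvd]
    exact Int.natCast_dvd_natCast.2 ((dvd_mul_left _ _).trans hPq)
  -- real constants
  obtain ⟨a, ha⟩ : ∃ a : ℝ, a = |(f.c0 : ℝ)| * (1 + |(f.D0 : ℝ)|) := ⟨_, rfl⟩
  obtain ⟨tt, htt⟩ : ∃ t : ℝ, t = |(f.tau : ℝ)| := ⟨_, rfl⟩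
  obtain ⟨S, hS⟩ : ∃ S : ℝ, S = |(f.As : ℝ)| := ⟨_, rfl⟩
  obtain ⟨g, hg⟩ : ∃ g : ℝ, g = (q : ℝ) * |(f.As : ℝ)| + 1 := ⟨_, rfl⟩
  have ha0 : 0 ≤ a := by rw [ha]; positivity
  have ht0 : 0 ≤ tt := by rw [htt]; positivity
  have hS1 : 1 ≤ S := by
    rw [hS]
    have h1 : 1 ≤ |f.As| := Int.one_le_abs Fam.As_ne_zero
    have h2 : ((1 : ℤ) : ℝ) ≤ ((|f.As| : ℤ) : ℝ) := Int.cast_le.2 h1
    rw [Int.cast_abs] at h2
    simpa using h2
  have hg1 : 1 ≤ g := by rw [hg]; linarith [show 0 ≤ (q : ℝ) * |(f.As : ℝ)| by positivity]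
  obtain ⟨C1, hC1⟩ := exists_nat_gt (a ^ 2 + tt * a * g + |(f.nu : ℝ)| * g ^ 2)
  have hev : ∀ᶠ R : ℕ in Filter.atTop,
      ((2 * (1 + tt) * a + 4 * S * a * g + 1) * Real.log R ^ (2 * (C + 2)) ≤ √(R : ℝ)) ∧
      (1 : ℝ) ≤ Real.log R ∧ 2 ≤ R ∧ C1 ≤ R := by
    refine Filter.Eventually.and ?_ (Filter.Eventually.and ?_
      ((Filter.eventually_ge_atTop 2).and (Filter.eventually_ge_atTop _)))
    · exact Fib_log_ev _ _ (by positivity)
    · exact (Real.tendsto_log_atTop.comp tendsto_natCast_atTop_atTop).eventually_ge_atTop _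
  obtain ⟨ρ0, hρ0⟩ := Filter.eventually_atTop.1 hev
  refine ⟨3 * C, C1, ρ0, ?_⟩
  intro ρ hρ
  obtain ⟨e1, e2, e3, e4⟩ := hρ0 ρ hρ
  have hρR : (2 : ℝ) ≤ ρ := by exact_mod_cast e3
  obtain ⟨L, hL⟩ : ∃ L, L = Real.log ρ := ⟨_, rfl⟩
  rw [← hL] at e1 e2
  obtain ⟨s, hs⟩ : ∃ s, s = √(ρ : ℝ) := ⟨_, rfl⟩
  rw [← hs] at e1
  have hss : s * s = ρ := by rw [hs]; exact Real.mul_self_sqrt (by linarith)
  have hs1 : 1 ≤ s := by rw [hs]; exact Real.one_le_sqrt.2 (by linarith)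
  have hsρ : s ≤ ρ := by nlinarith
  have hL0 : 0 < L := by linarith
  obtain ⟨W, hW⟩ : ∃ W, W = L ^ (C + 2) := ⟨_, rfl⟩
  have hW1 : 1 ≤ W := by rw [hW]; exact one_le_pow₀ e2
  have hWW : L ^ (2 * (C + 2)) = W * W := by rw [hW, ← pow_add]; congr 1; ring
  rw [hWW] at e1
  -- sizes in the reals
  have hx : ∀ m y : ℤ, Gd f q C ρ m y → |(f.X m : ℝ)| ≤ a * s := by
    intro m y h
    rw [ha, hs]
    exact Fib_X f m ρ (by omega) h.m8
  have hyu : ∀ m y : ℤ, Gd f q C ρ m y → (y : ℝ) ≤ g * ρ := by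
    intro m y h
    have h1 := h.y2
    have h2 : (y : ℝ) ≤ (((q * |f.As| + 1) * ρ : ℤ) : ℝ) := Int.cast_le.2 h1
    rw [hg]
    push_cast at h2
    exact h2
  have hyl : ∀ m y : ℤ, Gd f q C ρ m y → (ρ : ℝ) ≤ y * W := by
    intro m y h
    have h1 := h.y3
    rw [← hL, ← hW] at h1
    exact h1
  have hy0 : ∀ m y : ℤ, Gd f q C ρ m y → (1 : ℝ) ≤ y := by
    intro m y h
    exact_mod_cast h.y1
  -- `2 (1 + |τ|) |x| ≤ y`
  have hxy : ∀ m y : ℤ, Gd f q C ρ m y → 2 * (1 + |f.tau|) * |f.X m| ≤ y := by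
    intro m y h
    have h1 := hx m y h
    have h2 := hyl m y h
    have h3 := hy0 m y h
    have h4 : 2 * (1 + tt) * |(f.X m : ℝ)| ≤ y := by
      have h5 : 2 * (1 + tt) * a * W ≤ s := by
        refine le_trans ?_ e1
        have h6 : W ≤ W * W := by nlinarith
        have h7 : 0 ≤ 2 * (1 + tt) * a := by positivity
        have h8 : 0 ≤ 4 * S * a * g := by positivity
        nlinarith [mul_le_mul_of_nonneg_left h6 h7]
      have h6 : (2 * (1 + tt) * (a * s)) * W ≤ y * W := by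
        calc (2 * (1 + tt) * (a * s)) * W = (2 * (1 + tt) * a * W) * s := by ring
          _ ≤ s * s := mul_le_mul_of_nonneg_right h5 (by linarith)
          _ = ρ := hss
          _ ≤ y * W := h2
      have h7 : 2 * (1 + tt) * (a * s) ≤ y := le_of_mul_le_mul_right h6 (by linarith)
      refine le_trans ?_ h7
      exact mul_le_mul_of_nonneg_left h1 (by positivity)
    have h5 : ((2 * (1 + |f.tau|) * |f.X m| : ℤ) : ℝ) ≤ (y : ℝ) := by
      push_cast
      rw [htt] at h4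
      exact h4
    exact_mod_cast h5
  have hsize : ∀ m y : ℤ, Gd f q C ρ m y →
      0 < (f.nu * f.As) * f.Az m y ∧ y ^ 2 ≤ 2 * |f.As| * |f.Az m y| := fun m y h =>
    Fib_size f h (hxy m y h)
  have hne : ∀ m y : ℤ, Gd f q C ρ m y → f.Az m y ≠ 0 := fun m y h => Fam.Az_ne_zero h.adm
  have hup : ∀ m y : ℤ, Gd f q C ρ m y → (f.Az m y).natAbs ≤ C1 * ρ ^ 2 := by
    intro m y h
    have h1 := hx m y h
    have h2 := hyu m y h
    have h3 := hy0 m y h
    have e := Fam.As_mul_Az h.adm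
    have h4 : |(f.As : ℝ)| * |(f.Az m y : ℝ)| =
        |(f.X m : ℝ) ^ 2 + f.tau * f.X m * y + f.nu * (y : ℝ) ^ 2| := by
      rw [← abs_mul]
      congr 1
      have h5 : ((f.As * f.Az m y : ℤ) : ℝ) = ((f.nn m y : ℤ) : ℝ) := by rw [e]
      unfold Fam.nn at h5
      push_cast at h5
      exact h5
    have h5 : |(f.Az m y : ℝ)| ≤ |(f.As : ℝ)| * |(f.Az m y : ℝ)| := by
      rw [← hS]
      nlinarith [abs_nonneg (f.Az m y : ℝ)]
    have h6 : |(f.X m : ℝ) ^ 2 + f.tau * f.X m * y + f.nu * (y : ℝ) ^ 2| ≤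
        |(f.X m : ℝ)| ^ 2 + tt * |(f.X m : ℝ)| * y + |(f.nu : ℝ)| * (y : ℝ) ^ 2 := by
      refine (abs_add_le _ _).trans (add_le_add ((abs_add_le _ _).trans (add_le_add ?_ ?_)) ?_)
      · rw [abs_pow]
      · rw [abs_mul, abs_mul, abs_of_nonneg (show (0 : ℝ) ≤ y by linarith), htt]
      · rw [abs_mul, abs_of_nonneg (sq_nonneg (y : ℝ))]
    have h7 : |(f.X m : ℝ)| ≤ a * ρ := h1.trans (mul_le_mul_of_nonneg_left hsρ ha0)
    have h8 : |(f.X m : ℝ)| ^ 2 ≤ (a * ρ) ^ 2 := pow_le_pow_left₀ (abs_nonneg _) h7 2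
    have h9 : tt * |(f.X m : ℝ)| * y ≤ tt * (a * ρ) * (g * ρ) := by
      apply mul_le_mul _ h2 (by linarith) (by positivity)
      exact mul_le_mul_of_nonneg_left h7 ht0
    have h10 : |(f.nu : ℝ)| * (y : ℝ) ^ 2 ≤ |(f.nu : ℝ)| * (g * ρ) ^ 2 :=
      mul_le_mul_of_nonneg_left (pow_le_pow_left₀ (by linarith) h2 2) (abs_nonneg _)
    have h11 : (a * ρ) ^ 2 + tt * (a * ρ) * (g * ρ) + |(f.nu : ℝ)| * (g * ρ) ^ 2 =
        (a ^ 2 + tt * a * g + |(f.nu : ℝ)| * g ^ 2) * (ρ : ℝ) ^ 2 := by ring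
    have h12 : (a ^ 2 + tt * a * g + |(f.nu : ℝ)| * g ^ 2) * (ρ : ℝ) ^ 2 ≤ C1 * (ρ : ℝ) ^ 2 :=
      mul_le_mul_of_nonneg_right hC1.le (by positivity)
    have h13 : |(f.Az m y : ℝ)| ≤ C1 * (ρ : ℝ) ^ 2 := by linarith
    have h14 : ((f.Az m y).natAbs : ℝ) = |(f.Az m y : ℝ)| := by
      rw [Nat.cast_natAbs, Int.cast_abs]
    rw [← h14] at h13
    exact_mod_cast h13
  have hom : ∀ m y : ℤ, Gd f q C ρ m y →
      ArithmeticFunction.cardFactors (f.Az m y).natAbs ≤ 3 * C := by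
    intro m y h
    have h0 : (f.Az m y).natAbs ≠ 0 := Int.natAbs_ne_zero.2 (hne m y h)
    have h1 := Fib_omega C ρ (f.Az m y).natAbs h0
      (fun p hp hpd => (h.pr p hp (Int.natCast_dvd.2 hpd)).le)
    have h2 : (f.Az m y).natAbs ^ C ≤ (ρ ^ 3) ^ C := by
      apply Nat.pow_le_pow_left
      refine (hup m y h).trans ?_
      have h3 : ρ ^ 3 = ρ * ρ ^ 2 := by ring
      rw [h3]
      exact Nat.mul_le_mul_right _ e4
    rw [← pow_mul] at h2
    exact (Nat.pow_le_pow_iff_right (by omega)).1 (h1.trans h2)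
  refine ⟨fun m y h => ⟨hup m y h, hom m y h⟩, ?_, ?_⟩
  · -- the sign
    have hνA : f.nu * f.As ≠ 0 := mul_ne_zero Fam.nu_ne_zero Fam.As_ne_zero
    rcases lt_or_gt_of_ne hνA with h1 | h1
    · refine ⟨-1, Or.inr rfl, ?_⟩
      intro m y h
      have h2 := (hsize m y h).1
      have h3 : f.Az m y < 0 := by
        by_contra h4
        push Not at h4
        nlinarith
      linarith
    · refine ⟨1, Or.inl rfl, ?_⟩
      intro m y h
      have h2 := (hsize m y h).1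
      rw [one_mul]
      exact (mul_pos_iff_of_pos_left h1).1 h2
  · -- the fibres
    intro Z hZ b
    classical
    rcases (Z.filter (fun z => (f.Az z.1 z.2).natAbs = b)).eq_empty_or_nonempty with hemp | hnon
    · rw [hemp, Finset.card_empty]
      exact Nat.zero_le _
    obtain ⟨z0, hz0⟩ := hnon
    rw [Finset.mem_filter] at hz0
    have hG0 := hZ z0 hz0.1
    have hb0 : b ≠ 0 := by
      rw [← hz0.2]
      exact Int.natAbs_ne_zero.2 (hne _ _ hG0)
    have hΩ : ArithmeticFunction.cardFactors b ≤ 3 * C := by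
      rw [← hz0.2]
      exact hom _ _ hG0
    have hω : b.primeFactors.card ≤ 3 * C := by
      refine le_trans ?_ hΩ
      rw [ArithmeticFunction.cardFactors_apply]
      exact List.toFinset_card_le b.primeFactorsList
    -- facts about one element
    have hbn : ∀ z ∈ Z, (f.Az z.1 z.2).natAbs = b → (b : ℤ) ∣ f.nn z.1 z.2 := by
      intro z hz hzb
      rw [← Fam.As_mul_Az (hZ z hz).adm, ← hzb]
      exact (Int.natAbs_dvd.2 (dvd_refl _)).mul_left _
    have hpq : ∀ p : ℕ, p.Prime → p ∣ b → ¬ (p : ℤ) ∣ (q : ℤ) := by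
      intro p hp hpb h
      have hpp : Prime (p : ℤ) := Nat.prime_iff_prime_int.1 hp
      have h1 : (p : ℤ) ∣ f.Az z0.1 z0.2 := by
        rw [Int.natCast_dvd, hz0.2]
        exact hpb
      have h2 := h.trans (Fam.dvd_Az hG0.adm)
      have h3 := dvd_sub h1 h2
      have h4 : f.Az z0.1 z0.2 - (f.Az z0.1 z0.2 - 1) = 1 := by ring
      rw [h4] at h3
      exact hpp.not_dvd_one h3
    have hpy : ∀ z ∈ Z, (f.Az z.1 z.2).natAbs = b → ∀ p : ℕ, p.Prime → p ∣ b →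
        ¬ (p : ℤ) ∣ z.2 := by
      intro z hz hzb p hp hpb h
      have hpp : Prime (p : ℤ) := Nat.prime_iff_prime_int.1 hp
      have h1 : (p : ℤ) ∣ f.nn z.1 z.2 :=
        (Int.natCast_dvd_natCast.2 hpb).trans (hbn z hz hzb)
      have h2 : (p : ℤ) ∣ f.X z.1 ^ 2 := by
        have h3 : f.X z.1 ^ 2 = f.nn z.1 z.2 -
            z.2 * (f.tau * f.X z.1 + f.nu * z.2) := by
          unfold Fam.nn
          ring
        rw [h3]
        exact dvd_sub h1 (h.mul_right _)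
      have h4 := hpp.dvd_of_dvd_pow h2
      exact hpp.not_dvd_one ((hZ z hz).cop.isUnit_of_dvd' h4 h).dvd
    have hcard : (Z.filter (fun z => (f.Az z.1 z.2).natAbs = b)).card ≤
        (b.primeFactors.powerset).card := by
      apply Finset.card_le_card_of_injOn (fun z : ℤ × ℤ => b.primeFactors.filter
        (fun p : ℕ => (p : ℤ) ∣ f.X z.1 * z0.2 - f.X z0.1 * z.2))
      · intro z _
        rw [Finset.mem_coe, Finset.mem_powerset]
        exact Finset.filter_subset _ _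
      · intro z hz z' hz' heq
        rw [Finset.mem_coe, Finset.mem_filter] at hz hz'
        have hG := hZ z hz.1
        have hG' := hZ z' hz'.1
        have hTT : ∀ p : ℕ, p.Prime → p ∣ b →
            ((p : ℤ) ∣ f.X z.1 * z0.2 - f.X z0.1 * z.2 ↔
              (p : ℤ) ∣ f.X z'.1 * z0.2 - f.X z0.1 * z'.2) := by
          intro p hp hpb
          have hpf : p ∈ b.primeFactors := Nat.mem_primeFactors.2 ⟨hp, hpb, hb0⟩
          have h1 : (p ∈ b.primeFactors.filter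
              (fun p : ℕ => (p : ℤ) ∣ f.X z.1 * z0.2 - f.X z0.1 * z.2)) ↔
              (p ∈ b.primeFactors.filter
              (fun p : ℕ => (p : ℤ) ∣ f.X z'.1 * z0.2 - f.X z0.1 * z'.2)) := by
            rw [show b.primeFactors.filter
              (fun p : ℕ => (p : ℤ) ∣ f.X z.1 * z0.2 - f.X z0.1 * z.2) =
              b.primeFactors.filter
              (fun p : ℕ => (p : ℤ) ∣ f.X z'.1 * z0.2 - f.X z0.1 * z'.2) from heq]
          rw [Finset.mem_filter, Finset.mem_filter] at h1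
          constructor
          · intro h2
            exact (h1.1 ⟨hpf, h2⟩).2
          · intro h2
            exact (h1.2 ⟨hpf, h2⟩).2
        have hdvd : (b : ℤ) ∣ f.X z.1 * z'.2 - f.X z'.1 * z.2 := by
          rw [Int.natCast_dvd, Nat.dvd_iff_prime_pow_dvd_dvd]
          intro p k hp hpk
          by_cases hk : k = 0
          · rw [hk, pow_zero]
            exact one_dvd _
          · have hpb : p ∣ b := (dvd_pow_self _ hk).trans hpk
            have hpkZ : ((p : ℤ) ^ k) ∣ (b : ℤ) := by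
              have := Int.natCast_dvd_natCast.2 hpk
              push_cast at this
              exact this
            rw [← Int.natCast_dvd]
            push_cast
            exact Fib_dvd (τ := f.tau) (nz := f.nn z.1 z.2) (nz0 := f.nn z0.1 z0.2)
              (nz' := f.nn z'.1 z'.2) (x0 := f.X z0.1) (y0 := z0.2) f.nu hp hk rfl rfl rfl
              (hpkZ.trans (hbn z hz.1 hz.2)) (hpkZ.trans (hbn z0 hz0.1 hz0.2))
              (hpkZ.trans (hbn z' hz'.1 hz'.2)) (hpy z hz.1 hz.2 p hp hpb)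
              (hpy z0 hz0.1 hz0.2 p hp hpb) (hpy z' hz'.1 hz'.2 p hp hpb)
              (fun h => hpq p hp hpb (h.trans hdq)) (hTT p hp hpb)
        -- the size
        have hlt : |f.X z.1 * z'.2 - f.X z'.1 * z.2| < (b : ℤ) := by
          have x1 := hx _ _ hG
          have x2 := hx _ _ hG'
          have y1 := hyu _ _ hG
          have y2 := hyu _ _ hG'
          have w1 := hy0 _ _ hG
          have w2 := hy0 _ _ hG'
          have l1 := hyl _ _ hG
          have h1 : |(f.X z.1 : ℝ) * z'.2 - f.X z'.1 * z.2| ≤ 2 * (a * s) * (g * ρ) := by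
            refine (abs_sub _ _).trans ?_
            rw [abs_mul, abs_mul, abs_of_nonneg (show (0 : ℝ) ≤ z'.2 by linarith),
              abs_of_nonneg (show (0 : ℝ) ≤ z.2 by linarith)]
            have h2 : |(f.X z.1 : ℝ)| * z'.2 ≤ (a * s) * (g * ρ) :=
              mul_le_mul x1 y2 (by linarith) (by positivity)
            have h3 : |(f.X z'.1 : ℝ)| * z.2 ≤ (a * s) * (g * ρ) :=
              mul_le_mul x2 y1 (by linarith) (by positivity)
            linarith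
          have h2 := (hsize _ _ hG).2
          have h3 : ((z.2 : ℝ)) ^ 2 ≤ 2 * S * b := by
            have h4 : ((z.2 ^ 2 : ℤ) : ℝ) ≤ ((2 * |f.As| * |f.Az z.1 z.2| : ℤ) : ℝ) :=
              Int.cast_le.2 h2
            push_cast at h4
            have h5 : ((b : ℕ) : ℝ) = |(f.Az z.1 z.2 : ℝ)| := by
              rw [← hz.2, Nat.cast_natAbs, Int.cast_abs]
            rw [h5, hS]
            exact h4
          have h4 : (ρ : ℝ) ^ 2 ≤ (2 * S * b) * (W * W) := by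
            calc (ρ : ℝ) ^ 2 ≤ (z.2 * W) ^ 2 := pow_le_pow_left₀ (by linarith) l1 2
              _ = (z.2 : ℝ) ^ 2 * (W * W) := by ring
              _ ≤ (2 * S * b) * (W * W) := mul_le_mul_of_nonneg_right h3 (by positivity)
          have h5 : 4 * S * a * g * (W * W) < s := by
            have h6 : 0 ≤ 2 * (1 + tt) * a * (W * W) := by positivity
            have h7 : 1 ≤ W * W := by nlinarith
            nlinarith
          have h6 : (2 * (a * s) * (g * ρ)) * (2 * S * (W * W)) < (ρ : ℝ) ^ 2 := by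
            calc (2 * (a * s) * (g * ρ)) * (2 * S * (W * W)) =
                (4 * S * a * g * (W * W)) * (s * ρ) := by ring
              _ < s * (s * ρ) := by
                apply mul_lt_mul_of_pos_right h5
                apply mul_pos (by linarith) (by linarith)
              _ = (ρ : ℝ) ^ 2 := by rw [← mul_assoc, hss, sq]
          have h7 : (2 * (a * s) * (g * ρ)) * (2 * S * (W * W)) < b * (2 * S * (W * W)) := by
            refine lt_of_lt_of_le h6 (h4.trans (le_of_eq ?_))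
            ring
          have h8 : 2 * (a * s) * (g * ρ) < b := lt_of_mul_lt_mul_right h7 (by positivity)
          have h9 : ((|f.X z.1 * z'.2 - f.X z'.1 * z.2| : ℤ) : ℝ) < ((b : ℤ) : ℝ) := by
            push_cast
            linarith
          exact_mod_cast h9
        have hzero : f.X z.1 * z'.2 - f.X z'.1 * z.2 = 0 :=
          Int.eq_zero_of_abs_lt_dvd hdvd hlt
        have hxx : f.X z.1 * z'.2 = f.X z'.1 * z.2 := by linarith
        have hyy : z.2 = z'.2 := by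
          have d1 : z.2 ∣ z'.2 := by
            have h1 : z.2 ∣ f.X z.1 * z'.2 := by rw [hxx]; exact dvd_mul_left _ _
            exact hG.cop.symm.dvd_of_dvd_mul_left h1
          have d2 : z'.2 ∣ z.2 := by
            have h1 : z'.2 ∣ f.X z'.1 * z.2 := by rw [← hxx]; exact dvd_mul_left _ _
            exact hG'.cop.symm.dvd_of_dvd_mul_left h1
          exact Int.dvd_antisymm (by linarith [hG.y1]) (by linarith [hG'.y1]) d1 d2
        have hX : f.X z.1 = f.X z'.1 := by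
          rw [hyy] at hxx
          exact mul_right_cancel₀ (show z'.2 ≠ 0 by linarith [hG'.y1]) hxx
        have hm : z.1 = z'.1 := by
          unfold Fam.X at hX
          have h1 := mul_left_cancel₀ f.hc hX
          have h2 : z.1 ^ 2 = z'.1 ^ 2 := by linarith
          exact (pow_left_inj₀ hG.m0 hG'.m0 two_ne_zero).1 h2
        exact Prod.ext hm hyy
    refine hcard.trans ?_
    rw [Finset.card_powerset]
    exact Nat.pow_le_pow_right (by norm_num) hω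

end Pool.Agent.BQF
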