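import Pool.Agent.BQF.Horn
import Pool.Agent.BQF.Den

set_option autoImplicit false

/-!
# The near invariant matrices `(A'(m, y), -q j; 0, 1)`

PROOF. `f = famOf c`, `N = c.N`. Get `P, C0'` from `st_horner` and `C1` from `st_den`. Put
`P0 = |P * KK c| * N ^ 5` (positive: `KK_ne_zero`). Let `P0 ∣ q`, `q > 0`, and let `m, y` be
admissible: `q As ∣ m - 1`, `q As ∣ y - 1` (`f.m0 = 1`). Notation:
`ζ = (1, N)`, `n2 = n2 c (m, N)`, `X = f.X m = N * n2`, `X1 = f.X 1`, `zs = (1 - X1, N)`,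
`v' = (y - X, y N)`, `nf = f.nu = n1 c ζ`, `u = -(m ^ 2 - 1)`, `y - 1 = N ^ 2 k'`, `a = k' nf`.
Facts by `ring`: `n1 c zs = f.As`, `n1 c v' = f.nn m y`, `zs` and `v'` are `= (1, 0) mod N`, non zero.
All of the following matrices are near invariant with cost `≤ ρ ^ const` (the entries are polynomials
in `m, y` with constant coefficients; `a` and `a'` below are multiples of `P KK N ^ 3`):
`K1(conj v')`, `K1(ζ)`, `mU n2 a` (`st_den`; `N ^ 5 P KK ∣ q ∣ y - 1`), `adj K1(ζ)`,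
`mU 1 u` (`st_horner`; `P ∣ q ∣ m - 1 ∣ u`), `K1(zs)`. Their product is
`Mi = K1(conj v') K1(ζ) (mU n2 a) (adj K1(ζ)) (mU 1 u) K1(zs) = nf * (n2 A, x'; 0, n2 As)`,
`A = f.nn m y`, where (checked by computer) with `g2 = (1 - X1) + τ N`, `g1 = -ν N + u g2`,
`x' = n2 ((v'.1 + τ v'.2) g1 + ν v'.2 g2) + k' (g2 - N g1) (v'.1 + τ v'.2 + ν v'.2 N)`
(it is `n2 j'` where `j'` is the entry of the product with `mU 1 (a / n2)`).
For `m = 1, y = 1` one has `u = 0, k' = 0`, `v' = zs`, and `x' = 0`. `N ^ 2 x'` is a polynomial in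
`m, y` (replace `N ^ 2 k'` by `y - 1`) with integral coefficients that vanishes at `(1, 1)`, so
`q As ∣ N ^ 2 x'` (write it as `(m - 1) * (..) + (y - 1) * (..)`, or use that `∣` is compatible with
polynomial expressions). `N ^ 5 P KK ∣ q`: so `As P KK N ^ 5 ∣ N ^ 2 x'`, `x' = As P KK N ^ 3 t`. Take
`a' = - P KK N ^ 3 t`: `mU n2 a'` is near invariant (`st_den`, `|t| ≤ |x'|`) and
`mU n2 a' * Mi = nf * (n2 * n2 A, n2 x' + a' n2 As; 0, n2 * n2 As) = (nf n2² As) * (A', 0; 0, 1)`,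
`A' = f.Az m y`, `A = As A'` (`Fam.As_mul_Az`). The scalar `nf n2² As` is non zero and `= 1 mod N`,
remove it by `NI_sm`. Finally multiply on the left by `mU 1 (-(q j))` (`st_horner`, `P ∣ q`):
`(A', -(q j); 0, 1)`. `C0` may depend on `q`: so `q ≤ 2 ^ q ≤ ρ ^ q` etc.
-/

namespace Pool.Agent.BQF

section FinNcalc

variable {T : Type} (ρ : T → ℕ)

/-- polynomially bounded -/
private def FinN_Bd (X : T → ℤ) : Prop := ∃ k : ℕ, ∀ t, |X t| ≤ ((ρ t : ℕ) : ℤ) ^ k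

/-- near invariant with polynomial cost -/
private def FinN_NB (c : Cfg) (M : T → M2) : Prop := ∃ k : ℕ, ∀ t, NI c (M t) (ρ t ^ k)

variable {ρ} (hρ : ∀ t, 2 ≤ ρ t)
include hρ

private theorem FinN_pow_le {a b : ℕ} (h : a ≤ b) (t : T) :
    ((ρ t : ℕ) : ℤ) ^ a ≤ ((ρ t : ℕ) : ℤ) ^ b := by
  have h1 : ρ t ^ a ≤ ρ t ^ b := Nat.pow_le_pow_right (by have := hρ t; omega) h
  exact_mod_cast h1

private theorem FinN_const (a : ℤ) : FinN_Bd ρ (fun _ => a) := ⟨a.natAbs, fun t => by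
  have h1 : a.natAbs ≤ 2 ^ a.natAbs := Nat.lt_two_pow_self.le
  have h2 : 2 ^ a.natAbs ≤ ρ t ^ a.natAbs := Nat.pow_le_pow_left (hρ t) _
  show |a| ≤ _
  rw [← Int.natCast_natAbs a]
  exact_mod_cast h1.trans h2⟩

private theorem FinN_add {X Y : T → ℤ} (hX : FinN_Bd ρ X) (hY : FinN_Bd ρ Y) :
    FinN_Bd ρ (fun t => X t + Y t) := by
  obtain ⟨k, hk⟩ := hX
  obtain ⟨l, hl⟩ := hY
  refine ⟨k + l + 1, fun t => ?_⟩
  have h1 := FinN_pow_le hρ (show k ≤ k + l by omega) t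
  have h2 := FinN_pow_le hρ (show l ≤ k + l by omega) t
  have h3 : (2 : ℤ) ≤ ρ t := by exact_mod_cast hρ t
  have h4 : (0 : ℤ) ≤ ((ρ t : ℕ) : ℤ) ^ (k + l) := by positivity
  calc |X t + Y t| ≤ |X t| + |Y t| := abs_add_le _ _
    _ ≤ ((ρ t : ℕ) : ℤ) ^ (k + l) * 2 := by linarith [hk t, hl t]
    _ ≤ ((ρ t : ℕ) : ℤ) ^ (k + l) * ρ t := mul_le_mul_of_nonneg_left h3 h4
    _ = _ := by rw [pow_succ]

private theorem FinN_mul {X Y : T → ℤ} (hX : FinN_Bd ρ X) (hY : FinN_Bd ρ Y) :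
    FinN_Bd ρ (fun t => X t * Y t) := by
  obtain ⟨k, hk⟩ := hX
  obtain ⟨l, hl⟩ := hY
  refine ⟨k + l, fun t => ?_⟩
  show |X t * Y t| ≤ _
  rw [abs_mul, pow_add]
  exact mul_le_mul (hk t) (hl t) (abs_nonneg _) (by positivity)

private theorem FinN_neg {X : T → ℤ} (hX : FinN_Bd ρ X) : FinN_Bd ρ (fun t => - X t) := by
  obtain ⟨k, hk⟩ := hX
  exact ⟨k, fun t => by rw [abs_neg]; exact hk t⟩

private theorem FinN_sub {X Y : T → ℤ} (hX : FinN_Bd ρ X) (hY : FinN_Bd ρ Y) :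
    FinN_Bd ρ (fun t => X t - Y t) := by
  have := FinN_add hρ hX (FinN_neg hρ hY)
  simpa only [sub_eq_add_neg] using this

private theorem FinN_le {X Y : T → ℤ} (hX : FinN_Bd ρ X) (h : ∀ t, |Y t| ≤ |X t|) :
    FinN_Bd ρ Y := by
  obtain ⟨k, hk⟩ := hX
  exact ⟨k, fun t => (h t).trans (hk t)⟩

variable {c : Cfg}

private theorem FinN_Mmul {M M' : T → M2} (h : FinN_NB ρ c M) (h' : FinN_NB ρ c M') :
    FinN_NB ρ c (fun t => (M t).mul (M' t)) := by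
  obtain ⟨k, hk⟩ := h
  obtain ⟨l, hl⟩ := h'
  refine ⟨k + l + 1, fun t => NI_mono (NI_mul (hk t) (hl t)) ?_⟩
  calc 2 * ρ t ^ k * ρ t ^ l = ρ t ^ (k + l) * 2 := by rw [pow_add]; ring
    _ ≤ ρ t ^ (k + l) * ρ t := Nat.mul_le_mul le_rfl (hρ t)
    _ = _ := by rw [pow_succ]

private theorem FinN_Madj {M : T → M2} (h : FinN_NB ρ c M) :
    FinN_NB ρ c (fun t => (M t).adj) := by
  obtain ⟨k, hk⟩ := h
  refine ⟨k + k + 1, fun t => NI_mono (NI_adj (hk t)) ?_⟩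
  calc 2 * ρ t ^ k * ρ t ^ k = ρ t ^ (k + k) * 2 := by rw [pow_add]; ring
    _ ≤ ρ t ^ (k + k) * ρ t := Nat.mul_le_mul le_rfl (hρ t)
    _ = _ := by rw [pow_succ]

private theorem FinN_Msm {M : T → M2} {k : T → ℤ} (h : FinN_NB ρ c (fun t => M2.sm (k t) (M t)))
    (hk : ∀ t, k t ≠ 0) (hN : ∀ t, c.N ∣ k t - 1) : FinN_NB ρ c M := by
  obtain ⟨l, hl⟩ := h
  exact ⟨l, fun t => NI_sm (hl t) (hk t) (hN t)⟩

private theorem FinN_Mk1 {z1 z2 : T → ℤ} (h1 : FinN_Bd ρ z1) (h2 : FinN_Bd ρ z2)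
    (h0 : ∀ t, ((z1 t, z2 t) : ℤ × ℤ) ≠ 0) (h3 : ∀ t, c.N ∣ z1 t - 1) (h4 : ∀ t, c.N ∣ z2 t) :
    FinN_NB ρ c (fun t => mK1 c (z1 t, z2 t)) := by
  obtain ⟨k1, hk1⟩ := h1
  obtain ⟨k2, hk2⟩ := FinN_mul hρ (FinN_const hρ (-c.nu)) h2
  obtain ⟨k3, hk3⟩ := h2
  obtain ⟨k4, hk4⟩ := FinN_add hρ ⟨k1, hk1⟩ (FinN_mul hρ (FinN_const hρ c.tau) ⟨k3, hk3⟩)
  refine ⟨k1 + k2 + k3 + k4, fun t => NI_k1 (h0 t) (h3 t) (h4 t) ⟨?_, ?_, ?_, ?_⟩⟩
  · simp only [mK1]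
    push_cast
    exact (hk1 t).trans (FinN_pow_le hρ (by omega) t)
  · simp only [mK1]
    push_cast
    exact (hk2 t).trans (FinN_pow_le hρ (by omega) t)
  · simp only [mK1]
    push_cast
    exact (hk3 t).trans (FinN_pow_le hρ (by omega) t)
  · simp only [mK1]
    push_cast
    exact (hk4 t).trans (FinN_pow_le hρ (by omega) t)

private theorem FinN_Mho {P : ℤ} {C0 : ℕ} (h : ∀ (n : ℤ) (ρ : ℕ), 2 ≤ ρ → |n| ≤ ρ →
    NI c (mU 1 (P * n)) (ρ ^ C0)) {X : T → ℤ} (hX : FinN_Bd ρ X) :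
    FinN_NB ρ c (fun t => mU 1 (P * X t)) := by
  obtain ⟨k, hk⟩ := hX
  refine ⟨(k + 1) * C0, fun t => ?_⟩
  have h1 : 2 ≤ ρ t ^ (k + 1) := by
    calc 2 ≤ ρ t := hρ t
      _ = ρ t ^ 1 := (pow_one _).symm
      _ ≤ ρ t ^ (k + 1) := Nat.pow_le_pow_right (by have := hρ t; omega) (by omega)
  have h2 := h (X t) (ρ t ^ (k + 1)) h1 (by
    push_cast
    exact (hk t).trans (FinN_pow_le hρ (by omega) t))
  rw [← pow_mul] at h2
  exact h2

private theorem FinN_Mden {P : ℤ} {C1 : ℕ} (h : ∀ (m n : ℤ) (ρ : ℕ), 2 ≤ ρ → |m| ≤ ρ → |n| ≤ ρ →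
      c.N ∣ m - 1 → NI c (mU (n2 c (m, c.N)) (P * KK c * c.N ^ 3 * n)) (ρ ^ C1)) {m X : T → ℤ}
    (hm : FinN_Bd ρ m) (hX : FinN_Bd ρ X) (hN : ∀ t, c.N ∣ m t - 1) :
    FinN_NB ρ c (fun t => mU (n2 c (m t, c.N)) (P * KK c * c.N ^ 3 * X t)) := by
  obtain ⟨k, hk⟩ := hX
  obtain ⟨l, hl⟩ := hm
  refine ⟨(k + l + 1) * C1, fun t => ?_⟩
  have h1 : 2 ≤ ρ t ^ (k + l + 1) := by
    calc 2 ≤ ρ t := hρ t
      _ = ρ t ^ 1 := (pow_one _).symm
      _ ≤ ρ t ^ (k + l + 1) := Nat.pow_le_pow_right (by have := hρ t; omega) (by omega)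
  have h2 := h (m t) (X t) (ρ t ^ (k + l + 1)) h1 (by
    push_cast
    exact (hl t).trans (FinN_pow_le hρ (by omega) t)) (by
    push_cast
    exact (hk t).trans (FinN_pow_le hρ (by omega) t)) (hN t)
  rw [← pow_mul] at h2
  exact h2

end FinNcalc

/-- the product of the first four matrices -/
private theorem FinN_S4 (c : Cfg) (m y k n nf : ℤ) (hn : n = m ^ 2 + c.D * c.N ^ 2)
    (hnf : nf = 1 + c.tau * c.N + c.nu * c.N ^ 2) (hk : c.N ^ 2 * k = y - 1) :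
    (((mK1 c (y - c.N * n, y * c.N)).adj.mul (mK1 c (1, c.N))).mul (mU n (k * nf))).mul
      (mK1 c (1, c.N)).adj =
    ⟨nf * ((y - c.N * n + c.tau * (y * c.N)) * n - k * c.N * (y - c.N * n + c.tau * (y * c.N) +
        c.N * c.nu * (y * c.N))),
      nf * (c.nu * (y * c.N) * n + k * (y - c.N * n + c.tau * (y * c.N) +
        c.N * c.nu * (y * c.N))), -(nf * n * c.N), nf * n * (1 - c.N * n)⟩ := by
  simp only [mK1, mU, M2.mul, M2.adj]
  ext
  · simp only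
    rw [hnf]
    ring
  · simp only
    rw [hnf]
    ring
  · simp only
    rw [hnf]
    linear_combination (c.N * n * (1 + c.tau * c.N + c.nu * c.N ^ 2)) * hk
  · simp only
    rw [hnf]
    linear_combination (-n * (1 + c.tau * c.N + c.nu * c.N ^ 2)) * hk

/-- the product of the six matrices -/
private theorem FinN_S6 (c : Cfg) (m y k n nf : ℤ) (hn : n = m ^ 2 + c.D * c.N ^ 2)
    (hnf : nf = 1 + c.tau * c.N + c.nu * c.N ^ 2) (hk : c.N ^ 2 * k = y - 1) (x g1 g2 s1 : ℤ)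
    (hs1 : s1 = 1 - c.N * (1 + c.D * c.N ^ 2)) (hg2 : g2 = s1 + c.tau * c.N)
    (hg1 : g1 = -c.nu * c.N - (m ^ 2 - 1) * g2)
    (hx : x = ((y - c.N * n + c.tau * (y * c.N)) * n - k * c.N * (y - c.N * n +
        c.tau * (y * c.N) + c.N * c.nu * (y * c.N))) * g1 + (c.nu * (y * c.N) * n +
        k * (y - c.N * n + c.tau * (y * c.N) + c.N * c.nu * (y * c.N))) * g2) :
    (((((mK1 c (y - c.N * n, y * c.N)).adj.mul (mK1 c (1, c.N))).mul (mU n (k * nf))).mul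
      (mK1 c (1, c.N)).adj).mul (mU 1 (-(m ^ 2 - 1)))).mul (mK1 c (s1, c.N)) =
    ⟨nf * n * n1 c (y - c.N * n, y * c.N), nf * x, 0, nf * n * n1 c (s1, c.N)⟩ := by
  rw [FinN_S4 c m y k n nf hn hnf hk]
  simp only [mK1, mU, M2.mul, n1]
  ext
  · simp only
    rw [hs1]
    have h1 : c.N * n = c.N * (m ^ 2 + c.D * c.N ^ 2) := by rw [hn]
    linear_combination (nf * n * (y - c.N * n + c.tau * (y * c.N) + c.N * c.nu * (y * c.N))) * hk +
      (nf * ((y - c.N * n + c.tau * (y * c.N)) * n - k * c.N * (y - c.N * n + c.tau * (y * c.N) +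
        c.N * c.nu * (y * c.N)))) * h1
  · simp only
    rw [hx, hg1, hg2]
    ring
  · simp only
    rw [hs1, hn]
    ring
  · simp only
    rw [hs1, hn]
    ring

/-- divisibility of `N² x` -/
private theorem FinN_dvd (c : Cfg) (m y k n Q : ℤ) (hn : n = m ^ 2 + c.D * c.N ^ 2)
    (hk : c.N ^ 2 * k = y - 1) (x g1 g2 s1 : ℤ)
    (hs1 : s1 = 1 - c.N * (1 + c.D * c.N ^ 2)) (hg2 : g2 = s1 + c.tau * c.N)
    (hg1 : g1 = -c.nu * c.N - (m ^ 2 - 1) * g2)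
    (hx : x = ((y - c.N * n + c.tau * (y * c.N)) * n - k * c.N * (y - c.N * n +
        c.tau * (y * c.N) + c.N * c.nu * (y * c.N))) * g1 + (c.nu * (y * c.N) * n +
        k * (y - c.N * n + c.tau * (y * c.N) + c.N * c.nu * (y * c.N))) * g2)
    (h1 : Q ∣ m - 1) (h2 : Q ∣ y - 1) : Q ∣ c.N ^ 2 * x := by
  obtain ⟨e1, he1⟩ := h1
  obtain ⟨e2, he2⟩ := h2
  set w := y - c.N * n + c.tau * (y * c.N) + c.N * c.nu * (y * c.N) with hw
  refine ⟨c.N ^ 2 * n * ((e2 * (1 + c.tau * c.N) - c.N * (e1 * (m + 1))) * g1 -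
    g2 * (e1 * (m + 1) * g2) + c.nu * g2 * (c.N * e2)) + e2 * (w * (g2 - c.N * g1)), ?_⟩
  have h3 : (y - c.N * n + c.tau * (y * c.N)) - g2 =
      (y - 1) * (1 + c.tau * c.N) - c.N * ((m - 1) * (m + 1)) := by
    rw [hg2, hs1, hn]; ring
  have h4 : g1 + c.nu * c.N = -((m - 1) * (m + 1)) * g2 := by rw [hg1]; ring
  have h5 : c.N ^ 2 * x = c.N ^ 2 * n * (((y - c.N * n + c.tau * (y * c.N)) - g2) * g1 +
      g2 * (g1 + c.nu * c.N) + c.nu * g2 * (c.N * (y - 1))) + (y - 1) * (w * (g2 - c.N * g1)) := by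
    rw [hx]
    linear_combination (w * (g2 - c.N * g1)) * hk
  rw [h5, h3, h4, he1, he2]
  ring

theorem st_fin (c : Cfg) : ∃ P0 : ℤ, 0 < P0 ∧ c.N ∣ P0 ∧ ∀ q : ℤ, 0 < q → P0 ∣ q →
    ∃ C0 : ℕ, ∀ ρ : ℕ, 2 ≤ ρ → ∀ m y j : ℤ, |m| ≤ ρ → |y| ≤ ρ → |j| ≤ ρ →
      (famOf c).Adm q m y → NI c ⟨(famOf c).Az m y, -(q * j), 0, 1⟩ (ρ ^ C0) := by
  obtain ⟨P, hP, C0, hho⟩ := st_horner c
  obtain ⟨C1, hden⟩ := st_den c P C0 hho
  have hKK : KK c ≠ 0 := KK_ne_zero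
  have hN := c.hN
  have hN0 : c.N ≠ 0 := hN.ne'
  have hPK : P * KK c ≠ 0 := mul_ne_zero hP.ne' hKK
  refine ⟨|P * KK c| * c.N ^ 5, mul_pos (abs_pos.2 hPK) (by positivity),
    Dvd.dvd.mul_left (dvd_pow_self _ (by norm_num)) _, fun q hq hPq => ?_⟩
  have hPq' : P * KK c * c.N ^ 5 ∣ q := by
    refine dvd_trans ?_ hPq
    exact mul_dvd_mul (self_dvd_abs _) (dvd_refl _)
  have hPq1 : P ∣ q := dvd_trans ⟨KK c * c.N ^ 5, by ring⟩ hPq'
  have hNq : c.N ∣ q := dvd_trans ⟨P * KK c * c.N ^ 4, by ring⟩ hPq'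
  set f := famOf c with hf
  have hAs := Fam.As_ne_zero (f := f)
  -- the index type
  let T : Type := {x : ℕ × ℤ × ℤ × ℤ // 2 ≤ x.1 ∧ |x.2.1| ≤ x.1 ∧ |x.2.2.1| ≤ x.1 ∧
    |x.2.2.2| ≤ x.1 ∧ f.Adm q x.2.1 x.2.2.1}
  let ρ : T → ℕ := fun t => t.1.1
  let m : T → ℤ := fun t => t.1.2.1
  let y : T → ℤ := fun t => t.1.2.2.1
  let j : T → ℤ := fun t => t.1.2.2.2
  have hρ : ∀ t, 2 ≤ ρ t := fun t => t.2.1
  have hm : FinN_Bd ρ m := ⟨1, fun t => by rw [pow_one]; exact t.2.2.1⟩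
  have hy : FinN_Bd ρ y := ⟨1, fun t => by rw [pow_one]; exact t.2.2.2.1⟩
  have hj : FinN_Bd ρ j := ⟨1, fun t => by rw [pow_one]; exact t.2.2.2.2.1⟩
  have hadm : ∀ t, f.Adm q (m t) (y t) := fun t => t.2.2.2.2.2
  suffices hmain : FinN_NB ρ c (fun t => ⟨f.Az (m t) (y t), -(q * j t), 0, 1⟩) by
    obtain ⟨k, hk⟩ := hmain
    refine ⟨k, fun ρ' hρ' m' y' j' h1 h2 h3 h4 => ?_⟩
    exact hk ⟨(ρ', m', y', j'), hρ', h1, h2, h3, h4⟩
  clear_value ρ m y j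
  have hQm : ∀ t, q * f.As ∣ m t - 1 := fun t => (hadm t).1
  have hQy : ∀ t, q * f.As ∣ y t - 1 := fun t => (hadm t).2
  have hNm : ∀ t, c.N ∣ m t - 1 := fun t => (hNq.mul_right _).trans (hQm t)
  have hNy : ∀ t, c.N ∣ y t - 1 := fun t => (hNq.mul_right _).trans (hQy t)
  have hz : ∀ t, ∃ z, y t - 1 = P * KK c * c.N ^ 5 * z := fun t => (hPq'.mul_right _).trans (hQy t)
  have hmm : ∀ t, ∃ z, m t - 1 = P * z := fun t => (hPq1.mul_right _).trans (hQm t)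
  choose z hz using hz
  choose mm hmm using hmm
  have hone : FinN_Bd ρ (fun _ => (1 : ℤ)) := FinN_const hρ 1
  have hm1 : FinN_Bd ρ (fun t => m t - 1) := FinN_sub hρ hm hone
  have hy1 : FinN_Bd ρ (fun t => y t - 1) := FinN_sub hρ hy hone
  have hzB : FinN_Bd ρ z := by
    refine FinN_le hρ hy1 fun t => ?_
    rw [hz t, abs_mul]
    have : 1 ≤ |P * KK c * c.N ^ 5| := Int.one_le_abs (mul_ne_zero hPK (pow_ne_zero _ hN0))
    nlinarith [abs_nonneg (z t)]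
  have hmmB : FinN_Bd ρ mm := by
    refine FinN_le hρ hm1 fun t => ?_
    rw [hmm t, abs_mul]
    have : 1 ≤ |P| := Int.one_le_abs hP.ne'
    nlinarith [abs_nonneg (mm t)]
  -- notation
  set nf : ℤ := 1 + c.tau * c.N + c.nu * c.N ^ 2 with hnf
  set n : T → ℤ := fun t => m t ^ 2 + c.D * c.N ^ 2 with hn
  set k : T → ℤ := fun t => P * KK c * c.N ^ 3 * z t with hk
  have hk1 : ∀ t, c.N ^ 2 * k t = y t - 1 := by
    intro t
    rw [hz t]
    simp only [hk]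
    ring
  have hn2 : ∀ t, n2 c (m t, c.N) = n t := fun t => rfl
  have hnB : FinN_Bd ρ n := by
    have := FinN_add hρ (FinN_mul hρ hm hm) (FinN_const hρ (c.D * c.N ^ 2))
    simpa only [hn, sq] using this
  have hkB : FinN_Bd ρ k := FinN_mul hρ (FinN_const hρ _) hzB
  set s1 : ℤ := 1 - c.N * (1 + c.D * c.N ^ 2) with hs1
  set g2 : ℤ := s1 + c.tau * c.N with hg2
  set g1 : T → ℤ := fun t => -c.nu * c.N - (m t ^ 2 - 1) * g2 with hg1
  set x : T → ℤ := fun t => ((y t - c.N * n t + c.tau * (y t * c.N)) * n t - k t * c.N *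
      (y t - c.N * n t + c.tau * (y t * c.N) + c.N * c.nu * (y t * c.N))) * g1 t +
      (c.nu * (y t * c.N) * n t + k t * (y t - c.N * n t + c.tau * (y t * c.N) +
      c.N * c.nu * (y t * c.N))) * g2 with hx
  have hN1 : n1 c (s1, c.N) = f.As := by
    simp only [n1, Fam.As, Fam.nn, Fam.X, hf, famOf, hs1]
    ring
  have hnn : ∀ t, n1 c (y t - c.N * n t, y t * c.N) = f.nn (m t) (y t) := by
    intro t
    simp only [n1, Fam.nn, Fam.X, hf, famOf, hn]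
    ring
  have hNs1 : c.N ∣ s1 - 1 := ⟨-(1 + c.D * c.N ^ 2), by rw [hs1]; ring⟩
  have hNAs : c.N ∣ f.As - 1 := by
    rw [← hN1]
    exact n1_cg hNs1 (dvd_refl _)
  have hNnf : c.N ∣ nf - 1 := ⟨c.tau + c.nu * c.N, by rw [hnf]; ring⟩
  have hNn : ∀ t, c.N ∣ n t - 1 := by
    intro t
    rw [← hn2]
    exact n2_cg (hNm t) (dvd_refl _)
  have hn0 : ∀ t, n t ≠ 0 := by
    intro t
    rw [← hn2]
    apply n2_ne_zero
    intro h
    exact hN0 (congrArg Prod.snd h)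
  have hz1 : ((1, c.N) : ℤ × ℤ) ≠ 0 := fun h => hN0 (congrArg Prod.snd h)
  have hnf0 : nf ≠ 0 := by
    have h1 : n1 c (1, c.N) = nf := by
      simp only [n1, hnf]
      ring
    rw [← h1]
    exact n1_ne_zero hz1
  -- divisibility of x
  have hdvd : ∀ t, ∃ t0, x t = f.As * (P * KK c * c.N ^ 3 * t0) := by
    intro t
    have h1 := FinN_dvd c (m t) (y t) (k t) (n t) (q * f.As) rfl (hk1 t) (x t) (g1 t) g2 s1 rfl rfl
      rfl rfl (hQm t) (hQy t)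
    obtain ⟨κ, hκ⟩ := h1
    obtain ⟨q', hq'⟩ := hPq'
    refine ⟨q' * κ, ?_⟩
    have h2 : c.N ^ 2 * x t = c.N ^ 2 * (f.As * (P * KK c * c.N ^ 3 * (q' * κ))) := by
      rw [hκ, hq']
      ring
    exact mul_left_cancel₀ (pow_ne_zero 2 hN0) h2
  choose t0 ht0 using hdvd
  have hxB : FinN_Bd ρ x := by
    have a1 : FinN_Bd ρ (fun t => y t * c.N) := FinN_mul hρ hy (FinN_const hρ _)
    have a2 : FinN_Bd ρ (fun t => y t - c.N * n t + c.tau * (y t * c.N)) :=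
      FinN_add hρ (FinN_sub hρ hy (FinN_mul hρ (FinN_const hρ _) hnB))
        (FinN_mul hρ (FinN_const hρ _) a1)
    have a3 : FinN_Bd ρ (fun t => y t - c.N * n t + c.tau * (y t * c.N) +
        c.N * c.nu * (y t * c.N)) := FinN_add hρ a2 (FinN_mul hρ (FinN_const hρ _) a1)
    have a4 : FinN_Bd ρ g1 := by
      have := FinN_sub hρ (FinN_const hρ (-c.nu * c.N)) (FinN_mul hρ (FinN_sub hρ
        (FinN_mul hρ hm hm) hone) (FinN_const hρ g2))
      simpa only [hg1, sq] using this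
    exact FinN_add hρ (FinN_mul hρ (FinN_sub hρ (FinN_mul hρ a2 hnB) (FinN_mul hρ
      (FinN_mul hρ hkB (FinN_const hρ _)) a3)) a4) (FinN_mul hρ (FinN_add hρ
      (FinN_mul hρ (FinN_mul hρ (FinN_const hρ _) a1) hnB) (FinN_mul hρ hkB a3)) (FinN_const hρ _))
  have ht0B : FinN_Bd ρ t0 := by
    refine FinN_le hρ hxB fun t => ?_
    rw [ht0 t]
    have h1 : f.As * (P * KK c * c.N ^ 3 * t0 t) = (f.As * (P * KK c * c.N ^ 3)) * t0 t := by ring
    rw [h1, abs_mul]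
    have : 1 ≤ |f.As * (P * KK c * c.N ^ 3)| :=
      Int.one_le_abs (mul_ne_zero hAs (mul_ne_zero hPK (pow_ne_zero _ hN0)))
    nlinarith [abs_nonneg (t0 t)]
  -- the matrices
  have B1 : FinN_NB ρ c (fun t => (mK1 c (y t - c.N * n t, y t * c.N)).adj) := by
    apply FinN_Madj hρ
    apply FinN_Mk1 hρ
    · exact FinN_sub hρ hy (FinN_mul hρ (FinN_const hρ _) hnB)
    · exact FinN_mul hρ hy (FinN_const hρ _)
    · intro t h
      have h1 := Fam.nn_ne_zero (f := f) (m t) (y t)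
      rw [← hnn t, h] at h1
      exact h1 (by simp [n1])
    · intro t
      have : y t - c.N * n t - 1 = (y t - 1) - c.N * n t := by ring
      rw [this]
      exact dvd_sub (hNy t) (dvd_mul_right _ _)
    · intro t
      exact dvd_mul_left _ _
  have B2 : FinN_NB ρ c (fun _ => mK1 c (1, c.N)) := by
    apply FinN_Mk1 hρ (z1 := fun _ => 1) (z2 := fun _ => c.N)
    · exact hone
    · exact FinN_const hρ _
    · exact fun _ => hz1
    · intro _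
      exact ⟨0, by ring⟩
    · exact fun _ => dvd_refl _
  have B3 : FinN_NB ρ c (fun t => mU (n t) (k t * nf)) := by
    have h1 := FinN_Mden hρ hden hm (FinN_mul hρ hzB (FinN_const hρ nf)) hNm
    have h2 : (fun t => mU (n t) (k t * nf)) =
        (fun t => mU (n2 c (m t, c.N)) (P * KK c * c.N ^ 3 * (z t * nf))) := by
      funext t
      rw [hn2]
      simp only [hk]
      congr 1
      ring
    rw [h2]
    exact h1
  have B4 : FinN_NB ρ c (fun _ => (mK1 c (1, c.N)).adj) := FinN_Madj hρ B2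
  have B5 : FinN_NB ρ c (fun t => mU 1 (-(m t ^ 2 - 1))) := by
    have h1 := FinN_Mho hρ hho (FinN_neg hρ (FinN_mul hρ hmmB (FinN_add hρ hm hone)))
    have h2 : (fun t => mU 1 (-(m t ^ 2 - 1))) = (fun t => mU 1 (P * -(mm t * (m t + 1)))) := by
      funext t
      congr 1
      linear_combination (-(m t + 1)) * hmm t
    rw [h2]
    exact h1
  have B6 : FinN_NB ρ c (fun _ => mK1 c (s1, c.N)) := by
    apply FinN_Mk1 hρ (z1 := fun _ => s1) (z2 := fun _ => c.N)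
    · exact FinN_const hρ _
    · exact FinN_const hρ _
    · intro _ h
      exact hN0 (congrArg Prod.snd h)
    · exact fun _ => hNs1
    · exact fun _ => dvd_refl _
  have B0 : FinN_NB ρ c (fun t => mU (n t) (-(P * KK c * c.N ^ 3 * t0 t))) := by
    have h1 := FinN_Mden hρ hden hm (FinN_neg hρ ht0B) hNm
    have h2 : (fun t => mU (n t) (-(P * KK c * c.N ^ 3 * t0 t))) =
        (fun t => mU (n2 c (m t, c.N)) (P * KK c * c.N ^ 3 * -t0 t)) := by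
      funext t
      rw [hn2]
      congr 1
      ring
    rw [h2]
    exact h1
  have B7 := FinN_Mmul hρ B0 (FinN_Mmul hρ (FinN_Mmul hρ (FinN_Mmul hρ (FinN_Mmul hρ
    (FinN_Mmul hρ B1 B2) B3) B4) B5) B6)
  have B8 : FinN_NB ρ c (fun t => M2.sm (nf * n t ^ 2 * f.As) ⟨f.Az (m t) (y t), 0, 0, 1⟩) := by
    have h1 : (fun t => M2.sm (nf * n t ^ 2 * f.As) ⟨f.Az (m t) (y t), 0, 0, 1⟩) =
        (fun t => (mU (n t) (-(P * KK c * c.N ^ 3 * t0 t))).mul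
          ((((((mK1 c (y t - c.N * n t, y t * c.N)).adj.mul (mK1 c (1, c.N))).mul
            (mU (n t) (k t * nf))).mul (mK1 c (1, c.N)).adj).mul
            (mU 1 (-(m t ^ 2 - 1)))).mul (mK1 c (s1, c.N)))) := by
      funext t
      have h2 := FinN_S6 c (m t) (y t) (k t) (n t) nf rfl rfl (hk1 t) (x t) (g1 t) g2 s1 rfl rfl
        rfl rfl
      rw [h2, hN1, hnn t]
      have h3 := Fam.As_mul_Az (hadm t)
      have h4 := ht0 t
      simp only [M2.sm, M2.mul, mU]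
      ext
      · simp only
        rw [← h3]
        ring
      · simp only
        rw [h4]
        ring
      · simp
      · simp only
        ring
    rw [h1]
    exact B7
  have B9 : FinN_NB ρ c (fun t => ⟨f.Az (m t) (y t), 0, 0, 1⟩) := by
    apply FinN_Msm hρ B8
    · intro t
      exact mul_ne_zero (mul_ne_zero hnf0 (pow_ne_zero 2 (hn0 t))) hAs
    · intro t
      obtain ⟨a1, b1⟩ := hNnf
      obtain ⟨a2, b2⟩ := hNn t
      obtain ⟨a3, b3⟩ := hNAs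
      refine ⟨a1 * n t ^ 2 * f.As + a2 * (n t + 1) * f.As + a3, ?_⟩
      linear_combination (n t ^ 2 * f.As) * b1 + ((n t + 1) * f.As) * b2 + b3
  obtain ⟨q'', hq''⟩ := hPq1
  have B10 : FinN_NB ρ c (fun t => mU 1 (-(q * j t))) := by
    have h1 := FinN_Mho hρ hho (FinN_neg hρ (FinN_mul hρ (FinN_const hρ q'') hj))
    have h2 : (fun t => mU 1 (-(q * j t))) = (fun t => mU 1 (P * -(q'' * j t))) := by
      funext t
      congr 1
      rw [hq'']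
      ring
    rw [h2]
    exact h1
  have B11 := FinN_Mmul hρ B10 B9
  have h12 : (fun t => (⟨f.Az (m t) (y t), -(q * j t), 0, 1⟩ : M2)) =
      (fun t => (mU 1 (-(q * j t))).mul ⟨f.Az (m t) (y t), 0, 0, 1⟩) := by
    funext t
    simp only [mU, M2.mul]
    ext <;> simp
  rw [h12]
  exact B11

end Pool.Agent.BQF
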