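import Pool.Agent.BQF.NIb

set_option autoImplicit false

/-!
# The family attached to a configuration, unipotent matrices
-/

namespace Pool.Agent.BQF

/-- the matrix `(d, a; 0, d)` -/
def mU (d a : ℤ) : M2 := ⟨d, a, 0, d⟩

theorem mU_mul (d a d' a' : ℤ) : (mU d a).mul (mU d' a') = mU (d * d') (d * a' + a * d') := by
  simp only [mU, M2.mul]; ext <;> simp

theorem mU_adj (d a : ℤ) : (mU d a).adj = mU d (-a) := by
  simp only [mU, M2.adj]; ext <;> simp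

theorem mU_sm (k d a : ℤ) : M2.sm k (mU d a) = mU (k * d) (k * a) := by
  simp only [mU, M2.sm]; ext <;> simp

/-- conjugation of a unipotent matrix by `(p, β; 0, q)` -/
theorem conj_mU (p β q d a : ℤ) :
    ((⟨p, β, 0, q⟩ : M2).mul (mU d a)).mul (⟨p, β, 0, q⟩ : M2).adj = M2.sm p (mU (q * d) (p * a)) := by
  simp only [mU, M2.adj, M2.mul, M2.sm]; ext <;> simp <;> ring

/-- `b(z) = K1(conj z) K2(z)` -/
def mB (c : Cfg) (z : ℤ × ℤ) : M2 := (mK1 c (z.1 + c.tau * z.2, -z.2)).mul (mK2 c z)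

/-- the upper right entry of `b(z)` -/
def beta (c : Cfg) (z : ℤ × ℤ) : ℤ := (c.nu - c.D) * z.1 * z.2 - c.D * c.tau * z.2 ^ 2

theorem mB_eq (c : Cfg) (z : ℤ × ℤ) : mB c z = ⟨n1 c z, beta c z, 0, n2 c z⟩ := by
  simp only [mB, mK1, mK2, M2.mul, n1, n2, beta]; ext <;> simp <;> ring

theorem mB_det (c : Cfg) (z : ℤ × ℤ) : (mB c z).det = n1 c z * n2 c z := by
  rw [mB_eq]; simp [M2.det]

theorem n1_cg {c : Cfg} {z : ℤ × ℤ} (h1 : c.N ∣ z.1 - 1) (h2 : c.N ∣ z.2) : c.N ∣ n1 c z - 1 := by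
  obtain ⟨x, hx⟩ := h1
  obtain ⟨y, hy⟩ := h2
  refine ⟨x * (z.1 + 1) + c.tau * z.1 * y + c.nu * y * z.2, ?_⟩
  simp only [n1]
  linear_combination (z.1 + 1) * hx + (c.tau * z.1 + c.nu * z.2) * hy

theorem n2_cg {c : Cfg} {z : ℤ × ℤ} (h1 : c.N ∣ z.1 - 1) (h2 : c.N ∣ z.2) : c.N ∣ n2 c z - 1 := by
  obtain ⟨x, hx⟩ := h1
  obtain ⟨y, hy⟩ := h2
  refine ⟨x * (z.1 + 1) + c.D * y * z.2, ?_⟩
  simp only [n2]
  linear_combination (z.1 + 1) * hx + (c.D * z.2) * hy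

/-- a constant bounding the entries of `K1(z)`, `K2(z)`, `K1(conj z)` by `cK · size(z)` -/
def cK (c : Cfg) : ℕ := 2 * (1 + c.tau.natAbs + c.nu.natAbs + c.D.natAbs)

/-- `b(z)` is near invariant with a cost which is quadratic in the size of `z` -/
theorem NI_mB {c : Cfg} {z : ℤ × ℤ} {ρ : ℕ} (hz : z ≠ 0) (h1 : c.N ∣ z.1 - 1) (h2 : c.N ∣ z.2)
    (hρ : 1 ≤ ρ) (b1 : |z.1| ≤ ρ) (b2 : |z.2| ≤ ρ) :
    NI c (mB c z) (2 * (cK c * (cK c * ρ)) * (cK c * ρ)) := by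
  have ht : |c.tau| = c.tau.natAbs := (Int.natCast_natAbs _).symm
  have hn : |c.nu| = c.nu.natAbs := (Int.natCast_natAbs _).symm
  have hD : |c.D| = c.D.natAbs := (Int.natCast_natAbs _).symm
  have t0 : (0 : ℤ) ≤ c.tau.natAbs := by positivity
  have n0 : (0 : ℤ) ≤ c.nu.natAbs := by positivity
  have D0 : (0 : ℤ) ≤ c.D.natAbs := by positivity
  have hρ' : (1 : ℤ) ≤ ρ := by exact_mod_cast hρ
  have e1 : |c.tau * z.2| ≤ c.tau.natAbs * ρ := by
    rw [abs_mul, ht]; exact mul_le_mul_of_nonneg_left b2 t0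
  have e2 : |c.nu * z.2| ≤ c.nu.natAbs * ρ := by
    rw [abs_mul, hn]; exact mul_le_mul_of_nonneg_left b2 n0
  have e3 : |c.D * z.2| ≤ c.D.natAbs * ρ := by
    rw [abs_mul, hD]; exact mul_le_mul_of_nonneg_left b2 D0
  have e4 : |z.1 + c.tau * z.2| ≤ ρ + c.tau.natAbs * ρ := (abs_add_le _ _).trans (add_le_add b1 e1)
  obtain ⟨T, hT⟩ : ∃ T : ℤ, T = c.tau.natAbs := ⟨_, rfl⟩
  obtain ⟨V, hV⟩ : ∃ V : ℤ, V = c.nu.natAbs := ⟨_, rfl⟩
  obtain ⟨E, hE⟩ : ∃ E : ℤ, E = c.D.natAbs := ⟨_, rfl⟩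
  have hcK : ((cK c : ℕ) : ℤ) = 2 * (1 + T + V + E) := by
    rw [hT, hV, hE, cK]; push_cast; ring
  rw [← hT] at e1 e4 t0
  rw [← hV] at e2 n0
  rw [← hE] at e3 D0
  have r0 : (0 : ℤ) ≤ ρ := by positivity
  have hTr : 0 ≤ T * ρ := mul_nonneg t0 r0
  have hVr : 0 ≤ V * ρ := mul_nonneg n0 r0
  have hEr : 0 ≤ E * ρ := mul_nonneg D0 r0
  have hK2 : NI c (mK2 c z) (cK c * ρ) := by
    apply NI_k2 hz h1 h2
    · simp only [mK2, M2.bd]
      push_cast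
      rw [hcK]
      refine ⟨?_, ?_, ?_, ?_⟩
      · nlinarith
      · rw [neg_mul, abs_neg]; nlinarith
      · nlinarith
      · nlinarith
    · have : (2 : ℤ) ≤ ((cK c * ρ : ℕ) : ℤ) := by push_cast; rw [hcK]; nlinarith
      exact_mod_cast this
  have hz' : ((z.1 + c.tau * z.2, -z.2) : ℤ × ℤ) ≠ 0 := by
    intro h
    rw [Prod.ext_iff] at h
    simp only [Prod.fst_zero, Prod.snd_zero, neg_eq_zero] at h
    apply hz
    refine Prod.ext ?_ h.2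
    have := h.1
    rw [h.2] at this
    simpa using this
  have hT2 : T * T * ρ ≤ (1 + T + V + E) * (1 + T + V + E) * ρ := by
    apply mul_le_mul_of_nonneg_right _ r0
    nlinarith
  have hVT : V * ρ + T * (T * ρ) ≤ (2 * (1 + T + V + E)) * ((2 * (1 + T + V + E)) * ρ) := by
    nlinarith [mul_nonneg t0 hTr, mul_nonneg n0 hVr, mul_nonneg D0 hEr, mul_nonneg t0 hVr,
      mul_nonneg t0 hEr, mul_nonneg n0 hEr]
  have hK1 : NI c (mK1 c (z.1 + c.tau * z.2, -z.2)) (cK c * (cK c * ρ)) := by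
    apply NI_k1 hz'
    · have : z.1 + c.tau * z.2 - 1 = (z.1 - 1) + c.tau * z.2 := by ring
      simp only
      rw [this]; exact dvd_add h1 (h2.mul_left _)
    · simpa using h2
    · simp only [mK1, M2.bd]
      push_cast
      rw [hcK]
      have hq : (2 * (1 + T + V + E)) * ρ ≤ (2 * (1 + T + V + E)) * ((2 * (1 + T + V + E)) * ρ) := by
        nlinarith [mul_nonneg t0 hTr, mul_nonneg n0 hVr, mul_nonneg D0 hEr, mul_nonneg t0 hVr,
          mul_nonneg t0 hEr, mul_nonneg n0 hEr]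
      refine ⟨?_, ?_, ?_, ?_⟩
      · refine e4.trans (le_trans ?_ hq); nlinarith
      · rw [neg_mul_neg]; refine e2.trans (le_trans ?_ hq); nlinarith
      · rw [abs_neg]; refine b2.trans (le_trans ?_ hq); nlinarith
      · have : z.1 + c.tau * z.2 + c.tau * -z.2 = z.1 := by ring
        rw [this]; refine b1.trans (le_trans ?_ hq); nlinarith
  exact NI_mul hK1 hK2

/-- The family attached to a configuration: `X(m) = N (m² + D N²)`, base point `m0 = 1`,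
`τ = -(2 + τ N)`, `ν = 1 + τ N + ν N²`. -/
def famOf (c : Cfg) : Fam where
  tau := -(2 + c.tau * c.N)
  nu := 1 + c.tau * c.N + c.nu * c.N ^ 2
  c0 := c.N
  D0 := c.D * c.N ^ 2
  m0 := 1
  hns := by
    rintro ⟨k, hk⟩
    apply c.h1
    have hN := c.hN.ne'
    have h4 : k ^ 2 = c.N ^ 2 * (c.tau ^ 2 - 4 * c.nu) := by linear_combination -hk
    have hd : c.N ^ 2 ∣ k ^ 2 := ⟨_, h4⟩
    rw [Int.pow_dvd_pow_iff two_ne_zero] at hd
    obtain ⟨j, hj⟩ := hd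
    refine ⟨j, ?_⟩
    rw [hj] at h4
    have h5 : c.N ^ 2 * (j * j) = c.N ^ 2 * (c.tau ^ 2 - 4 * c.nu) := by linear_combination h4
    exact (mul_left_cancel₀ (pow_ne_zero 2 hN) h5).symm
  hc := c.hN.ne'
  hD := by
    rintro ⟨k, hk⟩
    apply c.h2
    have hN := c.hN.ne'
    have h4 : k ^ 2 = c.N ^ 2 * (-c.D) := by linear_combination -hk
    have hd : c.N ^ 2 ∣ k ^ 2 := ⟨_, h4⟩
    rw [Int.pow_dvd_pow_iff two_ne_zero] at hd
    obtain ⟨j, hj⟩ := hd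
    refine ⟨j, ?_⟩
    rw [hj] at h4
    have h5 : c.N ^ 2 * (j * j) = c.N ^ 2 * (-c.D) := by linear_combination h4
    exact (mul_left_cancel₀ (pow_ne_zero 2 hN) h5).symm
  hm := by norm_num

end Pool.Agent.BQF
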