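import Pool.Agent.BQF.Rep

set_option autoImplicit false

/-!
# Counting the failures of the equivariance of `Φ_w`

PROOF. For `z ∈ Z` and `|j| ≤ J` choose the list `L z j` of `hNI` (length `≤ H`, entries `≤ H`,
non zero determinants). Fix `z`, `A = A z`, `w ∈ S` and `s < w` counted in `badc c q w A`. Put
`x = rep c q w s ∈ [0, q w)`, `j = A x / (q w)` (floor division). As `0 ≤ x < q w`, `|j| ≤ |A| ≤ J`
(`A ≥ 0`: `0 ≤ j < A + 1`; `A < 0`: `A ≤ j ≤ 0`). The vector `(x, w)` is non zero (`w > 0`) and in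
`Cls c` (`x = a mod q`, `N ∣ q`; `w = b mod N`). The matrix `M = (A, -(q j); 0, 1)` has determinant
`A` and `M (x, w) = (A x - q j w, w)`, where `A x - q w j = A x % (q w)` is in `[0, q w)`, is
`= A a = a mod q` (`A = 1 mod q`) and `= A s mod w`: so it is `rep c q w (A s)` (`rep_unique`). Hence
`F (M (x, w)) = fw c q w (A s) ≠ lam A * fw c q w s = lam M.det * F (x, w)`, so some `h ∈ L z j` has
`h (x, w) ∈ Exc c`. Its entries are `≤ H (x + w) ≤ H (2 q W + 2 W) ≤ 4 H q W ≤ X`, so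
`h (x, w) ∈ box X`. For fixed `z, j, h` the map `(w, s) ↦ h (rep c q w s, w)` is injective on
`{(w, s) : w ∈ S, s < w}` (`M2.act_injective`, and `s = rep mod w`, `s < w`: `rep_w`). So for fixed
`z`: `∑_{w ∈ S} badc c q w (A z) ≤ ∑_{|j| ≤ J} (L z j).length * excN c X ≤ (2 J + 1) H excN c X`.
(E.g. `Finset.sigma`/`biUnion` and `Finset.card_biUnion_le`, `Finset.card_le_card_of_injOn`.)
-/

namespace Pool.Agent.BQF

private theorem Good_key (c : Cfg) (q : ℕ) (hq : 0 < q) (hN : c.N ∣ q) (A : ℤ) (J H W X : ℕ)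
    (hAJ : |A| ≤ J) (hAq : (q : ℤ) ∣ A - 1) (hX : 4 * H * q * W ≤ X)
    (L : ℤ → List M2)
    (hL : ∀ j : ℤ, |j| ≤ J → (L j).length ≤ H ∧
      (∀ h ∈ L j, h.cg c.N ∧ h.det ≠ 0 ∧ h.bd H) ∧
      ∀ v : ℤ × ℤ, v ≠ 0 → v ∈ Cls c → (∀ h ∈ L j, h.act v ∉ Exc c) →
        F c ((⟨A, -(q * j), 0, 1⟩ : M2).act v) = lam (⟨A, -(q * j), 0, 1⟩ : M2).det * F c v)
    (w : ℕ) (hw : W < w ∧ w ≤ 2 * W ∧ c.N ∣ (w : ℤ) - c.b ∧ Nat.Coprime q w) (s : ℕ)
    (hbad : fw c q w (A * s) ≠ lam A * fw c q w s) :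
    ∃ j : ℤ, |j| ≤ J ∧ ∃ h ∈ L j, h.act (rep c q w s, (w : ℤ)) ∈ Exc c ∧
      h.act (rep c q w s, (w : ℤ)) ∈ box X := by
  obtain ⟨hw1, hw2, hw3, hw4⟩ := hw
  have hw0 : 0 < w := by omega
  have hqZ : (0 : ℤ) < q := by exact_mod_cast hq
  have hwZ : (0 : ℤ) < w := by exact_mod_cast hw0
  have hqw : (0 : ℤ) < q * w := by positivity
  obtain ⟨x, hx⟩ : ∃ x, x = rep c q w s := ⟨_, rfl⟩
  have x0 : 0 ≤ x := by rw [hx]; exact rep_nonneg c hq hw0 _
  have x1 : x < q * w := by rw [hx]; exact rep_lt c hq hw0 _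
  have x2 : (q : ℤ) ∣ x - c.a := by rw [hx]; exact rep_q c q w _
  have x3 : (w : ℤ) ∣ x - s := by rw [hx]; exact rep_w c hw4 _
  obtain ⟨j, hj⟩ : ∃ j, j = A * x / (q * w) := ⟨_, rfl⟩
  have hmod := Int.emod_add_mul_ediv (A * x) (q * w)
  rw [← hj] at hmod
  have hm0 := Int.emod_nonneg (A * x) hqw.ne'
  have hm1 := Int.emod_lt_of_pos (A * x) hqw
  obtain ⟨r, hr⟩ : ∃ r, r = A * x % (q * w) := ⟨_, rfl⟩
  rw [← hr] at hmod hm0 hm1
  have hjJ : |j| ≤ J := by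
    have hjA : |j| ≤ |A| := by
      rcases le_total 0 A with hA | hA
      · rw [abs_of_nonneg hA]
        have h1 : 0 ≤ A * x := mul_nonneg hA x0
        have h2 : A * x ≤ A * (q * w) := mul_le_mul_of_nonneg_left x1.le hA
        rw [abs_le]
        constructor
        · by_contra hcon
          push Not at hcon
          have : j ≤ -1 := by linarith
          nlinarith
        · by_contra hcon
          push Not at hcon
          have : A + 1 ≤ j := by linarith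
          nlinarith
      · rw [abs_of_nonpos hA]
        have h1 : A * x ≤ 0 := mul_nonpos_of_nonpos_of_nonneg hA x0
        have h2 : A * (q * w) ≤ A * x := mul_le_mul_of_nonpos_left x1.le hA
        rw [abs_le]
        constructor
        · by_contra hcon
          push Not at hcon
          have : j ≤ A - 1 := by linarith
          nlinarith
        · by_contra hcon
          push Not at hcon
          have : 1 ≤ j := by linarith
          nlinarith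
    exact hjA.trans hAJ
  obtain ⟨_, hL2, hL3⟩ := hL j hjJ
  have hv0 : ((x, (w : ℤ)) : ℤ × ℤ) ≠ 0 := by
    intro h
    have := congrArg Prod.snd h
    simp only [Prod.snd_zero] at this
    exact hwZ.ne' this
  have hvC : ((x, (w : ℤ)) : ℤ × ℤ) ∈ Cls c := by
    refine ⟨?_, ?_⟩
    · exact hN.trans x2
    · exact hw3
  have hMact : (⟨A, -(q * j), 0, 1⟩ : M2).act (x, (w : ℤ)) = (rep c q w (A * s), (w : ℤ)) := by
    have e1 : r = rep c q w (A * s) := by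
      apply rep_unique c hq hw0 hw4 hm0 hm1
      · obtain ⟨a1, ha1⟩ := hAq
        obtain ⟨a2, ha2⟩ := x2
        refine ⟨a1 * x + a2 - w * j, ?_⟩
        linear_combination hmod + x * ha1 + ha2
      · obtain ⟨a3, ha3⟩ := x3
        refine ⟨A * a3 - q * j, ?_⟩
        linear_combination hmod + A * ha3
    rw [← e1]
    simp only [M2.act]
    ext
    · simp only
      linear_combination -hmod
    · simp
  have hdet : (⟨A, -(q * j), 0, 1⟩ : M2).det = A := by simp [M2.det]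
  have hnot : ¬ ∀ h ∈ L j, h.act (x, (w : ℤ)) ∉ Exc c := by
    intro hall
    have h1 := hL3 (x, (w : ℤ)) hv0 hvC hall
    rw [hMact, hdet] at h1
    apply hbad
    unfold fw
    rw [h1, hx]
  push Not at hnot
  obtain ⟨h, hh1, hh2⟩ := hnot
  refine ⟨j, hjJ, h, hh1, by rw [← hx]; exact hh2, ?_⟩
  rw [← hx]
  obtain ⟨_, _, ⟨b1, b2, b3, b4⟩⟩ := hL2 h hh1
  have hXZ : (4 : ℤ) * H * q * W ≤ X := by exact_mod_cast hX
  have hw2Z : (w : ℤ) ≤ 2 * W := by exact_mod_cast hw2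
  have hq1 : (1 : ℤ) ≤ q := by exact_mod_cast hq
  have hbd : (H : ℤ) * x + H * w ≤ X := by
    have h1 : (w : ℤ) ≤ q * w := by nlinarith
    have h2 : x + w ≤ 2 * (q * w) := by linarith
    have h3 : (q : ℤ) * w ≤ q * (2 * W) := mul_le_mul_of_nonneg_left hw2Z hqZ.le
    have h4 : (H : ℤ) * (x + w) ≤ H * (2 * (q * (2 * W))) :=
      mul_le_mul_of_nonneg_left (by linarith) (by positivity)
    calc (H : ℤ) * x + H * w = H * (x + w) := by ring
      _ ≤ H * (2 * (q * (2 * W))) := h4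
      _ = 4 * H * q * W := by ring
      _ ≤ X := hXZ
  have key : ∀ u v : ℤ, |u| ≤ H → |v| ≤ H → |u * x + v * w| ≤ X := by
    intro u v hu hv
    calc |u * x + v * w| ≤ |u * x| + |v * w| := abs_add_le _ _
      _ = |u| * x + |v| * w := by rw [abs_mul, abs_mul, abs_of_nonneg x0, abs_of_pos hwZ]
      _ ≤ H * x + H * w := by
        have := mul_le_mul_of_nonneg_right hu x0
        have := mul_le_mul_of_nonneg_right hv hwZ.le
        linarith
      _ ≤ X := hbd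
  simp only [box, Finset.mem_product, Finset.mem_Icc, M2.act]
  have k1 := abs_le.1 (key _ _ b1 b2)
  have k2 := abs_le.1 (key _ _ b3 b4)
  exact ⟨k1, k2⟩

private theorem Good_one (c : Cfg) (q : ℕ) (hq : 0 < q) (hN : c.N ∣ q) (A : ℤ) (J H W X : ℕ)
    (hAJ : |A| ≤ J) (hAq : (q : ℤ) ∣ A - 1)
    (hNI : ∀ j : ℤ, |j| ≤ J → NI c ⟨A, -(q * j), 0, 1⟩ H)
    (hX : 4 * H * q * W ≤ X) (S : Finset ℕ)
    (hS : ∀ w ∈ S, W < w ∧ w ≤ 2 * W ∧ c.N ∣ (w : ℤ) - c.b ∧ Nat.Coprime q w) :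
    ∑ w ∈ S, badc c q w A ≤ (2 * J + 1) * H * excN c X := by
  classical
  have hL0 : ∀ j : ℤ, ∃ L : List M2, |j| ≤ J → (L.length ≤ H ∧
      (∀ h ∈ L, h.cg c.N ∧ h.det ≠ 0 ∧ h.bd H) ∧
      ∀ v : ℤ × ℤ, v ≠ 0 → v ∈ Cls c → (∀ h ∈ L, h.act v ∉ Exc c) →
        F c ((⟨A, -(q * j), 0, 1⟩ : M2).act v) = lam (⟨A, -(q * j), 0, 1⟩ : M2).det * F c v) := by
    intro j
    by_cases hj : |j| ≤ J
    · obtain ⟨_, _, _, L, hL⟩ := hNI j hj
      exact ⟨L, fun _ => hL⟩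
    · exact ⟨[], fun h => absurd h hj⟩
  choose L hL using hL0
  have hkey : ∀ p : (Σ _ : ℕ, ℕ), p ∈ S.sigma (fun w => (Finset.range w).filter
      (fun s : ℕ => fw c q w (A * s) ≠ lam A * fw c q w s)) →
      ∃ t : ℤ × ℕ × (ℤ × ℤ), t ∈ (Finset.Icc (-(J : ℤ)) J) ×ˢ (Finset.range H) ×ˢ
        ((box X).filter (fun v => v ∈ Exc c)) ∧ ∃ h : M2, (L t.1)[t.2.1]? = some h ∧ h.det ≠ 0 ∧
        h.act (rep c q p.1 p.2, (p.1 : ℤ)) = t.2.2 := by
    rintro ⟨w, s⟩ hp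
    simp only [Finset.mem_sigma, Finset.mem_filter, Finset.mem_range] at hp
    obtain ⟨hwS, hsw, hbad⟩ := hp
    obtain ⟨j, hj, h, hh, hE, hB⟩ := Good_key c q hq hN A J H W X hAJ hAq hX L hL w (hS w hwS) s hbad
    obtain ⟨i, hi, hi2⟩ := List.mem_iff_getElem.1 hh
    obtain ⟨l1, l2, _⟩ := hL j hj
    refine ⟨(j, i, h.act (rep c q w s, (w : ℤ))), ?_, h, ?_, (l2 h hh).2.1, rfl⟩
    · simp only [Finset.mem_product, Finset.mem_Icc, Finset.mem_range, Finset.mem_filter]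
      exact ⟨abs_le.1 hj, lt_of_lt_of_le hi l1, hB, hE⟩
    · simp only
      rw [List.getElem?_eq_getElem hi, hi2]
  choose! f hf using hkey
  have hcard : ∑ w ∈ S, badc c q w A = (S.sigma (fun w => (Finset.range w).filter
      (fun s : ℕ => fw c q w (A * s) ≠ lam A * fw c q w s))).card := by
    rw [Finset.card_sigma]; rfl
  rw [hcard]
  have hT : ((Finset.Icc (-(J : ℤ)) J) ×ˢ (Finset.range H) ×ˢ
        ((box X).filter (fun v => v ∈ Exc c))).card = (2 * J + 1) * H * excN c X := by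
    rw [Finset.card_product, Finset.card_product, Finset.card_range, Int.card_Icc]
    have e1 : ((J : ℤ) + 1 - -(J : ℤ)).toNat = 2 * J + 1 := by
      have : (J : ℤ) + 1 - -(J : ℤ) = ((2 * J + 1 : ℕ) : ℤ) := by push_cast; ring
      rw [this, Int.toNat_natCast]
    rw [e1, mul_assoc]
    congr 2
  rw [← hT]
  refine Finset.card_le_card_of_injOn f (fun p hp => (hf p hp).1) ?_
  rintro ⟨w, s⟩ hp ⟨w', s'⟩ hp' heq
  obtain ⟨_, h, hh1, hh2, hh3⟩ := hf _ hp
  obtain ⟨_, h', hh1', hh2', hh3'⟩ := hf _ hp'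
  rw [heq] at hh1 hh3
  rw [hh1'] at hh1
  obtain rfl : h' = h := by simpa using hh1
  rw [← hh3'] at hh3
  have hinj := M2.act_injective hh2 hh3
  simp only [Prod.mk.injEq] at hinj
  obtain ⟨i1, i2⟩ := hinj
  have hww : w = w' := by exact_mod_cast i2
  subst hww
  have hp1 := Finset.mem_coe.1 hp
  have hp1' := Finset.mem_coe.1 hp'
  simp only [Finset.mem_sigma, Finset.mem_filter, Finset.mem_range] at hp1 hp1'
  have hcop := (hS w hp1.1).2.2.2
  have d1 := rep_w c hcop (s : ℤ)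
  have d2 := rep_w c hcop (s' : ℤ)
  rw [← i1] at d2
  have d3 := dvd_sub d2 d1
  have e : rep c q w s - s' - (rep c q w s - s) = (s : ℤ) - s' := by ring
  rw [e] at d3
  have d4 : |(s : ℤ) - s'| < w := by
    rw [abs_lt]
    have q1 : (s : ℤ) < w := by exact_mod_cast hp1.2.1
    have q2 : (s' : ℤ) < w := by exact_mod_cast hp1'.2.1
    have q3 : (0 : ℤ) ≤ s := by positivity
    have q4 : (0 : ℤ) ≤ s' := by positivity
    constructor <;> linarith
  have d5 := Int.eq_zero_of_abs_lt_dvd d3 d4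
  have d6 : s = s' := by
    have : (s : ℤ) = s' := by linarith
    exact_mod_cast this
  rw [d6]

theorem st_good (c : Cfg) (q : ℕ) (hq : 0 < q) (hN : c.N ∣ q) (Z : Finset (ℤ × ℤ))
    (A : ℤ × ℤ → ℤ) (J H W X : ℕ)
    (hA : ∀ z ∈ Z, A z ≠ 0 ∧ |A z| ≤ J ∧ (q : ℤ) ∣ A z - 1)
    (hNI : ∀ z ∈ Z, ∀ j : ℤ, |j| ≤ J → NI c ⟨A z, -(q * j), 0, 1⟩ H)
    (hX : 4 * H * q * W ≤ X) (S : Finset ℕ)
    (hS : ∀ w ∈ S, W < w ∧ w ≤ 2 * W ∧ c.N ∣ (w : ℤ) - c.b ∧ Nat.Coprime q w) :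
    ∑ w ∈ S, ∑ z ∈ Z, badc c q w (A z) ≤ Z.card * (2 * J + 1) * H * excN c X := by
  rw [Finset.sum_comm]
  calc ∑ z ∈ Z, ∑ w ∈ S, badc c q w (A z) ≤ ∑ _z ∈ Z, (2 * J + 1) * H * excN c X := by
        refine Finset.sum_le_sum fun z hz => ?_
        exact Good_one c q hq hN (A z) J H W X (hA z hz).2.1 (hA z hz).2.2 (hNI z hz) hX S hS
    _ = Z.card * (2 * J + 1) * H * excN c X := by
        rw [Finset.sum_const, smul_eq_mul]; ring

end Pool.Agent.BQF
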