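import Pool.Agent.BQF.Seed

set_option autoImplicit false

/-!
# Horner expansion: all unipotent matrices `(1, P n; 0, 1)` with polynomial cost

PROOF. Let `g` be as in `st_seed`. Let `N = c.N` and `z0 = (r0, N)`, `r0 = 1 + N t` with `t` large:
`μ = n1 c z0 = r0 ^ 2 + τ r0 N + ν N ^ 2`, `δ = n2 c z0 = r0 ^ 2 + D N ^ 2` are both positive and
different (`μ - δ = N (τ r0 + (ν - D) N)`, which is not zero for large `r0` because
`(τ, ν - D) ≠ (0, 0)`, `c.h3`). Let `m = max μ δ`, `d = min μ δ`, `0 < d < m`, both `= 1 mod N`.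
Let `b = mB c z0 = (μ, β; 0, δ)`. `conj_mU` gives `b (mU 1 a) adj b = sm μ (mU δ (μ a))`, and with
`adj b` in place of `b` (`adj b = (δ, -β; 0, μ)`): `adj b (mU 1 a) b = sm δ (mU μ (δ a))`. So in
both cases (scalars `= 1 mod N` are removed by `NI_sm`):
(*) if `NI (mU 1 a) H` then `NI (mU d (m a)) (C1 H)` with a constant `C1` (depends on `c`, `z0`).
Put `P = d g`. Claim: there is a constant `C2` such that for every natural `n ≥ 1`,
`NI (mU 1 (P n)) (C2 n ^ κ)`, where `κ` is a natural number with `(m/d) ^ κ ≥ C3`, `C3` the constant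
cost factor of one step. Step: write `d n = m n1 + e`, `0 ≤ e < m`, so `n1 = d n / m < n`
(`n1 ≤ (d/m) n`), and `P n = g d n = (m / d) (P n1) + g e`; i.e.
`mU d (m P n1) * mU 1 (g e) = mU d (m P n1 + d g e) = mU d (d P n) = sm d (mU 1 (P n))`.
`mU 1 (g e)`, `0 ≤ e < m`, is near invariant with cost at most a constant (finitely many `e`,
`st_seed`, take the maximum and `NI_mono`). So cost `(n) ≤ C3 · cost (n1)`; if `n1 = 0` use
`cost (0) ≤ const`, if `n1 ≥ 1`: `C3 C2 n1 ^ κ ≤ C2 ((m/d) n1) ^ κ ≤ C2 n ^ κ`. (Strong induction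
on `n`. `cost` bounds as natural numbers: e.g. use `κ` with `C3 d ^ κ ≤ m ^ κ`, and
`C3 C2 n1 ^ κ d ^ κ ≤ C2 (m n1) ^ κ ≤ C2 (d n) ^ κ`.)
Negative `n`: `NI_adj` and `mU_adj` (cost `2 H ^ 2`), `n = 0`: identity. Finally for `ρ ≥ 2`,
`|n| ≤ ρ`: `2 (C2 ρ ^ κ) ^ 2 ≤ ρ ^ (1 + 2 C2 + 2 κ)` because `C2 ≤ 2 ^ C2 ≤ ρ ^ C2`.
-/

namespace Pool.Agent.BQF

private theorem Horn_base (c : Cfg) : ∃ (m d : ℕ) (β : ℤ) (Hb : ℕ), 0 < d ∧ d < m ∧
    c.N ∣ (m : ℤ) - 1 ∧ c.N ∣ (d : ℤ) - 1 ∧ NI c ⟨m, β, 0, d⟩ Hb := by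
  obtain ⟨T, hT⟩ : ∃ T : ℤ, T = |c.tau| := ⟨_, rfl⟩
  obtain ⟨V, hV⟩ : ∃ V : ℤ, V = |c.nu| := ⟨_, rfl⟩
  obtain ⟨E, hE⟩ : ∃ E : ℤ, E = |c.D| := ⟨_, rfl⟩
  have hT0 : 0 ≤ T := hT ▸ abs_nonneg _
  have hV0 : 0 ≤ V := hV ▸ abs_nonneg _
  have hE0 : 0 ≤ E := hE ▸ abs_nonneg _
  have hN : (1 : ℤ) ≤ c.N := c.hN
  obtain ⟨t, ht⟩ : ∃ t : ℤ, t = T + V + E + 1 := ⟨_, rfl⟩
  obtain ⟨r, hr⟩ : ∃ r : ℤ, r = 1 + c.N * t := ⟨_, rfl⟩
  have hr1 : c.N * t < r := by rw [hr]; linarith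
  have hrN : c.N ≤ r := by nlinarith
  have hr0 : 0 < r := by linarith
  have hNT : 0 ≤ c.N * T := mul_nonneg (by linarith) hT0
  have hNV : 0 ≤ c.N * V := mul_nonneg (by linarith) hV0
  have hNE : 0 ≤ c.N * E := mul_nonneg (by linarith) hE0
  have hr2 : c.N * T + c.N * V + c.N * E + c.N < r := by
    have : c.N * t = c.N * T + c.N * V + c.N * E + c.N := by rw [ht]; ring
    linarith
  obtain ⟨μ, hμ⟩ : ∃ μ : ℤ, μ = n1 c (r, c.N) := ⟨_, rfl⟩
  obtain ⟨δ, hδ⟩ : ∃ δ : ℤ, δ = n2 c (r, c.N) := ⟨_, rfl⟩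
  have hμ' : μ = r ^ 2 + c.tau * r * c.N + c.nu * c.N ^ 2 := hμ
  have hδ' : δ = r ^ 2 + c.D * c.N ^ 2 := hδ
  have t1 : -T ≤ c.tau := by rw [hT]; exact neg_abs_le _
  have v1 : -V ≤ c.nu := by rw [hV]; exact neg_abs_le _
  have d1 : -E ≤ c.D := by rw [hE]; exact neg_abs_le _
  have hμ0 : 0 < μ := by
    have h1 : -(T * (r * c.N)) ≤ c.tau * (r * c.N) := by
      have : 0 ≤ r * c.N := by positivity
      nlinarith
    have h2 : -(V * (c.N * c.N)) ≤ c.nu * (c.N * c.N) := by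
      have : 0 ≤ c.N * c.N := by positivity
      nlinarith
    have h3 : V * (c.N * c.N) ≤ V * (c.N * r) := by
      apply mul_le_mul_of_nonneg_left _ hV0
      nlinarith
    have h4 : r * (c.N * T + c.N * V) < r * r := by
      apply mul_lt_mul_of_pos_left _ hr0
      linarith
    rw [hμ']
    nlinarith
  have hδ0 : 0 < δ := by
    have h2 : -(E * (c.N * c.N)) ≤ c.D * (c.N * c.N) := by
      have : 0 ≤ c.N * c.N := by positivity
      nlinarith
    have h3 : E * (c.N * c.N) ≤ E * (c.N * r) := by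
      apply mul_le_mul_of_nonneg_left _ hE0
      nlinarith
    have h4 : r * (c.N * E) < r * r := by
      apply mul_lt_mul_of_pos_left _ hr0
      linarith
    rw [hδ']
    nlinarith
  have hne : μ ≠ δ := by
    intro h
    have h1 : c.N * (c.tau * r + (c.nu - c.D) * c.N) = 0 := by
      rw [hμ', hδ'] at h
      linear_combination h
    have h2 : c.tau * r + (c.nu - c.D) * c.N = 0 := by
      rcases mul_eq_zero.1 h1 with h1 | h1
      · linarith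
      · exact h1
    rcases eq_or_ne c.tau 0 with h3 | h3
    · apply c.h3
      refine ⟨h3, ?_⟩
      rw [h3] at h2
      have h4 : (c.nu - c.D) * c.N = 0 := by linarith
      rcases mul_eq_zero.1 h4 with h4 | h4
      · linarith
      · linarith
    · have h4 : 1 ≤ |c.tau| := Int.one_le_abs h3
      have h5 : |c.tau * r| = |(c.nu - c.D) * c.N| := by
        rw [show c.tau * r = -((c.nu - c.D) * c.N) by linarith, abs_neg]
      rw [abs_mul, abs_mul, abs_of_pos hr0, abs_of_pos (show 0 < c.N by linarith)] at h5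
      have h6 : |c.nu - c.D| ≤ V + E := by
        rw [hV, hE]
        exact abs_sub _ _
      have h7 : r ≤ |c.tau| * r := by nlinarith
      have h8 : |c.nu - c.D| * c.N ≤ (V + E) * c.N := by nlinarith
      nlinarith
  have hz1 : c.N ∣ ((r, c.N) : ℤ × ℤ).1 - 1 := ⟨t, by simp only; rw [hr]; ring⟩
  have hz2 : c.N ∣ ((r, c.N) : ℤ × ℤ).2 := ⟨1, by simp⟩
  have hz : ((r, c.N) : ℤ × ℤ) ≠ 0 := by
    intro h
    rw [Prod.ext_iff] at h
    simp only [Prod.fst_zero, Prod.snd_zero] at h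
    linarith [h.1]
  have hrn : ((r.toNat : ℕ) : ℤ) = r := Int.toNat_of_nonneg hr0.le
  have hb := NI_mB (ρ := r.toNat) hz hz1 hz2 (by zify; rw [hrn]; linarith)
    (by rw [hrn]; simp only; rw [abs_of_pos hr0])
    (by rw [hrn]; simp only; rw [abs_of_pos (show 0 < c.N by linarith)]; exact hrN)
  rw [mB_eq, ← hμ, ← hδ] at hb
  have hμN : c.N ∣ μ - 1 := by rw [hμ]; exact n1_cg hz1 hz2
  have hδN : c.N ∣ δ - 1 := by rw [hδ]; exact n2_cg hz1 hz2
  have eμ : ((μ.toNat : ℕ) : ℤ) = μ := Int.toNat_of_nonneg hμ0.le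
  have eδ : ((δ.toNat : ℕ) : ℤ) = δ := Int.toNat_of_nonneg hδ0.le
  obtain ⟨Hb, hb⟩ : ∃ Hb, NI c ⟨μ, beta c (r, c.N), 0, δ⟩ Hb := ⟨_, hb⟩
  rcases lt_or_gt_of_ne hne with h | h
  · have h2 := NI_adj hb
    simp only [M2.adj, neg_zero] at h2
    refine ⟨δ.toNat, μ.toNat, -(beta c (r, c.N)), 2 * Hb * Hb, by omega, by omega,
      by rw [eδ]; exact hδN, by rw [eμ]; exact hμN, ?_⟩
    rw [eμ, eδ]
    exact h2
  · refine ⟨μ.toNat, δ.toNat, beta c (r, c.N), Hb, by omega, by omega,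
      by rw [eμ]; exact hμN, by rw [eδ]; exact hδN, ?_⟩
    rw [eμ, eδ]
    exact hb

theorem st_horner (c : Cfg) : ∃ P : ℤ, 0 < P ∧ ∃ C0 : ℕ, ∀ (n : ℤ) (ρ : ℕ), 2 ≤ ρ → |n| ≤ ρ →
    NI c (mU 1 (P * n)) (ρ ^ C0) := by
  obtain ⟨m, d, β, Hb, hd0, hdm, hmN, hdN, hb⟩ := Horn_base c
  obtain ⟨g, hg0, hseed⟩ := st_seed c
  choose Hs hHs using hseed
  obtain ⟨B, hB⟩ : ∃ B : ℕ, B = ∑ e ∈ Finset.range m, Hs (e : ℤ) := ⟨_, rfl⟩
  have hBe : ∀ e : ℕ, e < m → NI c (mU 1 (g * (e : ℤ))) B := by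
    intro e he
    refine NI_mono (hHs _) ?_
    rw [hB]
    exact Finset.single_le_sum (f := fun e : ℕ => Hs (e : ℤ)) (fun _ _ => Nat.zero_le _)
      (Finset.mem_range.2 he)
  have hB0 : NI c (mU 1 0) B := by
    have := hBe 0 (by omega)
    simpa using this
  have hB1 : 1 ≤ B := NI_pos hB0
  have hd0' : (d : ℤ) ≠ 0 := by exact_mod_cast hd0.ne'
  have hm0' : (m : ℤ) ≠ 0 := by exact_mod_cast (by omega : m ≠ 0)
  have hb1 : 1 ≤ Hb := NI_pos hb
  -- one conjugation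
  have hconj : ∀ (a : ℤ) (H : ℕ), NI c (mU 1 a) H →
      NI c (mU d (m * a)) (2 * (2 * Hb * H) * (2 * Hb * Hb)) := by
    intro a H h
    have h1 := NI_mul (NI_mul hb h) (NI_adj hb)
    rw [conj_mU, mul_one] at h1
    exact NI_sm h1 hm0' hmN
  obtain ⟨C3, hC3⟩ : ∃ C3 : ℕ, C3 = 16 * Hb ^ 3 * B := ⟨_, rfl⟩
  have hC31 : 1 ≤ C3 := by
    rw [hC3]
    have : 1 ≤ Hb ^ 3 := Nat.one_le_pow _ _ hb1
    nlinarith
  -- one step
  have hstep : ∀ (n n1 e : ℕ) (H : ℕ), d * n = m * n1 + e → e < m →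
      NI c (mU 1 ((d * g) * (n1 : ℤ))) H → NI c (mU 1 ((d * g) * (n : ℤ))) (C3 * H) := by
    intro n n1 e H hn he h
    have h1 := NI_mul (hconj _ _ h) (hBe e he)
    rw [mU_mul] at h1
    have hn' : (d : ℤ) * n = m * n1 + e := by exact_mod_cast hn
    have h2 : mU ((d : ℤ) * 1) (d * (g * (e : ℤ)) + m * (d * g * (n1 : ℤ)) * 1) =
        M2.sm d (mU 1 ((d * g) * (n : ℤ))) := by
      rw [mU_sm]
      congr 1
      linear_combination -(d * g) * hn'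
    rw [h2] at h1
    have h3 := NI_sm h1 hd0' hdN
    refine NI_mono h3 (le_of_eq ?_)
    rw [hC3]
    ring
  -- the exponent
  obtain ⟨κ, hκ⟩ : ∃ κ : ℕ, C3 * d ^ κ ≤ m ^ κ := by
    have hlt : (1 : ℝ) < (m : ℝ) / d := by
      rw [one_lt_div (by exact_mod_cast hd0)]
      exact_mod_cast hdm
    obtain ⟨κ, hκ⟩ := pow_unbounded_of_one_lt (C3 : ℝ) hlt
    refine ⟨κ, ?_⟩
    rw [div_pow, lt_div_iff₀ (by positivity)] at hκ
    exact_mod_cast hκ.le
  obtain ⟨C2, hC2⟩ : ∃ C2 : ℕ, C2 = C3 * B := ⟨_, rfl⟩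
  have hBC2 : B ≤ C2 := by rw [hC2]; nlinarith
  have hmain : ∀ n : ℕ, 1 ≤ n → NI c (mU 1 ((d * g) * (n : ℤ))) (C2 * n ^ κ) := by
    intro n
    induction n using Nat.strong_induction_on with
    | _ n ih =>
      intro hn
      have hdiv : d * n = m * (d * n / m) + d * n % m := (Nat.div_add_mod _ _).symm
      have hmod : d * n % m < m := Nat.mod_lt _ (by omega)
      obtain ⟨n1, hn1⟩ : ∃ n1, n1 = d * n / m := ⟨_, rfl⟩
      obtain ⟨e, he⟩ : ∃ e, e = d * n % m := ⟨_, rfl⟩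
      rw [← hn1, ← he] at hdiv
      rw [← he] at hmod
      have hlt : n1 < n := by
        by_contra hc
        push Not at hc
        have h1 : m * n ≤ m * n1 := Nat.mul_le_mul_left _ hc
        have h2 : d * n < m * n := Nat.mul_lt_mul_of_pos_right hdm hn
        omega
      rcases Nat.eq_zero_or_pos n1 with h0 | h0
      · have h1 : NI c (mU 1 ((d * g) * (n1 : ℤ))) B := by
          rw [h0]
          simpa using hB0
        refine NI_mono (hstep n n1 e B hdiv hmod h1) ?_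
        rw [← hC2]
        exact Nat.le_mul_of_pos_right _ (Nat.pow_pos hn)
      · refine NI_mono (hstep n n1 e _ hdiv hmod (ih n1 hlt h0)) ?_
        have h3 : C3 * n1 ^ κ ≤ n ^ κ := by
          have h4 : C3 * d ^ κ * n1 ^ κ ≤ d ^ κ * n ^ κ := by
            calc C3 * d ^ κ * n1 ^ κ ≤ m ^ κ * n1 ^ κ := Nat.mul_le_mul_right _ hκ
              _ = (m * n1) ^ κ := (mul_pow _ _ _).symm
              _ ≤ (d * n) ^ κ := Nat.pow_le_pow_left (by omega) _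
              _ = d ^ κ * n ^ κ := mul_pow _ _ _
          have h5 : d ^ κ * (C3 * n1 ^ κ) ≤ d ^ κ * n ^ κ := by
            calc d ^ κ * (C3 * n1 ^ κ) = C3 * d ^ κ * n1 ^ κ := by ring
              _ ≤ _ := h4
          exact Nat.le_of_mul_le_mul_left h5 (Nat.pow_pos hd0)
        calc C3 * (C2 * n1 ^ κ) = C2 * (C3 * n1 ^ κ) := by ring
          _ ≤ C2 * n ^ κ := Nat.mul_le_mul_left _ h3
  refine ⟨d * g, by positivity, 1 + 2 * C2 + 2 * κ, ?_⟩
  intro n ρ hρ hn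
  have hρC : C2 ≤ ρ ^ C2 := (Nat.lt_pow_self (by norm_num : 1 < 2)).le.trans
    (Nat.pow_le_pow_left hρ _)
  have hcost : ∀ k : ℕ, k ≤ ρ → C2 * k ^ κ ≤ ρ ^ (C2 + κ) := by
    intro k hk
    rw [pow_add]
    exact Nat.mul_le_mul hρC (Nat.pow_le_pow_left hk _)
  have hmonoρ : ∀ a b : ℕ, a ≤ b → ρ ^ a ≤ ρ ^ b := fun a b hab =>
    Nat.pow_le_pow_right (by omega) hab
  rcases lt_trichotomy n 0 with h | h | h
  · have h1 : (n.natAbs : ℤ) = -n := by omega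
    have hk : n.natAbs ≤ ρ := by
      rw [abs_of_neg h] at hn
      omega
    have h2 := NI_adj (hmain n.natAbs (by omega))
    rw [mU_adj] at h2
    have h3 : -((d : ℤ) * g * (n.natAbs : ℤ)) = d * g * n := by rw [h1]; ring
    rw [h3] at h2
    refine NI_mono h2 ?_
    have h4 := hcost _ hk
    calc 2 * (C2 * n.natAbs ^ κ) * (C2 * n.natAbs ^ κ)
        ≤ ρ * ρ ^ (C2 + κ) * ρ ^ (C2 + κ) := Nat.mul_le_mul (Nat.mul_le_mul hρ h4) h4
      _ = ρ ^ (1 + 2 * C2 + 2 * κ) := by ring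
  · rw [h, mul_zero]
    refine NI_mono hB0 (hBC2.trans (hρC.trans (hmonoρ _ _ (by omega))))
  · have h1 : (n.natAbs : ℤ) = n := by omega
    have hk : n.natAbs ≤ ρ := by
      rw [abs_of_pos h] at hn
      omega
    have h2 := hmain n.natAbs (by omega)
    rw [h1] at h2
    exact NI_mono h2 ((hcost _ hk).trans (hmonoρ _ _ (by omega)))

end Pool.Agent.BQF
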