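import Pool.Agent.BQF.Rk
import Pool.Agent.FCH.Mls

set_option autoImplicit false

/-!
# Large sieve for the `k`-th power of a character sum

PROOF. `Pool.Agent.FCH.mls` is the multiplicative large sieve (constant `C`, primitive characters
`Pool.Agent.FCH.prc q`, `mem_prc`). Let `K = C`. Put `S(χ) = ∑_{z ∈ Z} ε z χ(B z)`,
`a n = ∑_{u ∈ Z^k, ∏ B (u i) = n} ∏ ε (u i)` for `1 ≤ n ≤ M ^ k`. Then `S(χ) ^ k = ∑_{n ≤ M^k} a n χ(n)`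
(`Finset.prod_univ_sum` or `Finset.sum_pow'`/`Finset.prod_sum` : `(∑_z g z)^k = ∑_{u ∈ piFinset} ∏ g (u i)`,
`χ` multiplicative, products lie in `[1, M ^ k]`; group by the value of the product:
`Finset.sum_fiberwise_of_maps_to`). `|a n| ≤ r n := |{u : ∏ B (u i) = n}| ≤ k^(kΛ) 2^(kΛ)` (`st_rk`), and
`∑_n r n = |Z|^k`, so `∑ |a n|² ≤ k^(kΛ) 2^(kΛ) |Z|^k`. For `r ∈ Q` choose `χ_r` as in the hypothesis:
`∑_{r ∈ Q} ‖S(χ_r)^k‖² ≤ ∑_{q ≤ R} ∑_{χ ∈ prc q} ‖∑ a n χ(n)‖² ≤ C (M^k + R²) ∑ |a n|²` and each term on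
the left is `≥ (9/10 |Z|)^(2k) = (81/100)^k |Z|^(2k)`. Divide by `|Z|^k > 0`.
-/

namespace Pool.Agent.BQF

open Finset in
private theorem LsP_pow {r : ℕ} (χ : DirichletCharacter ℂ r) (Z : Finset (ℤ × ℤ)) (B : ℤ × ℤ → ℕ)
    (ε : ℤ × ℤ → ℂ) (k N : ℕ)
    (hN : ∀ u ∈ Fintype.piFinset (fun _ : Fin k => Z), ∏ i, B (u i) ∈ Icc 1 N) :
    (∑ z ∈ Z, ε z * χ (B z : ZMod r)) ^ k = ∑ n ∈ Icc 1 N,
      (∑ u ∈ (Fintype.piFinset (fun _ : Fin k => Z)).filter (fun u => ∏ i, B (u i) = n),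
        ∏ i, ε (u i)) * χ n := by
  rw [sum_pow', ← sum_fiberwise_of_maps_to hN]
  refine sum_congr rfl fun n _ => ?_
  rw [sum_mul]
  refine sum_congr rfl fun u hu => ?_
  rw [mem_filter] at hu
  rw [prod_mul_distrib, ← hu.2, Nat.cast_prod, map_prod]

open Finset in
theorem st_lsp : ∃ K : ℝ, 0 < K ∧ ∀ (Z : Finset (ℤ × ℤ)) (B : ℤ × ℤ → ℕ)
    (ε : ℤ × ℤ → ℂ) (Λ k R M : ℕ), 1 ≤ k → 1 ≤ R → 1 ≤ M → Z.Nonempty →
    (∀ z ∈ Z, 1 ≤ B z ∧ B z ≤ M ∧ ArithmeticFunction.cardFactors (B z) ≤ Λ) →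
    (∀ b : ℕ, (Z.filter (fun z => B z = b)).card ≤ 2 ^ Λ) → (∀ z ∈ Z, ‖ε z‖ ≤ 1) →
    ∀ Q : Finset ℕ, (∀ r ∈ Q, 1 ≤ r ∧ r ≤ R ∧ ∃ χ : DirichletCharacter ℂ r, χ.IsPrimitive ∧
      9 / 10 * (Z.card : ℝ) ≤ ‖∑ z ∈ Z, ε z * χ (B z : ZMod r)‖) →
    (Q.card : ℝ) * (81 / 100) ^ k * (Z.card : ℝ) ^ k ≤
      K * ((M : ℝ) ^ k + (R : ℝ) ^ 2) * ((k : ℝ) ^ (k * Λ) * 2 ^ (k * Λ)) := by
  obtain ⟨C, hC, hmls⟩ := Pool.Agent.FCH.mls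
  refine ⟨C, hC, fun Z B ε Λ k R M hk hR hM hZ hB hfb hε Q hQ => ?_⟩
  have hZ0 : (0 : ℝ) < Z.card := by exact_mod_cast hZ.card_pos
  set U := Fintype.piFinset (fun _ : Fin k => Z) with hU
  have hmem : ∀ u ∈ U, ∀ i, u i ∈ Z := fun u hu i => Fintype.mem_piFinset.1 hu i
  have hN : ∀ u ∈ U, ∏ i, B (u i) ∈ Icc 1 (M ^ k) := by
    intro u hu
    rw [mem_Icc]
    constructor
    · exact Nat.one_le_iff_ne_zero.2 (prod_ne_zero_iff.2 fun i _ => by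
        have := (hB _ (hmem u hu i)).1
        omega)
    · calc ∏ i, B (u i) ≤ ∏ _i : Fin k, M := prod_le_prod' fun i _ => (hB _ (hmem u hu i)).2.1
        _ = M ^ k := by simp
  set r : ℕ → ℕ := fun n => (U.filter (fun u => ∏ i, B (u i) = n)).card with hr
  set a : ℕ → ℂ := fun n => ∑ u ∈ U.filter (fun u => ∏ i, B (u i) = n), ∏ i, ε (u i) with ha
  set W : ℝ := (k : ℝ) ^ (k * Λ) * 2 ^ (k * Λ) with hW
  have hW0 : 0 ≤ W := by positivity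
  have har : ∀ n, ‖a n‖ ≤ r n := by
    intro n
    simp only [ha, hr]
    refine (norm_sum_le _ _).trans ?_
    have h1 : ∀ u ∈ U.filter (fun u => ∏ i, B (u i) = n), ‖∏ i, ε (u i)‖ ≤ 1 := by
      intro u hu
      rw [mem_filter] at hu
      rw [norm_prod]
      exact prod_le_one (fun _ _ => norm_nonneg _) fun i _ => hε _ (hmem u hu.1 i)
    refine (sum_le_sum h1).trans ?_
    rw [sum_const, nsmul_eq_mul, mul_one]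
  have hrW : ∀ n, (r n : ℝ) ≤ W := by
    intro n
    have h1 := st_rk Z B Λ k (fun z hz => ⟨(hB z hz).1, (hB z hz).2.2⟩) hfb n
    have h2 : (r n : ℝ) ≤ ((k ^ (k * Λ) * 2 ^ (k * Λ) : ℕ) : ℝ) := by exact_mod_cast h1
    rw [hW]
    push_cast at h2
    exact h2
  have hrs : ∑ n ∈ Icc 1 (M ^ k), (r n : ℝ) = (Z.card : ℝ) ^ k := by
    have h1 := card_eq_sum_card_fiberwise (f := fun u : Fin k → ℤ × ℤ => ∏ i, B (u i)) (s := U)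
      (t := Icc 1 (M ^ k)) (fun u hu => hN u hu)
    have h2 : U.card = Z.card ^ k := by
      rw [hU, Fintype.card_piFinset]
      simp
    rw [h2] at h1
    have h3 : (((Z.card ^ k : ℕ)) : ℝ) = ∑ n ∈ Icc 1 (M ^ k), (r n : ℝ) := by
      rw [h1]
      push_cast
      rfl
    rw [← h3]
    push_cast
    rfl
  have hasq : ∑ n ∈ Icc 1 (M ^ k), ‖a n‖ ^ 2 ≤ W * (Z.card : ℝ) ^ k := by
    rw [← hrs, mul_sum]
    refine sum_le_sum fun n _ => ?_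
    rw [sq]
    exact mul_le_mul ((har n).trans (hrW n)) (har n) (norm_nonneg _) hW0
  have h1 := hmls R (M ^ k) a hR (Nat.one_le_pow _ _ hM)
  push_cast at h1
  have h2 : ∀ q ∈ Q, ((81 / 100 : ℝ) ^ k * (Z.card : ℝ) ^ k * (Z.card : ℝ) ^ k) ≤
      ∑ χ ∈ Pool.Agent.FCH.prc q, ‖∑ n ∈ Icc 1 (M ^ k), a n * χ n‖ ^ 2 := by
    intro q hq
    obtain ⟨hq1, hq2, χ, hχ, h3⟩ := hQ q hq
    have h4 : χ ∈ Pool.Agent.FCH.prc q := (Pool.Agent.FCH.mem_prc (by omega) χ).2 hχ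
    have h5 : ‖∑ n ∈ Icc 1 (M ^ k), a n * χ n‖ ^ 2 ≤
        ∑ χ ∈ Pool.Agent.FCH.prc q, ‖∑ n ∈ Icc 1 (M ^ k), a n * χ n‖ ^ 2 :=
      single_le_sum (f := fun χ : DirichletCharacter ℂ q =>
        ‖∑ n ∈ Icc 1 (M ^ k), a n * χ n‖ ^ 2) (fun _ _ => sq_nonneg _) h4
    refine le_trans ?_ h5
    rw [← LsP_pow χ Z B ε k (M ^ k) hN, norm_pow]
    have h6 : (9 / 10 * (Z.card : ℝ)) ^ k ≤ ‖∑ z ∈ Z, ε z * χ (B z : ZMod q)‖ ^ k :=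
      pow_le_pow_left₀ (by positivity) h3 k
    calc (81 / 100 : ℝ) ^ k * (Z.card : ℝ) ^ k * (Z.card : ℝ) ^ k =
        ((9 / 10 * (Z.card : ℝ)) ^ k) ^ 2 := by
          rw [show (81 / 100 : ℝ) = 9 / 10 * (9 / 10) by norm_num, mul_pow, mul_pow]
          ring
      _ ≤ _ := pow_le_pow_left₀ (by positivity) h6 2
  have h3 : (Q.card : ℝ) * ((81 / 100 : ℝ) ^ k * (Z.card : ℝ) ^ k * (Z.card : ℝ) ^ k) ≤
      C * ((M : ℝ) ^ k + (R : ℝ) ^ 2) * (W * (Z.card : ℝ) ^ k) := by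
    calc (Q.card : ℝ) * ((81 / 100 : ℝ) ^ k * (Z.card : ℝ) ^ k * (Z.card : ℝ) ^ k)
        = ∑ q ∈ Q, ((81 / 100 : ℝ) ^ k * (Z.card : ℝ) ^ k * (Z.card : ℝ) ^ k) := by
          rw [sum_const, nsmul_eq_mul]
      _ ≤ ∑ q ∈ Q, ∑ χ ∈ Pool.Agent.FCH.prc q, ‖∑ n ∈ Icc 1 (M ^ k), a n * χ n‖ ^ 2 :=
          sum_le_sum h2
      _ ≤ ∑ q ∈ Icc 1 R, ∑ χ ∈ Pool.Agent.FCH.prc q, ‖∑ n ∈ Icc 1 (M ^ k), a n * χ n‖ ^ 2 := by
          apply sum_le_sum_of_subset_of_nonneg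
          · intro q hq
            rw [mem_Icc]
            exact ⟨(hQ q hq).1, (hQ q hq).2.1⟩
          · intro _ _ _
            exact sum_nonneg fun _ _ => sq_nonneg _
      _ ≤ _ := h1
      _ ≤ _ := mul_le_mul_of_nonneg_left hasq (by positivity)
  have h4 : ((Q.card : ℝ) * (81 / 100) ^ k * (Z.card : ℝ) ^ k) * (Z.card : ℝ) ^ k ≤
      (C * ((M : ℝ) ^ k + (R : ℝ) ^ 2) * W) * (Z.card : ℝ) ^ k := by
    calc _ = (Q.card : ℝ) * ((81 / 100 : ℝ) ^ k * (Z.card : ℝ) ^ k * (Z.card : ℝ) ^ k) := by ring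
      _ ≤ _ := h3
      _ = _ := by ring
  exact le_of_mul_le_mul_right h4 (by positivity)

end Pool.Agent.BQF
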