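import Pool.Agent.BQF.Rep

set_option autoImplicit false

/-!
# Statement of the main theorem in normal form (proved in Main.lean)
-/

namespace Pool.Agent.BQF

/-- The main theorem in normal form. -/
def MainStmt : Prop := ∀ c : Cfg, ∃ A X0 : ℕ, ∀ X : ℕ, X0 ≤ X →
    (X : ℝ) ^ 2 / Real.log X ^ A ≤ (excN c X : ℝ)

end Pool.Agent.BQF
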