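import Pool.Agent.BQF.Defs
import Pool.Agent.Quad.Assemble

set_option autoImplicit false

/-!
# A negative value on the first row

PROOF. For `y = 1 + q |As| t`, `(m0, y)` is admissible and `As * Az m0 y = nn m0 y
= ν y² + τ X0 y + X0²`, `X0 = f.X f.m0 ≠ 0`. The discriminant in `y` is
`(τ X0)² - 4 ν X0² = X0² (τ² - 4 ν)`, not a square (`f.hns`, `X0 ≠ 0`; divide by `X0²` as in the proof of
`n1_ne_zero`). `Pool.Agent.Quad.p_final` (all quadratics, see `allQuad` below) with `A = ν ≠ 0`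
(`Fam.nu_ne_zero`), `N = q |As|`, `r = 1`, `e = - lam As` gives infinitely many `y = n ≥ 0`,
`n = 1 mod q |As|`, with `lam (nn m0 y) = - lam As` (count `≥ X ^ (1/5) > 1` for `X ≥ 2`, so some
`n ≥ 1`). `lam_mul` and `lam_mul_self` give `lam (Az m0 y) = -1`.
-/

namespace Pool.Agent.BQF

/-- both signs of the Liouville function along every irreducible quadratic and progression -/
theorem allQuad (A B C : ℤ) (hA : A ≠ 0) (hD : ¬ IsSquare (B ^ 2 - 4 * A * C)) (N r : ℕ)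
    (hN : 0 < N) (e : ℤ) (he : e = 1 ∨ e = -1) (X0 : ℕ) :
    ∃ X : ℕ, X0 ≤ X ∧ (X : ℝ) ^ (1 / 5 : ℝ) ≤
      (((Finset.range (X + 1)).filter (fun n : ℕ => n ≡ r [MOD N] ∧
        ArithmeticFunction.liouville (A * (n : ℤ) ^ 2 + B * n + C).natAbs = e)).card : ℝ) :=
  Pool.Agent.Quad.p_final _ Pool.Agent.Quad.isSign_liouville' Pool.Agent.Quad.manyQ_liouville
    A B C hA hD N r hN e he X0

theorem st_minus (f : Fam) (q : ℕ) (hq : 0 < q) :
    ∃ y : ℤ, 0 < y ∧ f.Adm q f.m0 y ∧ lam (f.Az f.m0 y) = -1 := by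
  have hX : f.X f.m0 ≠ 0 := Fam.X_ne_zero f.m0
  have hAs : f.As ≠ 0 := Fam.As_ne_zero
  have hns : ¬ IsSquare ((f.tau * f.X f.m0) ^ 2 - 4 * f.nu * (f.X f.m0) ^ 2) := by
    rintro ⟨k, hk⟩
    apply f.hns
    have h4 : k ^ 2 = (f.X f.m0) ^ 2 * (f.tau ^ 2 - 4 * f.nu) := by linear_combination -hk
    have hd : (f.X f.m0) ^ 2 ∣ k ^ 2 := ⟨_, h4⟩
    rw [Int.pow_dvd_pow_iff two_ne_zero] at hd
    obtain ⟨j, hj⟩ := hd
    refine ⟨j, ?_⟩
    rw [hj] at h4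
    have h5 : (f.X f.m0) ^ 2 * (j * j) = (f.X f.m0) ^ 2 * (f.tau ^ 2 - 4 * f.nu) := by
      linear_combination h4
    exact (mul_left_cancel₀ (pow_ne_zero 2 hX) h5).symm
  have hN : 0 < q * f.As.natAbs := Nat.mul_pos hq (Int.natAbs_pos.2 hAs)
  have he : -lam f.As = 1 ∨ -lam f.As = -1 := by
    rcases lam_eq hAs with h | h <;> rw [h] <;> norm_num
  obtain ⟨X, hX2, hcard⟩ := allQuad f.nu
    (f.tau * f.X f.m0) ((f.X f.m0) ^ 2) Fam.nu_ne_zero hns (q * f.As.natAbs) 1 hN (-lam f.As) he 2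
  have h1 : (1 : ℝ) < (X : ℝ) ^ (1 / 5 : ℝ) := by
    apply Real.one_lt_rpow
    · have : (2 : ℝ) ≤ X := by exact_mod_cast hX2
      linarith
    · norm_num
  have h2 : (1 : ℝ) < _ := lt_of_lt_of_le h1 hcard
  have h3 := Finset.one_lt_card.1 (by exact_mod_cast h2)
  obtain ⟨n1, hn1, n2, hn2, hne⟩ := h3
  have h4 : ∃ m : ℕ, m ≠ 0 ∧ m ≡ 1 [MOD q * f.As.natAbs] ∧
      ArithmeticFunction.liouville (f.nu * (m : ℤ) ^ 2 + f.tau * f.X f.m0 * m +
        (f.X f.m0) ^ 2).natAbs = -lam f.As := by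
    rcases eq_or_ne n1 0 with h0 | h0
    · refine ⟨n2, fun h => hne (by rw [h0, h]), ?_⟩
      exact (Finset.mem_filter.1 hn2).2
    · exact ⟨n1, h0, (Finset.mem_filter.1 hn1).2⟩
  obtain ⟨m, hm0, hm1, hm2⟩ := h4
  have hadm : f.Adm q f.m0 (m : ℤ) := by
    refine ⟨by rw [sub_self]; exact dvd_zero _, ?_⟩
    have h5 := (Nat.modEq_iff_dvd.1 hm1)
    push_cast at h5
    have h6 : ((q : ℤ) * |f.As|) ∣ (m : ℤ) - 1 := by
      have h7 : (m : ℤ) - 1 = -(1 - m) := by ring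
      rw [h7]
      exact (dvd_neg).2 h5
    rcases abs_choice f.As with h8 | h8
    · rw [h8] at h6; exact h6
    · rw [h8, mul_neg] at h6; exact (neg_dvd).1 h6
  refine ⟨(m : ℤ), by exact_mod_cast Nat.pos_of_ne_zero hm0, hadm, ?_⟩
  have h9 := Fam.As_mul_Az hadm
  have h10 : lam (f.nn f.m0 (m : ℤ)) = -lam f.As := by
    rw [← hm2]
    unfold lam Fam.nn
    congr 2
    ring
  rw [← h9, lam_mul] at h10
  have h11 := lam_mul_self hAs
  have h12 : lam f.As * (lam f.As * lam (f.Az f.m0 (m : ℤ))) = lam f.As * (-lam f.As) := by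
    rw [h10]
  linear_combination h12 + (-1 - lam (f.Az f.m0 (m : ℤ))) * h11

end Pool.Agent.BQF
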