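import Pool.Agent.BQF.Rep

set_option autoImplicit false

/-!
# Small numerical lemmas for the assembly
-/

namespace Pool.Agent.BQF

theorem Az_bound (f : Fam) : ∃ K : ℕ, ∀ (q m y : ℤ) (ρ : ℕ), f.Adm q m y → 1 ≤ ρ → |m| ≤ ρ →
    |y| ≤ ρ → |f.Az m y| ≤ K * ρ ^ 4 := by
  obtain ⟨a, ha⟩ : ∃ a : ℤ, a = |f.c0| * (1 + |f.D0|) := ⟨_, rfl⟩
  have ha0 : 0 ≤ a := by rw [ha]; positivity
  refine ⟨(a ^ 2 + |f.tau| * a + |f.nu|).toNat, ?_⟩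
  intro q m y ρ had hρ hm hy
  have hK0 : 0 ≤ a ^ 2 + |f.tau| * a + |f.nu| := by positivity
  rw [Int.toNat_of_nonneg hK0]
  have hρ1 : (1 : ℤ) ≤ ρ := by exact_mod_cast hρ
  have hρ2 : (1 : ℤ) ≤ (ρ : ℤ) ^ 2 := one_le_pow₀ hρ1
  have hX : |f.X m| ≤ a * ρ ^ 2 := by
    unfold Fam.X
    rw [abs_mul, ha, mul_assoc]
    apply mul_le_mul_of_nonneg_left _ (abs_nonneg _)
    calc |m ^ 2 + f.D0| ≤ |m ^ 2| + |f.D0| := abs_add_le _ _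
      _ = |m| ^ 2 + |f.D0| := by rw [abs_pow]
      _ ≤ (ρ : ℤ) ^ 2 + |f.D0| * (ρ : ℤ) ^ 2 := by
        have h1 : |m| ^ 2 ≤ (ρ : ℤ) ^ 2 := pow_le_pow_left₀ (abs_nonneg _) hm 2
        have h2 : |f.D0| ≤ |f.D0| * (ρ : ℤ) ^ 2 := le_mul_of_one_le_right (abs_nonneg _) hρ2
        linarith
      _ = (1 + |f.D0|) * (ρ : ℤ) ^ 2 := by ring
  have hy2 : |y| ≤ (ρ : ℤ) ^ 2 := hy.trans (le_self_pow₀ hρ1 two_ne_zero)
  have h1 : |f.X m| ^ 2 ≤ (a * ρ ^ 2) ^ 2 := pow_le_pow_left₀ (abs_nonneg _) hX 2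
  have h2 : |f.X m| * |y| ≤ (a * ρ ^ 2) * (ρ : ℤ) ^ 2 :=
    mul_le_mul hX hy2 (abs_nonneg _) (by positivity)
  have h3 : |y| ^ 2 ≤ ((ρ : ℤ) ^ 2) ^ 2 := pow_le_pow_left₀ (abs_nonneg _) hy2 2
  have hnn : |f.nn m y| ≤ (a ^ 2 + |f.tau| * a + |f.nu|) * ρ ^ 4 := by
    unfold Fam.nn
    calc |f.X m ^ 2 + f.tau * f.X m * y + f.nu * y ^ 2|
        ≤ |f.X m ^ 2| + |f.tau * f.X m * y| + |f.nu * y ^ 2| := abs_add_three _ _ _
      _ = |f.X m| ^ 2 + |f.tau| * (|f.X m| * |y|) + |f.nu| * |y| ^ 2 := by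
        rw [abs_pow, abs_mul, abs_mul, abs_mul, abs_pow]; ring
      _ ≤ (a * ρ ^ 2) ^ 2 + |f.tau| * ((a * ρ ^ 2) * (ρ : ℤ) ^ 2) + |f.nu| * ((ρ : ℤ) ^ 2) ^ 2 := by
        have := mul_le_mul_of_nonneg_left h2 (abs_nonneg f.tau)
        have := mul_le_mul_of_nonneg_left h3 (abs_nonneg f.nu)
        linarith
      _ = (a ^ 2 + |f.tau| * a + |f.nu|) * ρ ^ 4 := by ring
  have h4 : |f.As| * |f.Az m y| = |f.nn m y| := by
    rw [← abs_mul, Fam.As_mul_Az had]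
  have h5 : 1 ≤ |f.As| := Int.one_le_abs Fam.As_ne_zero
  have h6 : |f.Az m y| ≤ |f.As| * |f.Az m y| := le_mul_of_one_le_left (abs_nonneg _) h5
  linarith

theorem pow_two_large (K D : ℕ) : ∃ l0 : ℕ, ∀ l : ℕ, l0 ≤ l → K * l ^ D ≤ 2 ^ l := by
  have h := isLittleO_pow_const_const_pow_of_one_lt (R := ℝ) D (show (1 : ℝ) < 2 by norm_num)
  have h2 := h.def (show (0 : ℝ) < 1 / ((K : ℝ) + 1) by positivity)
  obtain ⟨l0, hl0⟩ := Filter.eventually_atTop.1 h2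
  refine ⟨l0, fun l hl => ?_⟩
  have h3 := hl0 l hl
  rw [Real.norm_of_nonneg (by positivity), Real.norm_of_nonneg (by positivity)] at h3
  have h4 : ((K * l ^ D : ℕ) : ℝ) ≤ ((2 ^ l : ℕ) : ℝ) := by
    push_cast
    have h5 : ((K : ℝ) + 1) * (l : ℝ) ^ D ≤ 2 ^ l := by
      have := mul_le_mul_of_nonneg_left h3 (show (0 : ℝ) ≤ (K : ℝ) + 1 by positivity)
      refine this.trans (le_of_eq ?_)
      field_simp
    have h6 : (0 : ℝ) ≤ (l : ℝ) ^ D := by positivity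
    nlinarith
  exact_mod_cast h4

theorem cop_w {M w w0 B : ℕ} (h : w ≡ w0 [MOD B]) (hc : Nat.Coprime w0 B)
    (hM : M.factorial ∣ B) {n : ℕ} (hn : 0 < n) (hn' : n ≤ M) : Nat.Coprime n w := by
  have h1 : Nat.Coprime w B := by
    have := h.gcd_eq
    unfold Nat.Coprime at hc ⊢
    rw [this, hc]
  have h2 : n ∣ B := (Nat.dvd_factorial hn hn').trans hM
  exact (Nat.Coprime.coprime_dvd_right h2 h1).symm

end Pool.Agent.BQF
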