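import Mathlib

set_option autoImplicit false

/-!
# A lower bound for Euler's function

PROOF: let `k = ω(w) ≤ log2 w` (`2 ^ k ≤ ∏ p ≤ w`). `φ(w)/w = ∏_{p ∣ w} (1 - 1/p)`
(`Nat.totient_eq_mul_prod_factors`), and the `j`-th smallest prime factor is `≥ j + 1`, so this is
`≥ ∏_{j=1}^{k} (1 - 1/(j+1)) = 1/(k+1)`. (One can prove for every finite set `S` of integers `≥ 2`:
`1/(|S|+1) ≤ ∏_{p ∈ S} (1 - 1/p)` by induction on `|S|`, removing the maximum `M ≥ |S| + 1`.)
-/

namespace Pool.Agent.BQF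

private theorem Phi_aux (S : Finset ℕ) : (∀ p ∈ S, 2 ≤ p) →
    (1 : ℝ) / ((S.card : ℝ) + 1) ≤ ∏ p ∈ S, (1 - ((p : ℕ) : ℝ)⁻¹) := by
  classical
  induction S using Finset.induction_on_max with
  | empty => intro _; simp
  | insert a s hs ih =>
    intro h
    have ha : a ∉ s := fun h' => lt_irrefl _ (hs a h')
    rw [Finset.card_insert_of_notMem ha, Finset.prod_insert ha]
    have ih' := ih fun p hp => h p (Finset.mem_insert_of_mem hp)
    have hcard : s.card + 2 ≤ a := by
      have h1 : s ⊆ Finset.Ico 2 a := fun p hp =>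
        Finset.mem_Ico.2 ⟨h p (Finset.mem_insert_of_mem hp), hs p hp⟩
      have h2 := Finset.card_le_card h1
      rw [Nat.card_Ico] at h2
      have h3 := h a (Finset.mem_insert_self _ _)
      omega
    have hc : ((s.card : ℝ) + 2) ≤ a := by exact_mod_cast hcard
    have hs0 : (0 : ℝ) ≤ s.card := Nat.cast_nonneg _
    have ha0 : (0 : ℝ) < a := by linarith
    have h4 : ((s.card : ℝ) + 1) / ((s.card : ℝ) + 2) ≤ 1 - ((a : ℕ) : ℝ)⁻¹ := by
      have h5 : ((a : ℕ) : ℝ)⁻¹ ≤ 1 / ((s.card : ℝ) + 2) := by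
        rw [inv_eq_one_div]
        exact one_div_le_one_div_of_le (by linarith) hc
      have h6 : ((s.card : ℝ) + 1) / ((s.card : ℝ) + 2) = 1 - 1 / ((s.card : ℝ) + 2) := by
        field_simp
        ring
      rw [h6]
      linarith
    have h7 : (1 : ℝ) / (((s.card + 1 : ℕ) : ℝ) + 1) =
        ((s.card : ℝ) + 1) / ((s.card : ℝ) + 2) * (1 / ((s.card : ℝ) + 1)) := by
      push_cast
      field_simp
      ring
    rw [h7]
    exact mul_le_mul h4 ih' (by positivity) (by
      refine le_trans ?_ h4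
      positivity)

theorem st_phi (w : ℕ) (hw : 0 < w) : (w : ℝ) / ((Nat.log 2 w : ℝ) + 1) ≤ Nat.totient w := by
  have h1 := Nat.totient_eq_mul_prod_factors w
  have h2 : ((Nat.totient w : ℕ) : ℝ) = (w : ℝ) * ∏ p ∈ w.primeFactors, (1 - ((p : ℕ) : ℝ)⁻¹) := by
    have := congrArg (fun q : ℚ => (q : ℝ)) h1
    push_cast at this
    exact this
  rw [h2, div_eq_mul_one_div]
  refine mul_le_mul_of_nonneg_left ?_ (Nat.cast_nonneg _)
  have h3 := Phi_aux w.primeFactors fun p hp => (Nat.prime_of_mem_primeFactors hp).two_le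
  refine le_trans ?_ h3
  have h4 : w.primeFactors.card ≤ Nat.log 2 w := by
    apply Nat.le_log_of_pow_le (by norm_num)
    refine le_trans ?_ (Nat.le_of_dvd hw (Nat.prod_primeFactors_dvd w))
    exact Finset.pow_card_le_prod _ _ _ fun p hp => (Nat.prime_of_mem_primeFactors hp).two_le
  have h5 : (w.primeFactors.card : ℝ) ≤ (Nat.log 2 w : ℝ) := by exact_mod_cast h4
  apply one_div_le_one_div_of_le (by positivity)
  linarith

end Pool.Agent.BQF
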