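import Mathlib

set_option autoImplicit false

/-!
# An almost equivariant function correlates with a character

PROOF. Let `U = (ZMod w)ˣ`, `φ = |U|`, and `f : U → ℂ`, `f u = g (u.val.val)` (values `±1`; by `hper`
`f (a u) = g (A z * u.val.val)` if `a ∈ U` is the class of `A z`). For a character `χ` of `U` put
`c_χ = (1/φ) ∑_u f u * conj (χ u)`. Then `∑_χ |c_χ|² = (1/φ) ∑ |f|² = 1` and
`(1/φ) ∑_u f (a u) conj (f u) = ∑_χ |c_χ|² χ(a)` (orthogonality of characters of the finite abelian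
group `U`; one can avoid Fourier inversion: the matrix `(χ(u))/√φ` is unitary). For `z ∈ Z` let `b_z`
be the number of `u ∈ U` with `f (a_z u) ≠ ε_z f u`; it is at most the cardinality in `hbad` for `z`.
Since `f` is real with values `±1`: `(1/φ) ∑_u ε_z f (a_z u) f u = 1 - 2 b_z / φ`. So
`∑_χ |c_χ|² (1 - Re (ε_z χ(a_z))) = 2 b_z / φ`. Sum over `z ∈ Z`:
`∑_χ |c_χ|² ∑_z (1 - Re (ε_z χ(a_z))) = 2 (∑_z b_z)/φ < 1/100`. As `∑ |c_χ|² = 1` there is a `χ` with
`∑_z (1 - Re (ε_z χ(a_z))) ≤ 1/100`; all the terms are `≥ 0`, so `Re (ε_z χ(a_z)) ≥ 99/100`.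
Mathlib: `DirichletCharacter ℂ w = MulChar (ZMod w) ℂ`; `MulChar.ofUnitHom`, `MulChar.mulEquivHomRootsOfUnity`,
`DirichletCharacter.sum_characters_eq`, `DirichletCharacter.sum_char_inv_mul_char_eq` : for `a` a unit
`∑ χ : DirichletCharacter ℂ n, χ a⁻¹ * χ b = if a = b then n.totient else 0`. With this identity:
`∑_χ |∑_u f u conj χ(u)|² ψ` style sums are computed by expanding the square and exchanging the sums:
`∑_χ |∑_u f u χ(u)|² χ(a)⁻¹`-type expressions only need this orthogonality relation.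
-/

namespace Pool.Agent.BQF

/-- the transform of `f` at `χ` -/
private noncomputable def Spec_c {w : ℕ} [NeZero w] (f : (ZMod w)ˣ → ℝ) (χ : DirichletCharacter ℂ w) : ℂ :=
  ∑ u : (ZMod w)ˣ, (f u : ℂ) * χ (u : ZMod w)

private theorem Spec_conj {w : ℕ} [NeZero w] (χ : DirichletCharacter ℂ w) (u : (ZMod w)ˣ) :
    (starRingEnd ℂ) (χ (u : ZMod w)) = χ ((u : ZMod w)⁻¹) := by
  have h1 : ‖χ (u : ZMod w)‖ = 1 := DirichletCharacter.unit_norm_eq_one χ u
  have h2 : χ ((u : ZMod w)⁻¹) * χ (u : ZMod w) = 1 := by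
    rw [← map_mul, ZMod.inv_mul_of_unit _ u.isUnit, map_one]
  have h3 : (starRingEnd ℂ) (χ (u : ZMod w)) * χ (u : ZMod w) = 1 := by
    rw [mul_comm, Complex.mul_conj, Complex.normSq_eq_norm_sq, h1]; norm_num
  have h4 : χ (u : ZMod w) ≠ 0 := by
    intro h; rw [h, mul_zero] at h3; exact zero_ne_one h3
  exact mul_right_cancel₀ h4 (h3.trans h2.symm)

/-- the main orthogonality relation -/
private theorem Spec_orth {w : ℕ} [NeZero w] (f : (ZMod w)ˣ → ℝ) (a : (ZMod w)ˣ) :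
    ∑ χ : DirichletCharacter ℂ w, ((‖Spec_c f χ‖ ^ 2 : ℝ) : ℂ) * χ (a : ZMod w) =
      (w.totient : ℂ) * ∑ u : (ZMod w)ˣ, (f u : ℂ) * (f (a * u) : ℂ) := by
  have h1 : ∀ χ : DirichletCharacter ℂ w, ((‖Spec_c f χ‖ ^ 2 : ℝ) : ℂ) * χ (a : ZMod w) =
      ∑ v : (ZMod w)ˣ, ∑ u : (ZMod w)ˣ, (f u : ℂ) * (f v : ℂ) *
        (χ ((v : ZMod w)⁻¹) * χ ((a * u : (ZMod w)ˣ) : ZMod w)) := by
    intro χ
    have e1 : ((‖Spec_c f χ‖ ^ 2 : ℝ) : ℂ) = Spec_c f χ * (starRingEnd ℂ) (Spec_c f χ) := by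
      rw [Complex.mul_conj, Complex.normSq_eq_norm_sq]
    rw [e1]
    unfold Spec_c
    rw [map_sum, Finset.sum_mul_sum, Finset.sum_comm, Finset.sum_mul]
    refine Finset.sum_congr rfl fun v _ => ?_
    rw [Finset.sum_mul]
    refine Finset.sum_congr rfl fun u _ => ?_
    rw [map_mul, Spec_conj, Complex.conj_ofReal, Units.val_mul, map_mul]
    ring
  rw [Finset.sum_congr rfl fun χ _ => h1 χ, Finset.sum_comm]
  have h2 : ∀ v : (ZMod w)ˣ, ∑ χ : DirichletCharacter ℂ w, ∑ u : (ZMod w)ˣ,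
      (f u : ℂ) * (f v : ℂ) * (χ ((v : ZMod w)⁻¹) * χ ((a * u : (ZMod w)ˣ) : ZMod w)) =
      ∑ u : (ZMod w)ˣ, (f u : ℂ) * (f v : ℂ) * (if v = a * u then (w.totient : ℂ) else 0) := by
    intro v
    rw [Finset.sum_comm]
    refine Finset.sum_congr rfl fun u _ => ?_
    rw [← Finset.mul_sum, DirichletCharacter.sum_char_inv_mul_char_eq ℂ v.isUnit]
    congr 1
    by_cases h : v = a * u
    · rw [if_pos h, if_pos (by rw [h])]
    · rw [if_neg h, if_neg (fun h' => h (Units.ext h'))]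
  rw [Finset.sum_congr rfl fun v _ => h2 v, Finset.sum_comm, Finset.mul_sum]
  refine Finset.sum_congr rfl fun u _ => ?_
  rw [Finset.sum_eq_single (a * u)]
  · rw [if_pos rfl]; ring
  · intro v _ hv
    rw [if_neg hv, mul_zero]
  · intro h; exact absurd (Finset.mem_univ _) h

theorem st_spec {ι : Type*} (w : ℕ) (hw : 0 < w) (g : ℤ → ℤ)
    (hper : ∀ x y : ℤ, (w : ℤ) ∣ x - y → g x = g y) (hg : ∀ x, g x = 1 ∨ g x = -1)
    (Z : Finset ι) (A ε : ι → ℤ) (hA : ∀ z ∈ Z, IsCoprime (A z) (w : ℤ))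
    (hε : ∀ z ∈ Z, ε z = 1 ∨ ε z = -1)
    (hbad : 200 * ∑ z ∈ Z,
      ((Finset.range w).filter (fun s : ℕ => g (A z * s) ≠ ε z * g s)).card < Nat.totient w) :
    ∃ χ : DirichletCharacter ℂ w, ∀ z ∈ Z,
      (99 / 100 : ℝ) ≤ ((ε z : ℂ) * χ ((A z : ℤ) : ZMod w)).re := by
  classical
  have : NeZero w := ⟨hw.ne'⟩
  obtain ⟨f, hf⟩ : ∃ f : (ZMod w)ˣ → ℝ, f = fun u : (ZMod w)ˣ => (g (((u : ZMod w).val : ℕ) : ℤ) : ℝ) := ⟨_, rfl⟩
  have hf1 : ∀ u, f u = 1 ∨ f u = -1 := by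
    intro u
    rw [hf]
    rcases hg (((u : ZMod w).val : ℕ) : ℤ) with h | h
    · left; simp only; rw [h]; norm_num
    · right; simp only; rw [h]; norm_num
  have hff : ∀ u, f u * f u = 1 := by
    intro u
    rcases hf1 u with h | h <;> rw [h] <;> norm_num
  -- the units
  have hunit : ∀ z ∈ Z, IsUnit (((A z : ℤ) : ZMod w)) := by
    intro z hz
    obtain ⟨p, q, hpq⟩ := hA z hz
    refine IsUnit.of_mul_eq_one (p : ZMod w) ?_
    have := congrArg (fun t : ℤ => (t : ZMod w)) hpq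
    push_cast at this
    rw [ZMod.natCast_self, mul_zero, add_zero] at this
    rw [mul_comm]; exact this
  have hcard : (Fintype.card (ZMod w)ˣ : ℝ) = w.totient := by rw [ZMod.card_units_eq_totient]
  have hφ : (0 : ℝ) < w.totient := by exact_mod_cast Nat.totient_pos.2 hw
  have hS1 : ∑ χ : DirichletCharacter ℂ w, ‖Spec_c f χ‖ ^ 2 = (w.totient : ℝ) * w.totient := by
    have h := Spec_orth f 1
    simp only [Units.val_one, map_one, mul_one, one_mul] at h
    have h2 : ∑ u : (ZMod w)ˣ, (f u : ℂ) * (f u : ℂ) = (w.totient : ℂ) := by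
      have : ∀ u : (ZMod w)ˣ, (f u : ℂ) * (f u : ℂ) = 1 := by
        intro u
        rw [← Complex.ofReal_mul, hff]; norm_num
      rw [Finset.sum_congr rfl fun u _ => this u, Finset.sum_const, Finset.card_univ,
        ZMod.card_units_eq_totient, nsmul_eq_mul, mul_one]
    rw [h2] at h
    have h3 : ((∑ χ : DirichletCharacter ℂ w, ‖Spec_c f χ‖ ^ 2 : ℝ) : ℂ) =
        (((w.totient : ℝ) * w.totient : ℝ) : ℂ) := by
      push_cast
      push_cast at h
      exact h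
    exact_mod_cast h3
  -- the bad numbers
  have hb : ∀ z ∈ Z, ∑ χ : DirichletCharacter ℂ w, ‖Spec_c f χ‖ ^ 2 *
      (1 - ((ε z : ℂ) * χ ((A z : ℤ) : ZMod w)).re) ≤ 2 * (w.totient : ℝ) *
      ((Finset.range w).filter (fun s : ℕ => g (A z * s) ≠ ε z * g s)).card := by
    intro z hz
    obtain ⟨a, ha⟩ := hunit z hz
    have h := Spec_orth f a
    have hε2 : (ε z : ℝ) * ε z = 1 := by
      rcases hε z hz with h | h <;> rw [h] <;> norm_num
    -- real part
    have h3 : ∑ χ : DirichletCharacter ℂ w, ‖Spec_c f χ‖ ^ 2 * (χ (a : ZMod w)).re =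
        (w.totient : ℝ) * ∑ u : (ZMod w)ˣ, f u * f (a * u) := by
      have h4 := congrArg Complex.re h
      rw [Complex.re_sum] at h4
      have h5 : ∀ χ : DirichletCharacter ℂ w, (((‖Spec_c f χ‖ ^ 2 : ℝ) : ℂ) * χ (a : ZMod w)).re =
          ‖Spec_c f χ‖ ^ 2 * (χ (a : ZMod w)).re := by
        intro χ
        rw [Complex.re_ofReal_mul]
      rw [Finset.sum_congr rfl fun χ _ => h5 χ] at h4
      rw [h4]
      have h6 : (w.totient : ℂ) * ∑ u : (ZMod w)ˣ, (f u : ℂ) * (f (a * u) : ℂ) =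
          (((w.totient : ℝ) * ∑ u : (ZMod w)ˣ, f u * f (a * u) : ℝ) : ℂ) := by
        push_cast; rfl
      rw [h6, Complex.ofReal_re]
    have h7 : ∀ χ : DirichletCharacter ℂ w, ((ε z : ℂ) * χ ((A z : ℤ) : ZMod w)).re =
        (ε z : ℝ) * (χ (a : ZMod w)).re := by
      intro χ
      rw [← ha]
      have : (ε z : ℂ) = ((ε z : ℝ) : ℂ) := by push_cast; rfl
      rw [this, Complex.re_ofReal_mul]
    have h8 : ∑ χ : DirichletCharacter ℂ w, ‖Spec_c f χ‖ ^ 2 *
      (1 - ((ε z : ℂ) * χ ((A z : ℤ) : ZMod w)).re) = (w.totient : ℝ) * w.totient -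
        (w.totient : ℝ) * ∑ u : (ZMod w)ˣ, (ε z : ℝ) * (f u * f (a * u)) := by
      have : ∀ χ : DirichletCharacter ℂ w, ‖Spec_c f χ‖ ^ 2 *
        (1 - ((ε z : ℂ) * χ ((A z : ℤ) : ZMod w)).re) = ‖Spec_c f χ‖ ^ 2 -
          (ε z : ℝ) * (‖Spec_c f χ‖ ^ 2 * (χ (a : ZMod w)).re) := by
        intro χ; rw [h7]; ring
      rw [Finset.sum_congr rfl fun χ _ => this χ, Finset.sum_sub_distrib, ← Finset.mul_sum, h3, hS1,
        ← Finset.mul_sum]
      ring
    rw [h8]
    -- sum over units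
    have h9 : ∀ u : (ZMod w)ˣ, (ε z : ℝ) * (f u * f (a * u)) =
        1 - 2 * (if f (a * u) ≠ ε z * f u then 1 else 0) := by
      intro u
      by_cases hu : f (a * u) = ε z * f u
      · rw [if_neg (not_not.2 hu), hu]
        calc (ε z : ℝ) * (f u * (ε z * f u)) = ((ε z : ℝ) * ε z) * (f u * f u) := by ring
          _ = 1 - 2 * 0 := by rw [hε2, hff]; norm_num
      · rw [if_pos hu]
        rcases hf1 u with h | h <;> rcases hf1 (a * u) with h' | h' <;>
          rcases hε z hz with h'' | h'' <;> rw [h, h', h''] at hu ⊢ <;> first | (exfalso; apply hu; norm_num; done) | (norm_num; done)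
    rw [Finset.sum_congr rfl fun u _ => h9 u, Finset.sum_sub_distrib, ← Finset.mul_sum,
      Finset.sum_const, Finset.card_univ, ZMod.card_units_eq_totient, nsmul_eq_mul, mul_one,
      Finset.sum_boole]
    have h10 : ((Finset.univ.filter fun u : (ZMod w)ˣ => f (a * u) ≠ ε z * f u).card : ℝ) ≤
        ((Finset.range w).filter (fun s : ℕ => g (A z * s) ≠ ε z * g s)).card := by
      norm_cast
      refine Finset.card_le_card_of_injOn (fun u => (u : ZMod w).val) ?_ ?_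
      · intro u hu
        simp only [Finset.coe_filter, Finset.mem_univ, true_and, Set.mem_ofPred_eq] at hu
        simp only [Finset.coe_filter, Finset.mem_range, Set.mem_ofPred_eq]
        refine ⟨ZMod.val_lt _, fun hh => hu ?_⟩
        rw [hf]
        simp only
        have e1 : g ((((a * u : (ZMod w)ˣ) : ZMod w).val : ℕ) : ℤ) =
            g (A z * (((u : ZMod w).val : ℕ) : ℤ)) := by
          apply hper
          rw [← ZMod.intCast_zmod_eq_zero_iff_dvd] <;> try skip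
          push_cast
          rw [ZMod.natCast_zmod_val, ZMod.natCast_zmod_val, ha]
          push_cast
          ring
        rw [e1, hh]
        push_cast
        ring
      · intro u _ v _ huv
        exact Units.ext (ZMod.val_injective w huv)
    nlinarith [h10, hφ]
  by_contra hcon
  push Not at hcon
  -- every character has a bad z
  have hle : ∀ χ : DirichletCharacter ℂ w, ∀ z ∈ Z, 0 ≤ 1 - ((ε z : ℂ) * χ ((A z : ℤ) : ZMod w)).re := by
    intro χ z hz
    have h1 : ‖(ε z : ℂ) * χ ((A z : ℤ) : ZMod w)‖ ≤ 1 := by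
      rw [norm_mul]
      have h2 : ‖(ε z : ℂ)‖ = 1 := by
        rcases hε z hz with h | h <;> rw [h] <;> simp
      rw [h2, one_mul]
      exact DirichletCharacter.norm_le_one χ _
    have h3 := Complex.re_le_norm ((ε z : ℂ) * χ ((A z : ℤ) : ZMod w))
    linarith
  have hT : ∀ χ : DirichletCharacter ℂ w, (1 / 100 : ℝ) ≤
      ∑ z ∈ Z, (1 - ((ε z : ℂ) * χ ((A z : ℤ) : ZMod w)).re) := by
    intro χ
    obtain ⟨z, hz, hz2⟩ := hcon χ
    have := Finset.single_le_sum (f := fun z => 1 - ((ε z : ℂ) * χ ((A z : ℤ) : ZMod w)).re)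
      (fun y hy => hle χ y hy) hz
    linarith
  have hsum : ∑ χ : DirichletCharacter ℂ w, ‖Spec_c f χ‖ ^ 2 *
      ∑ z ∈ Z, (1 - ((ε z : ℂ) * χ ((A z : ℤ) : ZMod w)).re) ≤ 2 * (w.totient : ℝ) *
      ∑ z ∈ Z, (((Finset.range w).filter (fun s : ℕ => g (A z * s) ≠ ε z * g s)).card : ℝ) := by
    have : ∀ χ : DirichletCharacter ℂ w, ‖Spec_c f χ‖ ^ 2 *
      ∑ z ∈ Z, (1 - ((ε z : ℂ) * χ ((A z : ℤ) : ZMod w)).re) =
      ∑ z ∈ Z, ‖Spec_c f χ‖ ^ 2 * (1 - ((ε z : ℂ) * χ ((A z : ℤ) : ZMod w)).re) := by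
      intro χ; rw [Finset.mul_sum]
    rw [Finset.sum_congr rfl fun χ _ => this χ, Finset.sum_comm, Finset.mul_sum]
    exact Finset.sum_le_sum hb
  have hlow : (1 / 100 : ℝ) * ((w.totient : ℝ) * w.totient) ≤ ∑ χ : DirichletCharacter ℂ w, ‖Spec_c f χ‖ ^ 2 *
      ∑ z ∈ Z, (1 - ((ε z : ℂ) * χ ((A z : ℤ) : ZMod w)).re) := by
    rw [← hS1, Finset.mul_sum]
    refine Finset.sum_le_sum fun χ _ => ?_
    rw [mul_comm]
    exact mul_le_mul_of_nonneg_left (hT χ) (by positivity)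
  have hbad' : 200 * ∑ z ∈ Z,
      (((Finset.range w).filter (fun s : ℕ => g (A z * s) ≠ ε z * g s)).card : ℝ) < w.totient := by
    exact_mod_cast hbad
  nlinarith [hbad', hφ, hlow, hsum]

end Pool.Agent.BQF
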