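import Pool.Agent.BQF.Row
import Pool.Agent.BQF.Fib

set_option autoImplicit false

/-!
# The final sets

PROOF. `P1 = P1(st_row) * P2(st_fib)`. Let `P1 ∣ q`, get `C ≥ 1` from `st_row` and `Λ', C1'` from `st_fib`.
`Λ = max Λ' C` (`ρ < p ^ C ≤ p ^ Λ`), `C1 = max C1' (q |As| + 1)`. For large `ρ` let `I = ⌊ρ ^ (1/9)⌋`
and `Z = {(m, y)}` the set of all `m = m0 + q |As| i`, `i < I`, `y = 1 + q |As| t`, `t < ρ` with
`Gd f q C ρ m y` (a `Finset.filter` of an image, or the image of a filtered product). For large `ρ`,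
`m ≤ m0 + q |As| ρ ^ (1/9)`, so `m ^ 8 ≤ ρ`, and `|m| ≤ ρ`. By `st_row` each `m` contributes at least
`ρ/(log ρ) ^ (C+1)`: `|Z| ≥ (ρ^(1/9) - 1) ρ / (log ρ)^(C+1) ≥ ρ^(11/10)` for large `ρ`
(`1 + 1/9 > 11/10`), so `ρ ^ 11 ≤ |Z| ^ 10`. The other properties are in `st_fib` and `Gd`.
-/

namespace Pool.Agent.BQF

private theorem ZAsm_root (ρ : ℕ) : ∃ I : ℕ, I ^ 9 ≤ ρ ∧ ρ < (I + 1) ^ 9 := by
  classical
  refine ⟨Nat.findGreatest (fun i => i ^ 9 ≤ ρ) ρ, ?_, ?_⟩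
  · exact Nat.findGreatest_spec (P := fun i => i ^ 9 ≤ ρ) (Nat.zero_le ρ) (by simp)
  · by_contra h
    have h1 : (Nat.findGreatest (fun i => i ^ 9 ≤ ρ) ρ + 1) ^ 9 ≤ ρ := not_lt.1 h
    have h2 : Nat.findGreatest (fun i => i ^ 9 ≤ ρ) ρ + 1 ≤ ρ :=
      (Nat.le_self_pow (by norm_num) _).trans h1
    have h3 := Nat.le_findGreatest (P := fun i => i ^ 9 ≤ ρ) h2 h1
    omega

theorem st_zset (f : Fam) : ∃ P1 : ℕ, 0 < P1 ∧ ∀ q : ℕ, 0 < q → P1 ∣ q →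
    ∃ Λ C1 ρ0 : ℕ, 1 ≤ Λ ∧ 1 ≤ C1 ∧ ∀ ρ : ℕ, ρ0 ≤ ρ →
      ∃ Z : Finset (ℤ × ℤ), ZSet f q Λ C1 ρ Z := by
  classical
  obtain ⟨P1, hP1, hrow⟩ := st_row f
  obtain ⟨P2, hP2, hfib⟩ := st_fib f
  refine ⟨P1 * P2, Nat.mul_pos hP1 hP2, fun q hq hdvd => ?_⟩
  obtain ⟨C, ρ1, hC, hrow'⟩ := hrow q hq ((Dvd.intro _ rfl).trans hdvd)
  obtain ⟨Λ', C1', ρ2, hfib'⟩ := hfib q hq ((Dvd.intro_left _ rfl).trans hdvd) C hC
  obtain ⟨S, hS⟩ : ∃ S : ℕ, S = q * f.As.natAbs := ⟨_, rfl⟩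
  have hS0 : 0 < S := by
    rw [hS]; exact Nat.mul_pos hq (Int.natAbs_pos.2 Fam.As_ne_zero)
  have hSZ : (q : ℤ) * |f.As| = S := by
    rw [hS]; push_cast; rfl
  obtain ⟨M0, hM0⟩ : ∃ M0 : ℕ, (M0 : ℤ) = f.m0 := ⟨f.m0.toNat, Int.toNat_of_nonneg f.hm⟩
  -- the logarithms
  have h1 := (Real.isLittleO_pow_log_id_atTop (n := 90 * (C + 1))).bound
    (show (0 : ℝ) < 1 / 512 ^ 10 by positivity)
  have h2 := (tendsto_natCast_atTop_atTop (R := ℝ)).eventually h1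
  obtain ⟨ρ3, hρ3⟩ := Filter.eventually_atTop.1 h2
  refine ⟨max Λ' C, max C1' (S + 1), max (max ρ1 ρ2) (max ρ3 (max 3 (((M0 + S) ^ 8 + 1) ^ 9))),
    hC.trans (le_max_right _ _), (by omega : 1 ≤ S + 1).trans (le_max_right _ _), fun ρ hρ => ?_⟩
  have hρ1 : ρ1 ≤ ρ := ((le_max_left _ _).trans (le_max_left _ _)).trans hρ
  have hρ2 : ρ2 ≤ ρ := ((le_max_right _ _).trans (le_max_left _ _)).trans hρ
  have hρ3' : ρ3 ≤ ρ := ((le_max_left _ _).trans (le_max_right _ _)).trans hρ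
  have hρ4 : 3 ≤ ρ :=
    ((le_max_left _ _).trans ((le_max_right _ _).trans (le_max_right _ _))).trans hρ
  have hρ5 : ((M0 + S) ^ 8 + 1) ^ 9 ≤ ρ :=
    ((le_max_right _ _).trans ((le_max_right _ _).trans (le_max_right _ _))).trans hρ
  obtain ⟨I, hI1, hI2⟩ := ZAsm_root ρ
  have hIK : (M0 + S) ^ 8 + 1 ≤ I := by
    have h3 := lt_of_le_of_lt hρ5 hI2
    have h4 := lt_of_pow_lt_pow_left₀ 9 (Nat.zero_le _) h3
    omega
  have hI0 : 1 ≤ I := le_trans (Nat.le_add_left _ _) hIK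
  -- the rows
  let mi : ℕ → ℤ := fun i => f.m0 + S * i
  let yt : ℕ → ℤ := fun t => 1 + q * |f.As| * t
  have hmi : ∀ i < I, (q : ℤ) * f.As ∣ mi i - f.m0 ∧ 0 ≤ mi i ∧ mi i ^ 8 ≤ ρ := by
    intro i hi
    refine ⟨?_, ?_, ?_⟩
    · have e1 : mi i - f.m0 = q * |f.As| * i := by
        show f.m0 + S * i - f.m0 = q * |f.As| * i
        rw [hSZ]; ring
      rw [e1]
      exact (mul_dvd_mul_left _ ((dvd_abs _ _).2 dvd_rfl)).mul_right _
    · have := f.hm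
      show 0 ≤ f.m0 + (S : ℤ) * i
      positivity
    · have h3 : mi i = ((M0 + S * i : ℕ) : ℤ) := by
        show f.m0 + (S : ℤ) * i = _
        rw [← hM0]; push_cast; ring
      have h4 : M0 + S * i ≤ (M0 + S) * I := by
        have a1 : M0 ≤ M0 * I := Nat.le_mul_of_pos_right _ hI0
        have a2 : S * i ≤ S * I := Nat.mul_le_mul_left _ hi.le
        rw [add_mul]
        omega
      have h5 : (M0 + S * i) ^ 8 ≤ ρ := by
        calc (M0 + S * i) ^ 8 ≤ ((M0 + S) * I) ^ 8 := Nat.pow_le_pow_left h4 8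
          _ = (M0 + S) ^ 8 * I ^ 8 := by rw [mul_pow]
          _ ≤ I * I ^ 8 := Nat.mul_le_mul_right _ (by omega)
          _ = I ^ 9 := by ring
          _ ≤ ρ := hI1
      rw [h3]
      exact_mod_cast h5
  let Zf : ℕ → Finset ℕ := fun i =>
    (Finset.range ρ).filter (fun t : ℕ => Gd f q C ρ (mi i) (1 + q * |f.As| * t))
  let Z : Finset (ℤ × ℤ) := (Finset.range I).biUnion fun i => (Zf i).image fun t => (mi i, yt t)
  have hS0' : (S : ℤ) ≠ 0 := by exact_mod_cast hS0.ne'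
  have hyt : Function.Injective yt := by
    intro t t' h
    have h3 : (S : ℤ) * t = S * t' := by
      have : (1 : ℤ) + q * |f.As| * t = 1 + q * |f.As| * t' := h
      rw [hSZ] at this
      linarith
    exact_mod_cast mul_left_cancel₀ hS0' h3
  have hmii : Function.Injective mi := by
    intro t t' h
    have h3 : (S : ℤ) * t = S * t' := by
      have : f.m0 + (S : ℤ) * t = f.m0 + S * t' := h
      linarith
    exact_mod_cast mul_left_cancel₀ hS0' h3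
  have hZGd : ∀ z ∈ Z, Gd f q C ρ z.1 z.2 := by
    intro z hz
    obtain ⟨i, -, hi⟩ := Finset.mem_biUnion.1 hz
    obtain ⟨t, ht, rfl⟩ := Finset.mem_image.1 hi
    exact (Finset.mem_filter.1 ht).2
  obtain ⟨hA, hB, hD⟩ := hfib' ρ hρ2
  -- the cardinality
  have hcard : Z.card = ∑ i ∈ Finset.range I, (Zf i).card := by
    rw [Finset.card_biUnion]
    · refine Finset.sum_congr rfl fun i _ => ?_
      exact Finset.card_image_of_injective _ fun t t' h => hyt (Prod.ext_iff.1 h).2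
    · intro i _ j _ hij
      rw [Function.onFun, Finset.disjoint_left]
      rintro z hz hz'
      obtain ⟨t, -, rfl⟩ := Finset.mem_image.1 hz
      obtain ⟨t', -, h'⟩ := Finset.mem_image.1 hz'
      exact hij (hmii (Prod.ext_iff.1 h').1.symm)
  have hρR : (3 : ℝ) ≤ ρ := by exact_mod_cast hρ4
  have hρ0 : (0 : ℝ) < ρ := by linarith
  have hlog : 0 < Real.log ρ := Real.log_pos (by linarith)
  have hcard2 : (I : ℝ) * ((ρ : ℝ) / Real.log ρ ^ (C + 1)) ≤ Z.card := by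
    rw [hcard]
    push_cast
    calc (I : ℝ) * ((ρ : ℝ) / Real.log ρ ^ (C + 1)) =
          ∑ i ∈ Finset.range I, (ρ : ℝ) / Real.log ρ ^ (C + 1) := by
          rw [Finset.sum_const, Finset.card_range, nsmul_eq_mul]
      _ ≤ _ := by
          refine Finset.sum_le_sum fun i hi => ?_
          obtain ⟨a1, a2, a3⟩ := hmi i (Finset.mem_range.1 hi)
          exact hrow' ρ hρ1 (mi i) a1 a2 a3
  have hcd : ρ ^ 11 ≤ Z.card ^ 10 := by
    have h3 := hρ3 ρ hρ3'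
    rw [Real.norm_of_nonneg (by positivity), id, Real.norm_of_nonneg hρ0.le] at h3
    have h4 : (512 : ℝ) ^ 10 * Real.log ρ ^ (90 * (C + 1)) ≤ ρ := by
      rw [div_mul_eq_mul_div, one_mul, le_div_iff₀ (by positivity)] at h3
      linarith
    obtain ⟨l, hl⟩ : ∃ l : ℝ, l = Real.log ρ ^ (C + 1) := ⟨_, rfl⟩
    have hl0 : 0 < l := by rw [hl]; positivity
    have h5 : (512 : ℝ) ^ 10 * (l ^ 10) ^ 9 ≤ ρ := by
      have e1 : (l ^ 10) ^ 9 = Real.log ρ ^ (90 * (C + 1)) := by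
        rw [hl, ← pow_mul, ← pow_mul]; congr 1; ring
      rw [e1]; exact h4
    have hI9 : (ρ : ℝ) ≤ 512 * (I : ℝ) ^ 9 := by
      have a1 : ρ ≤ (2 * I) ^ 9 := hI2.le.trans (Nat.pow_le_pow_left (by omega) 9)
      have a2 : (2 * I) ^ 9 = 512 * I ^ 9 := by rw [mul_pow]; norm_num
      rw [a2] at a1
      exact_mod_cast a1
    have hI10 : 512 * l ^ 10 ≤ (I : ℝ) := by
      have a1 : (512 * l ^ 10) ^ 9 ≤ (I : ℝ) ^ 9 := by
        have a2 : 512 * (512 * l ^ 10) ^ 9 ≤ 512 * (I : ℝ) ^ 9 := by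
          calc (512 : ℝ) * (512 * l ^ 10) ^ 9 = (512 : ℝ) ^ 10 * (l ^ 10) ^ 9 := by ring
            _ ≤ (ρ : ℝ) := h5
            _ ≤ _ := hI9
        linarith
      exact le_of_pow_le_pow_left₀ (by norm_num) (Nat.cast_nonneg _) a1
    rw [← hl] at hcard2
    have h6 : (ρ : ℝ) ^ 11 ≤ ((I : ℝ) * ((ρ : ℝ) / l)) ^ 10 := by
      rw [mul_pow, div_pow, ← mul_div_assoc, le_div_iff₀ (by positivity)]
      calc (ρ : ℝ) ^ 11 * l ^ 10 = ρ * (l ^ 10 * ρ ^ 10) := by ring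
        _ ≤ (512 * (I : ℝ) ^ 9) * (l ^ 10 * ρ ^ 10) :=
            mul_le_mul_of_nonneg_right hI9 (by positivity)
        _ = (512 * l ^ 10) * ((I : ℝ) ^ 9 * ρ ^ 10) := by ring
        _ ≤ (I : ℝ) * ((I : ℝ) ^ 9 * ρ ^ 10) := mul_le_mul_of_nonneg_right hI10 (by positivity)
        _ = (I : ℝ) ^ 10 * ρ ^ 10 := by ring
    have h7 : ((I : ℝ) * ((ρ : ℝ) / l)) ^ 10 ≤ (Z.card : ℝ) ^ 10 :=
      pow_le_pow_left₀ (by positivity) hcard2 10
    exact_mod_cast h6.trans h7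
  refine ⟨Z, ⟨fun z hz => (hZGd z hz).adm, ?_, ?_, ?_, ?_, ?_, ?_, ?_, hcd⟩⟩
  · intro z hz
    have g1 := (hZGd z hz).m0
    have g2 := (hZGd z hz).m8
    rw [abs_of_nonneg g1]
    refine le_trans ?_ g2
    rcases eq_or_lt_of_le g1 with h | h
    · rw [← h]; norm_num
    · exact le_self_pow₀ (by omega) (by norm_num)
  · intro z hz
    have g1 := (hZGd z hz).y1
    have g2 := (hZGd z hz).y2
    rw [abs_of_nonneg (by omega)]
    refine g2.trans ?_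
    rw [hSZ]
    refine mul_le_mul_of_nonneg_right ?_ (Nat.cast_nonneg _)
    exact_mod_cast le_max_right C1' (S + 1)
  · intro z hz p hp hpd
    exact ((hZGd z hz).pr p hp hpd).trans_le (Nat.pow_le_pow_right hp.pos (le_max_right _ _))
  · intro z hz
    exact (hA _ _ (hZGd z hz)).1.trans (Nat.mul_le_mul_right _ (le_max_left _ _))
  · intro z hz
    exact (hA _ _ (hZGd z hz)).2.trans (le_max_left _ _)
  · obtain ⟨σ, hσ, hσ'⟩ := hB
    exact ⟨σ, hσ, fun z hz => hσ' _ _ (hZGd z hz)⟩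
  · intro b
    exact (hD Z hZGd b).trans (Nat.pow_le_pow_right (by norm_num) (le_max_left _ _))

end Pool.Agent.BQF
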