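import Pool.Agent.BQF.FinN
import Pool.Agent.BQF.Good
import Pool.Agent.BQF.Spec
import Pool.Agent.BQF.ZAsm
import Pool.Agent.BQF.BadN
import Pool.Agent.BQF.Phi
import Pool.Agent.BQF.ExA
import Pool.Agent.BQF.ExB
import Pool.Agent.BQF.Contra
import Pool.Agent.BQF.Minus
import Pool.Agent.BQF.MainS
import Pool.Agent.BQF.Num

set_option autoImplicit false

/-!
# The main theorem in normal form
-/

open Finset

namespace Pool.Agent.BQF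

/-- The numerical heart: few moduli are spectrally bad. -/
theorem main_E1 (l ρ J H W X q B A D1 C' C0 : ℕ) (exc : ℝ) (nZ SS : ℝ) (hl : 1 ≤ l)
    (hρ : ρ = l ^ (C' + 1)) (hJ : J = ρ ^ 5) (hH : H = J ^ C0)
    (hD1 : D1 = 1 + (C' + 1) * (7 + 15 * C0)) (hA : A = D1 + 1)
    (hbig : 691200 * q ^ 2 * 8 * B * 2 ^ A ≤ l) (hB : 0 < B) (hq : 0 < q) (hW : 1 ≤ W)
    (hX : X ≤ 8 * H * q * W) (hlog : (l : ℝ) / 2 ≤ Real.log X)
    (hexc0 : 0 ≤ exc) (hexc : exc < (X : ℝ) ^ 2 / Real.log X ^ A)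
    (hnZ : nZ ≤ (2 * (ρ : ℝ) + 1) ^ 2)
    (hSS : SS ≤ nZ * (2 * J + 1) * H * exc) :
    200 * ((l : ℝ) + 1) * SS * (8 * B) ≤ (W : ℝ) ^ 2 := by
  have hl' : (1 : ℝ) ≤ l := by exact_mod_cast hl
  have hρ1 : 1 ≤ ρ := by rw [hρ]; exact Nat.one_le_pow _ _ hl
  have hJ1 : 1 ≤ J := by rw [hJ]; exact Nat.one_le_pow _ _ hρ1
  have hρ1' : (1 : ℝ) ≤ ρ := by exact_mod_cast hρ1
  have hJ1' : (1 : ℝ) ≤ J := by exact_mod_cast hJ1
  have hW' : (1 : ℝ) ≤ W := by exact_mod_cast hW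
  have hlp : (0 : ℝ) < l := by linarith
  have hX' : (X : ℝ) ≤ 8 * H * q * W := by exact_mod_cast hX
  have h1 : exc ≤ (8 * H * q * W) ^ 2 * 2 ^ A / (l : ℝ) ^ A := by
    have e1 : (X : ℝ) ^ 2 / Real.log X ^ A ≤ (X : ℝ) ^ 2 / ((l : ℝ) / 2) ^ A := by
      apply div_le_div_of_nonneg_left (by positivity) (by positivity)
      exact pow_le_pow_left₀ (by positivity) hlog A
    have e2 : (X : ℝ) ^ 2 / ((l : ℝ) / 2) ^ A = (X : ℝ) ^ 2 * 2 ^ A / (l : ℝ) ^ A := by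
      rw [div_pow]; field_simp
    have e3 : (X : ℝ) ^ 2 * 2 ^ A / (l : ℝ) ^ A ≤ (8 * H * q * W) ^ 2 * 2 ^ A / (l : ℝ) ^ A := by
      apply div_le_div_of_nonneg_right _ (by positivity)
      apply mul_le_mul_of_nonneg_right _ (by positivity)
      exact pow_le_pow_left₀ (by positivity) hX' 2
    linarith
  have h2 : nZ ≤ 9 * (ρ : ℝ) ^ 2 := hnZ.trans (by nlinarith)
  have h3 : (2 * (J : ℝ) + 1) ≤ 3 * J := by linarith
  have h4 : SS ≤ (9 * (ρ : ℝ) ^ 2) * (3 * J) * H * ((8 * H * q * W) ^ 2 * 2 ^ A / (l : ℝ) ^ A) := by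
    refine hSS.trans ?_
    gcongr
  have h5 : 200 * ((l : ℝ) + 1) ≤ 400 * l := by linarith
  have hbig' : (691200 * (q : ℝ) ^ 2 * 8 * B * 2 ^ A) ≤ l := by exact_mod_cast hbig
  have hpow : (l : ℝ) * (ρ : ℝ) ^ 2 * J * (H : ℝ) ^ 3 = (l : ℝ) ^ D1 := by
    have e1 : (ρ : ℝ) = (l : ℝ) ^ (C' + 1) := by rw [hρ]; push_cast; ring
    have e2 : (J : ℝ) = (l : ℝ) ^ (5 * (C' + 1)) := by
      rw [hJ]; push_cast; rw [e1, ← pow_mul]; congr 1; ring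
    have e3 : (H : ℝ) = (l : ℝ) ^ (5 * (C' + 1) * C0) := by
      rw [hH]; push_cast; rw [e2, ← pow_mul]
    rw [e1, e2, e3, ← pow_mul, ← pow_mul]
    rw [show (l : ℝ) * l ^ ((C' + 1) * 2) = l ^ (1 + (C' + 1) * 2) by rw [pow_add, pow_one],
      ← pow_add, ← pow_add, hD1]
    congr 1
    ring
  have hlA : (l : ℝ) ^ A = (l : ℝ) ^ D1 * l := by rw [hA, pow_succ]
  have hlD : (0 : ℝ) < (l : ℝ) ^ D1 := by positivity
  calc 200 * ((l : ℝ) + 1) * SS * (8 * B)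
      ≤ 400 * l * ((9 * (ρ : ℝ) ^ 2) * (3 * J) * H *
          ((8 * H * q * W) ^ 2 * 2 ^ A / (l : ℝ) ^ A)) * (8 * B) := by
        apply mul_le_mul_of_nonneg_right _ (by positivity)
        apply (mul_le_mul_of_nonneg_left h4 (by positivity)).trans
        apply mul_le_mul_of_nonneg_right h5 (by positivity)
    _ = (691200 * (q : ℝ) ^ 2 * 8 * B * 2 ^ A) *
          ((l : ℝ) * (ρ : ℝ) ^ 2 * J * (H : ℝ) ^ 3) / (l : ℝ) ^ A * (W : ℝ) ^ 2 := by ring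
    _ = (691200 * (q : ℝ) ^ 2 * 8 * B * 2 ^ A) * (l : ℝ) ^ D1 / ((l : ℝ) ^ D1 * l) *
          (W : ℝ) ^ 2 := by rw [hpow, hlA]
    _ = (691200 * (q : ℝ) ^ 2 * 8 * B * 2 ^ A) / l * (W : ℝ) ^ 2 := by field_simp
    _ ≤ 1 * (W : ℝ) ^ 2 := by
        apply mul_le_mul_of_nonneg_right _ (by positivity)
        rw [div_le_one hlp]; exact hbig'
    _ = (W : ℝ) ^ 2 := one_mul _


theorem main_num (q C0 C' B W1 W2 l1 l0 X : ℕ) (hq0 : 0 < q)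
    (hl1 : ∀ l, l1 ≤ l → 8 * q * (W1 + W2 + 2 * B + 1) * l ^ ((C' + 1) * 5 * C0) ≤ 2 ^ l)
    (hl0 : l1 + 2 ≤ l0) (hX : 2 ^ l0 ≤ X) : ∃ l ρ J H W : ℕ, l = Nat.log 2 X ∧ l0 ≤ l ∧
      2 ^ l ≤ X ∧ ρ = l ^ (C' + 1) ∧ J = ρ ^ 5 ∧ H = J ^ C0 ∧ l ≤ ρ ∧ ρ ≤ J ∧ 2 ≤ J ∧
      4 * H * q * W ≤ X ∧ W1 + W2 + 2 * B + 1 ≤ W ∧ X ≤ 8 * H * q * W ∧ 2 * W ≤ X ∧
      (l : ℝ) / 2 ≤ Real.log X := by
  have hX0 : X ≠ 0 := by
    have : 0 < 2 ^ l0 := by positivity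
    omega
  obtain ⟨l, hl⟩ : ∃ l : ℕ, l = Nat.log 2 X := ⟨_, rfl⟩
  have hll0 : l0 ≤ l := by
    rw [hl]; exact (Nat.le_log_iff_pow_le (by norm_num) hX0).2 hX
  have h2l : 2 ^ l ≤ X := by rw [hl]; exact Nat.pow_log_le_self 2 hX0
  have hl1' : 1 ≤ l := by omega
  obtain ⟨ρ, hρ⟩ : ∃ ρ : ℕ, ρ = l ^ (C' + 1) := ⟨_, rfl⟩
  obtain ⟨J, hJ⟩ : ∃ J : ℕ, J = ρ ^ 5 := ⟨_, rfl⟩
  obtain ⟨H, hH⟩ : ∃ H : ℕ, H = J ^ C0 := ⟨_, rfl⟩
  obtain ⟨W, hW⟩ : ∃ W : ℕ, W = X / (4 * H * q) := ⟨_, rfl⟩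
  have hlρ : l ≤ ρ := by rw [hρ]; exact Nat.le_self_pow (by omega) l
  have hρJ : ρ ≤ J := by rw [hJ]; exact Nat.le_self_pow (by omega) ρ
  have hJ2 : 2 ≤ J := by omega
  have hH1 : 1 ≤ H := by rw [hH]; exact Nat.one_le_pow _ _ (by omega)
  have h4Hq : 0 < 4 * H * q := by positivity
  have hHl : H = l ^ ((C' + 1) * 5 * C0) := by
    rw [hH, hJ, hρ, ← pow_mul, ← pow_mul, mul_assoc]
  have hWX : 4 * H * q * W ≤ X := by rw [hW]; exact Nat.mul_div_le X _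
  have hWbig : W1 + W2 + 2 * B + 1 ≤ W := by
    rw [hW, Nat.le_div_iff_mul_le h4Hq]
    have h3 := hl1 l (by omega)
    rw [← hHl] at h3
    calc (W1 + W2 + 2 * B + 1) * (4 * H * q) ≤ 8 * q * (W1 + W2 + 2 * B + 1) * H := by nlinarith
      _ ≤ 2 ^ l := h3
      _ ≤ X := h2l
  have hX8 : X ≤ 8 * H * q * W := by
    have h3 : X < 4 * H * q * (W + 1) := by
      rw [hW]; exact Nat.lt_mul_div_succ X h4Hq
    nlinarith
  have h2W : 2 * W ≤ X := by nlinarith [Nat.mul_le_mul hH1 hq0]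
  have hlog : (l : ℝ) / 2 ≤ Real.log X := by
    have h3 : Real.log ((2 : ℝ) ^ l) ≤ Real.log X := by
      apply Real.log_le_log (by positivity)
      exact_mod_cast h2l
    rw [Real.log_pow] at h3
    have h4 := Real.log_two_gt_d9
    have h5 : (0 : ℝ) ≤ l := by positivity
    nlinarith
  exact ⟨l, ρ, J, H, W, hl, hll0, h2l, hρ, hJ, hH, hlρ, hρJ, hJ2, hWX, hWbig, hX8, h2W, hlog⟩

open scoped Classical in
/-- the index set of all admissible pairs in a box -/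
noncomputable def ZZ (f : Fam) (q ρ : ℕ) : Finset (ℤ × ℤ) :=
  (box ρ).filter (fun z => f.Adm q z.1 z.2)

theorem mem_ZZ (f : Fam) (q ρ : ℕ) (z : ℤ × ℤ) :
    z ∈ ZZ f q ρ ↔ |z.1| ≤ ρ ∧ |z.2| ≤ ρ ∧ f.Adm q z.1 z.2 := by
  classical
  unfold ZZ
  rw [mem_filter, box, mem_product, mem_Icc, mem_Icc, ← abs_le, ← abs_le, and_assoc]

theorem card_ZZ (f : Fam) (q ρ : ℕ) : ((ZZ f q ρ).card : ℝ) ≤ (2 * (ρ : ℝ) + 1) ^ 2 := by
  have h3 : (ZZ f q ρ).card ≤ (box ρ).card := by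
    classical
    unfold ZZ; exact card_filter_le _ _
  have h4 : (box ρ).card = (2 * ρ + 1) ^ 2 := by
    rw [box, card_product, Int.card_Icc]
    have : ((ρ : ℤ) + 1 - -(ρ : ℤ)).toNat = 2 * ρ + 1 := by omega
    rw [this]; ring
  rw [h4] at h3
  exact_mod_cast h3

/-- few moduli are spectrally bad -/
theorem main_E1c (c : Cfg) (f : Fam) (S E1 : Finset ℕ) (l ρ J H W X q B A D1 C' C0 : ℕ)
    (hl : l = Nat.log 2 X) (hl1 : 1 ≤ l)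
    (hρ : ρ = l ^ (C' + 1)) (hJ : J = ρ ^ 5) (hH : H = J ^ C0)
    (hD1 : D1 = 1 + (C' + 1) * (7 + 15 * C0)) (hA : A = D1 + 1)
    (hbig : 691200 * q ^ 2 * 8 * B * 2 ^ A ≤ l) (hB : 0 < B) (hq : 0 < q) (hW : 1 ≤ W)
    (hX : X ≤ 8 * H * q * W) (h2W : 2 * W ≤ X) (hlog : (l : ℝ) / 2 ≤ Real.log X)
    (hexc : (excN c X : ℝ) < (X : ℝ) ^ 2 / Real.log X ^ A)
    (hS : ∀ w ∈ S, W < w ∧ w ≤ 2 * W)
    (hgood : ∑ w ∈ S, ∑ z ∈ ZZ f q ρ, badc c q w (f.Az z.1 z.2) ≤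
      (ZZ f q ρ).card * (2 * J + 1) * H * excN c X)
    (hE1 : ∀ w, w ∈ E1 → w ∈ S ∧
      Nat.totient w ≤ 200 * ∑ z ∈ ZZ f q ρ, badc c q w (f.Az z.1 z.2)) :
    (E1.card : ℝ) ≤ (1 / 8) * W / B := by
  have h3 : ∀ w ∈ E1, (W : ℝ) / ((l : ℝ) + 1) ≤ Nat.totient w := by
    intro w hw
    obtain ⟨h1, h2⟩ := hS w (hE1 w hw).1
    refine le_trans ?_ (st_phi w (by omega))
    have h5 : (Nat.log 2 w : ℝ) ≤ l := by
      rw [hl]; exact_mod_cast Nat.log_mono_right (by omega)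
    have h6 : (W : ℝ) ≤ w := by exact_mod_cast h1.le
    apply div_le_div₀ (by positivity) h6 (by positivity)
    linarith
  have h4 : (E1.card : ℝ) * (W / ((l : ℝ) + 1)) ≤
      200 * ((∑ w ∈ S, ∑ z ∈ ZZ f q ρ, badc c q w (f.Az z.1 z.2) : ℕ) : ℝ) := by
    calc (E1.card : ℝ) * (W / ((l : ℝ) + 1)) = ∑ w ∈ E1, (W : ℝ) / ((l : ℝ) + 1) := by
          rw [sum_const, nsmul_eq_mul]
      _ ≤ ∑ w ∈ E1, (Nat.totient w : ℝ) := sum_le_sum h3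
      _ ≤ ∑ w ∈ E1, ((200 * ∑ z ∈ ZZ f q ρ, badc c q w (f.Az z.1 z.2) : ℕ) : ℝ) := by
          apply sum_le_sum
          intro w hw
          exact_mod_cast (hE1 w hw).2
      _ ≤ ∑ w ∈ S, ((200 * ∑ z ∈ ZZ f q ρ, badc c q w (f.Az z.1 z.2) : ℕ) : ℝ) := by
          apply sum_le_sum_of_subset_of_nonneg
          · intro w hw; exact (hE1 w hw).1
          · intro _ _ _; positivity
      _ = _ := by push_cast; rw [mul_sum]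
  have h5 := main_E1 l ρ J H W X q B A D1 C' C0 (excN c X) (ZZ f q ρ).card
    ((∑ w ∈ S, ∑ z ∈ ZZ f q ρ, badc c q w (f.Az z.1 z.2) : ℕ) : ℝ) hl1 hρ hJ hH hD1 hA
    hbig hB hq hW hX hlog (by positivity) hexc (card_ZZ f q ρ)
    (by exact_mod_cast hgood)
  have hWp : (0 : ℝ) < W := by exact_mod_cast hW
  have hBp : (0 : ℝ) < B := by exact_mod_cast hB
  have hlp : (0 : ℝ) < (l : ℝ) + 1 := by positivity
  rw [le_div_iff₀ hBp]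
  have h6 : (E1.card : ℝ) * W ≤
      200 * ((∑ w ∈ S, ∑ z ∈ ZZ f q ρ, badc c q w (f.Az z.1 z.2) : ℕ) : ℝ) *
      ((l : ℝ) + 1) := by
    rw [← mul_div_assoc, div_le_iff₀ hlp] at h4
    exact h4
  have h7 : (E1.card : ℝ) * W * (8 * B) ≤ (W : ℝ) ^ 2 := by
    refine le_trans ?_ h5
    have := mul_le_mul_of_nonneg_right h6 (show (0 : ℝ) ≤ 8 * B by positivity)
    refine this.trans (le_of_eq (by ring))
  have h8 : W * ((E1.card : ℝ) * (8 * B)) ≤ W * (W : ℝ) := by nlinarith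
  have h9 := le_of_mul_le_mul_left h8 hWp
  linarith

/-- there is a good modulus -/
theorem main_ex (S E1 E2 E3 : Finset ℕ) (W B : ℕ) (hB : 0 < B) (hW : 2 * B ≤ W)
    (hS : (W : ℝ) / B - 1 ≤ (S.card : ℝ)) (h1 : (E1.card : ℝ) ≤ (1 / 8) * W / B)
    (h2 : (E2.card : ℝ) ≤ (1 / 8) * W / B) (h3 : (E3.card : ℝ) ≤ (1 / 8) * W / B) :
    ∃ w ∈ S, w ∉ E1 ∧ w ∉ E2 ∧ w ∉ E3 := by
  by_contra hno
  push Not at hno
  have hsub : S ⊆ (E1 ∪ E2) ∪ E3 := by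
    intro w hw
    rw [mem_union, mem_union]
    by_cases a1 : w ∈ E1
    · exact Or.inl (Or.inl a1)
    by_cases a2 : w ∈ E2
    · exact Or.inl (Or.inr a2)
    · exact Or.inr (hno w hw a1 a2)
  have hcard := (card_le_card hsub).trans ((card_union_le _ _).trans
    (Nat.add_le_add_right (card_union_le _ _) _))
  have hcard' : (S.card : ℝ) ≤ E1.card + E2.card + E3.card := by exact_mod_cast hcard
  have hBp : (0 : ℝ) < B := by exact_mod_cast hB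
  have h2B : 2 * (B : ℝ) ≤ W := by exact_mod_cast hW
  have h4 : 2 ≤ (W : ℝ) / B := by rw [le_div_iff₀ hBp]; exact h2B
  have e1 : (1 / 8 : ℝ) * W / B = (1 / 8) * ((W : ℝ) / B) := by ring
  rw [e1] at h1 h2 h3
  linarith

/-- the contradiction for a good modulus -/
theorem main_con (c : Cfg) (f : Fam) (q M B w0 w W i0 l ρ X C' C1 Λ : ℕ) (y0 : ℤ)
    (Zf : ℕ → Finset (ℤ × ℤ)) (hq0 : 0 < q) (hi0 : 1 ≤ i0)
    (hZf : ∀ i, i0 ≤ i → ZSet f q Λ C1 (i ^ C') (Zf i))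
    (hadm0 : f.Adm q f.m0 y0) (hlam0 : lam (f.Az f.m0 y0) = -1)
    (hM1 : 2 ^ i0 ≤ M) (hM2 : (f.Az f.m0 y0).natAbs ≤ M) (hM3 : q ≤ M)
    (hw0 : Nat.Coprime w0 B) (hMB : M.factorial ∣ B) (hw1 : W < w) (hw2 : w ≤ 2 * W)
    (hw3 : w ≡ w0 [MOD B]) (h2W : 2 * W ≤ X) (hl : l = Nat.log 2 X) (hX0 : X ≠ 0)
    (hρ : ρ = l ^ (C' + 1)) (hl1 : 1 ≤ l) (hC1 : C1 ≤ l) (hy0 : y0.natAbs ≤ ρ)
    (hm0 : f.m0.natAbs ≤ ρ)
    (hE1 : 200 * ∑ z ∈ ZZ f q ρ, badc c q w (f.Az z.1 z.2) < Nat.totient w)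
    (hE2 : ∀ i, i0 ≤ i → ∀ r : ℕ, 2 ^ i < r → r ≤ 2 ^ (i + 1) → r ∣ w →
      ∀ χ0 : DirichletCharacter ℂ r, χ0.IsPrimitive →
        ‖∑ z ∈ Zf i, (lam (f.Az z.1 z.2) : ℂ) * χ0 (((f.Az z.1 z.2).natAbs : ℕ) : ZMod r)‖ <
          9 / 10 * ((Zf i).card : ℝ))
    (hE3 : ∀ i, i0 ≤ i → 2 ^ i ≤ w →
      100 * ((Zf i).filter (fun z => ¬ Nat.Coprime (f.Az z.1 z.2).natAbs w)).card ≤ (Zf i).card) :
    False := by
  classical
  have hw0' : 0 < w := by omega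
  have hcopw : ∀ n : ℕ, 0 < n → n ≤ M → Nat.Coprime n w := fun n h1 h2 =>
    cop_w hw3 hw0 hMB h1 h2
  have hqw : Nat.Coprime q w := hcopw q hq0 hM3
  obtain ⟨Z1, hZ1⟩ : ∃ Z1 : Finset (ℤ × ℤ), Z1 =
    (ZZ f q ρ).filter (fun z => IsCoprime (f.Az z.1 z.2) (w : ℤ)) := ⟨_, rfl⟩
  have hZ1s : Z1 ⊆ ZZ f q ρ := by rw [hZ1]; exact filter_subset _ _
  have hb : 200 * ∑ z ∈ Z1, badc c q w (f.Az z.1 z.2) < Nat.totient w :=
    lt_of_le_of_lt (Nat.mul_le_mul_left _ (sum_le_sum_of_subset hZ1s)) hE1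
  unfold badc at hb
  obtain ⟨χ, hχ⟩ := st_spec w hw0' (fw c q w)
    (fun x y h => fw_congr c hq0 hw0' hqw h) (fun x => fw_eq c q hw0' x)
    Z1 (fun z => f.Az z.1 z.2)
    (fun z => lam (f.Az z.1 z.2)) (fun z hz => by rw [hZ1] at hz; exact (mem_filter.1 hz).2)
    (fun z hz => lam_eq (Fam.Az_ne_zero ((mem_ZZ f q ρ z).1 (hZ1s hz)).2.2)) hb
  have hχ' : ∀ z ∈ ZZ f q ρ, IsCoprime (f.Az z.1 z.2) (w : ℤ) →
      (99 / 100 : ℝ) ≤ ((lam (f.Az z.1 z.2) : ℂ) * χ ((f.Az z.1 z.2 : ℤ) : ZMod w)).re :=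
    fun z hz h => hχ z (by rw [hZ1]; exact mem_filter.2 ⟨hz, h⟩)
  have hil : ∀ i, 2 ^ i ≤ w → i ≤ l := by
    intro i hi
    rw [hl]
    exact (Nat.le_log_iff_pow_le (by norm_num) hX0).2 (by omega)
  have hZsub : ∀ i, i0 ≤ i → 2 ^ i ≤ w → ∀ z ∈ Zf i, z ∈ ZZ f q ρ := by
    intro i hi hiw z hz
    have hz' := hZf i hi
    have h3 : i ^ C' ≤ l ^ C' := Nat.pow_le_pow_left (hil i hiw) C'
    have h4 : l * l ^ C' = ρ := by rw [hρ, pow_succ]; ring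
    have h5 : 0 < l ^ C' := Nat.pow_pos (by omega)
    rw [mem_ZZ]
    refine ⟨?_, ?_, hz'.adm z hz⟩
    · refine (hz'.bm z hz).trans ?_
      exact_mod_cast (by nlinarith : i ^ C' ≤ ρ)
    · refine (hz'.by' z hz).trans ?_
      exact_mod_cast (by
        calc C1 * i ^ C' ≤ l * l ^ C' := Nat.mul_le_mul hC1 h3
          _ = ρ := h4 : C1 * i ^ C' ≤ ρ)
  apply st_contra w hw0' i0 χ (fun z => f.Az z.1 z.2) Zf
  · intro p hp hpw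
    by_contra hle
    push Not at hle
    have h3 := hcopw p hp.pos (by omega)
    have h4 : p ∣ 1 := by rw [← h3]; exact Nat.dvd_gcd dvd_rfl hpw
    exact hp.one_lt.ne' (Nat.dvd_one.1 h4)
  · have hz0 : ((f.m0, y0) : ℤ × ℤ) ∈ ZZ f q ρ := by
      rw [mem_ZZ]
      refine ⟨?_, ?_, hadm0⟩
      · rw [Int.abs_eq_natAbs]; exact_mod_cast hm0
      · rw [Int.abs_eq_natAbs]; exact_mod_cast hy0
    have hc0 : IsCoprime (f.Az f.m0 y0) (w : ℤ) := by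
      have h3 := hcopw (f.Az f.m0 y0).natAbs (Int.natAbs_pos.2 (Fam.Az_ne_zero hadm0)) hM2
      rw [Int.isCoprime_iff_gcd_eq_one]
      exact h3
    exact ⟨(f.m0, y0), hc0, hlam0, hχ' _ hz0 hc0⟩
  · intro i hi hiw z hz hc
    exact hχ' z (hZsub i hi hiw z hz) hc
  · intro i hi
    exact (hZf i hi).sg
  · intro i hi
    have h3 := (hZf i hi).cd
    rw [nonempty_iff_ne_empty]
    intro h4
    rw [h4, card_empty] at h3
    have h5 : 0 < (i ^ C') ^ 11 := Nat.pow_pos (Nat.pow_pos (by omega))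
    rw [zero_pow (by norm_num)] at h3
    exact absurd h5 (not_lt.2 h3)
  · exact hE3
  · exact hE2

open scoped Classical in
/-- the sets of bad conductors -/
noncomputable def Sb (f : Fam) (i0 : ℕ) (Zf : ℕ → Finset (ℤ × ℤ)) (i : ℕ) : Finset ℕ :=
  if i0 ≤ i then
    (Ioc (2 ^ i) (2 ^ (i + 1))).filter (fun r : ℕ => ∃ χ : DirichletCharacter ℂ r,
      χ.IsPrimitive ∧ 9 / 10 * ((Zf i).card : ℝ) ≤
        ‖∑ z ∈ Zf i, (lam (f.Az z.1 z.2) : ℂ) * χ ((f.Az z.1 z.2).natAbs : ZMod r)‖) else ∅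

def Zg (i0 : ℕ) (Zf : ℕ → Finset (ℤ × ℤ)) (i : ℕ) : Finset (ℤ × ℤ) :=
  if i0 ≤ i then Zf i else ∅

theorem Zg_prop (f : Fam) (q Λ C1 C' i0 : ℕ) (Zf : ℕ → Finset (ℤ × ℤ)) (hi0 : 1 ≤ i0)
    (hC' : 2 * Λ ≤ C') (hZf : ∀ i, i0 ≤ i → ZSet f q Λ C1 (i ^ C') (Zf i)) (i : ℕ) :
    ∀ z ∈ Zg i0 Zf i, (f.Az z.1 z.2).natAbs ≠ 0 ∧
      ArithmeticFunction.cardFactors (f.Az z.1 z.2).natAbs ≤ Λ ∧
      ∀ p : ℕ, p.Prime → p ∣ (f.Az z.1 z.2).natAbs → i ^ 2 ≤ p := by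
  intro z hz'
  unfold Zg at hz'
  split_ifs at hz' with h
  · have hz := hZf i h
    refine ⟨Int.natAbs_ne_zero.2 (Fam.Az_ne_zero (hz.adm z hz')), hz.om z hz', ?_⟩
    intro p hp hpd
    have h3 := hz.pr z hz' p hp (by exact Int.natCast_dvd.2 hpd)
    have h4 : (i ^ 2) ^ Λ ≤ i ^ C' := by
      rw [← pow_mul]
      exact Nat.pow_le_pow_right (by omega) hC'
    have h5 : (i ^ 2) ^ Λ < p ^ Λ := lt_of_le_of_lt h4 h3
    exact (lt_of_pow_lt_pow_left₀ Λ (by positivity) h5).le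
  · simp at hz'

open scoped Classical in
theorem st_main : MainStmt := by
  intro c
  obtain ⟨P0, hP0, hNP0, Hfin⟩ := st_fin c
  obtain ⟨f, hf⟩ : ∃ f, f = famOf c := ⟨_, rfl⟩
  rw [← hf] at Hfin
  obtain ⟨P1, hP1, Hz⟩ := st_zset f
  obtain ⟨q, hq⟩ : ∃ q : ℕ, q = P0.toNat * P1 := ⟨_, rfl⟩
  have hP0' : 0 < P0.toNat := by omega
  have hq0 : 0 < q := by rw [hq]; positivity
  have hP0q : P0 ∣ (q : ℤ) := by
    rw [hq]; push_cast; rw [Int.toNat_of_nonneg hP0.le]; exact dvd_mul_right _ _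
  have hP1q : P1 ∣ q := by rw [hq]; exact dvd_mul_left _ _
  have hNq : c.N ∣ (q : ℤ) := hNP0.trans hP0q
  obtain ⟨C0, HNI⟩ := Hfin q (by exact_mod_cast hq0) hP0q
  obtain ⟨Λ, C1, ρ0, hΛ, hC1, HZ⟩ := Hz q hq0 hP1q
  obtain ⟨C'0, Hbad⟩ := st_bad Λ C1 hC1
  obtain ⟨C', hC'⟩ : ∃ C' : ℕ, C' = C'0 + 2 * Λ + 1 := ⟨_, rfl⟩
  obtain ⟨i1, Hbad⟩ := Hbad C' (by omega)
  obtain ⟨i2, H1⟩ := st_ex1 (1 / 8) (by norm_num)
  obtain ⟨i3, H2⟩ := st_ex2 Λ (1 / 8) (by norm_num)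
  obtain ⟨i0, hi0⟩ : ∃ i0 : ℕ, i0 = i1 + i2 + i3 + ρ0 + 1 := ⟨_, rfl⟩
  have hρi : ∀ i, i0 ≤ i → ρ0 ≤ i ^ C' := by
    intro i hi
    have : i ≤ i ^ C' := Nat.le_self_pow (by omega) i
    omega
  choose! Zf hZf using fun (i : ℕ) (hi : i0 ≤ i) => HZ (i ^ C') (hρi i hi)
  obtain ⟨y0, hy0, hadm0, hlam0⟩ := st_minus f q hq0
  obtain ⟨M, hM⟩ : ∃ M : ℕ, M = 2 ^ i0 + (f.Az f.m0 y0).natAbs + q := ⟨_, rfl⟩
  have hM1 : 2 ^ i0 ≤ M := by rw [hM, add_assoc]; exact Nat.le_add_right _ _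
  have hM2 : (f.Az f.m0 y0).natAbs ≤ M := by
    rw [hM]; exact (Nat.le_add_left _ _).trans (Nat.le_add_right _ _)
  have hM3 : q ≤ M := by rw [hM]; exact Nat.le_add_left _ _
  obtain ⟨w0, hw0, hw0b⟩ := st_w0 c.b c.N c.hN c.hb M.factorial (Nat.factorial_pos M)
  obtain ⟨B, hB⟩ : ∃ B : ℕ, B = M.factorial * c.N.toNat := ⟨_, rfl⟩
  rw [← hB] at hw0
  have hNt : 0 < c.N.toNat := by have := c.hN; omega
  have hB0 : 0 < B := by rw [hB]; exact Nat.mul_pos (Nat.factorial_pos M) hNt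
  have hMB : M.factorial ∣ B := by rw [hB]; exact dvd_mul_right _ _
  have hNB : c.N ∣ (B : ℤ) := by
    rw [hB]; push_cast; rw [Int.toNat_of_nonneg c.hN.le]; exact dvd_mul_left _ _
  obtain ⟨W1, H1⟩ := H1 B w0 hB0 hw0
  obtain ⟨W2, H2⟩ := H2 B w0 hB0 hw0
  obtain ⟨Kf, hKf⟩ := Az_bound f
  obtain ⟨D1, hD1⟩ : ∃ D1 : ℕ, D1 = 1 + (C' + 1) * (7 + 15 * C0) := ⟨_, rfl⟩
  obtain ⟨A, hA⟩ : ∃ A : ℕ, A = D1 + 1 := ⟨_, rfl⟩
  obtain ⟨l1, hl1⟩ := pow_two_large (8 * q * (W1 + W2 + 2 * B + 1)) ((C' + 1) * 5 * C0)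
  obtain ⟨bb, hbb⟩ : ∃ bb : ℕ, bb = 691200 * q ^ 2 * 8 * B * 2 ^ A := ⟨_, rfl⟩
  obtain ⟨l0, hl0⟩ : ∃ l0 : ℕ, l0 = l1 + C1 + Kf + 2 + f.m0.natAbs + y0.natAbs + bb := ⟨_, rfl⟩
  refine ⟨A, 2 ^ l0, ?_⟩
  intro X hX
  by_contra hexc
  push Not at hexc
  have hX0 : X ≠ 0 := by
    have : 0 < 2 ^ l0 := by positivity
    omega
  obtain ⟨l, ρ, J, H, W, hl, hll0, h2l, hρ, hJ, hH, hlρ, hρJ, hJ2, hWX, hWbig, hX8, h2W, hlog⟩ :=
    main_num q C0 C' B W1 W2 l1 l0 X hq0 hl1 (by omega) hX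
  clear hl1
  have hl1' : 1 ≤ l := by omega
  have hρ1 : 1 ≤ ρ := by omega
  obtain ⟨S, hS⟩ : ∃ S : Finset ℕ, S = (Ioc W (2 * W)).filter (fun w => w ≡ w0 [MOD B]) :=
    ⟨_, rfl⟩
  have hSm : ∀ w ∈ S, W < w ∧ w ≤ 2 * W ∧ w ≡ w0 [MOD B] := by
    intro w hw
    rw [hS, mem_filter, mem_Ioc] at hw
    exact ⟨hw.1.1, hw.1.2, hw.2⟩
  have hgood := st_good c q hq0 hNq (ZZ f q ρ) (fun z => f.Az z.1 z.2) J H W X
    (by
      intro z hz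
      obtain ⟨h1, h2, h3⟩ := (mem_ZZ f q ρ z).1 hz
      refine ⟨Fam.Az_ne_zero h3, ?_, Fam.dvd_Az h3⟩
      have h4 := hKf q z.1 z.2 ρ h3 hρ1 h1 h2
      refine h4.trans ?_
      rw [hJ]
      push_cast
      have h5 : (Kf : ℤ) ≤ ρ := by exact_mod_cast (by omega : Kf ≤ ρ)
      calc (Kf : ℤ) * (ρ : ℤ) ^ 4 ≤ ρ * (ρ : ℤ) ^ 4 := by
            apply mul_le_mul_of_nonneg_right h5 (by positivity)
        _ = (ρ : ℤ) ^ 5 := by ring)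
    (by
      intro z hz j hj
      obtain ⟨h1, h2, h3⟩ := (mem_ZZ f q ρ z).1 hz
      have hρJ' : (ρ : ℤ) ≤ J := by exact_mod_cast hρJ
      rw [hH]
      exact HNI J hJ2 z.1 z.2 j (h1.trans hρJ') (h2.trans hρJ') hj h3)
    hWX S
    (by
      intro w hw
      obtain ⟨h1, h2, h3⟩ := hSm w hw
      refine ⟨h1, h2, ?_, cop_w h3 hw0 hMB hq0 hM3⟩
      have h4 : (B : ℤ) ∣ (w : ℤ) - w0 := Nat.modEq_iff_dvd.1 h3.symm
      have h5 := dvd_add (hNB.trans h4) hw0b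
      have e : (w : ℤ) - w0 + (w0 - c.b) = w - c.b := by ring
      rwa [e] at h5)
  obtain ⟨E1, hE1⟩ : ∃ E1 : Finset ℕ, E1 = S.filter (fun w => Nat.totient w ≤
    200 * ∑ z ∈ ZZ f q ρ, badc c q w (f.Az z.1 z.2)) := ⟨_, rfl⟩
  have hE1c := main_E1c c f S E1 l ρ J H W X q B A D1 C' C0 hl hl1' hρ hJ hH hD1 hA (by omega)
    hB0 hq0 (by omega) hX8 h2W hlog hexc (fun w hw => ⟨(hSm w hw).1, (hSm w hw).2.1⟩) hgood
    (fun w hw => by rw [hE1, mem_filter] at hw; exact hw)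
  have hE2c := H1 W (by omega) (Sb f i0 Zf)
    (by
      intro i _ r hr
      unfold Sb at hr
      split_ifs at hr with h
      · rw [mem_filter, mem_Ioc] at hr
        exact hr.1
      · simp at hr)
    (by
      intro i hi
      unfold Sb
      split_ifs with h
      · have hz := hZf i h
        apply Hbad i (by omega) (Zf i) (fun z => (f.Az z.1 z.2).natAbs)
          (fun z => (lam (f.Az z.1 z.2) : ℂ))
        · intro z hz'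
          refine ⟨?_, hz.sz z hz', hz.om z hz'⟩
          exact Int.natAbs_pos.2 (Fam.Az_ne_zero (hz.adm z hz'))
        · exact hz.fb
        · intro z hz'
          rcases lam_eq (Fam.Az_ne_zero (hz.adm z hz')) with h | h <;> rw [h] <;> simp
        · exact hz.cd
      · simp only [card_empty, Nat.cast_zero]
        positivity)
  have hE3c := H2 W (by omega) (Zg i0 Zf) (fun z => (f.Az z.1 z.2).natAbs)
    (fun i _ => Zg_prop f q Λ C1 C' i0 Zf (by omega) (by omega) hZf i)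
  have hSc := (st_prog B w0 W hB0).1
  rw [← hS] at hSc
  obtain ⟨w, hwS, hwE1, hwE2, hwE3⟩ := main_ex S E1 _ _ W B hB0 (by omega) hSc hE1c hE2c hE3c
  obtain ⟨hw1, hw2, hw3⟩ := hSm w hwS
  refine main_con c f q M B w0 w W i0 l ρ X C' C1 Λ y0 Zf hq0 (by omega) hZf hadm0 hlam0 hM1 hM2
    hM3 hw0 hMB hw1 hw2 hw3 h2W hl hX0 hρ hl1' (by omega) (by omega) (by omega) ?_ ?_ ?_
  · by_contra h
    apply hwE1
    rw [hE1, mem_filter]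
    exact ⟨hwS, not_lt.1 h⟩
  · intro i hi r hr1 hr2 hrw χ0 hχ0
    by_contra hge
    apply hwE2
    rw [mem_filter, mem_Ioc]
    refine ⟨⟨hw1, hw2⟩, hw3, i, by omega, r, ?_, hrw⟩
    unfold Sb
    rw [if_pos hi, mem_filter, mem_Ioc]
    exact ⟨⟨hr1, hr2⟩, χ0, hχ0, not_lt.1 hge⟩
  · intro i hi hiw
    by_contra hlt
    apply hwE3
    rw [mem_filter, mem_Ioc]
    refine ⟨⟨hw1, hw2⟩, hw3, i, by omega, by omega, ?_⟩
    unfold Zg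
    rw [if_pos hi]
    exact not_le.1 hlt

end Pool.Agent.BQF
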