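import Pool.Agent.BQF.Defs

set_option autoImplicit false

/-!
# The calculus of near invariant matrices
-/

namespace Pool.Agent.BQF

variable {c : Cfg}

theorem NI_mono {M : M2} {H H' : ℕ} (h : NI c M H) (hH : H ≤ H') : NI c M H' := by
  obtain ⟨h1, h2, h3, L, h4, h5, h6⟩ := h
  exact ⟨h1, h2, M2.bd_mono h3 hH, L, h4.trans hH,
    fun x hx => ⟨(h5 x hx).1, (h5 x hx).2.1, M2.bd_mono (h5 x hx).2.2 hH⟩, h6⟩

theorem NI_pos {M : M2} {H : ℕ} (h : NI c M H) : 1 ≤ H := by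
  obtain ⟨-, h2, h3, -⟩ := h
  by_contra h0
  have h0 : H = 0 := by omega
  subst h0
  obtain ⟨a1, a2, a3, a4⟩ := h3
  simp only [Nat.cast_zero, abs_nonpos_iff] at a1 a2 a3 a4
  apply h2
  simp only [M2.det]; rw [a1, a2, a3, a4]; ring

/-- product -/
theorem NI_mul {M P : M2} {H H' : ℕ} (h : NI c M H) (h' : NI c P H') :
    NI c (M.mul P) (2 * H * H') := by
  have p1 := NI_pos h
  have p2 := NI_pos h'
  obtain ⟨h1, h2, h3, L, h4, h5, h6⟩ := h
  obtain ⟨k1, k2, k3, L', k4, k5, k6⟩ := h'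
  have hle : H' ≤ 2 * H * H' := by nlinarith
  refine ⟨M2.cg_mul h1 k1, ?_, M2.bd_mul h3 k3, L' ++ L.map (fun x => x.mul P), ?_, ?_, ?_⟩
  · rw [M2.det_mul]; exact mul_ne_zero h2 k2
  · rw [List.length_append, List.length_map]; nlinarith
  · intro x hx
    rw [List.mem_append] at hx
    rcases hx with hx | hx
    · exact ⟨(k5 x hx).1, (k5 x hx).2.1, M2.bd_mono (k5 x hx).2.2 hle⟩
    · obtain ⟨y, hy, rfl⟩ := List.mem_map.1 hx
      obtain ⟨y1, y2, y3⟩ := h5 y hy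
      refine ⟨M2.cg_mul y1 k1, ?_, M2.bd_mul y3 k3⟩
      rw [M2.det_mul]; exact mul_ne_zero y2 k2
  · intro v hv hc hL
    rw [M2.act_mul, h6 (P.act v) (M2.act_ne_zero k2 hv) (act_mem_Cls k1 hc) ?_, k6 v hv hc ?_,
      M2.det_mul, lam_mul]
    · ring
    · intro x hx
      exact hL x (List.mem_append_left _ hx)
    · intro x hx
      rw [← M2.act_mul]
      exact hL _ (List.mem_append_right _ (List.mem_map.2 ⟨x, hx, rfl⟩))

/-- removal of a scalar -/
theorem NI_sm {M : M2} {H : ℕ} {k : ℤ} (h : NI c (M2.sm k M) H) (hk : k ≠ 0)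
    (hN : c.N ∣ k - 1) : NI c M H := by
  obtain ⟨h1, h2, h3, L, h4, h5, h6⟩ := h
  have hd : M.det ≠ 0 := by
    intro h0; apply h2; rw [M2.det_sm, h0, mul_zero]
  refine ⟨M2.cg_sm h1 hN, hd, ?_, L, h4, h5, ?_⟩
  · have key : ∀ x : ℤ, |k * x| ≤ H → |x| ≤ H := by
      intro x hx
      rw [abs_mul] at hx
      have : 1 ≤ |k| := Int.one_le_abs hk
      nlinarith [abs_nonneg x]
    obtain ⟨a1, a2, a3, a4⟩ := h3
    exact ⟨key _ a1, key _ a2, key _ a3, key _ a4⟩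
  · intro v hv hc hL
    have h7 := h6 v hv hc hL
    have e1 : (M2.sm k M).act v = (k * (M.act v).1, k * (M.act v).2) := by
      simp only [M2.sm, M2.act]; ext <;> simp <;> ring
    rw [e1, F_smul hk, M2.det_sm, lam_mul, lam_sq hk, one_mul] at h7
    exact h7

/-- adjugate -/
theorem NI_adj {M : M2} {H : ℕ} (h : NI c M H) : NI c M.adj (2 * H * H) := by
  have p1 := NI_pos h
  obtain ⟨h1, h2, h3, L, h4, h5, h6⟩ := h
  have hle : H ≤ 2 * H * H := by nlinarith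
  refine ⟨M2.cg_adj h1, by rwa [M2.det_adj], M2.bd_mono (M2.bd_adj h3) hle,
    L.map (fun x => x.mul M.adj), ?_, ?_, ?_⟩
  · rw [List.length_map]; omega
  · intro x hx
    obtain ⟨y, hy, rfl⟩ := List.mem_map.1 hx
    obtain ⟨y1, y2, y3⟩ := h5 y hy
    refine ⟨M2.cg_mul y1 (M2.cg_adj h1), ?_, M2.bd_mul y3 (M2.bd_adj h3)⟩
    rw [M2.det_mul, M2.det_adj]; exact mul_ne_zero y2 h2
  · intro v hv hc hL
    have hd' : M.adj.det ≠ 0 := by rwa [M2.det_adj]
    have h7 := h6 (M.adj.act v) (M2.act_ne_zero hd' hv) (act_mem_Cls (M2.cg_adj h1) hc) ?_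
    · rw [M2.mul_adj_act, F_smul h2] at h7
      rw [M2.det_adj, h7, ← mul_assoc, lam_mul_self h2, one_mul]
    · intro x hx
      rw [← M2.act_mul]
      exact hL _ (List.mem_map.2 ⟨x, hx, rfl⟩)

/-- multiplication by an element of the first ring -/
theorem NI_k1 {z : ℤ × ℤ} {H : ℕ} (hz : z ≠ 0) (h1 : c.N ∣ z.1 - 1) (h2 : c.N ∣ z.2)
    (hH : (mK1 c z).bd H) : NI c (mK1 c z) H := by
  refine ⟨⟨h1, ?_, h2, ?_⟩, by rw [det_mK1]; exact n1_ne_zero hz, hH, [], by simp, by simp, ?_⟩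
  · simp only [mK1]; exact h2.mul_left _
  · simp only [mK1]
    have : z.1 + c.tau * z.2 - 1 = (z.1 - 1) + c.tau * z.2 := by ring
    rw [this]; exact dvd_add h1 (h2.mul_left _)
  · intro v _ _ _
    simp only [F]
    rw [n1_mK1, lam_mul, det_mK1]

/-- multiplication by an element of the second ring -/
theorem NI_k2 {z : ℤ × ℤ} {H : ℕ} (hz : z ≠ 0) (h1 : c.N ∣ z.1 - 1) (h2 : c.N ∣ z.2)
    (hH : (mK2 c z).bd H) (h2H : 2 ≤ H) : NI c (mK2 c z) H := by
  have hcg : (mK2 c z).cg c.N := by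
    refine ⟨h1, ?_, h2, h1⟩
    simp only [mK2]; exact h2.mul_left _
  have hdet : (mK2 c z).det ≠ 0 := by rw [det_mK2]; exact n2_ne_zero hz
  refine ⟨hcg, hdet, hH, [⟨1, 0, 0, 1⟩, mK2 c z], by simpa using h2H, ?_, ?_⟩
  · intro x hx
    simp only [List.mem_cons, List.not_mem_nil, or_false] at hx
    rcases hx with rfl | rfl
    · have : (1 : ℤ) ≤ H := by exact_mod_cast (by omega : 1 ≤ H)
      refine ⟨⟨by simp, by simp, by simp, by simp⟩, by simp [M2.det], ?_⟩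
      refine ⟨by simpa using this, by simp, by simp, by simpa using this⟩
    · exact ⟨hcg, hdet, hH⟩
  · intro v hv hc hL
    have e1 : (⟨1, 0, 0, 1⟩ : M2).act v = v := by simp [M2.act]
    have h3 := hL ⟨1, 0, 0, 1⟩ (by simp)
    rw [e1] at h3
    have h4 := hL (mK2 c z) (by simp)
    have hv' := M2.act_ne_zero hdet hv
    have h5 : F c v * G c v = c.e := by
      by_contra h; exact h3 ⟨hv, hc, h⟩
    have h6 : F c ((mK2 c z).act v) * G c ((mK2 c z).act v) = c.e := by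
      by_contra h; exact h4 ⟨hv', act_mem_Cls hcg hc, h⟩
    have h7 : G c ((mK2 c z).act v) = lam (n2 c z) * G c v := by
      simp only [G]; rw [n2_mK2, lam_mul]
    rw [det_mK2]
    rw [h7, ← h5] at h6
    have hg : G c v * G c v = 1 := lam_mul_self (n2_ne_zero hv)
    have hz' : lam (n2 c z) * lam (n2 c z) = 1 := lam_mul_self (n2_ne_zero hz)
    linear_combination (G c v * lam (n2 c z)) * h6 -
      F c ((mK2 c z).act v) * (lam (n2 c z) * lam (n2 c z)) * hg -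
      F c ((mK2 c z).act v) * hz' + F c v * lam (n2 c z) * hg

end Pool.Agent.BQF
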