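import Mathlib

set_option autoImplicit false

/-!
# Residue classes

`st_prog`: counting integers in `(W, 2 W]` congruent to `w0` modulo `B`
(`Nat.Ioc_filter_modEq_card`, `Int.Ioc_filter_modEq_card`, floors): between `W/B - 1` and `W/B + 1`.

`st_prog2`: the number of `w ∈ (W, 2 W]`, `w = w0 mod B`, `r ∣ w` is `0` if `gcd(r, B) > 1` (as
`gcd(w, B) = gcd(w0, B) = 1`), and otherwise these `w` lie in one class modulo `r B` (Chinese remainder
theorem), so `st_prog` applies with `r B`.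

`st_w0`: `b` prime to `N`; there is `w0` prime to `B * N` with `w0 = b mod N`:
`ZMod.unitsMap_surjective` for `N ∣ B * N` (or add a suitable multiple of `N`).
-/

namespace Pool.Agent.BQF

theorem st_prog (B w0 W : ℕ) (hB : 0 < B) :
    (W : ℝ) / B - 1 ≤ (((Finset.Ioc W (2 * W)).filter (fun w => w ≡ w0 [MOD B])).card : ℝ) ∧
    (((Finset.Ioc W (2 * W)).filter (fun w => w ≡ w0 [MOD B])).card : ℝ) ≤ (W : ℝ) / B + 1 := by
  have key := Nat.Ioc_filter_modEq_card W (2 * W) hB w0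
  set C : ℕ := ((Finset.Ioc W (2 * W)).filter (fun w => w ≡ w0 [MOD B])).card with hC
  set x : ℚ := (((2 * W : ℕ) : ℚ) - w0) / B with hx
  set y : ℚ := ((W : ℚ) - w0) / B with hy
  have hBQ : (0 : ℚ) < B := by exact_mod_cast hB
  have hxy : x - y = (W : ℚ) / B := by
    rw [hx, hy]
    push_cast
    field_simp
    ring
  have hW : (0 : ℚ) ≤ (W : ℚ) / B := by positivity
  have hfl : ⌊y⌋ ≤ ⌊x⌋ := Int.floor_le_floor (by linarith)
  rw [max_eq_left (by linarith)] at key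
  have keyQ : (C : ℚ) = (⌊x⌋ : ℚ) - (⌊y⌋ : ℚ) := by exact_mod_cast key
  have h1 : (W : ℚ) / B - 1 ≤ (C : ℚ) := by
    rw [keyQ]
    have a1 := Int.lt_floor_add_one x
    have a2 := Int.floor_le y
    linarith
  have h2 : (C : ℚ) ≤ (W : ℚ) / B + 1 := by
    rw [keyQ]
    have a1 := Int.lt_floor_add_one y
    have a2 := Int.floor_le x
    linarith
  constructor
  · have h3 := (Rat.cast_le (K := ℝ)).2 h1
    push_cast at h3
    exact h3
  · have h3 := (Rat.cast_le (K := ℝ)).2 h2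
    push_cast at h3
    exact h3

theorem st_prog2 (B w0 W r : ℕ) (hB : 0 < B) (hr : 0 < r) (hw0 : Nat.Coprime w0 B) :
    (((Finset.Ioc W (2 * W)).filter (fun w => w ≡ w0 [MOD B] ∧ r ∣ w)).card : ℝ) ≤
      (W : ℝ) / (r * B) + 1 := by
  by_cases hrB : Nat.Coprime r B
  · obtain ⟨w1, hw1r, hw1B⟩ := Nat.chineseRemainder hrB 0 w0
    have h := (st_prog (r * B) w1 W (Nat.mul_pos hr hB)).2
    push_cast at h
    refine le_trans ?_ h
    norm_cast
    apply Finset.card_le_card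
    intro w hw
    rw [Finset.mem_filter] at hw ⊢
    refine ⟨hw.1, ?_⟩
    rw [← Nat.modEq_and_modEq_iff_modEq_mul hrB]
    exact ⟨((Nat.modEq_zero_iff_dvd.2 hw.2.2)).trans hw1r.symm, hw.2.1.trans hw1B.symm⟩
  · have hemp : (Finset.Ioc W (2 * W)).filter (fun w => w ≡ w0 [MOD B] ∧ r ∣ w) = ∅ := by
      rw [Finset.filter_eq_empty_iff]
      rintro w - ⟨hwB, hrw⟩
      obtain ⟨p, hp, hpd⟩ := Nat.exists_prime_and_dvd hrB
      have hpr : p ∣ r := hpd.trans (Nat.gcd_dvd_left _ _)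
      have hpB : p ∣ B := hpd.trans (Nat.gcd_dvd_right _ _)
      have hpw : p ∣ w := hpr.trans hrw
      have hpw0 : p ∣ w0 := ((hwB.of_dvd hpB).dvd_iff (dvd_refl p)).1 hpw
      have := Nat.dvd_gcd hpw0 hpB
      rw [hw0] at this
      exact hp.one_lt.ne' (Nat.dvd_one.1 this)
    rw [hemp]
    simp only [Finset.card_empty, Nat.cast_zero]
    positivity

theorem st_w0 (b N : ℤ) (hN : 0 < N) (hb : IsCoprime b N) (B : ℕ) (hB : 0 < B) :
    ∃ w0 : ℕ, Nat.Coprime w0 (B * N.toNat) ∧ N ∣ (w0 : ℤ) - b := by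
  obtain ⟨n, rfl⟩ := Int.eq_ofNat_of_zero_le hN.le
  have hn : 0 < n := by exact_mod_cast hN
  rw [Int.toNat_natCast]
  have : NeZero (B * n) := ⟨(Nat.mul_pos hB hn).ne'⟩
  have hdvd : n ∣ B * n := Dvd.intro_left B rfl
  have hu : IsUnit ((b : ℤ) : ZMod n) := by
    obtain ⟨x, y, hxy⟩ := hb
    have h1 : ((x * b + y * (n : ℤ) : ℤ) : ZMod n) = 1 := by rw [hxy]; simp
    push_cast at h1
    rw [ZMod.natCast_self, mul_zero, add_zero] at h1
    exact IsUnit.of_mul_eq_one _ (by rw [mul_comm]; exact h1)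
  obtain ⟨u, hu⟩ := hu
  obtain ⟨v, hv⟩ := ZMod.unitsMap_surjective hdvd u
  refine ⟨(v : ZMod (B * n)).val, ZMod.val_coe_unit_coprime v, ?_⟩
  have h1 : (((v : ZMod (B * n)).val : ℕ) : ZMod n) = ((b : ℤ) : ZMod n) := by
    rw [← hu, ← hv]
    rw [ZMod.unitsMap_val, ← ZMod.natCast_val]
  have h2 : ((b : ℤ) : ZMod n) = ((((v : ZMod (B * n)).val : ℕ) : ℤ) : ZMod n) := by
    rw [← h1]; simp
  exact (ZMod.intCast_eq_intCast_iff_dvd_sub _ _ _).1 h2

end Pool.Agent.BQF
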