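import Pool.Agent.BQF.MainS
import Pool.Agent.BQF.Cnt

set_option autoImplicit false

/-!
# From the normal form to two arbitrary forms (`s` prime to `N`)

PROOF. `a1, a2 ≠ 0` (otherwise the discriminant is a square). Put `k = 2 a1 a2`,
`τ = 2 (b1 a2 - a1 b2)`, `ν = a1 (a1 b2² - 2 a2 b1 b2 + 4 a2² c1)`, `D = a1² (4 a2 c2 - b2²)`.
For `(x, y) = T (u, v) := (k u + a1 b2 v, v)` one has (ring)
`k² Q1(u, v) = a1 (x² + τ x y + ν y²)`, `k² Q2(u, v) = a2 (x² + D y²)`, `Q_i = qf a_i b_i c_i`.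
Non degeneracy: `τ² - 4 ν = 4 a2² (b1² - 4 a1 c1)`, `-D = a1² (b2² - 4 a2 c2)` are not squares
(`n · t²` square, `t ≠ 0` implies `n` square: see `n1_ne_zero` for the argument), and `τ = 0`, `ν = D`
would give `b1 a2 = a1 b2` and `a2 c1 = a1 c2` (use `a1, a2 ≠ 0`), and then also
`a1 (b1 c2 - b2 c1) = 0`, contradicting `hnp`.
Class: let `N' = 2 |a1 a2| N`. Choose `y0 = s mod N` prime to `N'` (possible as `s` is prime to `N`; e.g.
`st_w0`-like: `Pool.Agent.BQF.st_w0` in Phi.lean gives `w0` prime to `B * N`, `w0 = s mod N`, with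
`B = 2 |a1 a2|`; you may import it). `x0 = k r + a1 b2 y0`, `e' = - e * lam (a1 a2)`
(`= ±1`; `lam (a1 a2) = ± 1`). Apply the main theorem to the configuration
`(τ, ν, D, N', x0, y0, e')`: an exceptional `(x, y)` satisfies `(x, y) ≠ 0`,
`x = x0, y = y0 mod N'`, `F G ≠ e'`, so `F G = - e' = e lam (a1 a2)` (values `±1`). For `(x, y)` in the class,
`k ∣ x - a1 b2 y` (`x - a1 b2 y = x0 - a1 b2 y0 = k r mod N'`, `k ∣ N'`), and
`T' (x, y) := ((x - a1 b2 y)/k, y)` is in the class `(r, s)` modulo `N`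
(`x - a1 b2 y = k r mod k N`), `T (T' (x, y)) = (x, y)`, `|T'| ≤ (1 + |a1 b2|) |(x, y)|`. And
`lam (Q1 Q2 (T' (x,y))) = lam (k² Q1 k² Q2) = lam (a1 a2) F G = e` (`lam_mul`, `lam_sq`). Now use
`Many_transfer` with `T'`, `κ = 1 + |a1 b2|`, `g' = F G` and class `(x0, y0)` modulo `N'`, value `-e'`
(`excN c X ≤ cnt g' N' x0 y0 (-e') X`).
-/

namespace Pool.Agent.BQF

private theorem RedA_nonsq {t n : ℤ} (ht : t ≠ 0) (h : ¬ IsSquare n) : ¬ IsSquare (t ^ 2 * n) := by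
  rintro ⟨s, hs⟩
  apply h
  have hd : t ^ 2 ∣ s ^ 2 := ⟨n, by rw [hs]; ring⟩
  rw [Int.pow_dvd_pow_iff two_ne_zero] at hd
  obtain ⟨k, hk⟩ := hd
  refine ⟨k, ?_⟩
  rw [hk] at hs
  have h5 : t ^ 2 * n = t ^ 2 * (k * k) := by linear_combination hs
  exact mul_left_cancel₀ (pow_ne_zero 2 ht) h5

private theorem RedA_sign {x y z : ℤ} (hx : x = 1 ∨ x = -1) (hy : y = 1 ∨ y = -1)
    (hz : z = 1 ∨ z = -1) (h : x * y ≠ z) : x * y = -z := by
  rcases hx with rfl | rfl <;> rcases hy with rfl | rfl <;> rcases hz with rfl | rfl <;>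
    revert h <;> decide

private theorem RedA_lift (N M : ℕ) (hN : 0 < N) (hM : 0 < M) (s : ℤ) (hs : IsCoprime s (N : ℤ)) :
    ∃ y : ℤ, (N : ℤ) ∣ y - s ∧ IsCoprime y ((M * N : ℕ) : ℤ) := by
  have : NeZero (M * N) := ⟨by positivity⟩
  have hu : IsUnit ((s : ℤ) : ZMod N) := by
    obtain ⟨a, b, hab⟩ := hs
    have h1 : ((a : ℤ) : ZMod N) * ((s : ℤ) : ZMod N) = 1 := by
      have h2 := congrArg (fun z : ℤ => (z : ZMod N)) hab
      push_cast at h2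
      rw [ZMod.natCast_self, mul_zero, add_zero] at h2
      exact h2
    exact IsUnit.of_mul_eq_one _ (by rw [mul_comm]; exact h1)
  obtain ⟨u, hu⟩ := hu
  have hdvd : N ∣ M * N := Dvd.intro_left M rfl
  obtain ⟨w, hw⟩ := ZMod.unitsMap_surjective hdvd u
  refine ⟨(((w : ZMod (M * N)).val : ℕ) : ℤ), ?_, ?_⟩
  · have h1 : (((w : ZMod (M * N)).val : ℕ) : ZMod N) = ((s : ℤ) : ZMod N) := by
      rw [← hu, ← hw, ZMod.unitsMap_val, ZMod.natCast_val]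
    rw [← ZMod.intCast_eq_intCast_iff_dvd_sub]
    rw [← h1]
    simp
  · rw [Nat.isCoprime_iff_coprime]
    exact ZMod.val_coe_unit_coprime w

theorem st_redA (H : MainStmt) (a1 b1 c1 a2 b2 c2 : ℤ) (h1 : ¬ IsSquare (b1 ^ 2 - 4 * a1 * c1))
    (h2 : ¬ IsSquare (b2 ^ 2 - 4 * a2 * c2))
    (hnp : ¬ (a1 * b2 = a2 * b1 ∧ a1 * c2 = a2 * c1 ∧ b1 * c2 = b2 * c1))
    (N : ℕ) (hN : 0 < N) (r s : ℤ) (hs : IsCoprime s (N : ℤ)) (e : ℤ) (he : e = 1 ∨ e = -1) :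
    Many (fun v => lam (qf a1 b1 c1 v * qf a2 b2 c2 v)) N r s e := by
  classical
  have ha1 : a1 ≠ 0 := by
    rintro rfl
    exact h1 ⟨b1, by ring⟩
  have ha2 : a2 ≠ 0 := by
    rintro rfl
    exact h2 ⟨b2, by ring⟩
  obtain ⟨k, hk⟩ : ∃ k : ℤ, k = 2 * a1 * a2 := ⟨_, rfl⟩
  have hk0 : k ≠ 0 := by
    rw [hk]
    exact mul_ne_zero (mul_ne_zero two_ne_zero ha1) ha2
  obtain ⟨y0, hy0, hcop⟩ := RedA_lift N k.natAbs hN (Int.natAbs_pos.2 hk0) s hs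
  obtain ⟨N', hN'⟩ : ∃ N' : ℕ, N' = k.natAbs * N := ⟨_, rfl⟩
  rw [← hN'] at hcop
  have hN'0 : 0 < N' := by
    rw [hN']
    exact Nat.mul_pos (Int.natAbs_pos.2 hk0) hN
  have hl : lam (a1 * a2) = 1 ∨ lam (a1 * a2) = -1 := lam_eq (mul_ne_zero ha1 ha2)
  have hl2 : lam (a1 * a2) * lam (a1 * a2) = 1 := lam_mul_self (mul_ne_zero ha1 ha2)
  let c : Cfg :=
    { tau := 2 * (b1 * a2 - a1 * b2)
      nu := a1 * (a1 * b2 ^ 2 - 2 * a2 * b1 * b2 + 4 * a2 ^ 2 * c1)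
      D := a1 ^ 2 * (4 * a2 * c2 - b2 ^ 2)
      N := N'
      a := k * r + a1 * b2 * y0
      b := y0
      e := -(e * lam (a1 * a2))
      h1 := by
        have e1 : (2 * (b1 * a2 - a1 * b2)) ^ 2 -
            4 * (a1 * (a1 * b2 ^ 2 - 2 * a2 * b1 * b2 + 4 * a2 ^ 2 * c1)) =
            (2 * a2) ^ 2 * (b1 ^ 2 - 4 * a1 * c1) := by ring
        rw [e1]
        exact RedA_nonsq (mul_ne_zero two_ne_zero ha2) h1
      h2 := by
        have e1 : -(a1 ^ 2 * (4 * a2 * c2 - b2 ^ 2)) = a1 ^ 2 * (b2 ^ 2 - 4 * a2 * c2) := by ring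
        rw [e1]
        exact RedA_nonsq ha1 h2
      h3 := by
        rintro ⟨e1, e2⟩
        have f1 : a1 * b2 = a2 * b1 := by linarith
        have f2 : (4 * a1 * a2) * (a1 * c2) = (4 * a1 * a2) * (a2 * c1) := by
          linear_combination -e2 + 2 * a1 * b2 * f1
        have f3 : a1 * c2 = a2 * c1 :=
          mul_left_cancel₀ (mul_ne_zero (mul_ne_zero four_ne_zero ha1) ha2) f2
        have f4 : a1 * (b1 * c2) = a1 * (b2 * c1) := by
          linear_combination b1 * f3 - c1 * f1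
        exact hnp ⟨f1, f3, mul_left_cancel₀ ha1 f4⟩
      hN := by exact_mod_cast hN'0
      hb := hcop
      he := by
        rcases he with h | h <;> rcases hl with h' | h' <;> rw [h, h'] <;> norm_num }
  obtain ⟨A, X0, hA⟩ := H c
  have hmany : Many (fun v => F c v * G c v) N' c.a c.b (-c.e) := by
    refine ⟨A, X0, fun X hX => (hA X hX).trans ?_⟩
    have h3 : excN c X ≤ cnt (fun v => F c v * G c v) N' c.a c.b (-c.e) X := by
      unfold excN cnt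
      refine Finset.card_le_card ?_
      intro v hv
      obtain ⟨hb, hv0, ⟨k1, k2⟩, hne⟩ := Finset.mem_filter.1 hv
      refine Finset.mem_filter.2 ⟨hb, k1, k2, ?_⟩
      show F c v * G c v = -c.e
      exact RedA_sign (F_eq hv0) (G_eq hv0) c.he hne
    exact_mod_cast h3
  -- the map
  have hdiv : ∀ v : ℤ × ℤ, (N' : ℤ) ∣ v.1 - c.a → (N' : ℤ) ∣ v.2 - c.b →
      k * ((v.1 - a1 * b2 * v.2) / k) = v.1 - a1 * b2 * v.2 ∧
      (N : ℤ) ∣ (v.1 - a1 * b2 * v.2) / k - r := by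
    intro v hv1 hv2
    have h3 : (N' : ℤ) ∣ v.1 - a1 * b2 * v.2 - k * r := by
      have h4 := dvd_sub hv1 (hv2.mul_left (a1 * b2))
      have e1 : v.1 - c.a - a1 * b2 * (v.2 - c.b) = v.1 - a1 * b2 * v.2 - k * r := by
        show v.1 - (k * r + a1 * b2 * y0) - a1 * b2 * (v.2 - y0) = v.1 - a1 * b2 * v.2 - k * r
        ring
      rwa [e1] at h4
    have hkN : k * N ∣ (N' : ℤ) := by
      rw [hN']
      push_cast
      rw [← Int.dvd_natAbs, Int.natAbs_mul, Int.natAbs_abs, Int.natAbs_natCast]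
      rw [← Int.natAbs_dvd, Int.natAbs_mul, Int.natAbs_natCast]
    obtain ⟨t, ht⟩ := hkN.trans h3
    have h4 : v.1 - a1 * b2 * v.2 = k * (r + N * t) := by linear_combination ht
    rw [h4, Int.mul_ediv_cancel_left _ hk0]
    exact ⟨rfl, ⟨t, by ring⟩⟩
  refine Many_transfer (fun v => ((v.1 - a1 * b2 * v.2) / k, v.2)) (1 + (a1 * b2).natAbs)
    (by omega) hmany ?_ ?_ ?_ ?_
  · intro v w hv1 hv2 hw1 hw2 h
    obtain ⟨d1, -⟩ := hdiv v hv1 hv2
    obtain ⟨d2, -⟩ := hdiv w hw1 hw2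
    rw [Prod.ext_iff] at h
    obtain ⟨e1, e2⟩ := h
    simp only at e1 e2
    rw [e1, d2, e2] at d1
    refine Prod.ext ?_ e2
    linarith
  · intro v Y hv1 hv2 hY1 hY2
    obtain ⟨d1, -⟩ := hdiv v hv1 hv2
    have hY0 : 0 ≤ Y := (abs_nonneg _).trans hY1
    have hcast : (((1 + (a1 * b2).natAbs : ℕ)) : ℤ) = 1 + |a1 * b2| := by
      push_cast; rfl
    rw [hcast]
    constructor
    · show |(v.1 - a1 * b2 * v.2) / k| ≤ (1 + |a1 * b2|) * Y
      have h3 : |(v.1 - a1 * b2 * v.2) / k| ≤ |k * ((v.1 - a1 * b2 * v.2) / k)| := by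
        rw [abs_mul]
        exact le_mul_of_one_le_left (abs_nonneg _) (Int.one_le_abs hk0)
      rw [d1] at h3
      refine h3.trans ((abs_sub _ _).trans ?_)
      rw [abs_mul (a1 * b2) v.2, add_mul, one_mul]
      exact add_le_add hY1 (mul_le_mul_of_nonneg_left hY2 (abs_nonneg _))
    · show |v.2| ≤ (1 + |a1 * b2|) * Y
      refine hY2.trans ?_
      have := mul_nonneg (abs_nonneg (a1 * b2)) hY0
      linarith
  · intro v hv1 hv2
    refine ⟨(hdiv v hv1 hv2).2, ?_⟩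
    have hNN : (N : ℤ) ∣ (N' : ℤ) := by
      rw [hN']; push_cast; exact Dvd.intro_left _ rfl
    have h3 := dvd_add (hNN.trans hv2) hy0
    have e1 : v.2 - c.b + (y0 - s) = v.2 - s := by
      show v.2 - y0 + (y0 - s) = v.2 - s
      ring
    rwa [e1] at h3
  · intro v hv1 hv2 hg
    obtain ⟨d1, -⟩ := hdiv v hv1 hv2
    obtain ⟨t, ht⟩ : ∃ t : ℤ, t = (v.1 - a1 * b2 * v.2) / k := ⟨_, rfl⟩
    show lam (qf a1 b1 c1 ((v.1 - a1 * b2 * v.2) / k, v.2) *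
      qf a2 b2 c2 ((v.1 - a1 * b2 * v.2) / k, v.2)) = e
    rw [← ht] at d1 ⊢
    have hx : v.1 = k * t + a1 * b2 * v.2 := by linarith
    have e1 : (k ^ 2) ^ 2 * (qf a1 b1 c1 (t, v.2) * qf a2 b2 c2 (t, v.2)) =
        (a1 * a2) * (n1 c v * n2 c v) := by
      show (k ^ 2) ^ 2 * ((a1 * t ^ 2 + b1 * t * v.2 + c1 * v.2 ^ 2) *
        (a2 * t ^ 2 + b2 * t * v.2 + c2 * v.2 ^ 2)) = (a1 * a2) *
        ((v.1 ^ 2 + 2 * (b1 * a2 - a1 * b2) * v.1 * v.2 +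
          a1 * (a1 * b2 ^ 2 - 2 * a2 * b1 * b2 + 4 * a2 ^ 2 * c1) * v.2 ^ 2) *
        (v.1 ^ 2 + a1 ^ 2 * (4 * a2 * c2 - b2 ^ 2) * v.2 ^ 2))
      rw [hx, hk]
      ring
    have e2 := congrArg lam e1
    rw [lam_mul, lam_sq (pow_ne_zero 2 hk0), one_mul, lam_mul (a1 * a2), lam_mul (n1 c v)] at e2
    have hg' : lam (n1 c v) * lam (n2 c v) = -(-(e * lam (a1 * a2))) := hg
    rw [e2, hg']
    linear_combination e * hl2

end Pool.Agent.BQF
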