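import Pool.Agent.BQF.RedA

set_option autoImplicit false

/-!
# Arbitrary classes

PROOF. Two transfers (`Many_transfer`).
(1) `gcd(r, s, N) = 1`: choose an integer `t` with `s + t r` prime to `N` (for every prime `p ∣ N`: if
`p ∤ s` need `t r ≠ -s`, if `p ∣ s` then `p ∤ r`; take `t` = the product of the primes `p ∣ N` with
`p ∤ s`, or CRT: `t = 0 mod p` if `p ∤ s`, `t = 1 mod p` if `p ∣ s`; with `t` the product of the
primes dividing `N` but not `s`: if `p ∣ N`, `p ∤ s`: `s + t r = s`; if `p ∣ N`, `p ∣ s`: `p ∤ t`,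
`p ∤ r`, so `p ∤ s + t r`). Let `Q_i'(u, w) = Q_i (u, w - t u)`: coefficients
`a - b t + c t², b - 2 c t, c`; same discriminant, and `Q1', Q2'` are proportional iff `Q1, Q2` are.
Apply `st_redA` to `Q1', Q2'` and the class `(r, s + t r)`, and transfer with
`T (u, w) = (u, w - t u)`, `κ = 1 + |t|`.
(2) general: `g = gcd(r, s, N)` (`N > 0`, so `g > 0`), `r = g r'`, `s = g s'`, `N = g N'`,
`gcd(r', s', N') = 1`. `T v = (g v.1, g v.2)` maps the class `(r', s')` mod `N'` into `(r, s)` mod `N`,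
`κ = g`, `qf (T v) = g² qf v`, so `lam (Q1 Q2 (T v)) = lam (Q1 Q2 v)`.
-/

namespace Pool.Agent.BQF

private theorem RedB_t (N : ℕ) (hN : 0 < N) (r s : ℤ)
    (h : Nat.gcd (Int.gcd r s) N = 1) : ∃ t : ℤ, IsCoprime (s + t * r) (N : ℤ) := by
  classical
  obtain ⟨T, hT⟩ : ∃ T : ℕ, T = ∏ p ∈ N.primeFactors.filter (fun p : ℕ => ¬ (p : ℤ) ∣ s), p :=
    ⟨_, rfl⟩
  refine ⟨T, ?_⟩
  rw [Int.isCoprime_iff_gcd_eq_one, Int.gcd_def, Int.natAbs_natCast]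
  refine Nat.Coprime.gcd_eq_one ?_
  refine Nat.coprime_of_dvd ?_
  intro p hp h1 h2
  have h1' : (p : ℤ) ∣ s + T * r := Int.natCast_dvd.2 h1
  have hpI : Prime (p : ℤ) := Nat.prime_iff_prime_int.1 hp
  by_cases hps : (p : ℤ) ∣ s
  · have h3 : (p : ℤ) ∣ T * r := by
      have := dvd_sub h1' hps
      rwa [add_sub_cancel_left] at this
    rcases hpI.dvd_or_dvd h3 with h4 | h4
    · have h5 : p ∣ T := Int.natCast_dvd_natCast.1 h4
      rw [hT, hp.prime.dvd_finsetProd_iff] at h5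
      obtain ⟨q, hq, hpq⟩ := h5
      obtain ⟨hq1, hq2⟩ := Finset.mem_filter.1 hq
      have h6 := (Nat.prime_dvd_prime_iff_eq hp (Nat.prime_of_mem_primeFactors hq1)).1 hpq
      rw [← h6] at hq2
      exact hq2 hps
    · have h5 : (p : ℤ) ∣ (Int.gcd r s : ℤ) := Int.dvd_coe_gcd h4 hps
      have h6 : p ∣ Nat.gcd (Int.gcd r s) N := Nat.dvd_gcd (Int.natCast_dvd_natCast.1 h5) h2
      rw [h] at h6
      exact hp.one_lt.ne' (Nat.dvd_one.1 h6)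
  · have hmem : p ∈ N.primeFactors.filter (fun p : ℕ => ¬ (p : ℤ) ∣ s) :=
      Finset.mem_filter.2 ⟨Nat.mem_primeFactors.2 ⟨hp, h2, hN.ne'⟩, hps⟩
    have h3 : p ∣ T := by
      rw [hT]
      exact Finset.dvd_prod_of_mem (fun p => p) hmem
    have h4 : (p : ℤ) ∣ T * r := (Int.natCast_dvd_natCast.2 h3).mul_right _
    exact hps ((dvd_add_left h4).1 h1')

private theorem RedB_cop (H : MainStmt) (a1 b1 c1 a2 b2 c2 : ℤ)
    (h1 : ¬ IsSquare (b1 ^ 2 - 4 * a1 * c1)) (h2 : ¬ IsSquare (b2 ^ 2 - 4 * a2 * c2))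
    (hnp : ¬ (a1 * b2 = a2 * b1 ∧ a1 * c2 = a2 * c1 ∧ b1 * c2 = b2 * c1))
    (N : ℕ) (hN : 0 < N) (r s : ℤ) (hg : Nat.gcd (Int.gcd r s) N = 1)
    (e : ℤ) (he : e = 1 ∨ e = -1) :
    Many (fun v => lam (qf a1 b1 c1 v * qf a2 b2 c2 v)) N r s e := by
  obtain ⟨t, ht⟩ := RedB_t N hN r s hg
  have hm := st_redA H (a1 - b1 * t + c1 * t ^ 2) (b1 - 2 * c1 * t) c1
    (a2 - b2 * t + c2 * t ^ 2) (b2 - 2 * c2 * t) c2
    (by
      have e1 : (b1 - 2 * c1 * t) ^ 2 - 4 * (a1 - b1 * t + c1 * t ^ 2) * c1 =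
        b1 ^ 2 - 4 * a1 * c1 := by ring
      rw [e1]; exact h1)
    (by
      have e1 : (b2 - 2 * c2 * t) ^ 2 - 4 * (a2 - b2 * t + c2 * t ^ 2) * c2 =
        b2 ^ 2 - 4 * a2 * c2 := by ring
      rw [e1]; exact h2)
    (by
      rintro ⟨m1, m2, m3⟩
      have f3 : b1 * c2 = b2 * c1 := by linear_combination m3
      have f2 : a1 * c2 = a2 * c1 := by linear_combination m2 + t * f3
      have f1 : a1 * b2 = a2 * b1 := by linear_combination m1 + 2 * t * f2 - t ^ 2 * f3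
      exact hnp ⟨f1, f2, f3⟩)
    N hN r (s + t * r) ht e he
  refine Many_transfer (fun v => (v.1, v.2 - t * v.1)) (1 + t.natAbs) (by omega) hm ?_ ?_ ?_ ?_
  · intro v w _ _ _ _ h
    rw [Prod.ext_iff] at h
    obtain ⟨e1, e2⟩ := h
    simp only at e1 e2
    rw [e1] at e2
    refine Prod.ext e1 ?_
    linarith
  · intro v Y _ _ hY1 hY2
    have hY0 : 0 ≤ Y := (abs_nonneg _).trans hY1
    have hcast : (((1 + t.natAbs : ℕ)) : ℤ) = 1 + |t| := by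
      push_cast; rfl
    rw [hcast]
    have h3 : |t * v.1| ≤ |t| * Y := by
      rw [abs_mul]; exact mul_le_mul_of_nonneg_left hY1 (abs_nonneg _)
    have h4 := mul_nonneg (abs_nonneg t) hY0
    constructor
    · show |v.1| ≤ (1 + |t|) * Y
      linarith
    · show |v.2 - t * v.1| ≤ (1 + |t|) * Y
      refine (abs_sub _ _).trans ?_
      linarith
  · intro v hv1 hv2
    refine ⟨hv1, ?_⟩
    show (N : ℤ) ∣ v.2 - t * v.1 - s
    have h3 := dvd_sub hv2 (hv1.mul_left t)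
    have e1 : v.2 - (s + t * r) - t * (v.1 - r) = v.2 - t * v.1 - s := by ring
    rwa [e1] at h3
  · intro v _ _ hg'
    rw [← hg']
    show lam (qf a1 b1 c1 (v.1, v.2 - t * v.1) * qf a2 b2 c2 (v.1, v.2 - t * v.1)) =
      lam (qf (a1 - b1 * t + c1 * t ^ 2) (b1 - 2 * c1 * t) c1 v *
        qf (a2 - b2 * t + c2 * t ^ 2) (b2 - 2 * c2 * t) c2 v)
    congr 1
    simp only [qf]
    ring

theorem st_redB (H : MainStmt) (a1 b1 c1 a2 b2 c2 : ℤ) (h1 : ¬ IsSquare (b1 ^ 2 - 4 * a1 * c1))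
    (h2 : ¬ IsSquare (b2 ^ 2 - 4 * a2 * c2))
    (hnp : ¬ (a1 * b2 = a2 * b1 ∧ a1 * c2 = a2 * c1 ∧ b1 * c2 = b2 * c1))
    (N : ℕ) (hN : 0 < N) (r s : ℤ) (e : ℤ) (he : e = 1 ∨ e = -1) :
    Many (fun v => lam (qf a1 b1 c1 v * qf a2 b2 c2 v)) N r s e := by
  obtain ⟨g, hg⟩ : ∃ g : ℕ, g = Nat.gcd (Int.gcd r s) N := ⟨_, rfl⟩
  have hg0 : 0 < g := by rw [hg]; exact Nat.gcd_pos_of_pos_right _ hN
  have hg0' : (g : ℤ) ≠ 0 := by exact_mod_cast hg0.ne'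
  have d1 : (g : ℤ) ∣ (Int.gcd r s : ℤ) := by
    rw [hg]; exact Int.natCast_dvd_natCast.2 (Nat.gcd_dvd_left _ _)
  obtain ⟨r', hr⟩ : (g : ℤ) ∣ r := d1.trans (Int.gcd_dvd_left _ _)
  obtain ⟨s', hs⟩ : (g : ℤ) ∣ s := d1.trans (Int.gcd_dvd_right _ _)
  obtain ⟨N', hN'⟩ : g ∣ N := by rw [hg]; exact Nat.gcd_dvd_right _ _
  have hN'0 : 0 < N' := by
    rcases Nat.eq_zero_or_pos N' with h | h
    · rw [h, mul_zero] at hN'
      omega
    · exact h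
  have hcop : Nat.gcd (Int.gcd r' s') N' = 1 := by
    obtain ⟨d, hd⟩ : ∃ d : ℕ, d = Nat.gcd (Int.gcd r' s') N' := ⟨_, rfl⟩
    have e1 : (d : ℤ) ∣ (Int.gcd r' s' : ℤ) := by
      rw [hd]; exact Int.natCast_dvd_natCast.2 (Nat.gcd_dvd_left _ _)
    have e2 : (d : ℤ) ∣ r' := e1.trans (Int.gcd_dvd_left _ _)
    have e3 : (d : ℤ) ∣ s' := e1.trans (Int.gcd_dvd_right _ _)
    have e4 : d ∣ N' := by rw [hd]; exact Nat.gcd_dvd_right _ _
    have e5 : ((g * d : ℕ) : ℤ) ∣ (Int.gcd r s : ℤ) := by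
      rw [hr, hs]
      push_cast
      exact Int.dvd_coe_gcd (mul_dvd_mul_left _ e2) (mul_dvd_mul_left _ e3)
    have e6 : g * d ∣ g := by
      have e7 : g * d ∣ Nat.gcd (Int.gcd r s) N := by
        refine Nat.dvd_gcd (Int.natCast_dvd_natCast.1 e5) ?_
        rw [hN']
        exact Nat.mul_dvd_mul_left _ e4
      rwa [← hg] at e7
    rw [← hd]
    have e7 : g * d ∣ g * 1 := by rwa [mul_one]
    exact Nat.dvd_one.1 ((Nat.mul_dvd_mul_iff_left hg0).1 e7)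
  have hm := RedB_cop H a1 b1 c1 a2 b2 c2 h1 h2 hnp N' hN'0 r' s' hcop e he
  refine Many_transfer (fun v => ((g : ℤ) * v.1, (g : ℤ) * v.2)) g hg0 hm ?_ ?_ ?_ ?_
  · intro v w _ _ _ _ h
    rw [Prod.ext_iff] at h
    exact Prod.ext (mul_left_cancel₀ hg0' h.1) (mul_left_cancel₀ hg0' h.2)
  · intro v Y _ _ hY1 hY2
    constructor
    · show |(g : ℤ) * v.1| ≤ g * Y
      rw [abs_mul, Nat.abs_cast]
      exact mul_le_mul_of_nonneg_left hY1 (Nat.cast_nonneg _)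
    · show |(g : ℤ) * v.2| ≤ g * Y
      rw [abs_mul, Nat.abs_cast]
      exact mul_le_mul_of_nonneg_left hY2 (Nat.cast_nonneg _)
  · intro v hv1 hv2
    rw [hN', hr, hs]
    push_cast
    constructor
    · show (g : ℤ) * N' ∣ (g : ℤ) * v.1 - g * r'
      rw [← mul_sub]
      exact mul_dvd_mul_left _ hv1
    · show (g : ℤ) * N' ∣ (g : ℤ) * v.2 - g * s'
      rw [← mul_sub]
      exact mul_dvd_mul_left _ hv2
  · intro v _ _ hg'
    rw [← hg']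
    show lam (qf a1 b1 c1 ((g : ℤ) * v.1, (g : ℤ) * v.2) *
      qf a2 b2 c2 ((g : ℤ) * v.1, (g : ℤ) * v.2)) = lam (qf a1 b1 c1 v * qf a2 b2 c2 v)
    have e1 : qf a1 b1 c1 ((g : ℤ) * v.1, (g : ℤ) * v.2) *
        qf a2 b2 c2 ((g : ℤ) * v.1, (g : ℤ) * v.2) =
        ((g : ℤ) ^ 2) ^ 2 * (qf a1 b1 c1 v * qf a2 b2 c2 v) := by
      simp only [qf]
      ring
    rw [e1, lam_mul, lam_sq (pow_ne_zero 2 hg0'), one_mul]

end Pool.Agent.BQF
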