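import Pool.Agent.BQF.Defs

set_option autoImplicit false

/-!
# The functions `Φ_w`
-/

namespace Pool.Agent.BQF

/-- the integer in `[0, q w)` which is `c.a` modulo `q` and `x` modulo `w` (`q`, `w` coprime) -/
def rep (c : Cfg) (q w : ℕ) (x : ℤ) : ℤ :=
  (c.a + q * Int.gcdA q w * (x - c.a)) % (q * w)

theorem rep_nonneg (c : Cfg) {q w : ℕ} (hq : 0 < q) (hw : 0 < w) (x : ℤ) : 0 ≤ rep c q w x :=
  Int.emod_nonneg _ (by positivity)

theorem rep_lt (c : Cfg) {q w : ℕ} (hq : 0 < q) (hw : 0 < w) (x : ℤ) : rep c q w x < q * w :=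
  Int.emod_lt_of_pos _ (by positivity)

theorem rep_q (c : Cfg) (q w : ℕ) (x : ℤ) : (q : ℤ) ∣ rep c q w x - c.a := by
  have h := Int.emod_add_mul_ediv (c.a + q * Int.gcdA q w * (x - c.a)) (q * w)
  refine ⟨Int.gcdA q w * (x - c.a) - w * ((c.a + q * Int.gcdA q w * (x - c.a)) / (q * w)), ?_⟩
  unfold rep
  linear_combination h

theorem gcdA_mul {q w : ℕ} (h : Nat.Coprime q w) :
    (q : ℤ) * Int.gcdA q w = 1 - w * Int.gcdB q w := by
  have h1 := Int.gcd_eq_gcd_ab (q : ℤ) (w : ℤ)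
  have h2 : Int.gcd (q : ℤ) (w : ℤ) = 1 := by
    rw [Int.gcd_natCast_natCast]; exact h
  rw [h2] at h1
  push_cast at h1
  linarith

theorem rep_w (c : Cfg) {q w : ℕ} (h : Nat.Coprime q w) (x : ℤ) : (w : ℤ) ∣ rep c q w x - x := by
  have h1 := Int.emod_add_mul_ediv (c.a + q * Int.gcdA q w * (x - c.a)) (q * w)
  have h2 := gcdA_mul h
  refine ⟨-Int.gcdB q w * (x - c.a) -
    q * ((c.a + q * Int.gcdA q w * (x - c.a)) / (q * w)), ?_⟩
  unfold rep
  linear_combination h1 + (x - c.a) * h2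

theorem rep_unique (c : Cfg) {q w : ℕ} (hq : 0 < q) (hw : 0 < w) (h : Nat.Coprime q w) {x u : ℤ}
    (h1 : 0 ≤ u) (h2 : u < q * w) (h3 : (q : ℤ) ∣ u - c.a) (h4 : (w : ℤ) ∣ u - x) :
    u = rep c q w x := by
  have a1 : (q : ℤ) ∣ u - rep c q w x := by
    have := dvd_sub h3 (rep_q c q w x)
    have e : u - c.a - (rep c q w x - c.a) = u - rep c q w x := by ring
    rwa [e] at this
  have a2 : (w : ℤ) ∣ u - rep c q w x := by
    have := dvd_sub h4 (rep_w c h x)
    have e : u - x - (rep c q w x - x) = u - rep c q w x := by ring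
    rwa [e] at this
  have a3 : ((q : ℤ) * w) ∣ u - rep c q w x :=
    (Nat.isCoprime_iff_coprime.2 h).mul_dvd a1 a2
  have b1 := rep_nonneg c hq hw x
  have b2 := rep_lt c hq hw x
  have a4 : |u - rep c q w x| < q * w := by
    rw [abs_lt]; constructor <;> linarith
  have := Int.eq_zero_of_abs_lt_dvd a3 a4
  linarith

theorem rep_congr (c : Cfg) {q w : ℕ} (hq : 0 < q) (hw : 0 < w) (h : Nat.Coprime q w) {x y : ℤ}
    (hxy : (w : ℤ) ∣ x - y) : rep c q w x = rep c q w y := by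
  apply rep_unique c hq hw h (rep_nonneg c hq hw x) (rep_lt c hq hw x) (rep_q c q w x)
  have := dvd_add (rep_w c h x) hxy
  have e : rep c q w x - x + (x - y) = rep c q w x - y := by ring
  rwa [e] at this

/-- `Φ_w(x) = F(rep x, w)` -/
def fw (c : Cfg) (q w : ℕ) (x : ℤ) : ℤ := F c (rep c q w x, (w : ℤ))

theorem fw_congr (c : Cfg) {q w : ℕ} (hq : 0 < q) (hw : 0 < w) (h : Nat.Coprime q w) {x y : ℤ}
    (hxy : (w : ℤ) ∣ x - y) : fw c q w x = fw c q w y := by
  unfold fw; rw [rep_congr c hq hw h hxy]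

theorem fw_eq (c : Cfg) (q : ℕ) {w : ℕ} (hw : 0 < w) (x : ℤ) :
    fw c q w x = 1 ∨ fw c q w x = -1 := by
  apply F_eq
  intro h
  rw [Prod.ext_iff] at h
  have := h.2
  simp only [Prod.snd_zero] at this
  omega

/-- the number of `s < w` at which `Φ_w(A s) ≠ λ(A) Φ_w(s)` -/
def badc (c : Cfg) (q w : ℕ) (A : ℤ) : ℕ :=
  ((Finset.range w).filter (fun s : ℕ => fw c q w (A * s) ≠ lam A * fw c q w s)).card

open scoped Classical in
/-- the number of exceptional vectors in the box -/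
noncomputable def excN (c : Cfg) (X : ℕ) : ℕ := ((box X).filter (fun v => v ∈ Exc c)).card

end Pool.Agent.BQF
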