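import Mathlib

set_option autoImplicit false

/-!
# Number of representations as a product of `k` elements

PROOF. Let `n ≠ 0` be such that the set is non empty, so `Ω(n) = ∑ Ω(B (u i)) ≤ k Λ`
(`ArithmeticFunction.cardFactors_mul`, by induction on the product). The number of functions
`b : Fin k → ℕ` with `∏ b i = n` is at most `k ^ Ω(n)`: e.g. by induction on `n` (strong, or
`Nat.recOnMul`): write `n = p n'` with `p` prime (`p = n.minFac`); for `b` with `∏ b i = n` there is an
`i` with `p ∣ b i`; dividing `b i` by `p` gives a `b'` with product `n'`; so the number for `n` is at most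
`k` times the number for `n'` (surjection `(i, b') ↦` multiply the `i`-th entry by `p`); for `n = 1` the
number is 1. Alternatively use Mathlib's finset `Nat.finMulAntidiag k n` (functions `Fin k → ℕ` with
product `n`, `n ≠ 0`) and `Nat.card_finMulAntidiag`-type lemmas. So at most `k ^ (k Λ)` (if `k ≥ 1`;
`k = 0`: there is exactly one function `u` and the bound is `1`). For each `b` the number of
`u ∈ Z^k` with `B (u i) = b i` for all `i` is `∏ |fibre of b i| ≤ (2 ^ Λ) ^ k`.
-/

namespace Pool.Agent.BQF

/-- the number of functions with product `n` is at most `k ^ Ω(n)` -/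
private theorem rk_count (k : ℕ) (n : ℕ) : n ≠ 0 → ∀ S : Finset (Fin k → ℕ),
    (∀ b ∈ S, ∏ i, b i = n) → S.card ≤ k ^ ArithmeticFunction.cardFactors n := by
  induction n using induction_on_primes with
  | zero => exact fun h => absurd rfl h
  | one =>
    intro _ S hS
    rw [ArithmeticFunction.cardFactors_one, pow_zero]
    refine Finset.card_le_one.2 fun b hb c hc => ?_
    have key : ∀ b : Fin k → ℕ, ∏ i, b i = 1 → b = fun _ => 1 := by
      intro b hb
      funext i
      exact Nat.dvd_one.1 (hb ▸ Finset.dvd_prod_of_mem b (Finset.mem_univ i))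
    rw [key b (hS b hb), key c (hS c hc)]
  | prime_mul p a hp ih =>
    intro h0 S hS
    have hp' : p.Prime := hp
    have ha : a ≠ 0 := fun h => h0 (by rw [h, mul_zero])
    rw [ArithmeticFunction.cardFactors_mul hp'.ne_zero ha,
      ArithmeticFunction.cardFactors_apply_prime hp', pow_add, pow_one]
    have h1 : S ⊆ Finset.univ.biUnion (fun i : Fin k => S.filter (fun b => p ∣ b i)) := by
      intro b hb
      have h2 : p ∣ ∏ i, b i := by
        rw [hS b hb]
        exact dvd_mul_right _ _
      obtain ⟨i, -, hi⟩ := (Prime.dvd_finsetProd_iff hp.prime _).1 h2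
      simp only [Finset.mem_biUnion, Finset.mem_univ, true_and, Finset.mem_filter]
      exact ⟨i, hb, hi⟩
    refine (Finset.card_le_card h1).trans ?_
    refine (Finset.card_biUnion_le_card_mul _ _ (k ^ ArithmeticFunction.cardFactors a)
      fun i _ => ?_).trans (by rw [Finset.card_univ, Fintype.card_fin])
    have h3 : Set.InjOn (fun b : Fin k → ℕ => Function.update b i (b i / p))
        (S.filter (fun b => p ∣ b i)) := by
      intro b hb c hc hbc
      have hb' := (Finset.mem_filter.1 (Finset.mem_coe.1 hb)).2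
      have hc' := (Finset.mem_filter.1 (Finset.mem_coe.1 hc)).2
      simp only at hbc
      funext j
      have h4 := congrFun hbc j
      rcases eq_or_ne j i with rfl | hj
      · rw [Function.update_self, Function.update_self] at h4
        rw [← Nat.div_mul_cancel hb', ← Nat.div_mul_cancel hc', h4]
      · rwa [Function.update_of_ne hj, Function.update_of_ne hj] at h4
    rw [← Finset.card_image_of_injOn h3]
    refine ih ha _ fun b hb => ?_
    obtain ⟨c, hc, rfl⟩ := Finset.mem_image.1 hb
    obtain ⟨hc1, hc2⟩ := Finset.mem_filter.1 hc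
    have h5 := hS c hc1
    rw [← Finset.mul_prod_erase _ _ (Finset.mem_univ i)] at h5 ⊢
    rw [Function.update_self]
    have h6 : ∏ x ∈ Finset.univ.erase i, Function.update c i (c i / p) x =
        ∏ x ∈ Finset.univ.erase i, c x :=
      Finset.prod_congr rfl fun x hx => Function.update_of_ne (Finset.ne_of_mem_erase hx) _ _
    rw [h6]
    refine Nat.eq_of_mul_eq_mul_left hp'.pos ?_
    rw [← h5, ← mul_assoc, Nat.mul_div_cancel' hc2]

private theorem rk_omega {κ : Type*} (s : Finset κ) (f : κ → ℕ) (Λ : ℕ)
    (hf : ∀ i ∈ s, 1 ≤ f i ∧ ArithmeticFunction.cardFactors (f i) ≤ Λ) :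
    ∏ i ∈ s, f i ≠ 0 ∧ ArithmeticFunction.cardFactors (∏ i ∈ s, f i) ≤ s.card * Λ := by
  classical
  induction s using Finset.induction_on with
  | empty => simp
  | insert a s ha ih =>
    obtain ⟨h1, h2⟩ := ih fun i hi => hf i (Finset.mem_insert_of_mem hi)
    obtain ⟨h3, h4⟩ := hf a (Finset.mem_insert_self a s)
    have h5 : f a ≠ 0 := by omega
    rw [Finset.prod_insert ha, Finset.card_insert_of_notMem ha]
    refine ⟨mul_ne_zero h5 h1, ?_⟩
    rw [ArithmeticFunction.cardFactors_mul h5 h1]
    nlinarith

theorem st_rk {ι : Type*} [DecidableEq ι] (Z : Finset ι) (B : ι → ℕ) (Λ k : ℕ)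
    (hB : ∀ z ∈ Z, 1 ≤ B z ∧ ArithmeticFunction.cardFactors (B z) ≤ Λ)
    (hfb : ∀ b : ℕ, (Z.filter (fun z => B z = b)).card ≤ 2 ^ Λ) (n : ℕ) :
    ((Fintype.piFinset (fun _ : Fin k => Z)).filter (fun u => ∏ i, B (u i) = n)).card ≤
      k ^ (k * Λ) * 2 ^ (k * Λ) := by
  classical
  rcases Finset.eq_empty_or_nonempty
    ((Fintype.piFinset (fun _ : Fin k => Z)).filter (fun u => ∏ i, B (u i) = n)) with h0 | h0
  · rw [h0, Finset.card_empty]
    exact Nat.zero_le _
  obtain ⟨u0, hu0⟩ := h0
  obtain ⟨hu1, hu2⟩ := Finset.mem_filter.1 hu0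
  rw [Fintype.mem_piFinset] at hu1
  obtain ⟨hn0, hn1⟩ := rk_omega Finset.univ (fun i => B (u0 i)) Λ fun i _ => hB _ (hu1 i)
  rw [hu2] at hn0 hn1
  rw [Finset.card_univ, Fintype.card_fin] at hn1
  have h1 : k ^ ArithmeticFunction.cardFactors n ≤ k ^ (k * Λ) := by
    rcases Nat.eq_zero_or_pos k with hk | hk
    · subst hk
      rw [zero_mul] at hn1 ⊢
      rw [Nat.le_zero.1 hn1]
    · exact Nat.pow_le_pow_right hk hn1
  have h2 := Finset.card_le_mul_card_image (f := fun (u : Fin k → ι) (i : Fin k) => B (u i))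
    ((Fintype.piFinset (fun _ : Fin k => Z)).filter (fun u => ∏ i, B (u i) = n)) (2 ^ (k * Λ))
    (by
      intro b _
      have h3 : (((Fintype.piFinset (fun _ : Fin k => Z)).filter
          (fun u => ∏ i, B (u i) = n)).filter (fun u => (fun i => B (u i)) = b)) ⊆
          Fintype.piFinset (fun i => Z.filter (fun z => B z = b i)) := by
        intro u hu
        obtain ⟨h4, h5⟩ := Finset.mem_filter.1 hu
        obtain ⟨h6, -⟩ := Finset.mem_filter.1 h4
        rw [Fintype.mem_piFinset] at h6 ⊢
        intro i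
        exact Finset.mem_filter.2 ⟨h6 i, congrFun h5 i⟩
      refine (Finset.card_le_card h3).trans ?_
      rw [Fintype.card_piFinset]
      refine (Finset.prod_le_prod' fun i _ => hfb (b i)).trans ?_
      rw [Finset.prod_const, Finset.card_univ, Fintype.card_fin, ← pow_mul, mul_comm])
  refine h2.trans ?_
  rw [mul_comm]
  refine Nat.mul_le_mul_right _ (le_trans ?_ h1)
  refine rk_count k n hn0 _ fun b hb => ?_
  obtain ⟨u, hu, rfl⟩ := Finset.mem_image.1 hb
  exact (Finset.mem_filter.1 hu).2

end Pool.Agent.BQF
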