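import Pool.Agent.BQF.ZDefs
import Pool.Agent.H6.Hooley

set_option autoImplicit false

/-!
# The sieve for fixed `m`

PROOF. Let `C, T, S0` be the constants of the Brun-Hooley sieve `Pool.Agent.H6.Hooley.hooley 2`
(`Per`, `rho` are defined in `Pool/Agent/H6/Hooley1.lean`). Put
`P1 = T! * |f.nu| * |f.As| * 2` (all factors non zero: `Fam.nu_ne_zero`, `Fam.As_ne_zero`). Let
`P1 ∣ q`, and `m` as in the statement; `y t = 1 + q |As| t`, so `f.Adm q m (y t)` for all `t`, and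
`As * Az m (y t) = nn m (y t)` (`Fam.As_mul_Az`), `Az = 1 mod q` (`Fam.dvd_Az`). Let
`bad p t := ¬ p ∣ q ∧ (p:ℤ) ∣ f.Az m (y t)`. For `p` prime, `p ∤ q` (so `p ∤ As`, `p ∤ nu`):
`p ∣ Az m (y t) ↔ p ∣ nn m (y t)`, and `nn m (y t)` is a polynomial in `t` of degree 2 with leading
coefficient `nu (q |As|)²` prime to `p`: so at most 2 classes `t mod p` are bad (`rho bad p ≤ 2`),
and `bad` is periodic: note `Per bad` is required for ALL `q s : ℕ`, also non prime; to be safe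
define `bad p t := p.Prime ∧ ¬ p ∣ q ∧ (p:ℤ) ∣ f.nn m (y t)`, which is periodic for all `p`, `t`.
`hooley` with `S = ρ`: at least `ρ / (log ρ) ^ C` of the `t < ρ` are such that no prime `p > T` with
`p ^ C ≤ ρ` is bad. For such `t`: if a prime `p ∣ Az m (y t)` then `p ∤ q` (else `p ∣ 1`), so
`p > T` (`T! ∣ q`), so `ρ < p ^ C`. This is the property `pr`. It remains to remove few `t`.
(a) `t` with `y t * (log ρ) ^ (C+2) < ρ`: then `t < ρ / (log ρ) ^ (C+2)`, at most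
`ρ / (log ρ) ^ (C+2) + 1` values.
(b) `t` with the property `pr`, but `X m` and `y t` not coprime: let `p` be a prime dividing both.
`p ∤ q As` (as `y t = 1 mod q As`), `p ∣ nn m (y t) = As * Az`, so `p ∣ Az`, so `ρ < p ^ C`. The number
of `t < ρ` with `p ∣ y t` is at most `ρ / p + 1` (`p ∤ q As`: one class modulo `p`), i.e. at most
`ρ ^ (1 - 1/C) + 1`. The number of primes `p ∣ X m` with `p ^ C > ρ` is at most `C` for large `ρ`:
`0 < |X m| ≤ |c0| (m² + |D0|) ≤ |c0| (ρ ^ (1/4) + |D0|) ≤ ρ` for large `ρ`, and a product of `C + 1`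
such primes exceeds `ρ`. So at most `C ρ ^ (1 - 1/C) + C` values (uniformly in `m`).
Total: `ρ/(log ρ)^C - ρ/(log ρ)^(C+2) - 1 - C ρ^(1 - 1/C) - C ≥ ρ/(log ρ)^(C+1)` for `ρ ≥ ρ0`.
The other properties (`m0, m8, y1, y2`) are clear (`y t ≤ 1 + q |As| ρ`).
`ρ0` must not depend on `m`.
-/

namespace Pool.Agent.BQF

private theorem Row_nn_sub (f : Fam) (m y y' : ℤ) :
    f.nn m y - f.nn m y' = (y - y') * (f.tau * f.X m + f.nu * (y + y')) := by
  unfold Fam.nn
  ring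

private theorem Row_rho (f : Fam) (g m : ℤ) (p : ℕ) (hp : p.Prime) (hpg : ¬ (p : ℤ) ∣ g)
    (hpn : ¬ (p : ℤ) ∣ f.nu) (s : Finset ℕ)
    (hs : ∀ t ∈ s, t < p ∧ (p : ℤ) ∣ f.nn m (1 + g * t)) : s.card ≤ 2 := by
  by_contra hcon
  push Not at hcon
  obtain ⟨a, ha, b, hb, c, hc, hab, hac, hbc⟩ := Finset.two_lt_card.1 hcon
  have hpp : Prime (p : ℤ) := Nat.prime_iff_prime_int.1 hp
  have hdiff : ∀ u v : ℕ, u ∈ s → v ∈ s → (p : ℤ) ∣ (u : ℤ) - v → u = v := by
    intro u v hu hv h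
    have h1 := (Nat.modEq_iff_dvd).2 h
    have h2 : v % p = u % p := h1
    rw [Nat.mod_eq_of_lt (hs u hu).1, Nat.mod_eq_of_lt (hs v hv).1] at h2
    exact h2.symm
  have key : ∀ u v : ℕ, u ∈ s → v ∈ s → u ≠ v →
      (p : ℤ) ∣ f.tau * f.X m + f.nu * ((1 + g * u) + (1 + g * v)) := by
    intro u v hu hv huv
    have h1 := dvd_sub (hs u hu).2 (hs v hv).2
    rw [Row_nn_sub] at h1
    rcases hpp.dvd_or_dvd h1 with h2 | h2
    · exfalso
      have h3 : (1 + g * (u : ℤ)) - (1 + g * v) = g * ((u : ℤ) - v) := by ring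
      rw [h3] at h2
      rcases hpp.dvd_or_dvd h2 with h4 | h4
      · exact hpg h4
      · exact huv (hdiff u v hu hv h4)
    · exact h2
  have k1 := dvd_sub (key a b ha hb hab) (key a c ha hc hac)
  have k2 : (f.tau * f.X m + f.nu * ((1 + g * (a : ℤ)) + (1 + g * b))) -
      (f.tau * f.X m + f.nu * ((1 + g * (a : ℤ)) + (1 + g * c))) =
      f.nu * (g * ((b : ℤ) - c)) := by ring
  rw [k2] at k1
  rcases hpp.dvd_or_dvd k1 with h4 | h4
  · exact hpn h4
  · rcases hpp.dvd_or_dvd h4 with h5 | h5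
    · exact hpg h5
    · exact hbc (hdiff b c hb hc h5)

open scoped Classical in
private theorem Row_prog (g : ℤ) (p : ℕ) (hp : p.Prime) (R : ℕ) (B : ℝ) (hB : (R : ℝ) / p ≤ B) :
    (((Finset.range R).filter (fun t : ℕ => (p : ℤ) ∣ 1 + g * t)).card : ℝ) ≤ B + 1 := by
  have hB0 : 0 ≤ B := le_trans (by positivity) hB
  rcases ((Finset.range R).filter (fun t : ℕ => (p : ℤ) ∣ 1 + g * t)).eq_empty_or_nonempty with
    h | ⟨t0, ht0⟩
  · rw [h, Finset.card_empty, Nat.cast_zero]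
    linarith
  · rw [Finset.mem_filter] at ht0
    have hpp : Prime (p : ℤ) := Nat.prime_iff_prime_int.1 hp
    have hpg : ¬ (p : ℤ) ∣ g := by
      intro h
      have h1 : (p : ℤ) ∣ 1 := by
        have h2 := dvd_sub ht0.2 (h.mul_right (t0 : ℤ))
        simpa using h2
      exact hpp.not_dvd_one h1
    have hsub : (Finset.range R).filter (fun t : ℕ => (p : ℤ) ∣ 1 + g * t) ⊆
        (Finset.range R).filter (fun t : ℕ => t ≡ t0 [MOD p]) := by
      intro t ht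
      rw [Finset.mem_filter] at ht ⊢
      refine ⟨ht.1, ?_⟩
      have h1 := dvd_sub ht0.2 ht.2
      have h2 : (1 + g * (t0 : ℤ)) - (1 + g * t) = g * ((t0 : ℤ) - t) := by ring
      rw [h2] at h1
      exact (Nat.modEq_iff_dvd).2 ((hpp.dvd_or_dvd h1).resolve_left hpg)
    have h3 := Finset.card_le_card hsub
    have h4 : ((Finset.range R).filter (fun t : ℕ => t ≡ t0 [MOD p])).card ≤ R / p + 1 := by
      rw [← Nat.count_eq_card_filter_range, Nat.count_modEq_card _ hp.pos]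
      split_ifs <;> omega
    have h5 : (((Finset.range R).filter (fun t : ℕ => (p : ℤ) ∣ 1 + g * t)).card : ℝ) ≤
        ((R / p + 1 : ℕ) : ℝ) := by exact_mod_cast h3.trans h4
    refine h5.trans ?_
    push_cast
    have h6 : ((R / p : ℕ) : ℝ) ≤ (R : ℝ) / p := Nat.cast_div_le
    linarith

private theorem Row_primes (n : ℕ) (hn : n ≠ 0) (C R : ℕ) (hC : 1 ≤ C) (hnR : n ≤ R)
    (S : Finset ℕ) (hS : ∀ p ∈ S, p ∈ n.primeFactors ∧ R < p ^ C) : S.card ≤ C := by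
  by_contra hcon
  push Not at hcon
  have h1 : ∏ p ∈ S, p ≤ R := by
    have h2 : ∏ p ∈ S, p ∣ n :=
      dvd_trans (Finset.prod_dvd_prod_of_subset S n.primeFactors (fun p => p)
        (fun p hp => (hS p hp).1)) (Nat.prod_primeFactors_dvd n)
    exact (Nat.le_of_dvd (Nat.pos_of_ne_zero hn) h2).trans hnR
  have h3 : (R + 1) ^ S.card ≤ (∏ p ∈ S, p) ^ C := by
    rw [← Finset.prod_pow, ← Finset.prod_const]
    exact Finset.prod_le_prod' (fun p hp => (hS p hp).2)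
  have h4 : (R + 1) ^ S.card ≤ R ^ C := h3.trans (Nat.pow_le_pow_left h1 C)
  have h5 : (R + 1) ^ C ≤ (R + 1) ^ S.card := Nat.pow_le_pow_right (by omega) hcon.le
  have h6 : R ^ C < (R + 1) ^ C := Nat.pow_lt_pow_left (by omega) (by omega)
  omega

private theorem Row_X (f : Fam) (m : ℤ) (R : ℕ) (hm : m ^ 8 ≤ R)
    (hR : 2 * (f.c0 ^ 2 + 1 + |f.c0| * |f.D0|) ≤ (R : ℤ)) : |f.X m| ≤ R := by
  unfold Fam.X
  rw [abs_mul]
  have h1 : |m ^ 2 + f.D0| ≤ m ^ 2 + |f.D0| := by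
    refine (abs_add_le _ _).trans ?_
    rw [abs_of_nonneg (sq_nonneg m)]
  have h2 : |f.c0| * |m ^ 2 + f.D0| ≤ |f.c0| * (m ^ 2 + |f.D0|) :=
    mul_le_mul_of_nonneg_left h1 (abs_nonneg _)
  have h3 : 2 * (|f.c0| * m ^ 2) ≤ f.c0 ^ 2 + m ^ 4 := by
    have h4 : (|f.c0| - m ^ 2) ^ 2 ≥ 0 := sq_nonneg _
    have h5 : |f.c0| ^ 2 = f.c0 ^ 2 := sq_abs _
    nlinarith
  have h6 : 2 * m ^ 4 ≤ 1 + m ^ 8 := by nlinarith [sq_nonneg (m ^ 4 - 1)]
  have h7 : 0 ≤ |f.c0| * |f.D0| := by positivity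
  have h8 : 0 ≤ f.c0 ^ 2 := sq_nonneg _
  have h9 : |f.c0| * (m ^ 2 + |f.D0|) = |f.c0| * m ^ 2 + |f.c0| * |f.D0| := by ring
  linarith

open scoped Classical in
theorem st_row (f : Fam) : ∃ P1 : ℕ, 0 < P1 ∧ ∀ q : ℕ, 0 < q → P1 ∣ q → ∃ C ρ0 : ℕ, 1 ≤ C ∧
    ∀ ρ : ℕ, ρ0 ≤ ρ → ∀ m : ℤ, (q : ℤ) * f.As ∣ m - f.m0 → 0 ≤ m → m ^ 8 ≤ ρ →
      (ρ : ℝ) / Real.log ρ ^ (C + 1) ≤
        (((Finset.range ρ).filter (fun t : ℕ => Gd f q C ρ m (1 + q * |f.As| * t))).card : ℝ) := by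
  obtain ⟨C, T, S0, hC1, hH⟩ := Pool.Agent.H6.Hooley.hooley 2
  have hAs : f.As ≠ 0 := Fam.As_ne_zero
  have hnu : f.nu ≠ 0 := Fam.nu_ne_zero
  refine ⟨T.factorial * f.nu.natAbs * f.As.natAbs * 2, ?_, ?_⟩
  · have h1 := Nat.factorial_pos T
    have h2 : 0 < f.nu.natAbs := Int.natAbs_pos.2 hnu
    have h3 : 0 < f.As.natAbs := Int.natAbs_pos.2 hAs
    positivity
  intro q hq hPq
  have hTq : T.factorial ∣ q := dvd_trans ⟨f.nu.natAbs * f.As.natAbs * 2, by ring⟩ hPq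
  have hnuq : f.nu.natAbs ∣ q := dvd_trans ⟨T.factorial * f.As.natAbs * 2, by ring⟩ hPq
  have hAsq : f.As.natAbs ∣ q := dvd_trans ⟨T.factorial * f.nu.natAbs * 2, by ring⟩ hPq
  obtain ⟨g, hg⟩ : ∃ g : ℤ, g = (q : ℤ) * |f.As| := ⟨_, rfl⟩
  have hg1 : 1 ≤ g := by
    rw [hg]
    have h1 : (1 : ℤ) ≤ q := by exact_mod_cast hq
    have h2 : 1 ≤ |f.As| := Int.one_le_abs hAs
    nlinarith
  -- large `ρ`
  have hev : ∀ᶠ R : ℕ in Filter.atTop, (1 * Real.log R ^ (C * (C + 2)) ≤ √(R : ℝ)) ∧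
      (2 * C + 3 : ℝ) ≤ Real.log R ∧ S0 ≤ R ∧ 1 ≤ R ∧
      (2 * (f.c0 ^ 2 + 1 + |f.c0| * |f.D0|)).toNat ≤ R := by
    refine (Pool.Agent.H6.Hooley.log_ev (C * (C + 2)) 1 one_pos).and
      (Filter.Eventually.and ?_ ((Filter.eventually_ge_atTop S0).and
        ((Filter.eventually_ge_atTop 1).and (Filter.eventually_ge_atTop _))))
    exact (Real.tendsto_log_atTop.comp tendsto_natCast_atTop_atTop).eventually_ge_atTop _
  obtain ⟨ρ0, hρ0⟩ := Filter.eventually_atTop.1 hev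
  refine ⟨C, ρ0, hC1, ?_⟩
  intro ρ hρ m hm hm0 hm8
  obtain ⟨e1, e2, e3, e4, e5⟩ := hρ0 ρ hρ
  have hρR : (1 : ℝ) ≤ ρ := by exact_mod_cast e4
  have hρ0' : (0 : ℝ) < ρ := by linarith
  obtain ⟨L, hL⟩ : ∃ L, L = Real.log ρ := ⟨_, rfl⟩
  rw [← hL] at e1 e2 ⊢
  have hC0 : (1 : ℝ) ≤ C := by exact_mod_cast hC1
  have hL1 : 1 ≤ L := by linarith
  have hL0 : 0 < L := by linarith
  have hLp : L ^ (C * (C + 2)) ≤ ρ := by
    rw [one_mul] at e1
    refine e1.trans ?_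
    rw [Real.sqrt_le_left hρ0'.le]
    nlinarith
  have hLp' : L ^ (C + 2) ≤ ρ := by
    refine le_trans (pow_le_pow_right₀ hL1 ?_) hLp
    nlinarith
  have hXρ : |f.X m| ≤ ρ := by
    apply Row_X f m ρ hm8
    exact Int.toNat_le.1 e5
  -- the values
  let y : ℕ → ℤ := fun t => 1 + g * t
  have hy1 : ∀ t, 1 ≤ y t := by
    intro t
    have : 0 ≤ g * (t : ℤ) := by positivity
    change 1 ≤ 1 + g * (t : ℤ)
    linarith
  have hadm : ∀ t, f.Adm q m (y t) := by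
    intro t
    refine ⟨hm, ?_⟩
    change (q : ℤ) * f.As ∣ 1 + g * (t : ℤ) - 1
    have h1 : 1 + g * (t : ℤ) - 1 = (q : ℤ) * |f.As| * t := by rw [hg]; ring
    rw [h1]
    exact (mul_dvd_mul_left _ ((dvd_abs _ _).2 (dvd_refl _))).mul_right _
  have hqp : ∀ p : ℕ, p.Prime → ¬ p ∣ q → ¬ (p : ℤ) ∣ g ∧ ¬ (p : ℤ) ∣ f.nu ∧ ¬ (p : ℤ) ∣ f.As := by
    intro p hp hpq
    have hpp : Prime (p : ℤ) := Nat.prime_iff_prime_int.1 hp
    have h1 : ¬ (p : ℤ) ∣ f.nu := fun h => hpq ((Int.natCast_dvd.1 h).trans hnuq)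
    have h2 : ¬ (p : ℤ) ∣ f.As := fun h => hpq ((Int.natCast_dvd.1 h).trans hAsq)
    refine ⟨?_, h1, h2⟩
    rw [hg]
    intro h
    rcases hpp.dvd_or_dvd h with h | h
    · exact hpq (Int.natCast_dvd_natCast.1 h)
    · exact h2 ((dvd_abs _ _).1 h)
  obtain ⟨bad, hbad⟩ : ∃ bad : ℕ → ℕ → Prop, ∀ p t, bad p t ↔
      (p.Prime ∧ ¬ p ∣ q ∧ (p : ℤ) ∣ f.nn m (y t)) := ⟨_, fun _ _ => Iff.rfl⟩
  have hper : Pool.Agent.H6.Hooley.Per bad := by
    intro p s
    have h1 : (p : ℤ) ∣ y s - y (s % p) := by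
      change (p : ℤ) ∣ (1 + g * (s : ℤ)) - (1 + g * ((s % p : ℕ) : ℤ))
      have h2 : (1 + g * (s : ℤ)) - (1 + g * ((s % p : ℕ) : ℤ)) =
          g * ((s : ℤ) - ((s % p : ℕ) : ℤ)) := by ring
      rw [h2]
      refine Dvd.dvd.mul_left ?_ g
      push_cast
      exact Int.dvd_self_sub_emod
    have h3 : (p : ℤ) ∣ f.nn m (y (s % p)) ↔ (p : ℤ) ∣ f.nn m (y s) := by
      have h4 : (p : ℤ) ∣ f.nn m (y s) - f.nn m (y (s % p)) := by
        rw [Row_nn_sub]
        exact h1.mul_right _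
      exact ((dvd_iff_dvd_of_dvd_sub h4)).symm
    rw [hbad, hbad, h3]
  have hrho : ∀ p : ℕ, p.Prime → T < p → Pool.Agent.H6.Hooley.rho bad p ≤ 2 := by
    intro p hp _
    unfold Pool.Agent.H6.Hooley.rho
    by_cases hpq : p ∣ q
    · have h1 : (Finset.range p).filter (fun s => bad p s) = ∅ := by
        rw [Finset.filter_eq_empty_iff]
        intro s _ hs
        exact ((hbad p s).1 hs).2.1 hpq
      rw [h1, Finset.card_empty]
      exact Nat.zero_le _
    · obtain ⟨h1, h2, -⟩ := hqp p hp hpq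
      apply Row_rho f g m p hp h1 h2
      intro t ht
      rw [Finset.mem_filter, Finset.mem_range] at ht
      exact ⟨ht.1, ((hbad p t).1 ht.2).2.2⟩
  have hA := hH bad hper hrho ρ e3
  rw [← hL] at hA
  set A := (Finset.range ρ).filter
    (fun s => ∀ p : ℕ, p.Prime → T < p → p ^ C ≤ ρ → ¬ bad p s) with hAdef
  have hprA : ∀ t ∈ A, ∀ p : ℕ, p.Prime → (p : ℤ) ∣ f.Az m (y t) → ρ < p ^ C := by
    intro t ht p hp hpA
    rw [hAdef, Finset.mem_filter] at ht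
    by_contra hcon
    push Not at hcon
    have hpp : Prime (p : ℤ) := Nat.prime_iff_prime_int.1 hp
    have hpq : ¬ p ∣ q := by
      intro h
      have h1 : (p : ℤ) ∣ f.Az m (y t) - 1 :=
        dvd_trans (Int.natCast_dvd_natCast.2 h) (Fam.dvd_Az (hadm t))
      have h2 : (p : ℤ) ∣ 1 := by
        have h3 := dvd_sub hpA h1
        simpa using h3
      exact hpp.not_dvd_one h2
    have hTp : T < p := by
      by_contra h
      push Not at h
      exact hpq (dvd_trans (Nat.dvd_factorial hp.pos h) hTq)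
    apply ht.2 p hp hTp hcon
    rw [hbad]
    refine ⟨hp, hpq, ?_⟩
    rw [← Fam.As_mul_Az (hadm t)]
    exact hpA.mul_left _
  -- the exceptional sets
  set Ba := (Finset.range ρ).filter (fun t : ℕ => (y t : ℝ) * L ^ (C + 2) < ρ) with hBa
  set S := (f.X m).natAbs.primeFactors.filter (fun p => ρ < p ^ C) with hS
  set Bb := S.biUnion (fun p => (Finset.range ρ).filter (fun t : ℕ => (p : ℤ) ∣ 1 + g * t))
    with hBb
  have hsub : A ⊆ ((Finset.range ρ).filter (fun t : ℕ => Gd f q C ρ m (1 + q * |f.As| * t))) ∪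
      (Ba ∪ Bb) := by
    intro t ht
    have htA := ht
    rw [hAdef, Finset.mem_filter] at ht
    have htρ := Finset.mem_range.1 ht.1
    rw [Finset.mem_union, Finset.mem_union]
    by_cases h1 : t ∈ Ba
    · exact Or.inr (Or.inl h1)
    by_cases h2 : t ∈ Bb
    · exact Or.inr (Or.inr h2)
    left
    rw [Finset.mem_filter]
    refine ⟨ht.1, ?_⟩
    have hyt : (1 + (q : ℤ) * |f.As| * (t : ℤ)) = y t := by
      change _ = 1 + g * (t : ℤ)
      rw [hg]
    rw [hyt]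
    refine ⟨hadm t, hm0, hm8, hy1 t, ?_, ?_, ?_, hprA t htA⟩
    · have h3 : (t : ℤ) + 1 ≤ ρ := by exact_mod_cast htρ
      rw [← hg]
      change 1 + g * (t : ℤ) ≤ (g + 1) * (ρ : ℤ)
      have h4 : (1 : ℤ) ≤ ρ := by exact_mod_cast e4
      nlinarith
    · rw [← hL]
      by_contra h3
      push Not at h3
      apply h1
      rw [hBa, Finset.mem_filter]
      exact ⟨ht.1, h3⟩
    · rw [Int.isCoprime_iff_gcd_eq_one]
      by_contra h3
      obtain ⟨p, hp, hpd⟩ := Nat.exists_prime_and_dvd h3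
      have hpp : Prime (p : ℤ) := Nat.prime_iff_prime_int.1 hp
      have hpX : (p : ℤ) ∣ f.X m := by
        have h4 := dvd_trans (Int.natCast_dvd_natCast.2 hpd) (Int.gcd_dvd_left (f.X m) (y t))
        exact h4
      have hpy : (p : ℤ) ∣ y t := by
        have h4 := dvd_trans (Int.natCast_dvd_natCast.2 hpd) (Int.gcd_dvd_right (f.X m) (y t))
        exact h4
      have hpy' : (p : ℤ) ∣ 1 + g * (t : ℤ) := hpy
      have hpg : ¬ (p : ℤ) ∣ g := by
        intro h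
        have h5 := dvd_sub hpy' (h.mul_right (t : ℤ))
        rw [add_sub_cancel_right] at h5
        exact hpp.not_dvd_one h5
      have hpAs : ¬ (p : ℤ) ∣ f.As := by
        intro h
        apply hpg
        rw [hg]
        exact Dvd.dvd.mul_left ((dvd_abs _ _).2 h) _
      have hpn : (p : ℤ) ∣ f.nn m (y t) := by
        unfold Fam.nn
        refine dvd_add (dvd_add ?_ ?_) ?_
        · exact dvd_pow hpX two_ne_zero
        · exact (hpX.mul_left _).mul_right _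
        · exact (dvd_pow hpy two_ne_zero).mul_left _
      rw [← Fam.As_mul_Az (hadm t)] at hpn
      have hpA := (hpp.dvd_or_dvd hpn).resolve_left hpAs
      have hpC := hprA t htA p hp hpA
      apply h2
      rw [hBb, Finset.mem_biUnion]
      refine ⟨p, ?_, ?_⟩
      · rw [hS, Finset.mem_filter]
        refine ⟨?_, hpC⟩
        rw [Nat.mem_primeFactors]
        exact ⟨hp, Int.natCast_dvd.1 hpX, Int.natAbs_ne_zero.2 (Fam.X_ne_zero m)⟩
      · rw [Finset.mem_filter]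
        exact ⟨ht.1, hpy'⟩
  obtain ⟨W, hW⟩ : ∃ W : ℝ, W = (ρ : ℝ) / L ^ (C + 2) := ⟨_, rfl⟩
  have hLC : 0 < L ^ (C + 2) := by positivity
  have hcBa : (Ba.card : ℝ) ≤ W + 1 := by
    have h1 : Ba ⊆ Finset.range ⌈W⌉₊ := by
      intro t ht
      rw [hBa, Finset.mem_filter] at ht
      rw [Finset.mem_range, Nat.lt_ceil, hW, lt_div_iff₀ hLC]
      refine lt_of_le_of_lt ?_ ht.2
      apply mul_le_mul_of_nonneg_right _ hLC.le
      have h2 : (t : ℤ) ≤ y t := by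
        change (t : ℤ) ≤ 1 + g * (t : ℤ)
        have h3 : (0 : ℤ) ≤ t := Nat.cast_nonneg t
        nlinarith
      have h3 : ((t : ℤ) : ℝ) ≤ ((y t : ℤ) : ℝ) := Int.cast_le.2 h2
      rwa [Int.cast_natCast] at h3
    have h2 := Finset.card_le_card h1
    rw [Finset.card_range] at h2
    have h3 : (Ba.card : ℝ) ≤ (⌈W⌉₊ : ℝ) := by exact_mod_cast h2
    have hW0 : 0 ≤ W := by rw [hW]; positivity
    exact h3.trans (Nat.ceil_lt_add_one hW0).le
  have hScard : S.card ≤ C := by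
    have hn : (f.X m).natAbs ≠ 0 := Int.natAbs_ne_zero.2 (Fam.X_ne_zero m)
    apply Row_primes (f.X m).natAbs hn C ρ hC1 _ S
    · intro p hp
      rw [hS, Finset.mem_filter] at hp
      exact hp
    · have h1 : ((f.X m).natAbs : ℤ) ≤ (ρ : ℤ) := by
        rw [Int.natCast_natAbs]
        exact hXρ
      exact_mod_cast h1
  have hcBb : (Bb.card : ℝ) ≤ C * (W + 1) := by
    have hW0 : 0 ≤ W := by rw [hW]; positivity
    have h1 : (Bb.card : ℝ) ≤ ∑ p ∈ S,
        (((Finset.range ρ).filter (fun t : ℕ => (p : ℤ) ∣ 1 + g * t)).card : ℝ) := by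
      exact_mod_cast Finset.card_biUnion_le
    refine h1.trans ?_
    have h2 : ∀ p ∈ S, (((Finset.range ρ).filter
        (fun t : ℕ => (p : ℤ) ∣ 1 + g * t)).card : ℝ) ≤ W + 1 := by
      intro p hp
      rw [hS, Finset.mem_filter] at hp
      have hpp : p.Prime := Nat.prime_of_mem_primeFactors hp.1
      have hp0 : (0 : ℝ) < p := by exact_mod_cast hpp.pos
      apply Row_prog g p hpp ρ W
      rw [hW]
      apply div_le_div_of_nonneg_left hρ0'.le hLC
      have h3 : (ρ : ℝ) < (p : ℝ) ^ C := by exact_mod_cast hp.2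
      by_contra hcon
      push Not at hcon
      have h4 : (p : ℝ) ^ C ≤ (L ^ (C + 2)) ^ C := pow_le_pow_left₀ hp0.le hcon.le C
      have h5 : (L ^ (C + 2)) ^ C = L ^ (C * (C + 2)) := by
        rw [← pow_mul, mul_comm]
      rw [h5] at h4
      linarith
    refine (Finset.sum_le_sum h2).trans ?_
    rw [Finset.sum_const, nsmul_eq_mul]
    apply mul_le_mul_of_nonneg_right _ (by linarith)
    exact_mod_cast hScard
  have hcard : (A.card : ℝ) ≤
      (((Finset.range ρ).filter (fun t : ℕ => Gd f q C ρ m (1 + q * |f.As| * t))).card : ℝ) +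
        ((Ba.card : ℝ) + Bb.card) := by
    have h1 := (Finset.card_le_card hsub).trans (Finset.card_union_le _ _)
    have h2 := Finset.card_union_le Ba Bb
    have h3 : A.card ≤ ((Finset.range ρ).filter
      (fun t : ℕ => Gd f q C ρ m (1 + q * |f.As| * t))).card + (Ba.card + Bb.card) := by
      omega
    exact_mod_cast h3
  -- the final inequality
  have hfin : (ρ : ℝ) / L ^ (C + 1) + (C + 1) * (W + 1) ≤ ρ / L ^ C := by
    have h1 : (ρ : ℝ) / L ^ (C + 1) = W * L := by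
      rw [hW, pow_succ L (C + 1)]
      field_simp
    have h2 : (ρ : ℝ) / L ^ C = W * L ^ 2 := by
      rw [hW, pow_add]
      field_simp
    have hW1 : 1 ≤ W := by
      rw [hW, le_div_iff₀ hLC, one_mul]
      exact hLp'
    rw [h1, h2]
    have h3 : (C + 1 : ℝ) * (W + 1) ≤ (2 * C + 2) * W := by nlinarith
    have h4 : (2 * C + 2 : ℝ) ≤ L ^ 2 - L := by nlinarith
    have h5 : (2 * C + 2 : ℝ) * W ≤ (L ^ 2 - L) * W := mul_le_mul_of_nonneg_right h4 (by linarith)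
    nlinarith
  have hA' : (ρ : ℝ) / L ^ C ≤ (A.card : ℝ) := by exact_mod_cast hA
  have h9 : (C + 1 : ℝ) * (W + 1) = (W + 1) + C * (W + 1) := by ring
  linarith

end Pool.Agent.BQF
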