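import Pool.Agent.BQF.Fm

set_option autoImplicit false

/-!
# A first family of near invariant unipotent matrices (no control of the cost)

PROOF. Put `N = c.N`, `z1 = (1, N)`, `z2 = (1 + N, N)`; both are congruent to `(1, 0)` modulo `N`
and non zero, so `b_i = mB c z_i = (p_i, β_i; 0, q_i)` (`mB_eq`, `p_i = n1 c z_i`,
`q_i = n2 c z_i`, both non zero and `= 1 mod N` by `n1_cg`, `n2_cg`) is near invariant
(`NI_mB` with `ρ = 1 + N`). By `ring` (all entries explicit)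
`(b1 b2) adj (b2 b1) = sm (p1 p2) (mU (q1 q2) (KK c * N ^ 4))`
(in general the entry is `KK * s1 * s2 * (r2 s1 - r1 s2)` for `z_i = (r_i, s_i)`; here
`s1 = s2 = N`, `r2 - r1 = N`). By `NI_mul`, `NI_adj`, `NI_sm` (scalar `p1 p2 = 1 mod N`) the matrix
`mU q a`, `q = q1 q2 ≠ 0`, `a = KK N ^ 4 ≠ 0` (`KK_ne_zero`) is near invariant for some `H`.
Its `k`-th power is `mU (q ^ k) (k q ^ (k-1) a)` (`mU_mul`, induction); for `k = q.natAbs` this is
`sm (q ^ k) (mU 1 (± a))`, and `q ^ k = 1 mod N`, so `mU 1 (± a)`, hence (`NI_adj`, `mU_adj`) both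
`mU 1 a`, `mU 1 (-a)` are near invariant; products give `mU 1 (a n)` for all integers `n`
(`n = 0`: the identity is `mK1 c (1, 0)`, or `mU a * mU (-a)`). Take `g = |a|`.
-/

namespace Pool.Agent.BQF

theorem mU_congr {d a d' a' : ℤ} (h : d = d') (h' : a = a') : mU d a = mU d' a' := by
  rw [h, h']

/-- powers of a near invariant unipotent matrix -/
theorem seed_pow {c : Cfg} {q a : ℤ} {H : ℕ} (h : NI c (mU q a) H) (k : ℕ) :
    ∃ H' : ℕ, NI c (mU (q ^ (k + 1)) (((k : ℤ) + 1) * q ^ k * a)) H' := by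
  induction k with
  | zero =>
    refine ⟨H, ?_⟩
    have e : mU (q ^ (0 + 1)) ((((0 : ℕ) : ℤ) + 1) * q ^ 0 * a) = mU q a :=
      mU_congr (by ring) (by push_cast; ring)
    rw [e]; exact h
  | succ k ih =>
    obtain ⟨H', hH'⟩ := ih
    have h2 := NI_mul hH' h
    rw [mU_mul] at h2
    have e : mU (q ^ (k + 1 + 1)) ((((k + 1 : ℕ) : ℤ) + 1) * q ^ (k + 1) * a) =
        mU (q ^ (k + 1) * q) (q ^ (k + 1) * a + ((k : ℤ) + 1) * q ^ k * a * q) :=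
        mU_congr (by ring) (by push_cast; ring)
    rw [← e] at h2
    exact ⟨_, h2⟩

theorem cg_pow {N q : ℤ} (h : N ∣ q - 1) (k : ℕ) : N ∣ q ^ k - 1 := by
  have := sub_dvd_pow_sub_pow q 1 k
  rw [one_pow] at this
  exact h.trans this

/-- the two basic matrices commute up to a unipotent one -/
theorem seed_id (c : Cfg) :
    ((mB c (1, c.N)).mul (mB c (1 + c.N, c.N))).mul
      ((mB c (1 + c.N, c.N)).mul (mB c (1, c.N))).adj =
      M2.sm (n1 c (1, c.N) * n1 c (1 + c.N, c.N))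
        (mU (n2 c (1, c.N) * n2 c (1 + c.N, c.N)) (KK c * c.N ^ 4)) := by
  rw [mB_eq, mB_eq]
  simp only [M2.mul, M2.adj, M2.sm, mU, n1, n2, beta, KK]
  ext <;> dsimp only <;> ring

/-- the products of a unipotent matrix with itself -/
theorem seed_nat {c : Cfg} {a : ℤ} {H H1 : ℕ} (h : NI c (mU 1 a) H) (h0 : NI c (mU 1 0) H1)
    (n : ℕ) : ∃ H' : ℕ, NI c (mU 1 (a * n)) H' := by
  induction n with
  | zero =>
    refine ⟨H1, ?_⟩
    have e : mU 1 (a * ((0 : ℕ) : ℤ)) = mU 1 0 := mU_congr rfl (by simp)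
    rw [e]; exact h0
  | succ n ih =>
    obtain ⟨H', hH'⟩ := ih
    have h2 := NI_mul hH' h
    rw [mU_mul] at h2
    have e : mU 1 (a * ((n + 1 : ℕ) : ℤ)) = mU (1 * 1) (1 * a + a * (n : ℤ) * 1) :=
        mU_congr (by ring) (by push_cast; ring)
    rw [← e] at h2
    exact ⟨_, h2⟩

theorem st_seed (c : Cfg) : ∃ g : ℤ, 0 < g ∧ ∀ n : ℤ, ∃ H : ℕ, NI c (mU 1 (g * n)) H := by
  have hN := c.hN
  -- the two vectors
  have z1 : ((1, c.N) : ℤ × ℤ) ≠ 0 := by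
    intro h; rw [Prod.ext_iff] at h; exact absurd h.1 (by simp)
  have z2 : ((1 + c.N, c.N) : ℤ × ℤ) ≠ 0 := by
    intro h; rw [Prod.ext_iff] at h
    have := h.2
    simp only [Prod.snd_zero] at this
    omega
  have a1 : c.N ∣ ((1, c.N) : ℤ × ℤ).1 - 1 := by simp
  have a2 : c.N ∣ ((1, c.N) : ℤ × ℤ).2 := dvd_refl _
  have a3 : c.N ∣ ((1 + c.N, c.N) : ℤ × ℤ).1 - 1 := by simp
  have a4 : c.N ∣ ((1 + c.N, c.N) : ℤ × ℤ).2 := dvd_refl _
  obtain ⟨ρ, hρ⟩ : ∃ ρ : ℕ, (ρ : ℤ) = 1 + c.N := ⟨(1 + c.N).toNat, Int.toNat_of_nonneg (by omega)⟩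
  have hρ1 : 1 ≤ ρ := by
    have : (1 : ℤ) ≤ ρ := by omega
    exact_mod_cast this
  have b1 : NI c (mB c (1, c.N)) (2 * (cK c * (cK c * ρ)) * (cK c * ρ)) := by
    apply NI_mB z1 a1 a2 hρ1
    · simp only; rw [abs_of_nonneg (by norm_num)]; omega
    · simp only; rw [abs_of_nonneg (by omega)]; omega
  have b2 : NI c (mB c (1 + c.N, c.N)) (2 * (cK c * (cK c * ρ)) * (cK c * ρ)) := by
    apply NI_mB z2 a3 a4 hρ1
    · simp only; rw [abs_of_nonneg (by omega)]; omega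
    · simp only; rw [abs_of_nonneg (by omega)]; omega
  have h1 := NI_mul (NI_mul b1 b2) (NI_adj (NI_mul b2 b1))
  rw [seed_id c] at h1
  have p0 : n1 c (1, c.N) * n1 c (1 + c.N, c.N) ≠ 0 :=
    mul_ne_zero (n1_ne_zero z1) (n1_ne_zero z2)
  have mulcg : ∀ x y : ℤ, c.N ∣ x - 1 → c.N ∣ y - 1 → c.N ∣ x * y - 1 := by
    intro x y hx hy
    have : x * y - 1 = x * (y - 1) + (x - 1) := by ring
    rw [this]; exact dvd_add (hy.mul_left _) hx
  have pcg : c.N ∣ n1 c (1, c.N) * n1 c (1 + c.N, c.N) - 1 :=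
    mulcg _ _ (n1_cg a1 a2) (n1_cg a3 a4)
  have h2 := NI_sm h1 p0 pcg
  have q0 : n2 c (1, c.N) * n2 c (1 + c.N, c.N) ≠ 0 :=
    mul_ne_zero (n2_ne_zero z1) (n2_ne_zero z2)
  have qcg : c.N ∣ n2 c (1, c.N) * n2 c (1 + c.N, c.N) - 1 :=
    mulcg _ _ (n2_cg a1 a2) (n2_cg a3 a4)
  obtain ⟨q, hq⟩ : ∃ q, q = n2 c (1, c.N) * n2 c (1 + c.N, c.N) := ⟨_, rfl⟩
  rw [← hq] at h2 q0 qcg
  obtain ⟨a, ha⟩ : ∃ a, a = KK c * c.N ^ 4 := ⟨_, rfl⟩
  have ha0 : a ≠ 0 := by rw [ha]; exact mul_ne_zero KK_ne_zero (pow_ne_zero 4 hN.ne')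
  rw [← ha] at h2
  -- the power
  obtain ⟨k, hk⟩ : ∃ k : ℕ, q.natAbs = k + 1 :=
    ⟨q.natAbs - 1, by have := Int.natAbs_pos.2 q0; omega⟩
  obtain ⟨H3, h3⟩ := seed_pow h2 k
  have hk' : ((k : ℤ) + 1) = |q| := by
    rw [Int.abs_eq_natAbs, hk]; push_cast; ring
  have key : ∃ s : ℤ, (s = 1 ∨ s = -1) ∧ ((k : ℤ) + 1) = s * q := by
    rcases abs_choice q with h | h
    · exact ⟨1, Or.inl rfl, by rw [hk', h]; ring⟩
    · exact ⟨-1, Or.inr rfl, by rw [hk', h]; ring⟩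
  obtain ⟨s, hs, hsq⟩ := key
  have e3 : mU (q ^ (k + 1)) (((k : ℤ) + 1) * q ^ k * a) = M2.sm (q ^ (k + 1)) (mU 1 (s * a)) := by
    rw [mU_sm]
    exact mU_congr (by ring) (by rw [hsq]; ring)
  rw [e3] at h3
  have h4 := NI_sm h3 (pow_ne_zero _ q0) (cg_pow qcg _)
  have h5 := NI_adj h4
  rw [mU_adj] at h5
  -- both signs
  have pos : ∃ H : ℕ, NI c (mU 1 |a|) H := by
    rcases abs_choice a with h | h
    · rcases hs with hs | hs
      · have e : mU 1 |a| = mU 1 (s * a) := mU_congr rfl (by rw [h, hs]; ring)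
        rw [← e] at h4
        exact ⟨_, h4⟩
      · have e : mU 1 |a| = mU 1 (-(s * a)) := mU_congr rfl (by rw [h, hs]; ring)
        rw [← e] at h5
        exact ⟨_, h5⟩
    · rcases hs with hs | hs
      · have e : mU 1 |a| = mU 1 (-(s * a)) := mU_congr rfl (by rw [h, hs]; ring)
        rw [← e] at h5
        exact ⟨_, h5⟩
      · have e : mU 1 |a| = mU 1 (s * a) := mU_congr rfl (by rw [h, hs]; ring)
        rw [← e] at h4
        exact ⟨_, h4⟩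
  obtain ⟨H6, h6⟩ := pos
  have h7 := NI_adj h6
  rw [mU_adj] at h7
  have h8 := NI_mul h6 h7
  rw [mU_mul] at h8
  have e8 : mU (1 * 1) (1 * -|a| + |a| * 1) = mU 1 0 := mU_congr (by ring) (by ring)
  rw [e8] at h8
  refine ⟨|a|, abs_pos.2 ha0, ?_⟩
  intro n
  rcases Int.eq_nat_or_neg n with ⟨m, hm | hm⟩
  · obtain ⟨H', h'⟩ := seed_nat h6 h8 m
    refine ⟨H', ?_⟩
    rw [hm]; exact h'
  · obtain ⟨H', h'⟩ := seed_nat h7 h8 m
    refine ⟨H', ?_⟩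
    have e : mU 1 (|a| * n) = mU 1 (-|a| * (m : ℤ)) := mU_congr rfl (by rw [hm]; ring)
    rw [e]; exact h'

end Pool.Agent.BQF
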