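import Pool.Agent.BQF.Defs

set_option autoImplicit false

/-!
# Sets of pairs `(m, y)` for the sieve
-/

namespace Pool.Agent.BQF

/-- the pairs produced by the sieve with parameters `q, C, ρ` -/
structure Gd (f : Fam) (q C ρ : ℕ) (m y : ℤ) : Prop where
  adm : f.Adm q m y
  m0 : 0 ≤ m
  m8 : m ^ 8 ≤ ρ
  y1 : 1 ≤ y
  y2 : y ≤ (q * |f.As| + 1) * ρ
  y3 : (ρ : ℝ) ≤ y * Real.log ρ ^ (C + 2)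
  cop : IsCoprime (f.X m) y
  pr : ∀ p : ℕ, p.Prime → (p : ℤ) ∣ f.Az m y → ρ < p ^ C

/-- the properties of the final sets -/
structure ZSet (f : Fam) (q Λ C1 ρ : ℕ) (Z : Finset (ℤ × ℤ)) : Prop where
  adm : ∀ z ∈ Z, f.Adm q z.1 z.2
  bm : ∀ z ∈ Z, |z.1| ≤ ρ
  by' : ∀ z ∈ Z, |z.2| ≤ C1 * ρ
  pr : ∀ z ∈ Z, ∀ p : ℕ, p.Prime → (p : ℤ) ∣ f.Az z.1 z.2 → ρ < p ^ Λ
  sz : ∀ z ∈ Z, (f.Az z.1 z.2).natAbs ≤ C1 * ρ ^ 2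
  om : ∀ z ∈ Z, ArithmeticFunction.cardFactors (f.Az z.1 z.2).natAbs ≤ Λ
  sg : ∃ σ : ℤ, (σ = 1 ∨ σ = -1) ∧ ∀ z ∈ Z, 0 < σ * f.Az z.1 z.2
  fb : ∀ b : ℕ, (Z.filter (fun z => (f.Az z.1 z.2).natAbs = b)).card ≤ 2 ^ Λ
  cd : ρ ^ 11 ≤ Z.card ^ 10

end Pool.Agent.BQF
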